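import Mathlib

/-!
# Smooth projective varieties over a field, their products, and algebraic cycles on them
-/

universe u

open CategoryTheory Limits AlgebraicGeometry

namespace Pool.Agent.Helper10

attribute [local instance] MvPolynomial.gradedAlgebra

/-- Projective `n`-space over a field `k`, as a `k`-scheme: `Proj k[x_0, …, x_n]`. -/
noncomputable def projSpace (k : Type u) [Field k] (n : ℕ) : Over (Spec (CommRingCat.of k)) :=
  Over.mk (Proj.toSpecZero (MvPolynomial.homogeneousSubmodule (Fin (n + 1)) k) ≫
    Spec.map (CommRingCat.ofHom
      (algebraMap k (MvPolynomial.homogeneousSubmodule (Fin (n + 1)) k 0))))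

/-- The fibre product over `k` of two `k`-schemes. -/
noncomputable def prodOver {k : Type u} [Field k] (X Y : Over (Spec (CommRingCat.of k))) :
    Over (Spec (CommRingCat.of k)) :=
  Over.mk (pullback.fst X.hom Y.hom ≫ X.hom)

/-- Projective `k`-schemes: the closed subschemes of finite products of projective spaces over `k`
(by the Segre embedding these are exactly the closed subschemes of projective spaces). -/
inductive IsProjectiveOver (k : Type u) [Field k] : Over (Spec (CommRingCat.of k)) → Prop
  | projSpace (n : ℕ) : IsProjectiveOver k (projSpace k n)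
  | prod {X Y : Over (Spec (CommRingCat.of k))} :
      IsProjectiveOver k X → IsProjectiveOver k Y → IsProjectiveOver k (prodOver X Y)
  | closed {X Y : Over (Spec (CommRingCat.of k))} (i : X ⟶ Y) :
      IsClosedImmersion i.left → IsProjectiveOver k Y → IsProjectiveOver k X

section Proper

variable (k : Type u) [Field k] (n : ℕ)

instance isScalarTower_zero :
    IsScalarTower k (MvPolynomial.homogeneousSubmodule (Fin (n + 1)) k 0)
      (MvPolynomial (Fin (n + 1)) k) :=
  IsScalarTower.of_algebraMap_eq (R := k)
    (S := MvPolynomial.homogeneousSubmodule (Fin (n + 1)) k 0)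
    (A := MvPolynomial (Fin (n + 1)) k) (fun _ => rfl)

instance finiteType_zero :
    Algebra.FiniteType (MvPolynomial.homogeneousSubmodule (Fin (n + 1)) k 0)
      (MvPolynomial (Fin (n + 1)) k) :=
  Algebra.FiniteType.of_restrictScalars_finiteType k _ _

lemma algebraMap_zero_bijective :
    Function.Bijective
      (algebraMap k (MvPolynomial.homogeneousSubmodule (Fin (n + 1)) k 0)) := by
  constructor
  · intro a b hab
    exact MvPolynomial.C_injective _ _ (congrArg Subtype.val hab)
  · rintro ⟨x, hx⟩
    rw [MvPolynomial.mem_homogeneousSubmodule] at hx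
    have := hx.totalDegree_le
    obtain ⟨c, hc⟩ : ∃ c, x = MvPolynomial.C c :=
      ⟨_, (MvPolynomial.totalDegree_eq_zero_iff_eq_C.mp (by omega))⟩
    exact ⟨c, Subtype.ext hc.symm⟩

instance isIso_zero : IsIso (Spec.map (CommRingCat.ofHom
      (algebraMap k (MvPolynomial.homogeneousSubmodule (Fin (n + 1)) k 0)))) := by
  have : IsIso (CommRingCat.ofHom
      (algebraMap k (MvPolynomial.homogeneousSubmodule (Fin (n + 1)) k 0))) := by
    rw [ConcreteCategory.isIso_iff_bijective]
    exact algebraMap_zero_bijective k n
  infer_instance

instance isProper_projSpace : IsProper (projSpace k n).hom := by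
  unfold projSpace
  dsimp
  infer_instance

end Proper

lemma IsProjectiveOver.isProper {k : Type u} [Field k] {X : Over (Spec (CommRingCat.of k))}
    (h : IsProjectiveOver k X) : IsProper X.hom := by
  induction h with
  | projSpace n => infer_instance
  | prod hX hY ihX ihY =>
    unfold prodOver
    dsimp
    infer_instance
  | closed i hi hY ihY =>
    rw [← Over.w i]
    infer_instance

lemma geometricallyIntegral_comp {X Y Z : Scheme.{u}} (f : X ⟶ Y) (g : Y ⟶ Z)
    [GeometricallyIntegral f] [GeometricallyIntegral g]
    [Flat f] [UniversallyOpen f] [LocallyOfFiniteType g] : GeometricallyIntegral (f ≫ g) := by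
  refine ⟨fun K _ x W a b h ↦ ?_⟩
  have h1 : AlgebraicGeometry.IsIntegral (pullback g x) :=
    GeometricallyIntegral.geometrically_isIntegral _ _ _ (.of_hasPullback _ _)
  have h2 : IsLocallyNoetherian (pullback g x) :=
    LocallyOfFiniteType.isLocallyNoetherian (pullback.snd g x)
  have h3 : AlgebraicGeometry.IsIntegral (pullback f (pullback.fst g x)) := inferInstance
  let e : W ≅ pullback f (pullback.fst g x) :=
    h.isoPullback ≪≫ (pullbackRightPullbackFstIso g x f).symm
  have : Nonempty W := ⟨e.inv (Nonempty.some inferInstance)⟩
  exact isIntegral_of_isOpenImmersion e.hom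

/-- A smooth projective variety over `k` (a smooth, projective and geometrically integral
`k`-scheme), with its dimension. -/
structure SmProjVar (k : Type u) [Field k] where
  /-- the underlying `k`-scheme -/
  toOver : Over (Spec (CommRingCat.of k))
  /-- its dimension -/
  dim : ℕ
  smooth : SmoothOfRelativeDimension dim toOver.hom
  geomIntegral : GeometricallyIntegral toOver.hom
  projective : IsProjectiveOver k toOver

namespace SmProjVar

variable {k : Type u} [Field k]

instance (X : SmProjVar k) : SmoothOfRelativeDimension X.dim X.toOver.hom := X.smooth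

instance (X : SmProjVar k) : GeometricallyIntegral X.toOver.hom := X.geomIntegral

instance (X : SmProjVar k) : Smooth X.toOver.hom :=
  SmoothOfRelativeDimension.smooth X.dim _

instance (X : SmProjVar k) : IsProper X.toOver.hom := X.projective.isProper

instance (X : SmProjVar k) : IsIntegral X.toOver.left :=
  GeometricallyIntegral.isIntegral_of_subsingleton X.toOver.hom

instance {X Y : SmProjVar k} (f : X.toOver ⟶ Y.toOver) : IsProper f.left := by
  have h : IsProper (f.left ≫ Y.toOver.hom) := by
    rw [Over.w f]; infer_instance
  exact MorphismProperty.of_postcomp (W := @IsProper) (W' := @IsSeparated) f.left Y.toOver.hom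
    inferInstance h

/-- The product `X ×ₖ Y` of two smooth projective varieties. -/
noncomputable def prod (X Y : SmProjVar k) : SmProjVar k where
  toOver := prodOver X.toOver Y.toOver
  dim := Y.dim + X.dim
  smooth := by
    have : SmoothOfRelativeDimension Y.dim (pullback.fst X.toOver.hom Y.toOver.hom) :=
      (smoothOfRelativeDimension_isStableUnderBaseChange Y.dim).of_isPullback
        (IsPullback.of_hasPullback X.toOver.hom Y.toOver.hom).flip Y.smooth
    exact smoothOfRelativeDimension_comp Y.dim X.dim
      (pullback.fst X.toOver.hom Y.toOver.hom) X.toOver.hom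
  geomIntegral := by
    have : GeometricallyIntegral (pullback.fst X.toOver.hom Y.toOver.hom) :=
      MorphismProperty.of_isPullback (P := @GeometricallyIntegral)
        (IsPullback.of_hasPullback X.toOver.hom Y.toOver.hom).flip Y.geomIntegral
    exact geometricallyIntegral_comp (pullback.fst X.toOver.hom Y.toOver.hom) X.toOver.hom
  projective := .prod X.projective Y.projective

/-- First projection `X ×ₖ Y ⟶ X`. -/
noncomputable def fst (X Y : SmProjVar k) : (X.prod Y).toOver ⟶ X.toOver :=
  Over.homMk (pullback.fst X.toOver.hom Y.toOver.hom)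

/-- Second projection `X ×ₖ Y ⟶ Y`. -/
noncomputable def snd (X Y : SmProjVar k) : (X.prod Y).toOver ⟶ Y.toOver :=
  Over.homMk (pullback.snd X.toOver.hom Y.toOver.hom)
    (pullback.condition (f := X.toOver.hom) (g := Y.toOver.hom)).symm

/-- The morphism `(f, g) : Z ⟶ X ×ₖ Y`. -/
noncomputable def lift {X Y Z : SmProjVar k} (f : Z.toOver ⟶ X.toOver) (g : Z.toOver ⟶ Y.toOver) :
    Z.toOver ⟶ (X.prod Y).toOver :=
  Over.homMk (pullback.lift f.left g.left (by rw [Over.w f, Over.w g]))
    (by
      change pullback.lift _ _ _ ≫ pullback.fst _ _ ≫ X.toOver.hom = _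
      rw [pullback.lift_fst_assoc, Over.w f])

@[simp, reassoc]
lemma lift_fst {X Y Z : SmProjVar k} (f : Z.toOver ⟶ X.toOver) (g : Z.toOver ⟶ Y.toOver) :
    lift f g ≫ fst X Y = f := by
  ext1
  exact pullback.lift_fst _ _ _

@[simp, reassoc]
lemma lift_snd {X Y Z : SmProjVar k} (f : Z.toOver ⟶ X.toOver) (g : Z.toOver ⟶ Y.toOver) :
    lift f g ≫ snd X Y = g := by
  ext1
  exact pullback.lift_snd _ _ _

lemma hom_ext {X Y Z : SmProjVar k} {f g : Z.toOver ⟶ (X.prod Y).toOver}
    (h₁ : f ≫ fst X Y = g ≫ fst X Y) (h₂ : f ≫ snd X Y = g ≫ snd X Y) : f = g := by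
  ext1
  apply pullback.hom_ext
  · exact congrArg CommaMorphism.left h₁
  · exact congrArg CommaMorphism.left h₂

/-- The set of points of the scheme `X`. -/
def Pt (X : SmProjVar k) : Type u := X.toOver.left

/-- The dimension of the integral subvariety with generic point `x`: the transcendence degree over
`k` of the residue field at `x`. -/
noncomputable def pointDim (X : SmProjVar k) (x : X.Pt) : ℕ :=
  letI : Algebra k (X.toOver.left.residueField x) :=
    (Spec.preimage (X.toOver.left.fromSpecResidueField x ≫ X.toOver.hom)).hom.toAlgebra
  Cardinal.toNat (Algebra.trdeg k (X.toOver.left.residueField x))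

/-- The generic point of `X`. -/
noncomputable def genericPt (X : SmProjVar k) : X.Pt := genericPoint X.toOver.left

/-- The degree over `k` of the residue field at the point `x` (`0` if it is infinite). -/
noncomputable def residueDeg (X : SmProjVar k) (x : X.Pt) : ℕ := X.toOver.hom.residueDegree x

/-- Algebraic cycles on `X`: integral linear combinations of integral closed subvarieties, which
are given by their generic points (Mathlib's `AlgebraicCycle`). -/
def Cyc (X : SmProjVar k) : Type u := AlgebraicCycle X.toOver.left ℤ

/-- The coefficient of an algebraic cycle at (the subvariety with generic point) `x`. -/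
noncomputable def Cyc.coeff {X : SmProjVar k} (c : X.Cyc) (x : X.Pt) : ℤ :=
  DFunLike.coe (F := Function.locallyFinsupp X.toOver.left ℤ) c x

/-- The push-forward `f_* c` of an algebraic cycle `c` along a morphism `f : X ⟶ Y` of smooth
projective varieties (Mathlib's push-forward, with `pointDim` as dimension function). -/
noncomputable def pushCycle {X Y : SmProjVar k} (f : X.toOver ⟶ Y.toOver) (c : X.Cyc) : Y.Cyc :=
  AlgebraicCycle.map f.left X.pointDim Y.pointDim c

open Classical in
/-- The cycle `[x]` of the integral closed subvariety with generic point `x`. -/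
noncomputable def pointCycle (X : SmProjVar k) (x : X.Pt) : X.Cyc :=
  Function.locallyFinsuppWithin.single (X := X.toOver.left) (Y := ℤ) x 1

/-- `Z^j(X)`: the algebraic cycles of codimension `j` on `X`, i.e. all subvarieties which occur in
the cycle have dimension `dim X - j`. -/
def Z (X : SmProjVar k) (j : ℕ) : Type u :=
  {c : X.Cyc // ∀ x, c.coeff x ≠ 0 → X.pointDim x + j = X.dim}

/-- The underlying cycle of an element of `Z^j(X)`. -/
def Z.toCyc {X : SmProjVar k} {j : ℕ} (c : X.Z j) : X.Cyc := c.1

end SmProjVar

end Pool.Agent.Helper10
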