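import Mathlib
import Pool.Agent.Helper10.SmProj

/-!
# The linear algebra of self-dual splittings of cohomology under algebraic correspondences
-/

universe u v w t

open CategoryTheory

namespace Pool.Agent.Helper10

open SmProjVar

/-- Auxiliary structure for the proofs: what remains of a Weil cohomology theory with coefficients
in `K` after extending scalars to an extension `Ω` of `K` (with the semilinear action of the
automorphisms of `Ω` over `K`), and forgetting the `ℤ`-grading. -/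
structure SPre (k : Type u) [Field k] (K : Type t) [Field K] (Ω : Type v) [Field Ω]
    [Algebra K Ω] where
  H : SmProjVar k → Type w
  [ring : ∀ X, Ring (H X)]
  [algebra : ∀ X, Algebra Ω (H X)]
  fin : ∀ X, Module.Finite Ω (H X)
  ev : ∀ X, Submodule Ω (H X)
  od : ∀ X, Submodule Ω (H X)
  ev_sup_od : ∀ X, ev X ⊔ od X = ⊤
  ev_inf_od : ∀ X, Disjoint (ev X) (od X)
  ev_comm : ∀ X (x y : H X), x ∈ ev X → x * y = y * x
  od_anti : ∀ X (x y : H X), x ∈ od X → y ∈ od X → x * y = - (y * x)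
  ev_mul_ev : ∀ X (x y : H X), x ∈ ev X → y ∈ ev X → x * y ∈ ev X
  ev_mul_od : ∀ X (x y : H X), x ∈ ev X → y ∈ od X → x * y ∈ od X
  od_mul_od : ∀ X (x y : H X), x ∈ od X → y ∈ od X → x * y ∈ ev X
  pull : ∀ {X Y : SmProjVar k}, (X.toOver ⟶ Y.toOver) → (H Y →ₐ[Ω] H X)
  pull_id : ∀ X : SmProjVar k, pull (𝟙 X.toOver) = AlgHom.id Ω (H X)
  pull_comp : ∀ {X Y Z : SmProjVar k} (f : X.toOver ⟶ Y.toOver) (g : Y.toOver ⟶ Z.toOver),
    pull (f ≫ g) = (pull f).comp (pull g)
  pull_ev : ∀ {X Y : SmProjVar k} (f : X.toOver ⟶ Y.toOver) (x : H Y),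
    x ∈ ev Y → pull f x ∈ ev X
  pull_od : ∀ {X Y : SmProjVar k} (f : X.toOver ⟶ Y.toOver) (x : H Y),
    x ∈ od Y → pull f x ∈ od X
  s : (Ω ≃ₐ[K] Ω) → ∀ X, H X ≃+* H X
  s_smul : ∀ σ X (a : Ω) (x : H X), s σ X (a • x) = σ a • s σ X x
  s_pull : ∀ σ {X Y : SmProjVar k} (f : X.toOver ⟶ Y.toOver) (x : H Y),
    s σ X (pull f x) = pull f (s σ Y x)
  s_ev : ∀ σ X (x : H X), x ∈ ev X → s σ X x ∈ ev X
  s_od : ∀ σ X (x : H X), x ∈ od X → s σ X x ∈ od X
  tr : ∀ X, H X →ₗ[Ω] Ω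
  tr_od : ∀ X (x : H X), x ∈ od X → tr X x = 0
  tr_s : ∀ σ X (x : H X), tr X (s σ X x) = σ (tr X x)
  nondeg : ∀ X (x : H X), (∀ y, tr X (x * y) = 0) → x = 0
  span_ext : ∀ X Y : SmProjVar k, Submodule.span Ω
    {z : H (X.prod Y) | ∃ x y, z = pull (fst X Y) x * pull (snd X Y) y} = ⊤
  tr_prod : ∀ (X Y : SmProjVar k) (x : H X) (y : H Y),
    tr (X.prod Y) (pull (fst X Y) x * pull (snd X Y) y) = tr X x * tr Y y
  alg : ∀ X, Submodule Ω (H X)
  alg_le_ev : ∀ X, alg X ≤ ev X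
  one_mem : ∀ X, (1 : H X) ∈ alg X
  mul_mem : ∀ X (x y : H X), x ∈ alg X → y ∈ alg X → x * y ∈ alg X
  pull_mem : ∀ {X Y : SmProjVar k} (f : X.toOver ⟶ Y.toOver) (x : H Y),
    x ∈ alg Y → pull f x ∈ alg X
  push : ∀ {X Y : SmProjVar k} (f : X.toOver ⟶ Y.toOver) (a : H X), a ∈ alg X →
    ∃ b ∈ alg Y, ∀ y, tr Y (b * y) = tr X (a * pull f y)
  s_alg : ∀ σ X (x : H X), s σ X x ∈ alg X ↔ x ∈ alg X

attribute [instance] SPre.ring SPre.algebra SPre.fin

namespace SPre

variable {k : Type u} [Field k] {K : Type t} [Field K] {Ω : Type v} [Field Ω] [Algebra K Ω]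
  (P : SPre.{u, v, w, t} k K Ω)

lemma od_mul_ev (X : SmProjVar k) (x y : P.H X) (hx : x ∈ P.od X) (hy : y ∈ P.ev X) :
    x * y ∈ P.od X := by
  rw [← P.ev_comm X y x hy]
  exact P.ev_mul_od X y x hy hx

lemma exists_decomp (X : SmProjVar k) (x : P.H X) :
    ∃ a ∈ P.ev X, ∃ b ∈ P.od X, a + b = x := by
  have : x ∈ P.ev X ⊔ P.od X := by rw [P.ev_sup_od]; trivial
  exact Submodule.mem_sup.mp this

/-- parity-homogeneous elements -/
def Hom (X : SmProjVar k) (x : P.H X) : Prop := x ∈ P.ev X ∨ x ∈ P.od X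

lemma comm_or (X : SmProjVar k) (x y : P.H X) (hx : P.Hom X x) (hy : P.Hom X y) :
    x * y = y * x ∨ x * y = -(y * x) := by
  rcases hx with hx | hx
  · exact .inl (P.ev_comm X x y hx)
  · rcases hy with hy | hy
    · exact .inl (P.ev_comm X y x hy).symm
    · exact .inr (P.od_anti X x y hx hy)

lemma tr_comm_ev (X : SmProjVar k) (x y : P.H X) (hx : x ∈ P.ev X) :
    P.tr X (x * y) = P.tr X (y * x) := by rw [P.ev_comm X x y hx]

lemma tr_comm_or (X : SmProjVar k) (x y : P.H X) (hx : P.Hom X x) (hy : P.Hom X y) :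
    P.tr X (x * y) = P.tr X (y * x) ∨ P.tr X (x * y) = - P.tr X (y * x) := by
  rcases P.comm_or X x y hx hy with h | h
  · exact .inl (by rw [h])
  · exact .inr (by rw [h, map_neg])

/-- nondegeneracy on the other side -/
lemma nondeg' (X : SmProjVar k) (x : P.H X) (h : ∀ y, P.tr X (y * x) = 0) : x = 0 := by
  obtain ⟨a, ha, b, hb, rfl⟩ := P.exists_decomp X x
  have key : ∀ y, P.tr X ((a - b) * y) = 0 := by
    intro y
    obtain ⟨c, hc, d, hd, rfl⟩ := P.exists_decomp X y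
    have h1 := h (c + d)
    have h2 := h (c - d)
    have e1 : P.tr X (c * b) = 0 := P.tr_od X _ (P.ev_mul_od X c b hc hb)
    have e2 : P.tr X (d * a) = 0 := P.tr_od X _ (P.od_mul_ev X d a hd ha)
    have e3 : P.tr X (a * d) = 0 := P.tr_od X _ (P.ev_mul_od X a d ha hd)
    have e4 : P.tr X (b * c) = 0 := P.tr_od X _ (P.od_mul_ev X b c hb hc)
    have e5 : a * c = c * a := P.ev_comm X a c ha
    have e6 : b * d = -(d * b) := P.od_anti X b d hb hd
    have : (a - b) * (c + d) = a * c + a * d - b * c - b * d := by noncomm_ring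
    rw [this, e5, e6]
    simp only [add_mul, mul_add, sub_mul, map_add, map_sub, map_neg] at h1 h2 ⊢
    rw [e3, e4]
    rw [e1, e2] at h1
    linear_combination h1
  have h0 := P.nondeg X _ key
  have hab : a = b := sub_eq_zero.mp h0
  subst hab
  have : a = 0 := by
    have := (P.ev_inf_od X).le_bot ⟨ha, hb⟩
    simpa using this
  rw [this, add_zero]

lemma tr_snd_fst (X Y : SmProjVar k) (x : P.H X) (y : P.H Y) :
    P.tr (X.prod Y) (P.pull (snd X Y) y * P.pull (fst X Y) x) = P.tr Y y * P.tr X x := by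
  obtain ⟨a, ha, b, hb, rfl⟩ := P.exists_decomp X x
  obtain ⟨c, hc, d, hd, rfl⟩ := P.exists_decomp Y y
  have h1 : P.pull (snd X Y) (c + d) * P.pull (fst X Y) (a + b) =
      P.pull (fst X Y) (a + b) * P.pull (snd X Y) c + P.pull (fst X Y) a * P.pull (snd X Y) d
        - P.pull (fst X Y) b * P.pull (snd X Y) d := by
    have e1 : P.pull (snd X Y) c * P.pull (fst X Y) (a + b) =
        P.pull (fst X Y) (a + b) * P.pull (snd X Y) c :=
      P.ev_comm _ _ _ (P.pull_ev _ _ hc)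
    have e2 : P.pull (snd X Y) d * P.pull (fst X Y) a =
        P.pull (fst X Y) a * P.pull (snd X Y) d :=
      (P.ev_comm _ _ _ (P.pull_ev _ _ ha)).symm
    have e3 : P.pull (snd X Y) d * P.pull (fst X Y) b =
        -(P.pull (fst X Y) b * P.pull (snd X Y) d) :=
      P.od_anti _ _ _ (P.pull_od _ _ hd) (P.pull_od _ _ hb)
    rw [map_add (P.pull (snd X Y)), add_mul, e1, map_add (P.pull (fst X Y)), mul_add, e2, e3]
    noncomm_ring
  rw [h1, map_sub, map_add, P.tr_prod, P.tr_prod, P.tr_prod, map_add, map_add,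
    P.tr_od X b hb, P.tr_od Y d hd]
  ring

/-- operators induced by algebraic correspondences -/
def IsCorr (X : SmProjVar k) (U : P.H X →ₗ[Ω] P.H X) : Prop :=
  ∃ c ∈ P.alg (X.prod X), ∀ x y, P.tr (X.prod X) (P.pull (fst X X) x * c * P.pull (snd X X) y)
    = P.tr X (U x * y)

/-- the rank one operator `x ↦ tr (x b) a` -/
def rankOne (X : SmProjVar k) (a b : P.H X) : P.H X →ₗ[Ω] P.H X where
  toFun x := P.tr X (x * b) • a
  map_add' x y := by rw [add_mul, map_add, add_smul]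
  map_smul' c x := by rw [smul_mul_assoc, map_smul, smul_assoc, RingHom.id_apply]

@[simp] lemma rankOne_apply (X : SmProjVar k) (a b x : P.H X) :
    P.rankOne X a b x = P.tr X (x * b) • a := rfl

lemma isCorr_rankOne (X : SmProjVar k) (a b : P.H X)
    (h : P.pull (fst X X) b * P.pull (snd X X) a ∈ P.alg (X.prod X)) :
    P.IsCorr X (P.rankOne X a b) := by
  refine ⟨_, h, fun x y => ?_⟩
  have : P.pull (fst X X) x * (P.pull (fst X X) b * P.pull (snd X X) a) * P.pull (snd X X) y =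
      P.pull (fst X X) (x * b) * P.pull (snd X X) (a * y) := by
    rw [map_mul, map_mul]; noncomm_ring
  rw [this, P.tr_prod, rankOne_apply, smul_mul_assoc, map_smul, smul_eq_mul]

variable {P} in
lemma IsCorr.map_alg {X : SmProjVar k} {U : P.H X →ₗ[Ω] P.H X} (hU : P.IsCorr X U) {x : P.H X}
    (hx : x ∈ P.alg X) : U x ∈ P.alg X := by
  obtain ⟨c, hc, h⟩ := hU
  obtain ⟨b, hb, hb'⟩ := P.push (snd X X) (P.pull (fst X X) x * c)
    (P.mul_mem _ _ _ (P.pull_mem _ _ hx) hc)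
  have : U x = b := by
    rw [← sub_eq_zero]
    refine P.nondeg X _ fun y => ?_
    rw [sub_mul, map_sub, hb' y, ← h x y, sub_self]
  rwa [this]

/-- numerically trivial algebraic classes -/
def rad (X : SmProjVar k) (x : P.H X) : Prop :=
  x ∈ P.alg X ∧ ∀ a ∈ P.alg X, P.tr X (x * a) = 0

variable {P} in
lemma IsCorr.map_rad {X : SmProjVar k} {U : P.H X →ₗ[Ω] P.H X} (hU : P.IsCorr X U) {x : P.H X}
    (hx : P.rad X x) : P.rad X (U x) := by
  refine ⟨hU.map_alg hx.1, fun a ha => ?_⟩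
  obtain ⟨c, hc, h⟩ := hU
  obtain ⟨b, hb, hb'⟩ := P.push (fst X X) (c * P.pull (snd X X) a)
    (P.mul_mem _ _ _ hc (P.pull_mem _ _ ha))
  have hxe : x ∈ P.ev X := P.alg_le_ev X hx.1
  rw [← h x a, mul_assoc, P.ev_comm _ _ _ (P.pull_ev _ _ hxe), ← hb' x,
    ← P.ev_comm _ _ _ hxe]
  exact hx.2 b hb

lemma rad_s (σ : Ω ≃ₐ[K] Ω) {X : SmProjVar k} {x : P.H X} (hx : P.rad X x) :
    P.rad X (P.s σ X x) := by
  refine ⟨(P.s_alg σ X x).mpr hx.1, fun a ha => ?_⟩
  obtain ⟨b, rfl⟩ := (P.s σ X).surjective a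
  rw [← map_mul, P.tr_s, hx.2 b ((P.s_alg σ X b).mp ha), map_zero]

/-- Standard conjecture D in the auxiliary setting. -/
def D (X : SmProjVar k) : Prop := ∀ x, P.rad X x → x = 0

lemma Hom.mul {X : SmProjVar k} {x y : P.H X} (hx : P.Hom X x) (hy : P.Hom X y) :
    P.Hom X (x * y) := by
  rcases hx with hx | hx <;> rcases hy with hy | hy
  · exact .inl (P.ev_mul_ev X _ _ hx hy)
  · exact .inr (P.ev_mul_od X _ _ hx hy)
  · exact .inr (P.od_mul_ev X _ _ hx hy)
  · exact .inl (P.od_mul_od X _ _ hx hy)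

lemma Hom.pull {X Y : SmProjVar k} (f : X.toOver ⟶ Y.toOver) {x : P.H Y} (hx : P.Hom Y x) :
    P.Hom X (P.pull f x) := by
  rcases hx with hx | hx
  · exact .inl (P.pull_ev f x hx)
  · exact .inr (P.pull_od f x hx)

lemma Hom.s (σ : Ω ≃ₐ[K] Ω) {X : SmProjVar k} {x : P.H X} (hx : P.Hom X x) :
    P.Hom X (P.s σ X x) := by
  rcases hx with hx | hx
  · exact .inl (P.s_ev σ X x hx)
  · exact .inr (P.s_od σ X x hx)

/-- external product -/
noncomputable def ext (X Y : SmProjVar k) (x : P.H X) (y : P.H Y) : P.H (X.prod Y) :=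
  P.pull (fst X Y) x * P.pull (snd X Y) y

lemma span_ext_sets (X Y : SmProjVar k) (S : Set (P.H X)) (T : Set (P.H Y))
    (hS : Submodule.span Ω S = ⊤) (hT : Submodule.span Ω T = ⊤) :
    Submodule.span Ω {z : P.H (X.prod Y) | ∃ x ∈ S, ∃ y ∈ T, z = P.ext X Y x y} = ⊤ := by
  rw [eq_top_iff, ← P.span_ext X Y, Submodule.span_le]
  rintro z ⟨x, y, rfl⟩
  have hx : x ∈ Submodule.span Ω S := by rw [hS]; trivial
  have hy : y ∈ Submodule.span Ω T := by rw [hT]; trivial
  induction hx using Submodule.span_induction with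
  | mem x hx =>
    induction hy using Submodule.span_induction with
    | mem y hy => exact Submodule.subset_span ⟨x, hx, y, hy, rfl⟩
    | zero => rw [map_zero, mul_zero]; exact Submodule.zero_mem _
    | add y z _ _ hy hz =>
      rw [map_add, mul_add]; exact Submodule.add_mem _ hy hz
    | smul a y _ hy =>
      rw [map_smul, mul_smul_comm]; exact Submodule.smul_mem _ a hy
  | zero => rw [map_zero, zero_mul]; exact Submodule.zero_mem _
  | add y z _ _ hy hz =>
    rw [map_add, add_mul]; exact Submodule.add_mem _ hy hz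
  | smul a y _ hy =>
    rw [map_smul, smul_mul_assoc]; exact Submodule.smul_mem _ a hy

lemma tr_ext_mul_ext (X Y : SmProjVar k) (x x' : P.H X) (y y' : P.H Y)
    (hx' : P.Hom X x') (hy : P.Hom Y y) :
    P.tr (X.prod Y) (P.ext X Y x y * P.ext X Y x' y') = P.tr X (x * x') * P.tr Y (y * y') ∨
    P.tr (X.prod Y) (P.ext X Y x y * P.ext X Y x' y') =
      -(P.tr X (x * x') * P.tr Y (y * y')) := by
  have h0 : P.ext X Y x y * P.ext X Y x' y' =
      P.pull (fst X Y) x * (P.pull (snd X Y) y * P.pull (fst X Y) x') * P.pull (snd X Y) y' := by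
    unfold ext; noncomm_ring
  rcases P.comm_or (X.prod Y) _ _ (Hom.pull P (snd X Y) hy) (Hom.pull P (fst X Y) hx') with h | h
  · left
    rw [h0, h]
    have : P.pull (fst X Y) x * (P.pull (fst X Y) x' * P.pull (snd X Y) y) * P.pull (snd X Y) y' =
        P.pull (fst X Y) (x * x') * P.pull (snd X Y) (y * y') := by
      rw [map_mul, map_mul]; noncomm_ring
    rw [this, P.tr_prod]
  · right
    rw [h0, h]
    have : P.pull (fst X Y) x * -(P.pull (fst X Y) x' * P.pull (snd X Y) y) *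
        P.pull (snd X Y) y' =
        -(P.pull (fst X Y) (x * x') * P.pull (snd X Y) (y * y')) := by
      rw [map_mul, map_mul]; noncomm_ring
    rw [this, map_neg, P.tr_prod]

/-- the class `fst^*(b ⊠ b') * snd^*(a ⊠ a')` on `(X × Y) × (X × Y)` is algebraic as soon as
`fst^* b * snd^* a` and `fst^* b' * snd^* a'` are. -/
lemma class_prod_mem (X Y : SmProjVar k) (a b : P.H X) (a' b' : P.H Y)
    (ha : P.Hom X a) (hb' : P.Hom Y b')
    (h : P.pull (fst X X) b * P.pull (snd X X) a ∈ P.alg (X.prod X))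
    (h' : P.pull (fst Y Y) b' * P.pull (snd Y Y) a' ∈ P.alg (Y.prod Y)) :
    P.pull (fst (X.prod Y) (X.prod Y)) (P.ext X Y b b') *
      P.pull (snd (X.prod Y) (X.prod Y)) (P.ext X Y a a') ∈
        P.alg ((X.prod Y).prod (X.prod Y)) := by
  set Z := X.prod Y
  let πX : (Z.prod Z).toOver ⟶ (X.prod X).toOver := lift (fst Z Z ≫ fst X Y) (snd Z Z ≫ fst X Y)
  let πY : (Z.prod Z).toOver ⟶ (Y.prod Y).toOver := lift (fst Z Z ≫ snd X Y) (snd Z Z ≫ snd X Y)
  have e1 : P.pull πX (P.pull (fst X X) b * P.pull (snd X X) a) =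
      P.pull (fst Z Z) (P.pull (fst X Y) b) * P.pull (snd Z Z) (P.pull (fst X Y) a) := by
    rw [map_mul]
    congr 1
    · rw [← AlgHom.comp_apply, ← P.pull_comp, ← AlgHom.comp_apply, ← P.pull_comp, lift_fst]
    · rw [← AlgHom.comp_apply, ← P.pull_comp, ← AlgHom.comp_apply, ← P.pull_comp, lift_snd]
  have e2 : P.pull πY (P.pull (fst Y Y) b' * P.pull (snd Y Y) a') =
      P.pull (fst Z Z) (P.pull (snd X Y) b') * P.pull (snd Z Z) (P.pull (snd X Y) a') := by
    rw [map_mul]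
    congr 1
    · rw [← AlgHom.comp_apply, ← P.pull_comp, ← AlgHom.comp_apply, ← P.pull_comp, lift_fst]
    · rw [← AlgHom.comp_apply, ← P.pull_comp, ← AlgHom.comp_apply, ← P.pull_comp, lift_snd]
  have m := P.mul_mem _ _ _ (P.pull_mem πX _ h) (P.pull_mem πY _ h')
  rw [e1, e2] at m
  have e3 : P.pull (fst Z Z) (P.ext X Y b b') * P.pull (snd Z Z) (P.ext X Y a a') =
      P.pull (fst Z Z) (P.pull (fst X Y) b) *
        (P.pull (fst Z Z) (P.pull (snd X Y) b') * P.pull (snd Z Z) (P.pull (fst X Y) a)) *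
        P.pull (snd Z Z) (P.pull (snd X Y) a') := by
    unfold ext
    rw [map_mul, map_mul]; noncomm_ring
  rw [e3]
  rcases P.comm_or (Z.prod Z) _ _
    (Hom.pull P (fst Z Z) (Hom.pull P (snd X Y) hb'))
    (Hom.pull P (snd Z Z) (Hom.pull P (fst X Y) ha)) with h | h
  · rw [h]
    convert m using 1
    noncomm_ring
  · rw [h]
    convert (P.alg _).neg_mem m using 1
    noncomm_ring

/-- linear maps `H(X) → H(Y)` induced by algebraic correspondences -/
def IsMap (X Y : SmProjVar k) (u : P.H X →ₗ[Ω] P.H Y) : Prop :=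
  ∃ c ∈ P.alg (X.prod Y), ∀ x y, P.tr (X.prod Y) (P.pull (fst X Y) x * c * P.pull (snd X Y) y)
    = P.tr Y (u x * y)

variable {P} in
lemma IsMap.map_rad {X Y : SmProjVar k} {u : P.H X →ₗ[Ω] P.H Y} (hu : P.IsMap X Y u) {x : P.H X}
    (hx : P.rad X x) : P.rad Y (u x) := by
  obtain ⟨c, hc, h⟩ := hu
  constructor
  · obtain ⟨b, hb, hb'⟩ := P.push (snd X Y) (P.pull (fst X Y) x * c)
      (P.mul_mem _ _ _ (P.pull_mem _ _ hx.1) hc)
    have : u x = b := by
      rw [← sub_eq_zero]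
      refine P.nondeg Y _ fun y => ?_
      rw [sub_mul, map_sub, hb' y, ← h x y, sub_self]
    rwa [this]
  · intro a ha
    obtain ⟨b, hb, hb'⟩ := P.push (fst X Y) (c * P.pull (snd X Y) a)
      (P.mul_mem _ _ _ hc (P.pull_mem _ _ ha))
    have hxe : x ∈ P.ev X := P.alg_le_ev X hx.1
    rw [← h x a, mul_assoc, P.ev_comm _ _ _ (P.pull_ev _ _ hxe), ← hb' x,
      ← P.ev_comm _ _ _ hxe]
    exact hx.2 b hb

/-- D passes to motivic direct summands -/
lemma D.of_summand {Y : SmProjVar k} {n : ℕ} (X : Fin n → SmProjVar k)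
    (hX : ∀ i, P.D (X i)) (u : ∀ i, P.H Y →ₗ[Ω] P.H (X i)) (v : ∀ i, P.H (X i) →ₗ[Ω] P.H Y)
    (hu : ∀ i, P.IsMap Y (X i) (u i)) (huv : ∑ i, (v i).comp (u i) = LinearMap.id) : P.D Y := by
  intro r hr
  have h1 : ∀ i, u i r = 0 := fun i => hX i _ ((hu i).map_rad hr)
  have h2 := congrArg (fun f : P.H Y →ₗ[Ω] P.H Y => f r) huv
  simp only [LinearMap.id_apply] at h2
  rw [← h2, LinearMap.sum_apply]
  exact Finset.sum_eq_zero fun i _ => by rw [LinearMap.comp_apply, h1, map_zero]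

/-- descent of D along a dominant morphism -/
lemma D.of_dominates {X Y : SmProjVar k} (h : P.D X) (f : X.toOver ⟶ Y.toOver) (a : P.H X)
    (_ha : a ∈ P.alg X) (m : Ω) (hm : m ≠ 0)
    (hf : ∀ y, P.tr X (a * P.pull f y) = m * P.tr Y y) : P.D Y := by
  intro r hr
  have h1 : P.rad X (P.pull f r) := by
    refine ⟨P.pull_mem f r hr.1, fun b hb => ?_⟩
    obtain ⟨b', hb', h2⟩ := P.push f b hb
    have hre : r ∈ P.ev Y := P.alg_le_ev Y hr.1
    rw [P.ev_comm _ _ _ (P.pull_ev f r hre), ← h2 r, ← P.ev_comm _ _ _ hre]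
    exact hr.2 b' hb'
  have h3 := h _ h1
  refine P.nondeg Y r fun y => ?_
  have h4 := hf (r * y)
  rw [map_mul (P.pull f), h3, zero_mul, mul_zero, map_zero] at h4
  exact (mul_eq_zero.mp h4.symm).resolve_left hm

end SPre

end Pool.Agent.Helper10
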