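import Mathlib
import Pool.Agent.Helper10.SmProj

/-!
# Weil cohomology theories and Grothendieck's standard conjecture D
-/

universe u v w

open CategoryTheory TensorProduct

namespace Pool.Agent.Helper10

open SmProjVar

section Algebra

variable {K : Type v} [Field K] {A B C : Type w} [Ring A] [Algebra K A] [Ring B] [Algebra K B]
  [Ring C] [Algebra K C]

/-- `gr` makes the finite-dimensional `K`-algebra `A` a graded-commutative graded algebra, with
`A^i = 0` for `i > 2 n`. -/
structure IsGradedCommAlgebra (gr : ℕ → Submodule K A) (n : ℕ) : Prop where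
  finite : Module.Finite K A
  indep : iSupIndep gr
  iSup_eq_top : ⨆ i, gr i = ⊤
  eq_bot : ∀ i, 2 * n < i → gr i = ⊥
  one_mem : (1 : A) ∈ gr 0
  mul_mem : ∀ (i j : ℕ) (x y : A), x ∈ gr i → y ∈ gr j → x * y ∈ gr (i + j)
  comm : ∀ (i j : ℕ) (x y : A), x ∈ gr i → y ∈ gr j → x * y = (-1 : K) ^ (i * j) • (y * x)

/-- `f` is a homomorphism of graded `K`-algebras. -/
structure IsGradedHom (grA : ℕ → Submodule K A) (grB : ℕ → Submodule K B) (f : A → B) :
    Prop where
  map_add : ∀ x y, f (x + y) = f x + f y
  map_smul : ∀ (a : K) (x : A), f (a • x) = a • f x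
  map_one : f 1 = 1
  map_mul : ∀ x y, f (x * y) = f x * f y
  map_mem : ∀ (i : ℕ) (x : A), x ∈ grA i → f x ∈ grB i

/-- `tr : A → K` is linear, zero on `A^i` for `i ≠ 2 n`, an isomorphism `A^{2n} ≅ K`, and the
pairing `(x, y) ↦ tr (x * y)` is perfect (Poincaré duality). -/
structure IsPoincareTrace (gr : ℕ → Submodule K A) (n : ℕ) (tr : A → K) : Prop where
  map_add : ∀ x y, tr (x + y) = tr x + tr y
  map_smul : ∀ (a : K) (x : A), tr (a • x) = a * tr x
  eq_zero : ∀ (i : ℕ) (x : A), i ≠ 2 * n → x ∈ gr i → tr x = 0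
  bijective : ∀ a : K, ∃! x : A, x ∈ gr (2 * n) ∧ tr x = a
  nondegenerate : ∀ x : A, (∀ y : A, tr (x * y) = 0) → x = 0

variable (K) in
/-- The linear map `A ⊗ B → C`, `a ⊗ b ↦ f a * g b`, is bijective. -/
def IsKunneth (f : A → C) (g : B → C) : Prop :=
  ∀ m : A ⊗[K] B →ₗ[K] C, (∀ a b, m (a ⊗ₜ b) = f a * g b) → Function.Bijective m

end Algebra

/-- The data of a Weil cohomology theory for smooth projective varieties over `k`, with
coefficients in a field `K`. -/
structure CohomologyData (k : Type u) [Field k] (K : Type v) [Field K] where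
  /-- the total cohomology algebra `H(X) = ⨁ H^i(X)` of `X` -/
  H : SmProjVar k → Type w
  [ring : ∀ X, Ring (H X)]
  [algebra : ∀ X, Algebra K (H X)]
  /-- `gr X i` is `H^i(X)` -/
  gr : ∀ X, ℕ → Submodule K (H X)
  /-- the pull-back `f^* : H(Y) → H(X)` -/
  pull : ∀ {X Y : SmProjVar k}, (X.toOver ⟶ Y.toOver) → H Y → H X
  /-- the trace (orientation) map `H^{2 dim X}(X) → K`, extended by `0` to the other degrees -/
  tr : ∀ X, H X → K
  /-- the cycle class map `Z^j(X) → H^{2j}(X)` -/
  cy : ∀ (X : SmProjVar k) (j : ℕ), X.Z j → H X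
  /-- the intersection pairing of cycles (intersection numbers) -/
  inter : ∀ (X : SmProjVar k) (i j : ℕ), X.Z i → X.Z j → ℤ

attribute [instance] CohomologyData.ring CohomologyData.algebra

/-- The properties of the cycle class map of a Weil cohomology theory. -/
structure CohomologyData.HasCycleClasses {k : Type u} [Field k] {K : Type v} [Field K]
    (W : CohomologyData.{u, v, w} k K) : Prop where
  /-- the cycle class map is additive -/
  cy_add : ∀ X j (a b c : X.Z j), (∀ x, c.toCyc.coeff x = a.toCyc.coeff x + b.toCyc.coeff x) →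
    W.cy X j c = W.cy X j a + W.cy X j b
  cy_mem : ∀ X j (c : X.Z j), W.cy X j c ∈ W.gr X (2 * j)
  /-- the class of `X` itself is `1` -/
  cy_fundamental : ∀ X : SmProjVar k, ∃ c : X.Z 0,
    c.toCyc = X.pointCycle X.genericPt ∧ W.cy X 0 c = 1
  /-- the class of a closed point has trace the degree of its residue field over `k` -/
  tr_point : ∀ (X : SmProjVar k) (x : X.Pt) (c : X.Z X.dim), c.toCyc = X.pointCycle x →
    W.tr X (W.cy X X.dim c) = (X.residueDeg x : K)
  /-- compatibility with push-forward: `cy (f_* c) = f_* (cy c)`, where `f_*` on cohomology is the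
  Poincaré dual of `f^*` -/
  cy_push : ∀ {X Y : SmProjVar k} (f : X.toOver ⟶ Y.toOver) (i j : ℕ) (c : X.Z i) (c' : Y.Z j),
    c'.toCyc = pushCycle f c.toCyc →
      ∀ y : W.H Y, W.tr Y (W.cy Y j c' * y) = W.tr X (W.cy X i c * W.pull f y)
  /-- the pull-back of a cycle class is a cycle class -/
  cy_pull : ∀ {X Y : SmProjVar k} (f : X.toOver ⟶ Y.toOver) (j : ℕ) (c : Y.Z j),
    ∃ c' : X.Z j, W.cy X j c' = W.pull f (W.cy Y j c)
  /-- the product of two cycle classes is a cycle class -/
  cy_mul : ∀ X i j (c : X.Z i) (c' : X.Z j),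
    ∃ c'' : X.Z (i + j), W.cy X (i + j) c'' = W.cy X i c * W.cy X j c'
  /-- the intersection pairing of cycles of complementary codimension is induced by the cup
  product -/
  tr_cy_mul : ∀ X i j (c : X.Z i) (c' : X.Z j), i + j = X.dim →
    W.tr X (W.cy X i c * W.cy X j c') = (W.inter X i j c c' : K)

/-- A Weil cohomology theory `H^*` for smooth projective varieties over `k`, with coefficients in a
field `K` of characteristic zero. -/
structure WeilCohomology (k : Type u) [Field k] (K : Type v) [Field K] [CharZero K] extends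
    CohomologyData.{u, v, w} k K where
  graded : ∀ X, IsGradedCommAlgebra (gr X) X.dim
  pull_hom : ∀ {X Y : SmProjVar k} (f : X.toOver ⟶ Y.toOver),
    IsGradedHom (gr Y) (gr X) (pull f)
  pull_id : ∀ (X : SmProjVar k) (x : H X), pull (𝟙 X.toOver) x = x
  pull_comp : ∀ {X Y Z : SmProjVar k} (f : X.toOver ⟶ Y.toOver) (g : Y.toOver ⟶ Z.toOver)
    (x : H Z), pull (f ≫ g) x = pull f (pull g x)
  /-- Poincaré duality -/
  trace : ∀ X, IsPoincareTrace (gr X) X.dim (tr X)
  /-- the Künneth formula: `H(X) ⊗ H(Y) ≅ H(X × Y)` -/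
  kunneth : ∀ X Y : SmProjVar k, IsKunneth K (pull (fst X Y)) (pull (snd X Y))
  tr_prod : ∀ (X Y : SmProjVar k) (x : H X) (y : H Y),
    tr (X.prod Y) (pull (fst X Y) x * pull (snd X Y) y) = tr X x * tr Y y
  cycleClasses : toCohomologyData.HasCycleClasses

namespace CohomologyData

variable {k : Type u} [Field k] {K : Type v} [Field K] (W : CohomologyData.{u, v, w} k K)

/-- Numerical equivalence of cycles of codimension `j` on `X`: the same intersection numbers with
all cycles of complementary codimension. -/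
def NumEquiv (X : SmProjVar k) (j : ℕ) (a b : X.Z j) : Prop :=
  ∀ (i : ℕ), j + i = X.dim → ∀ c : X.Z i, W.inter X j i a c = W.inter X j i b c

/-- Homological equivalence of cycles of codimension `j` on `X`. -/
def HomEquiv (X : SmProjVar k) (j : ℕ) (a b : X.Z j) : Prop :=
  W.cy X j a = W.cy X j b

/-- Grothendieck's standard conjecture D for the variety `X` and the Weil cohomology theory `W`:
numerically equivalent cycles are homologically equivalent. -/
def StandardD (X : SmProjVar k) : Prop :=
  ∀ (j : ℕ) (a b : X.Z j), W.NumEquiv X j a b → W.HomEquiv X j a b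

/-- The `K`-span of the classes of algebraic cycles in `H(X)`. -/
def algClasses (X : SmProjVar k) : Submodule K (W.H X) :=
  Submodule.span K {z | ∃ (j : ℕ) (c : X.Z j), z = W.cy X j c}

/-- The Poincaré duality pairing `(x, y) ↦ ∫ x ∪ y` on `H(X)`. -/
def pairing (X : SmProjVar k) (x y : W.H X) : K := W.tr X (x * y)

/-- The map `u : H(X) → H(Y)` is `x ↦ q_* (p^* x ∪ c)` for a `K`-linear combination `c` of
classes of algebraic cycles on `X × Y`, where `p` and `q` are the projections and `q_*` is the
Poincaré dual of `q^*`: `u` is induced by an algebraic correspondence. -/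
def IsAlgebraicMap (X Y : SmProjVar k) (u : W.H X → W.H Y) : Prop :=
  ∃ c ∈ W.algClasses (X.prod Y), ∀ (x : W.H X) (y : W.H Y),
    W.pairing Y (u x) y = W.tr (X.prod Y) (W.pull (fst X Y) x * c * W.pull (snd X Y) y)

end CohomologyData

end Pool.Agent.Helper10
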