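import Mathlib
import Pool.Agent.Helper10.Weil
import Pool.Agent.Helper10.Core

/-!
# Extension of scalars of a Weil cohomology theory
-/

universe u v w t

open CategoryTheory Limits AlgebraicGeometry TensorProduct

namespace Pool.Agent.Helper10

open SmProjVar

section LinearAlgebra

variable {K : Type v} [Field K] {Ω : Type t} [Field Ω] [Algebra K Ω]
variable {V : Type w} [AddCommGroup V] [Module K V]

lemma baseChange_sup_eq_top (A B : Submodule K V) (h : A ⊔ B = ⊤) :
    A.baseChange Ω ⊔ B.baseChange Ω = ⊤ := by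
  rw [eq_top_iff]
  intro x _
  induction x using TensorProduct.induction_on with
  | zero => exact Submodule.zero_mem _
  | tmul a y =>
    have hy : y ∈ A ⊔ B := by rw [h]; trivial
    obtain ⟨y1, h1, y2, h2, rfl⟩ := Submodule.mem_sup.mp hy
    rw [TensorProduct.tmul_add]
    exact Submodule.add_mem_sup (Submodule.tmul_mem_baseChange_of_mem a h1)
      (Submodule.tmul_mem_baseChange_of_mem a h2)
  | add x y hx hy => exact Submodule.add_mem _ (hx trivial) (hy trivial)

lemma baseChange_disjoint (A B : Submodule K V) (h : IsCompl A B) :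
    Disjoint (A.baseChange Ω) (B.baseChange Ω) := by
  set p : V →ₗ[K] V := A.subtype ∘ₗ A.projectionOnto B h with hp
  have h1 : ∀ x ∈ A.baseChange Ω, p.baseChange Ω x = x := by
    intro x hx
    rw [Submodule.baseChange_eq_span] at hx
    induction hx using Submodule.span_induction with
    | mem x hx =>
      obtain ⟨y, hy, rfl⟩ := hx
      simp only [TensorProduct.mk_apply, LinearMap.baseChange_tmul]
      have h3 : p y = y := by
        have := Submodule.projectionOnto_apply_left h ⟨y, hy⟩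
        rw [hp, LinearMap.comp_apply]
        exact congrArg Subtype.val this
      rw [h3]
    | zero => rw [map_zero]
    | add x y _ _ hx hy => rw [map_add, hx, hy]
    | smul a x _ hx => rw [map_smul, hx]
  have h2 : ∀ x ∈ B.baseChange Ω, p.baseChange Ω x = 0 := by
    intro x hx
    rw [Submodule.baseChange_eq_span] at hx
    induction hx using Submodule.span_induction with
    | mem x hx =>
      obtain ⟨y, hy, rfl⟩ := hx
      simp only [TensorProduct.mk_apply, LinearMap.baseChange_tmul]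
      rw [hp, LinearMap.comp_apply, (Submodule.projectionOnto_apply_eq_zero_iff h).mpr hy,
        map_zero, TensorProduct.tmul_zero]
    | zero => rw [map_zero]
    | add x y _ _ hx hy => rw [map_add, hx, hy, add_zero]
    | smul a x _ hx => rw [map_smul, hx, smul_zero]
  rw [Submodule.disjoint_def]
  intro x hx hx'
  rw [← h1 x hx, h2 x hx']

lemma baseChange_induction (A : Submodule K V) {p : Ω ⊗[K] V → Prop}
    (hmem : ∀ y ∈ A, p (1 ⊗ₜ[K] y)) (hzero : p 0) (hadd : ∀ x y, p x → p y → p (x + y))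
    (hsmul : ∀ (a : Ω) x, p x → p (a • x)) {x : Ω ⊗[K] V} (hx : x ∈ A.baseChange Ω) : p x := by
  rw [Submodule.baseChange_eq_span] at hx
  induction hx using Submodule.span_induction with
  | mem x hx =>
    obtain ⟨y, hy, rfl⟩ := hx
    exact hmem y hy
  | zero => exact hzero
  | add x y _ _ hx hy => exact hadd x y hx hy
  | smul a x _ hx => exact hsmul a x hx

lemma baseChange_induction_top {p : Ω ⊗[K] V → Prop}
    (hmem : ∀ y, p (1 ⊗ₜ[K] y)) (hzero : p 0) (hadd : ∀ x y, p x → p y → p (x + y))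
    (hsmul : ∀ (a : Ω) x, p x → p (a • x)) (x : Ω ⊗[K] V) : p x := by
  refine baseChange_induction (⊤ : Submodule K V) (fun y _ => hmem y) hzero hadd hsmul (x := x) ?_
  rw [Submodule.baseChange_top]
  trivial

end LinearAlgebra

section Bundled

variable {k : Type u} [Field k] {K : Type v} [Field K] [CharZero K]
  (W : WeilCohomology.{u, v, w} k K)

namespace WeilCohomology

/-- the pull-back as a homomorphism of algebras -/
def pullA {X Y : SmProjVar k} (f : X.toOver ⟶ Y.toOver) : W.H Y →ₐ[K] W.H X where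
  toFun := W.pull f
  map_one' := (W.pull_hom f).map_one
  map_mul' := (W.pull_hom f).map_mul
  map_zero' := by
    have := (W.pull_hom f).map_smul 0 0
    simpa using this
  map_add' := (W.pull_hom f).map_add
  commutes' r := by
    rw [Algebra.algebraMap_eq_smul_one, (W.pull_hom f).map_smul, (W.pull_hom f).map_one,
      ← Algebra.algebraMap_eq_smul_one]

lemma pullA_apply {X Y : SmProjVar k} (f : X.toOver ⟶ Y.toOver) (x : W.H Y) :
    W.pullA f x = W.pull f x := rfl

lemma pullA_id (X : SmProjVar k) : W.pullA (𝟙 X.toOver) = AlgHom.id K (W.H X) :=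
  AlgHom.ext fun x => W.pull_id X x

lemma pullA_comp {X Y Z : SmProjVar k} (f : X.toOver ⟶ Y.toOver) (g : Y.toOver ⟶ Z.toOver) :
    W.pullA (f ≫ g) = (W.pullA f).comp (W.pullA g) :=
  AlgHom.ext fun x => W.pull_comp f g x

/-- the trace as a linear map -/
def trL (X : SmProjVar k) : W.H X →ₗ[K] K where
  toFun := W.tr X
  map_add' := (W.trace X).map_add
  map_smul' a x := by rw [(W.trace X).map_smul, RingHom.id_apply, smul_eq_mul]

lemma trL_apply (X : SmProjVar k) (x : W.H X) : W.trL X x = W.tr X x := rfl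

/-- even part -/
def evK (X : SmProjVar k) : Submodule K (W.H X) := ⨆ i ∈ {i : ℕ | Even i}, W.gr X i

/-- odd part -/
def odK (X : SmProjVar k) : Submodule K (W.H X) := ⨆ i ∈ {i : ℕ | Even i}ᶜ, W.gr X i

lemma gr_le_evK (X : SmProjVar k) {i : ℕ} (hi : Even i) : W.gr X i ≤ W.evK X :=
  le_biSup (fun i => W.gr X i) (show i ∈ {i : ℕ | Even i} from hi)

lemma gr_le_odK (X : SmProjVar k) {i : ℕ} (hi : ¬ Even i) : W.gr X i ≤ W.odK X :=
  le_biSup (fun i => W.gr X i) (show i ∈ {i : ℕ | Even i}ᶜ from hi)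

lemma iSup_gr (X : SmProjVar k) : ⨆ i, W.gr X i = ⊤ := (W.graded X).iSup_eq_top

lemma isCompl (X : SmProjVar k) : IsCompl (W.evK X) (W.odK X) := by
  constructor
  · exact (W.graded X).indep.disjoint_biSup_biSup disjoint_compl_right
  · rw [codisjoint_iff, eq_top_iff, ← W.iSup_gr X]
    refine iSup_le fun i => ?_
    by_cases hi : Even i
    · exact (W.gr_le_evK X hi).trans le_sup_left
    · exact (W.gr_le_odK X hi).trans le_sup_right

lemma gr_induction (X : SmProjVar k) {p : W.H X → Prop} (hmem : ∀ i, ∀ x ∈ W.gr X i, p x)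
    (hzero : p 0) (hadd : ∀ x y, p x → p y → p (x + y)) (x : W.H X) : p x := by
  have hx : x ∈ ⨆ i, W.gr X i := by rw [W.iSup_gr]; trivial
  induction hx using Submodule.iSup_induction' with
  | mem i x hx => exact hmem i x hx
  | zero => exact hzero
  | add x y _ _ hx hy => exact hadd x y hx hy

lemma evK_induction (X : SmProjVar k) {p : W.H X → Prop}
    (hmem : ∀ i, Even i → ∀ x ∈ W.gr X i, p x)
    (hzero : p 0) (hadd : ∀ x y, p x → p y → p (x + y)) {x : W.H X} (hx : x ∈ W.evK X) : p x := by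
  unfold evK at hx
  rw [iSup_subtype'] at hx
  induction hx using Submodule.iSup_induction' with
  | mem i x hx => exact hmem i i.2 x hx
  | zero => exact hzero
  | add x y _ _ hx hy => exact hadd x y hx hy

lemma odK_induction (X : SmProjVar k) {p : W.H X → Prop}
    (hmem : ∀ i, ¬ Even i → ∀ x ∈ W.gr X i, p x)
    (hzero : p 0) (hadd : ∀ x y, p x → p y → p (x + y)) {x : W.H X} (hx : x ∈ W.odK X) : p x := by
  unfold odK at hx
  rw [iSup_subtype'] at hx
  induction hx using Submodule.iSup_induction' with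
  | mem i x hx => exact hmem i i.2 x hx
  | zero => exact hzero
  | add x y _ _ hx hy => exact hadd x y hx hy

lemma evK_comm (X : SmProjVar k) (x y : W.H X) (hx : x ∈ W.evK X) : x * y = y * x := by
  refine W.gr_induction X (p := fun y => x * y = y * x) ?_ ?_ ?_ y
  · intro j y hy
    refine W.evK_induction X (p := fun x => x * y = y * x) ?_ ?_ ?_ hx
    · intro i hi x hx
      rw [(W.graded X).comm i j x y hx hy, (hi.mul_right j).neg_one_pow, one_smul]
    · rw [zero_mul, mul_zero]
    · intro a b ha hb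
      rw [add_mul, mul_add, ha, hb]
  · rw [zero_mul, mul_zero]
  · intro a b ha hb
    rw [add_mul, mul_add, ha, hb]

lemma odK_anti (X : SmProjVar k) (x y : W.H X) (hx : x ∈ W.odK X) (hy : y ∈ W.odK X) :
    x * y = -(y * x) := by
  refine W.odK_induction X (p := fun y => x * y = -(y * x)) ?_ ?_ ?_ hy
  · intro j hj y hy
    refine W.odK_induction X (p := fun x => x * y = -(y * x)) ?_ ?_ ?_ hx
    · intro i hi x hx
      rw [(W.graded X).comm i j x y hx hy]
      have : Odd (i * j) := by
        rw [Nat.not_even_iff_odd] at hi hj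
        exact hi.mul hj
      rw [this.neg_one_pow, neg_smul, one_smul]
    · rw [zero_mul, mul_zero, neg_zero]
    · intro a b ha hb
      rw [add_mul, mul_add, ha, hb]; abel
  · rw [zero_mul, mul_zero, neg_zero]
  · intro a b ha hb
    rw [add_mul, mul_add, ha, hb]; abel

lemma gr_mul (X : SmProjVar k) {i j : ℕ} {x y : W.H X} (hx : x ∈ W.gr X i) (hy : y ∈ W.gr X j) :
    x * y ∈ W.gr X (i + j) := (W.graded X).mul_mem i j x y hx hy

lemma evK_mul_evK (X : SmProjVar k) (x y : W.H X) (hx : x ∈ W.evK X) (hy : y ∈ W.evK X) :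
    x * y ∈ W.evK X := by
  refine W.evK_induction X (p := fun y => x * y ∈ W.evK X) ?_ ?_ ?_ hy
  · intro j hj y hy
    refine W.evK_induction X (p := fun x => x * y ∈ W.evK X) ?_ ?_ ?_ hx
    · intro i hi x hx
      exact W.gr_le_evK X (hi.add hj) (W.gr_mul X hx hy)
    · rw [zero_mul]; exact Submodule.zero_mem _
    · intro a b ha hb
      rw [add_mul]; exact Submodule.add_mem _ ha hb
  · rw [mul_zero]; exact Submodule.zero_mem _
  · intro a b ha hb
    rw [mul_add]; exact Submodule.add_mem _ ha hb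

lemma evK_mul_odK (X : SmProjVar k) (x y : W.H X) (hx : x ∈ W.evK X) (hy : y ∈ W.odK X) :
    x * y ∈ W.odK X := by
  refine W.odK_induction X (p := fun y => x * y ∈ W.odK X) ?_ ?_ ?_ hy
  · intro j hj y hy
    refine W.evK_induction X (p := fun x => x * y ∈ W.odK X) ?_ ?_ ?_ hx
    · intro i hi x hx
      exact W.gr_le_odK X (by rw [Nat.even_add]; tauto) (W.gr_mul X hx hy)
    · rw [zero_mul]; exact Submodule.zero_mem _
    · intro a b ha hb
      rw [add_mul]; exact Submodule.add_mem _ ha hb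
  · rw [mul_zero]; exact Submodule.zero_mem _
  · intro a b ha hb
    rw [mul_add]; exact Submodule.add_mem _ ha hb

lemma odK_mul_odK (X : SmProjVar k) (x y : W.H X) (hx : x ∈ W.odK X) (hy : y ∈ W.odK X) :
    x * y ∈ W.evK X := by
  refine W.odK_induction X (p := fun y => x * y ∈ W.evK X) ?_ ?_ ?_ hy
  · intro j hj y hy
    refine W.odK_induction X (p := fun x => x * y ∈ W.evK X) ?_ ?_ ?_ hx
    · intro i hi x hx
      exact W.gr_le_evK X (by rw [Nat.even_add]; tauto) (W.gr_mul X hx hy)
    · rw [zero_mul]; exact Submodule.zero_mem _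
    · intro a b ha hb
      rw [add_mul]; exact Submodule.add_mem _ ha hb
  · rw [mul_zero]; exact Submodule.zero_mem _
  · intro a b ha hb
    rw [mul_add]; exact Submodule.add_mem _ ha hb

lemma pull_evK {X Y : SmProjVar k} (f : X.toOver ⟶ Y.toOver) (x : W.H Y) (hx : x ∈ W.evK Y) :
    W.pullA f x ∈ W.evK X := by
  refine W.evK_induction Y (p := fun x => W.pullA f x ∈ W.evK X) ?_ ?_ ?_ hx
  · intro i hi x hx
    exact W.gr_le_evK X hi ((W.pull_hom f).map_mem i x hx)
  · rw [map_zero]; exact Submodule.zero_mem _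
  · intro a b ha hb
    rw [map_add]; exact Submodule.add_mem _ ha hb

lemma pull_odK {X Y : SmProjVar k} (f : X.toOver ⟶ Y.toOver) (x : W.H Y) (hx : x ∈ W.odK Y) :
    W.pullA f x ∈ W.odK X := by
  refine W.odK_induction Y (p := fun x => W.pullA f x ∈ W.odK X) ?_ ?_ ?_ hx
  · intro i hi x hx
    exact W.gr_le_odK X hi ((W.pull_hom f).map_mem i x hx)
  · rw [map_zero]; exact Submodule.zero_mem _
  · intro a b ha hb
    rw [map_add]; exact Submodule.add_mem _ ha hb

end WeilCohomology

end Bundled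

section BaseChange

variable {k : Type u} [Field k] {K : Type v} [Field K] [CharZero K]
  (W : WeilCohomology.{u, v, w} k K) (Ω : Type t) [Field Ω] [Algebra K Ω]

namespace WeilCohomology

/-- cohomology with coefficients extended to `Ω` -/
abbrev HΩ (X : SmProjVar k) : Type (max t w) := Ω ⊗[K] W.H X

/-- the trace map, extended `Ω`-linearly -/
noncomputable def trΩ (X : SmProjVar k) : W.HΩ Ω X →ₗ[Ω] Ω :=
  (TensorProduct.AlgebraTensorModule.rid K Ω Ω).toLinearMap ∘ₗ (W.trL X).baseChange Ω

@[simp] lemma trΩ_tmul (X : SmProjVar k) (a : Ω) (x : W.H X) :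
    W.trΩ Ω X (a ⊗ₜ[K] x) = W.trL X x • a := by
  simp [trΩ]

/-- the pull-back, extended `Ω`-linearly -/
noncomputable def pullΩ {X Y : SmProjVar k} (f : X.toOver ⟶ Y.toOver) :
    W.HΩ Ω Y →ₐ[Ω] W.HΩ Ω X :=
  Algebra.TensorProduct.map (AlgHom.id Ω Ω) (W.pullA f)

@[simp] lemma pullΩ_tmul {X Y : SmProjVar k} (f : X.toOver ⟶ Y.toOver) (a : Ω) (x : W.H Y) :
    W.pullΩ Ω f (a ⊗ₜ[K] x) = a ⊗ₜ[K] W.pullA f x := by
  simp [pullΩ]

variable {Ω} in
/-- the semilinear action of an automorphism of `Ω` over `K` -/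
noncomputable def sΩ (σ : Ω ≃ₐ[K] Ω) (X : SmProjVar k) : W.HΩ Ω X ≃+* W.HΩ Ω X :=
  (Algebra.TensorProduct.congr σ (AlgEquiv.refl : W.H X ≃ₐ[K] W.H X)).toRingEquiv

@[simp] lemma sΩ_tmul (σ : Ω ≃ₐ[K] Ω) (X : SmProjVar k) (a : Ω) (x : W.H X) :
    W.sΩ σ X (a ⊗ₜ[K] x) = σ a ⊗ₜ[K] x := by
  simp [sΩ]

/-- the `Ω`-span of the algebraic classes -/
noncomputable def algΩ (X : SmProjVar k) : Submodule Ω (W.HΩ Ω X) :=
  (W.algClasses X).baseChange Ω

lemma trΩ_pull_mul (X : SmProjVar k) (x : W.HΩ Ω X)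
    (h : ∀ y : W.H X, W.trΩ Ω X (x * (1 ⊗ₜ[K] y)) = 0) : x = 0 := by
  classical
  let b := Module.Basis.ofVectorSpace K Ω
  set f := TensorProduct.equivFinsuppOfBasisLeft (N := W.H X) b x with hf
  have hx : x = f.sum fun i n => b i ⊗ₜ[K] n := by
    rw [← (TensorProduct.equivFinsuppOfBasisLeft (N := W.H X) b).symm_apply_apply x,
      TensorProduct.equivFinsuppOfBasisLeft_symm_apply]
  have h1 : ∀ i, f i = 0 := by
    intro i
    refine (W.trace X).nondegenerate (f i) fun y => ?_
    show W.trL X (f i * y) = 0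
    have h2 := h y
    rw [hx, Finsupp.sum, Finset.sum_mul, map_sum] at h2
    simp only [Algebra.TensorProduct.tmul_mul_tmul, mul_one, trΩ_tmul] at h2
    by_cases hi : i ∈ f.support
    · exact (linearIndependent_iff'.mp b.linearIndependent) f.support
        (fun i => W.trL X (f i * y)) h2 i hi
    · rw [Finsupp.notMem_support_iff.mp hi, zero_mul, map_zero]
  have h2 : f = 0 := Finsupp.ext h1
  rw [hx, h2, Finsupp.sum_zero_index]

lemma sΩ_algΩ (σ : Ω ≃ₐ[K] Ω) (X : SmProjVar k) (x : W.HΩ Ω X) (hx : x ∈ W.algΩ Ω X) :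
    W.sΩ σ X x ∈ W.algΩ Ω X := by
  refine baseChange_induction _ (p := fun x => W.sΩ σ X x ∈ W.algΩ Ω X) ?_ ?_ ?_ ?_ hx
  · intro y hy
    rw [sΩ_tmul, map_one]
    exact Submodule.tmul_mem_baseChange_of_mem 1 hy
  · rw [map_zero]; exact Submodule.zero_mem _
  · intro a b ha hb
    rw [map_add]; exact Submodule.add_mem _ ha hb
  · intro a x hx
    have : W.sΩ σ X (a • x) = σ a • W.sΩ σ X x := by
      rw [Algebra.smul_def, map_mul, Algebra.smul_def]
      congr 1
    rw [this]
    exact Submodule.smul_mem _ _ hx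

lemma sΩ_symm (σ : Ω ≃ₐ[K] Ω) (X : SmProjVar k) (x : W.HΩ Ω X) :
    W.sΩ σ.symm X (W.sΩ σ X x) = x := by
  induction x using TensorProduct.induction_on with
  | zero => rw [map_zero, map_zero]
  | tmul a y => simp
  | add x y hx hy => rw [map_add, map_add, hx, hy]

lemma sΩ_smul (σ : Ω ≃ₐ[K] Ω) (X : SmProjVar k) (a : Ω) (x : W.HΩ Ω X) :
    W.sΩ σ X (a • x) = σ a • W.sΩ σ X x := by
  rw [Algebra.smul_def, map_mul, Algebra.smul_def]
  congr 1

lemma trΩ_sΩ (σ : Ω ≃ₐ[K] Ω) (X : SmProjVar k) (x : W.HΩ Ω X) :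
    W.trΩ Ω X (W.sΩ σ X x) = σ (W.trΩ Ω X x) := by
  induction x using TensorProduct.induction_on with
  | zero => simp only [map_zero]
  | tmul a y => rw [sΩ_tmul, trΩ_tmul, trΩ_tmul, map_smul]
  | add x y hx hy => simp only [map_add, hx, hy]

lemma sΩ_pullΩ (σ : Ω ≃ₐ[K] Ω) {X Y : SmProjVar k} (f : X.toOver ⟶ Y.toOver) (x : W.HΩ Ω Y) :
    W.sΩ σ X (W.pullΩ Ω f x) = W.pullΩ Ω f (W.sΩ σ Y x) := by
  induction x using TensorProduct.induction_on with
  | zero => simp only [map_zero]
  | tmul a y => rw [pullΩ_tmul, sΩ_tmul, sΩ_tmul, pullΩ_tmul]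
  | add x y hx hy => simp only [map_add, hx, hy]

lemma sΩ_baseChange (σ : Ω ≃ₐ[K] Ω) (X : SmProjVar k) (A : Submodule K (W.H X))
    (x : W.HΩ Ω X) (hx : x ∈ A.baseChange Ω) : W.sΩ σ X x ∈ A.baseChange Ω := by
  refine baseChange_induction _ (p := fun x => W.sΩ σ X x ∈ A.baseChange Ω) ?_ ?_ ?_ ?_ hx
  · intro y hy
    rw [sΩ_tmul, map_one]
    exact Submodule.tmul_mem_baseChange_of_mem 1 hy
  · rw [map_zero]; exact Submodule.zero_mem _
  · intro a b ha hb
    rw [map_add]; exact Submodule.add_mem _ ha hb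
  · intro a x hx
    rw [sΩ_smul]
    exact Submodule.smul_mem _ _ hx

lemma pullΩ_baseChange {X Y : SmProjVar k} (f : X.toOver ⟶ Y.toOver) (A : Submodule K (W.H X))
    (B : Submodule K (W.H Y)) (h : ∀ y ∈ B, W.pullA f y ∈ A) (x : W.HΩ Ω Y)
    (hx : x ∈ B.baseChange Ω) : W.pullΩ Ω f x ∈ A.baseChange Ω := by
  refine baseChange_induction _ (p := fun x => W.pullΩ Ω f x ∈ A.baseChange Ω) ?_ ?_ ?_ ?_ hx
  · intro y hy
    rw [pullΩ_tmul]
    exact Submodule.tmul_mem_baseChange_of_mem 1 (h y hy)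
  · rw [map_zero]; exact Submodule.zero_mem _
  · intro a b ha hb
    rw [map_add]; exact Submodule.add_mem _ ha hb
  · intro a x hx
    rw [map_smul]
    exact Submodule.smul_mem _ _ hx

lemma mulΩ_baseChange (X : SmProjVar k) (A B C : Submodule K (W.H X))
    (h : ∀ x ∈ A, ∀ y ∈ B, x * y ∈ C) (x y : W.HΩ Ω X) (hx : x ∈ A.baseChange Ω)
    (hy : y ∈ B.baseChange Ω) : x * y ∈ C.baseChange Ω := by
  refine baseChange_induction _ (p := fun x => x * y ∈ C.baseChange Ω) ?_ ?_ ?_ ?_ hx
  · intro x hx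
    refine baseChange_induction _ (p := fun y => 1 ⊗ₜ[K] x * y ∈ C.baseChange Ω) ?_ ?_ ?_ ?_ hy
    · intro y hy
      rw [Algebra.TensorProduct.tmul_mul_tmul]
      exact Submodule.tmul_mem_baseChange_of_mem _ (h x hx y hy)
    · rw [mul_zero]; exact Submodule.zero_mem _
    · intro a b ha hb
      rw [mul_add]; exact Submodule.add_mem _ ha hb
    · intro a z hz
      rw [mul_smul_comm]; exact Submodule.smul_mem _ _ hz
  · rw [zero_mul]; exact Submodule.zero_mem _
  · intro a b ha hb
    rw [add_mul]; exact Submodule.add_mem _ ha hb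
  · intro a z hz
    rw [smul_mul_assoc]; exact Submodule.smul_mem _ _ hz

/-- the class of a cycle is an algebraic class -/
lemma cy_mem_algClasses (X : SmProjVar k) (j : ℕ) (c : X.Z j) :
    W.cy X j c ∈ W.algClasses X := Submodule.subset_span ⟨j, c, rfl⟩

lemma one_mem_algClasses (X : SmProjVar k) : (1 : W.H X) ∈ W.algClasses X := by
  obtain ⟨c, -, hc⟩ := W.cycleClasses.cy_fundamental X
  rw [← hc]
  exact W.cy_mem_algClasses X 0 c

lemma mul_mem_algClasses (X : SmProjVar k) (x : W.H X) (hx : x ∈ W.algClasses X)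
    (y : W.H X) (hy : y ∈ W.algClasses X) : x * y ∈ W.algClasses X := by
  unfold CohomologyData.algClasses at hx hy
  induction hx using Submodule.span_induction with
  | mem x hx =>
    induction hy using Submodule.span_induction with
    | mem y hy =>
      obtain ⟨i, c, rfl⟩ := hx
      obtain ⟨j, c', rfl⟩ := hy
      obtain ⟨c'', h⟩ := W.cycleClasses.cy_mul X i j c c'
      rw [← h]
      exact W.cy_mem_algClasses X _ c''
    | zero => rw [mul_zero]; exact Submodule.zero_mem _
    | add a b _ _ ha hb => rw [mul_add]; exact Submodule.add_mem _ ha hb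
    | smul a b _ hb => rw [mul_smul_comm]; exact Submodule.smul_mem _ _ hb
  | zero => rw [zero_mul]; exact Submodule.zero_mem _
  | add a b _ _ ha hb => rw [add_mul]; exact Submodule.add_mem _ ha hb
  | smul a b _ hb => rw [smul_mul_assoc]; exact Submodule.smul_mem _ _ hb

lemma pull_mem_algClasses {X Y : SmProjVar k} (f : X.toOver ⟶ Y.toOver) (y : W.H Y)
    (hy : y ∈ W.algClasses Y) : W.pullA f y ∈ W.algClasses X := by
  unfold CohomologyData.algClasses at hy
  induction hy using Submodule.span_induction with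
  | mem y hy =>
    obtain ⟨j, c, rfl⟩ := hy
    obtain ⟨c', h⟩ := W.cycleClasses.cy_pull f j c
    rw [pullA_apply, ← h]
    exact W.cy_mem_algClasses X _ c'
  | zero => rw [map_zero]; exact Submodule.zero_mem _
  | add a b _ _ ha hb => rw [map_add]; exact Submodule.add_mem _ ha hb
  | smul a b _ hb => rw [map_smul]; exact Submodule.smul_mem _ _ hb

lemma algClasses_le_evK (X : SmProjVar k) : W.algClasses X ≤ W.evK X := by
  unfold CohomologyData.algClasses
  rw [Submodule.span_le]
  rintro _ ⟨j, c, rfl⟩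
  exact W.gr_le_evK X (even_two_mul j) (W.cycleClasses.cy_mem X j c)

omit [Field K] [CharZero K] in
lemma pushCycle_mem {X Y : SmProjVar k} (f : X.toOver ⟶ Y.toOver) (i j : ℕ)
    (hij : j + X.dim = i + Y.dim) (c : X.Z i) :
    ∀ y, (pushCycle f c.toCyc).coeff y ≠ 0 → Y.pointDim y + j = Y.dim := by
  intro y hy
  obtain ⟨x, hx, h'⟩ := exists_ne_zero_of_finsum_mem_ne_zero hy
  have hx' : f.left.base x = y := hx
  subst hx'
  have h1 : c.toCyc.coeff x ≠ 0 := left_ne_zero_of_mul h'
  have h2 : AlgebraicCycle.mapCoeff f.left X.pointDim Y.pointDim x ≠ 0 := by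
    intro h
    apply h'
    dsimp only
    rw [h, Nat.cast_zero, mul_zero]
  have h3 : X.pointDim x = Y.pointDim (f.left.base x) := by
    by_contra h; exact h2 (if_neg h)
  have h4 := c.2 x h1
  omega

lemma tr_eq_zero_of_gr (X : SmProjVar k) {i : ℕ} (hi : i ≠ 2 * X.dim) {x : W.H X}
    (hx : x ∈ W.gr X i) : W.trL X x = 0 := (W.trace X).eq_zero i x hi hx

lemma push_mem_algClasses {X Y : SmProjVar k} (f : X.toOver ⟶ Y.toOver) (x : W.H X)
    (hx : x ∈ W.algClasses X) :
    ∃ y ∈ W.algClasses Y, ∀ z, W.trL Y (y * z) = W.trL X (x * W.pullA f z) := by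
  unfold CohomologyData.algClasses at hx
  induction hx using Submodule.span_induction with
  | mem x hx =>
    obtain ⟨i, c, rfl⟩ := hx
    by_cases hi : X.dim ≤ i + Y.dim
    · obtain ⟨j, hj⟩ : ∃ j, j + X.dim = i + Y.dim := ⟨i + Y.dim - X.dim, by omega⟩
      exact ⟨W.cy Y j ⟨_, pushCycle_mem f i j hj c⟩, W.cy_mem_algClasses Y j _,
        W.cycleClasses.cy_push f i j c _ rfl⟩
    · refine ⟨0, Submodule.zero_mem _, fun z => ?_⟩
      rw [zero_mul, map_zero]
      symm
      refine W.gr_induction Y (p := fun z => W.trL X (W.cy X i c * W.pullA f z) = 0) ?_ ?_ ?_ z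
      · intro m z hz
        by_cases hm : 2 * Y.dim < m
        · have : z = 0 := by
            have h := (W.graded Y).eq_bot m hm
            rw [h] at hz
            exact (Submodule.mem_bot K).mp hz
          rw [this, map_zero, mul_zero, map_zero]
        · refine W.tr_eq_zero_of_gr X (i := 2 * i + m) (by omega) ?_
          exact W.gr_mul X (W.cycleClasses.cy_mem X i c) ((W.pull_hom f).map_mem m z hz)
      · rw [map_zero, mul_zero, map_zero]
      · intro a b ha hb
        rw [map_add, mul_add, map_add, ha, hb, add_zero]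
  | zero => exact ⟨0, Submodule.zero_mem _, fun z => by rw [zero_mul, zero_mul, map_zero, map_zero]⟩
  | add a b _ _ ha hb =>
    obtain ⟨a', ha', h⟩ := ha
    obtain ⟨b', hb', h'⟩ := hb
    exact ⟨a' + b', Submodule.add_mem _ ha' hb', fun z => by
      rw [add_mul, add_mul, map_add, map_add, h, h']⟩
  | smul a b _ hb =>
    obtain ⟨b', hb', h'⟩ := hb
    exact ⟨a • b', Submodule.smul_mem _ _ hb', fun z => by
      rw [smul_mul_assoc, smul_mul_assoc, map_smul, map_smul, h']⟩

/-- The data `SPre` attached to a Weil cohomology theory and an extension of its field of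
coefficients. -/
noncomputable def toSPre : SPre.{u, t, max t w, v} k K Ω where
  H := W.HΩ Ω
  ring X := inferInstance
  algebra X := inferInstance
  fin X := by
    have := (W.graded X).finite
    infer_instance
  ev X := (W.evK X).baseChange Ω
  od X := (W.odK X).baseChange Ω
  ev_sup_od X := baseChange_sup_eq_top _ _ (W.isCompl X).sup_eq_top
  ev_inf_od X := baseChange_disjoint _ _ (W.isCompl X)
  ev_comm X x y hx := by
    refine baseChange_induction _ (p := fun x => x * y = y * x) ?_ ?_ ?_ ?_ hx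
    · intro x hx
      refine baseChange_induction_top (p := fun y => 1 ⊗ₜ[K] x * y = y * 1 ⊗ₜ[K] x) ?_ ?_ ?_ ?_ y
      · intro y
        rw [Algebra.TensorProduct.tmul_mul_tmul, Algebra.TensorProduct.tmul_mul_tmul,
          W.evK_comm X x y hx]
      · rw [mul_zero, zero_mul]
      · intro a b ha hb
        rw [mul_add, add_mul, ha, hb]
      · intro a z hz
        rw [mul_smul_comm, smul_mul_assoc, hz]
    · rw [mul_zero, zero_mul]
    · intro a b ha hb
      rw [mul_add, add_mul, ha, hb]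
    · intro a z hz
      rw [mul_smul_comm, smul_mul_assoc, hz]
  od_anti X x y hx hy := by
    refine baseChange_induction _ (p := fun x => x * y = -(y * x)) ?_ ?_ ?_ ?_ hx
    · intro x hx
      refine baseChange_induction _ (p := fun y => 1 ⊗ₜ[K] x * y = -(y * 1 ⊗ₜ[K] x))
        ?_ ?_ ?_ ?_ hy
      · intro y hy
        rw [Algebra.TensorProduct.tmul_mul_tmul, Algebra.TensorProduct.tmul_mul_tmul,
          W.odK_anti X x y hx hy, TensorProduct.tmul_neg]
      · rw [mul_zero, zero_mul, neg_zero]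
      · intro a b ha hb
        rw [mul_add, add_mul, ha, hb]; abel
      · intro a z hz
        rw [mul_smul_comm, smul_mul_assoc, hz, smul_neg]
    · rw [mul_zero, zero_mul, neg_zero]
    · intro a b ha hb
      rw [mul_add, add_mul, ha, hb]; abel
    · intro a z hz
      rw [mul_smul_comm, smul_mul_assoc, hz, smul_neg]
  ev_mul_ev X x y hx hy := W.mulΩ_baseChange Ω X _ _ _
    (fun x hx y hy => W.evK_mul_evK X x y hx hy) x y hx hy
  ev_mul_od X x y hx hy := W.mulΩ_baseChange Ω X _ _ _
    (fun x hx y hy => W.evK_mul_odK X x y hx hy) x y hx hy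
  od_mul_od X x y hx hy := W.mulΩ_baseChange Ω X _ _ _
    (fun x hx y hy => W.odK_mul_odK X x y hx hy) x y hx hy
  pull f := W.pullΩ Ω f
  pull_id X := by
    refine Algebra.TensorProduct.ext (by ext) (AlgHom.ext fun y => ?_)
    simp [W.pullA_id]
  pull_comp f g := by
    refine Algebra.TensorProduct.ext (by ext) (AlgHom.ext fun y => ?_)
    simp [W.pullA_comp]
  pull_ev f x hx := W.pullΩ_baseChange Ω f _ _ (fun y hy => W.pull_evK f y hy) x hx
  pull_od f x hx := W.pullΩ_baseChange Ω f _ _ (fun y hy => W.pull_odK f y hy) x hx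
  s σ X := W.sΩ σ X
  s_smul σ X a x := W.sΩ_smul Ω σ X a x
  s_pull σ _ _ f x := W.sΩ_pullΩ Ω σ f x
  s_ev σ X x hx := W.sΩ_baseChange Ω σ X _ x hx
  s_od σ X x hx := W.sΩ_baseChange Ω σ X _ x hx
  tr X := W.trΩ Ω X
  tr_od X x hx := by
    refine baseChange_induction _ (p := fun x => W.trΩ Ω X x = 0) ?_ ?_ ?_ ?_ hx
    · intro y hy
      rw [trΩ_tmul]
      refine W.odK_induction X (p := fun y => W.trL X y • (1 : Ω) = 0) ?_ ?_ ?_ hy
      · intro i hi y hy
        rw [W.tr_eq_zero_of_gr X (by rintro rfl; exact hi (even_two_mul _)) hy, zero_smul]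
      · rw [map_zero, zero_smul]
      · intro a b ha hb
        rw [map_add, add_smul, ha, hb, add_zero]
    · rw [map_zero]
    · intro a b ha hb
      rw [map_add, ha, hb, add_zero]
    · intro a b hb
      rw [map_smul, hb, smul_zero]
  tr_s σ X x := W.trΩ_sΩ Ω σ X x
  nondeg X x h := W.trΩ_pull_mul Ω X x fun y => h _
  span_ext X Y := by
    rw [eq_top_iff]
    intro z _
    refine baseChange_induction_top (p := fun z => z ∈ Submodule.span Ω
      {z : W.HΩ Ω (X.prod Y) | ∃ x y, z = W.pullΩ Ω (fst X Y) x * W.pullΩ Ω (snd X Y) y})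
      ?_ ?_ ?_ ?_ z
    · intro z
      obtain ⟨t, rfl⟩ := (W.kunneth X Y (LinearMap.mul' K _ ∘ₗ TensorProduct.map
        (W.pullA (fst X Y)).toLinearMap (W.pullA (snd X Y)).toLinearMap) (fun a b => rfl)).2 z
      induction t using TensorProduct.induction_on with
      | zero => rw [map_zero, TensorProduct.tmul_zero]; exact Submodule.zero_mem _
      | tmul x y =>
        refine Submodule.subset_span ⟨1 ⊗ₜ[K] x, 1 ⊗ₜ[K] y, ?_⟩
        rw [pullΩ_tmul, pullΩ_tmul, Algebra.TensorProduct.tmul_mul_tmul, mul_one]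
        rfl
      | add a b ha hb => rw [map_add, TensorProduct.tmul_add]; exact Submodule.add_mem _ ha hb
    · exact Submodule.zero_mem _
    · intro a b ha hb
      exact Submodule.add_mem _ ha hb
    · intro a b hb
      exact Submodule.smul_mem _ _ hb
  tr_prod X Y x y := by
    refine baseChange_induction_top (p := fun x => W.trΩ Ω (X.prod Y)
      (W.pullΩ Ω (fst X Y) x * W.pullΩ Ω (snd X Y) y) = W.trΩ Ω X x * W.trΩ Ω Y y) ?_ ?_ ?_ ?_ x
    · intro x
      refine baseChange_induction_top (p := fun y => W.trΩ Ω (X.prod Y)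
        (W.pullΩ Ω (fst X Y) (1 ⊗ₜ[K] x) * W.pullΩ Ω (snd X Y) y) =
          W.trΩ Ω X (1 ⊗ₜ[K] x) * W.trΩ Ω Y y) ?_ ?_ ?_ ?_ y
      · intro y
        rw [pullΩ_tmul, pullΩ_tmul, Algebra.TensorProduct.tmul_mul_tmul, trΩ_tmul, trΩ_tmul,
          trΩ_tmul, trL_apply, pullA_apply, pullA_apply, W.tr_prod, mul_one,
          smul_mul_smul_comm, mul_one, trL_apply, trL_apply]
      · simp only [map_zero, mul_zero]
      · intro a b ha hb
        simp only [map_add, mul_add, ha, hb]
      · intro a b hb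
        rw [map_smul, mul_smul_comm, map_smul, hb, map_smul, smul_eq_mul, smul_eq_mul]
        ring
    · simp only [map_zero, zero_mul]
    · intro a b ha hb
      simp only [map_add, add_mul, ha, hb]
    · intro a b hb
      rw [map_smul, smul_mul_assoc, map_smul, hb, map_smul, smul_eq_mul, smul_eq_mul]
      ring
  alg X := W.algΩ Ω X
  alg_le_ev X := by
    intro x hx
    refine baseChange_induction _ (p := fun x => x ∈ (W.evK X).baseChange Ω) ?_ ?_ ?_ ?_ hx
    · intro y hy
      exact Submodule.tmul_mem_baseChange_of_mem 1 (W.algClasses_le_evK X hy)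
    · exact Submodule.zero_mem _
    · intro a b ha hb
      exact Submodule.add_mem _ ha hb
    · intro a b hb
      exact Submodule.smul_mem _ _ hb
  one_mem X := Submodule.tmul_mem_baseChange_of_mem 1 (W.one_mem_algClasses X)
  mul_mem X x y hx hy := W.mulΩ_baseChange Ω X _ _ _ (W.mul_mem_algClasses X) x y hx hy
  pull_mem f x hx := W.pullΩ_baseChange Ω f _ _ (W.pull_mem_algClasses f) x hx
  push {X Y} f a ha := by
    refine baseChange_induction _ (p := fun a => ∃ b ∈ W.algΩ Ω Y,
      ∀ y, W.trΩ Ω Y (b * y) = W.trΩ Ω X (a * W.pullΩ Ω f y)) ?_ ?_ ?_ ?_ ha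
    · intro x hx
      obtain ⟨y, hy, h⟩ := W.push_mem_algClasses f x hx
      refine ⟨1 ⊗ₜ[K] y, Submodule.tmul_mem_baseChange_of_mem 1 hy, fun z => ?_⟩
      refine baseChange_induction_top (p := fun z => W.trΩ Ω Y (1 ⊗ₜ[K] y * z) =
        W.trΩ Ω X (1 ⊗ₜ[K] x * W.pullΩ Ω f z)) ?_ ?_ ?_ ?_ z
      · intro z
        rw [pullΩ_tmul, Algebra.TensorProduct.tmul_mul_tmul,
          Algebra.TensorProduct.tmul_mul_tmul, trΩ_tmul, trΩ_tmul, h]
      · simp only [map_zero, mul_zero]
      · intro a b ha hb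
        rw [mul_add, map_add, ha, hb, map_add, mul_add, map_add]
      · intro a b hb
        rw [mul_smul_comm, map_smul, hb, map_smul, mul_smul_comm, map_smul]
    · exact ⟨0, Submodule.zero_mem _, fun y => by rw [zero_mul, zero_mul, map_zero, map_zero]⟩
    · rintro a b ⟨a', ha', h⟩ ⟨b', hb', h'⟩
      exact ⟨a' + b', Submodule.add_mem _ ha' hb', fun y => by
        rw [add_mul, add_mul, map_add, map_add, h, h']⟩
    · rintro a b ⟨b', hb', h'⟩
      exact ⟨a • b', Submodule.smul_mem _ _ hb', fun y => by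
        rw [smul_mul_assoc, smul_mul_assoc, map_smul, map_smul, h']⟩
  s_alg σ X x := by
    refine ⟨fun h => ?_, fun h => W.sΩ_algΩ Ω σ X x h⟩
    have := W.sΩ_algΩ Ω σ.symm X _ h
    rwa [W.sΩ_symm] at this

/-- D in the auxiliary setting implies the standard conjecture D -/
lemma standardD_of_D (X : SmProjVar k) (h : (W.toSPre Ω).D X) :
    W.StandardD X := by
  intro j a b hab
  unfold CohomologyData.HomEquiv
  rw [← sub_eq_zero]
  set z := W.cy X j a - W.cy X j b with hz
  have hzmem : z ∈ W.algClasses X :=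
    Submodule.sub_mem _ (W.cy_mem_algClasses X j a) (W.cy_mem_algClasses X j b)
  have hzgr : z ∈ W.gr X (2 * j) :=
    Submodule.sub_mem _ (W.cycleClasses.cy_mem X j a) (W.cycleClasses.cy_mem X j b)
  have key : ∀ y ∈ W.algClasses X, W.trL X (z * y) = 0 := by
    intro y hy
    unfold CohomologyData.algClasses at hy
    induction hy using Submodule.span_induction with
    | mem y hy =>
      obtain ⟨i, c, rfl⟩ := hy
      by_cases hi : j + i = X.dim
      · rw [hz, sub_mul, map_sub, trL_apply, trL_apply, W.cycleClasses.tr_cy_mul X j i a c hi,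
          W.cycleClasses.tr_cy_mul X j i b c hi, hab i hi c, sub_self]
      · exact W.tr_eq_zero_of_gr X (i := 2 * j + 2 * i) (by omega)
          (W.gr_mul X hzgr (W.cycleClasses.cy_mem X i c))
    | zero => rw [mul_zero, map_zero]
    | add a b _ _ ha hb => rw [mul_add, map_add, ha, hb, add_zero]
    | smul a b _ hb => rw [mul_smul_comm, map_smul, hb, smul_zero]
  have h1 : (1 ⊗ₜ[K] z : W.HΩ Ω X) = 0 := by
    refine h _ ⟨Submodule.tmul_mem_baseChange_of_mem 1 hzmem, fun a ha => ?_⟩
    refine baseChange_induction _ (p := fun a => W.trΩ Ω X (1 ⊗ₜ[K] z * a) = 0) ?_ ?_ ?_ ?_ ha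
    · intro y hy
      rw [Algebra.TensorProduct.tmul_mul_tmul, trΩ_tmul, key y hy, zero_smul]
    · rw [mul_zero, map_zero]
    · intro a b ha hb
      rw [mul_add, map_add, ha, hb, add_zero]
    · intro a b hb
      rw [mul_smul_comm, map_smul, hb, smul_zero]
  refine (W.trace X).nondegenerate z fun y => ?_
  show W.trL X (z * y) = 0
  have h2 : W.trΩ Ω X (1 ⊗ₜ[K] z * 1 ⊗ₜ[K] y) = 0 := by rw [h1, zero_mul, map_zero]
  rw [Algebra.TensorProduct.tmul_mul_tmul, trΩ_tmul, mul_one, smul_eq_zero] at h2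
  exact h2.resolve_right one_ne_zero

end WeilCohomology

end BaseChange

end Pool.Agent.Helper10
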