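import Mathlib

/-!
# Determinants with ordered products
-/

namespace Pool.Agent.Helper10

/-- the sum over all permutations `π` of `sgn π` times the ordered product
`x_{0, π 0} ⋯ x_{n-1, π (n-1)}` (the determinant, if the entries commute) -/
def rowDet {A : Type*} [Ring A] {n : ℕ} (x : Fin n → Fin n → A) : A :=
  ∑ π : Equiv.Perm (Fin n), (Equiv.Perm.sign π : ℤ) • (List.ofFn fun i => x i (π i)).prod

end Pool.Agent.Helper10
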