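import Mathlib
import Pool.Agent.Helper10.RowDet
import Pool.Agent.Helper10.GIT.Integral

/-!
# Ordered products of (anti)commuting letters, and products of determinants
-/

open Finset

namespace Pool.Agent.Helper10

open GIT

/-- reordering products of letters: the sign does not depend on the letters -/
lemma exists_sign_perm {ι : Type*} (A : Type*) [Ring A] (s : ι → ι → ℤ) (hs : ∀ i j, s i j = 1 ∨
    s i j = -1) {l₁ l₂ : List ι} (h : l₁.Perm l₂) :
    ∃ c : ℤ, (c = 1 ∨ c = -1) ∧ ∀ a : ι → A, (∀ i j, a i * a j = s i j • (a j * a i)) →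
      (l₁.map a).prod = c • (l₂.map a).prod := by
  induction h with
  | nil => exact ⟨1, .inl rfl, fun a _ => by simp⟩
  | cons x _ ih =>
    obtain ⟨c, hc, h⟩ := ih
    refine ⟨c, hc, fun a ha => ?_⟩
    rw [List.map_cons, List.prod_cons, h a ha, List.map_cons, List.prod_cons, mul_smul_comm]
  | swap x y l =>
    refine ⟨s y x, hs y x, fun a ha => ?_⟩
    simp only [List.map_cons, List.prod_cons]
    rw [← mul_assoc, ha y x, smul_mul_assoc, mul_assoc]
  | trans _ _ ih₁ ih₂ =>
    obtain ⟨c, hc, h⟩ := ih₁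
    obtain ⟨d, hd, h'⟩ := ih₂
    refine ⟨c * d, ?_, fun a ha => ?_⟩
    · rcases hc with rfl | rfl <;> rcases hd with rfl | rfl <;> simp
    · rw [h a ha, h' a ha, mul_smul]

section

variable {Ω : Type*} [Field Ω] {A : Type*} [Ring A] [Algebra Ω A]

/-- expansion of an ordered product of sums -/
lemma ofFn_prod_sum {m : ℕ} {α : Fin m → Type*} [∀ i, Fintype (α i)]
    (c : ∀ i, α i → Ω) (f : ∀ i, α i → A) :
    (List.ofFn fun i => ∑ a, c i a • f i a).prod =
      ∑ r : (∀ i, α i), (∏ i, c i (r i)) • (List.ofFn fun i => f i (r i)).prod := by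
  classical
  have h1 := (MultilinearMap.mkPiAlgebraFin Ω m A).map_sum (fun i (a : α i) => c i a • f i a)
  rw [MultilinearMap.mkPiAlgebraFin_apply] at h1
  rw [h1]
  refine sum_congr rfl fun r _ => ?_
  rw [MultilinearMap.map_smul_univ, MultilinearMap.mkPiAlgebraFin_apply]

/-- `rowDet` as a sum over all maps -/
lemma rowDet_eq {n : ℕ} (x : Fin n → Fin n → A) :
    rowDet x = ∑ w : Fin n → Fin n, (eps w : Ω) • (List.ofFn fun i => x i (w i)).prod := by
  classical
  have h1 : ∀ w : Fin n → Fin n, (eps w : Ω) • (List.ofFn fun i => x i (w i)).prod =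
      ∑ π : Equiv.Perm (Fin n), if (π : Fin n → Fin n) = w then
        (((Equiv.Perm.sign π : ℤ) : Ω)) • (List.ofFn fun i => x i (π i)).prod else 0 := by
    intro w
    rw [eps_eq, sum_smul]
    refine sum_congr rfl fun π _ => ?_
    by_cases h : (π : Fin n → Fin n) = w
    · rw [if_pos h, ← h]
      simp
    · rw [if_neg h]
      obtain ⟨i, hi⟩ := Function.ne_iff.mp h
      rw [prod_eq_zero (mem_univ i) (if_neg hi), mul_zero, zero_smul]
  rw [sum_congr rfl fun w _ => h1 w, sum_comm, rowDet]
  refine sum_congr rfl fun π _ => ?_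
  rw [sum_ite_eq univ (π : Fin n → Fin n), if_pos (mem_univ _), Int.cast_smul_eq_zsmul]

end

section

variable {m : ℕ} {n : Fin m → ℕ} {N : ℕ} {e : Fin m → ℕ}

/-- the positions of the letters, ordered by the copy -/
def pos₁ (m N : ℕ) : List (Fin N × Fin m) :=
  (List.ofFn fun j : Fin N => List.ofFn fun t : Fin m => (j, t)).flatten

/-- the positions of the letters, ordered by the slot -/
def pos₂ (σ : ∀ t, Fin (e t) × Fin (n t) ≃ Fin N) : List (Fin N × Fin m) :=
  (List.ofFn fun t : Fin m => (List.ofFn fun k : Fin (e t) =>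
    List.ofFn fun i : Fin (n t) => (σ t (k, i), t)).flatten).flatten

lemma count_ofFn_flatten {α : Type*} [BEq α] {k : ℕ} (l : Fin k → List α) (a : α) :
    (List.ofFn l).flatten.count a = ∑ i, (l i).count a := by
  rw [List.count_flatten, List.map_ofFn, List.sum_ofFn]
  rfl

lemma count_ofFn {α : Type*} [BEq α] [LawfulBEq α] [DecidableEq α] {k : ℕ} (l : Fin k → α) (a : α) :
    (List.ofFn l).count a = ∑ i, if l i = a then 1 else 0 := by
  induction k with
  | zero => simp
  | succ k ih =>
    rw [List.ofFn_succ, List.count_cons, ih, Fin.sum_univ_succ, add_comm]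
    congr 1
    by_cases h : l 0 = a <;> simp [h]

lemma pos_perm (σ : ∀ t, Fin (e t) × Fin (n t) ≃ Fin N) : (pos₁ m N).Perm (pos₂ σ) := by
  classical
  rw [List.perm_iff_count]
  rintro ⟨j, t⟩
  unfold pos₁ pos₂
  rw [count_ofFn_flatten, count_ofFn_flatten]
  simp only [count_ofFn_flatten, count_ofFn]
  have h1 : ∑ j' : Fin N, ∑ t' : Fin m, (if (j', t') = (j, t) then 1 else 0) = 1 := by
    rw [← Fintype.sum_prod_type (f := fun x : Fin N × Fin m => if x = (j, t) then 1 else 0)]
    simp
  rw [h1, sum_eq_single t]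
  · rw [← Fintype.sum_prod_type (f := fun x : Fin (e t) × Fin (n t) =>
      if (σ t (x.1, x.2), t) = (j, t) then 1 else 0),
      sum_eq_single ((σ t).symm j)]
    · simp
    · intro x _ hx
      refine if_neg fun h => hx ?_
      rw [Prod.mk.injEq] at h
      rw [← h.1]
      simp
    · intro h; exact absurd (mem_univ _) h
  · intro t' _ ht'
    refine sum_eq_zero fun k _ => sum_eq_zero fun i _ => ?_
    exact if_neg fun h => ht' (congrArg Prod.snd h)
  · intro h; exact absurd (mem_univ _) h

/-- all the labellings -/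
def labEquiv (σ : ∀ t, Fin (e t) × Fin (n t) ≃ Fin N) :
    (Fin N → Idx n) ≃ (∀ t, Fin (e t) → Fin (n t) → Fin (n t)) where
  toFun W t k i := W (σ t (k, i)) t
  invFun w j t := w t ((σ t).symm j).1 ((σ t).symm j).2
  left_inv W := by
    funext j t
    simp
  right_inv w := by
    funext t k i
    simp

variable {Ω : Type*} [Field Ω] {A : Type*} [Ring A] [Algebra Ω A]

/-- the sum of ordered products with the coefficients of a product of determinants is, up to a
sign, a product of determinants -/
lemma exists_sign_det (σ : ∀ t, Fin (e t) × Fin (n t) ≃ Fin N)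
    (s : Fin m → Fin m → ℤ) (hs : ∀ t t', s t t' = 1 ∨ s t t' = -1)
    (L : Fin N → ∀ t, Fin (n t) → A)
    (hL : ∀ j t b j' t' b', L j t b * L j' t' b' = s t t' • (L j' t' b' * L j t b)) :
    ∃ c : ℤ, (c = 1 ∨ c = -1) ∧
      ∑ W : Fin N → Idx n, (∏ t, ∏ k, (eps (fun i => W (σ t (k, i)) t) : Ω)) •
        (List.ofFn fun j => (List.ofFn fun t => L j t (W j t)).prod).prod =
      c • (List.ofFn fun t => (List.ofFn fun k =>
        rowDet fun i b => L (σ t (k, i)) t b).prod).prod := by
  obtain ⟨c, hc, h⟩ := exists_sign_perm A (fun x y : Fin N × Fin m => s x.2 y.2)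
    (fun x y => hs x.2 y.2) (pos_perm σ)
  refine ⟨c, hc, ?_⟩
  have h1 : ∀ W : Fin N → Idx n,
      (List.ofFn fun j => (List.ofFn fun t => L j t (W j t)).prod).prod =
      c • (List.ofFn fun t => (List.ofFn fun k => (List.ofFn fun i =>
        L (σ t (k, i)) t (W (σ t (k, i)) t)).prod).prod).prod := by
    intro W
    have h2 := h (fun x => L x.1 x.2 (W x.1 x.2)) (fun x y => hL _ _ _ _ _ _)
    unfold pos₁ pos₂ at h2
    simp only [List.map_flatten, List.prod_flatten, List.map_ofFn, Function.comp_def] at h2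
    exact h2
  rw [sum_congr rfl fun W _ => congrArg _ (h1 W)]
  have h2 : ∀ t, (List.ofFn fun k => rowDet fun i b => L (σ t (k, i)) t b).prod =
      ∑ w : Fin (e t) → Fin (n t) → Fin (n t), (∏ k, (eps (w k) : Ω)) •
        (List.ofFn fun k => (List.ofFn fun i => L (σ t (k, i)) t (w k i)).prod).prod := by
    intro t
    have h3 : ∀ k, rowDet (fun i b => L (σ t (k, i)) t b) =
        ∑ w : Fin (n t) → Fin (n t), (eps w : Ω) •
          (List.ofFn fun i => L (σ t (k, i)) t (w i)).prod := fun k => rowDet_eq _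
    simp only [h3]
    exact ofFn_prod_sum (α := fun _ : Fin (e t) => (Fin (n t) → Fin (n t)))
      (fun _ w => (eps w : Ω)) (fun k w => (List.ofFn fun i => L (σ t (k, i)) t (w i)).prod)
  simp only [h2]
  rw [ofFn_prod_sum (α := fun t : Fin m => (Fin (e t) → Fin (n t) → Fin (n t)))
    (fun t w => ∏ k, (eps (w k) : Ω))
    (fun t w => (List.ofFn fun k => (List.ofFn fun i => L (σ t (k, i)) t (w k i)).prod).prod),
    ← Equiv.sum_comp (labEquiv σ), smul_sum]
  refine sum_congr rfl fun W _ => ?_
  rw [smul_comm]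
  rfl

end

end Pool.Agent.Helper10
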