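import Mathlib
import Pool.Agent.Helper10.Weil

/-!
# Varieties of spectral type, varieties of Tate type, and the classes they generate
-/

universe u v w t

open CategoryTheory TensorProduct

namespace Pool.Agent.Helper10

open SmProjVar

section LinearAlgebra

variable {K : Type v} [Field K] (Ω : Type t) [Field Ω] [Algebra K Ω]
  {V : Type w} [AddCommGroup V] [Module K V]

/-- The generalised eigenspace in `Ω ⊗ V` for the eigenvalue `l ∈ Ω` of an operator on `V`. -/
noncomputable def extEigenspace (f : Module.End K V) (l : Ω) : Submodule Ω (Ω ⊗[K] V) :=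
  Module.End.maxGenEigenspace (f.baseChange Ω : Module.End Ω (Ω ⊗[K] V)) l

/-- The joint generalised eigenspace in `Ω ⊗ V`, with eigenvalues `χ i ∈ Ω`, of finitely many
operators `T i` on `V`. -/
noncomputable def jointEigenspace {m : ℕ} (T : Fin m → Module.End K V) (χ : Fin m → Ω) :
    Submodule Ω (Ω ⊗[K] V) :=
  ⨅ i, extEigenspace Ω (T i) (χ i)

/-- The `Ω`-linear span in `End (Ω ⊗ V)` of a set `R` of operators on `V`. -/
noncomputable def extOperators (R : Set (Module.End K V)) :
    Submodule Ω (Module.End Ω (Ω ⊗[K] V)) :=
  Submodule.span Ω {f | ∃ g ∈ R, f = g.baseChange Ω}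

/-- The joint generalised eigenspace with eigenvalues `χ` is a line, and the joint generalised
eigenspace with eigenvalues `χ ∘ adj` is the image of its conjugate under some automorphism `σ` of
`Ω` over `K` (the joint generalised eigenspace with eigenvalues `σ ∘ χ`) by an injective operator
`U` which is an `Ω`-linear combination of elements of `R`. -/
def SelfDualLine {m : ℕ} (R : Set (Module.End K V)) (T : Fin m → Module.End K V)
    (adj : Fin m → Fin m) (χ : Fin m → Ω) : Prop :=
  Module.finrank Ω (jointEigenspace Ω T χ) = 1 ∧
    ∃ (σ : Ω ≃ₐ[K] Ω) (U : Module.End Ω (Ω ⊗[K] V)), U ∈ extOperators Ω R ∧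
      Function.Injective U ∧
      Submodule.map U (jointEigenspace Ω T fun i => σ (χ i)) =
        jointEigenspace Ω T fun i => χ (adj i)

/-- For a space `V` with a pairing `B`, a subspace `A` (the algebraic classes) and a set `R` of
operators (the algebraic ones): there are finitely many commuting operators `T i` in `R`, permuted
by the passage to the adjoint (the adjoint of `T i` is `T (adj i)`), such that every joint
generalised eigenspace of the `T i` in `Ω ⊗ V` is contained in `Ω ⊗ A`, or is a line whose dual
line is the image of one of its conjugates under an injective operator in `Ω ⊗ R`. -/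
def SpectralCondition (A : Submodule K V) (R : Set (Module.End K V)) (B : V → V → K) : Prop :=
  ∃ (m : ℕ) (T : Fin m → Module.End K V) (adj : Fin m → Fin m),
    (∀ i, adj (adj i) = i) ∧ (∀ i, T i ∈ R) ∧ (∀ i j, Commute (T i) (T j)) ∧
    (∀ i x y, B (T i x) y = B x (T (adj i) y)) ∧
    ∀ χ : Fin m → Ω, jointEigenspace Ω T χ ≤ A.baseChange Ω ∨ SelfDualLine Ω R T adj χ

/-- For an operator `φ` on `V` and `c ∈ K`: every eigenvalue `l` of `φ` on the (`φ`-stable)
subspace `G` is conjugate over `K` to `c / l`. -/
def ConjSelfDual (G : Submodule K V) (φ : Module.End K V) (c : K) : Prop :=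
  ∀ l : Ω, G.baseChange Ω ⊓ extEigenspace Ω φ l ≠ ⊥ →
    ∃ σ : Ω ≃ₐ[K] Ω, l * σ l = algebraMap K Ω c

/-- The part of the generalised `c`-eigenspace of the operator `φ` which lies in the subspace `G`
is contained in `A`. -/
def EigenspaceLE (φ : Module.End K V) (c : K) (G A : Submodule K V) : Prop :=
  ∀ x ∈ G, (∃ n : ℕ, ((φ - c • 1) ^ n) x = 0) → x ∈ A

end LinearAlgebra

/-- The morphism `f × g : X × Y ⟶ X' × Y'`. -/
noncomputable def SmProjVar.prodMap {k : Type u} [Field k] {X Y X' Y' : SmProjVar k}
    (f : X.toOver ⟶ X'.toOver) (g : Y.toOver ⟶ Y'.toOver) :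
    (X.prod Y).toOver ⟶ (X'.prod Y').toOver :=
  lift (fst X Y ≫ f) (snd X Y ≫ g)

/-- The smallest class of varieties which contains the class `C` and is closed under products. -/
inductive ProductsOf {k : Type u} [Field k] (C : SmProjVar k → Prop) : SmProjVar k → Prop
  | of {X : SmProjVar k} : C X → ProductsOf C X
  | prod {X Y : SmProjVar k} : ProductsOf C X → ProductsOf C Y → ProductsOf C (X.prod Y)

namespace CohomologyData

variable {k : Type u} [Field k] {K : Type v} [Field K] (W : CohomologyData.{u, v, w} k K)
  (Ω : Type t) [Field Ω] [Algebra K Ω]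

/-- The operators on `H(X)` induced by algebraic correspondences (with coefficients in `K`). -/
def algEnd (X : SmProjVar k) : Set (Module.End K (W.H X)) := {u | W.IsAlgebraicMap X X u}

/-- A variety of spectral type: there are finitely many commuting algebraic correspondences on `X`,
stable under adjunction, such that every joint generalised eigenspace `V` in `Ω ⊗ H(X)` is spanned
by algebraic classes, or is a line whose dual line is the image of some conjugate
`σ V` (`σ` in `Aut(Ω / K)`) under a bijective operator induced by an algebraic correspondence. -/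
def SpectralType (X : SmProjVar k) : Prop :=
  SpectralCondition Ω (W.algClasses X) (W.algEnd X) (W.pairing X)

/-- A variety of Tate type: `X` has an endomorphism `F` (for instance the Frobenius endomorphism
when `k` is finite with `q` elements, or the identity and `q = 1`) such that
* `φ = F^*` multiplies the trace by `q ^ dim X`;
* the Tate classes of `X × X`, i.e. the classes of degree `2i` in the generalised
  `q ^ i`-eigenspace of `φ₂ = (F × F)^*`, are linear combinations of classes of algebraic cycles;
* every eigenvalue `l` of `F^*` on `H^i(X)` is conjugate over `K` to `q ^ i / l`. -/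
def TateType (X : SmProjVar k) : Prop :=
  ∃ (F : X.toOver ⟶ X.toOver) (q : K) (φ : Module.End K (W.H X))
    (φ₂ : Module.End K (W.H (X.prod X))),
    (∀ x, φ x = W.pull F x) ∧ (∀ z, φ₂ z = W.pull (prodMap F F) z) ∧
    (∀ x, W.tr X (W.pull F x) = q ^ X.dim * W.tr X x) ∧
    (∀ i, EigenspaceLE φ₂ (q ^ i) (W.gr (X.prod X) (2 * i)) (W.algClasses (X.prod X))) ∧
    ∀ i, ConjSelfDual Ω (W.gr X i) φ (q ^ i)

/-- The homological motive of `Y` is a direct summand of a direct sum of (Tate twists of)
motives of varieties `X i` in the class `C`: the identity of `H(Y)` is a sum of compositions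
`H(Y) → H(X i) → H(Y)` of maps induced by algebraic correspondences. -/
def SummandOf (C : SmProjVar k → Prop) (Y : SmProjVar k) : Prop :=
  ∃ (n : ℕ) (X : Fin n → SmProjVar k) (f : ∀ i, W.H Y → W.H (X i)) (g : ∀ i, W.H (X i) → W.H Y),
    (∀ i, C (X i)) ∧ (∀ i, W.IsAlgebraicMap Y (X i) (f i)) ∧
      (∀ i, W.IsAlgebraicMap (X i) Y (g i)) ∧ ∀ y, ∑ i, g i (f i y) = y

end CohomologyData

end Pool.Agent.Helper10
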