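import Mathlib
import Pool.Agent.Helper10.Types

/-!
# Varieties whose cohomology is spanned by linear forms with an algebraic norm
-/

universe u v w t

open CategoryTheory TensorProduct

namespace Pool.Agent.Helper10

open SmProjVar

/-- `X.selfProd n` is the product `X ^ (n + 1)` of `n + 1` copies of `X`. -/
noncomputable def SmProjVar.selfProd {k : Type u} [Field k] (X : SmProjVar k) : ℕ → SmProjVar k
  | 0 => X
  | n + 1 => (SmProjVar.selfProd X n).prod X

namespace CohomologyData

variable {k : Type u} [Field k] {K : Type v} [Field K] (W : CohomologyData.{u, v, w} k K)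
  (Ω : Type t) [Field Ω] [Algebra K Ω]

/-- The external product `y_0 × ⋯ × y_n` in `H(X ^ (n + 1))`. -/
noncomputable def extProd (X : SmProjVar k) : ∀ n : ℕ, (ℕ → W.H X) → W.H (X.selfProd n)
  | 0, y => y 0
  | n + 1, y => W.pull (fst (X.selfProd n) X) (extProd X n y) *
      W.pull (snd (X.selfProd n) X) (y (n + 1))

/-- The `Ω`-linear combinations of the forms `(y_0, …, y_n) ↦ ∫ c ∪ (y_0 × ⋯ × y_n)` on `H(X)`,
where `c` is (a `K`-linear combination of) classes of algebraic cycles on `X ^ (n + 1)`. -/
def algForms (X : SmProjVar k) (n : ℕ) : Submodule Ω ((ℕ → W.H X) → Ω) :=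
  Submodule.span Ω {F | ∃ c ∈ W.algClasses (X.selfProd n),
    ∀ y, F y = algebraMap K Ω (W.pairing (X.selfProd n) c (W.extProd X n y))}

/-- `l` vanishes on the classes of even degree, or on the classes of odd degree. -/
def HasParity (X : SmProjVar k) (l : W.H X →ₗ[K] Ω) : Prop :=
  ∃ p : ℕ, ∀ j, ∀ x ∈ W.gr X j, Odd (p + j) → l x = 0

/-- The form `(y_0, …, y_n) ↦ σ_0 (l y_0) ⋯ σ_n (l y_n)`, a product of conjugates of the linear
form `l`, is algebraic. -/
def NormAlgebraic (X : SmProjVar k) (n : ℕ) (σ : ℕ → (Ω ≃ₐ[K] Ω)) (l : W.H X →ₗ[K] Ω) : Prop :=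
  (fun y => ∏ j ∈ Finset.range (n + 1), σ j (l (y j))) ∈ W.algForms Ω X n

/-- `X` is of norm type: the linear forms `H(X) → Ω` are spanned by forms (vanishing on the odd
or on the even part of `H(X)`) some product of conjugates of which is algebraic. -/
def NormType (X : SmProjVar k) : Prop :=
  Submodule.span Ω {l | W.HasParity Ω X l ∧ ∃ n σ, W.NormAlgebraic Ω X n σ l} = ⊤

/-- `X` is of norm type, of spectral type or of Tate type. -/
def SelfDualType (X : SmProjVar k) : Prop :=
  W.NormType Ω X ∨ W.SpectralType Ω X ∨ W.TateType Ω X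

/-- `V` is a product of varieties of norm, spectral or Tate type, or the product of such a product
and a variety all of whose powers satisfy the standard conjecture D. -/
def RelativeType (V : SmProjVar k) : Prop :=
  ∃ P, ProductsOf (W.SelfDualType Ω) P ∧
    (V = P ∨ ∃ X : SmProjVar k, (∀ n, W.StandardD (X.selfProd n)) ∧ V = X.prod P)

/-- `X` is of norm type for the family `σ_0, …, σ_n`: the linear forms `H(X) → Ω` are spanned by
forms `l` (vanishing on the odd or on the even part of `H(X)`) for which the form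
`(y_0, …, y_n) ↦ σ_0 (l y_0) ⋯ σ_n (l y_n)` is algebraic. -/
def UniformNormType (n : ℕ) (σ : ℕ → (Ω ≃ₐ[K] Ω)) (X : SmProjVar k) : Prop :=
  Submodule.span Ω {l | W.HasParity Ω X l ∧ W.NormAlgebraic Ω X n σ l} = ⊤

/-- `V` is a product of varieties of norm type for the family `σ_0, …, σ_n`, or the product of
such a product and a variety `X` such that `X ^ (n + 1)` satisfies the standard conjecture D. -/
def UniformRelativeType (n : ℕ) (σ : ℕ → (Ω ≃ₐ[K] Ω)) (V : SmProjVar k) : Prop :=
  ∃ P, ProductsOf (W.UniformNormType Ω n σ) P ∧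
    (V = P ∨ ∃ X : SmProjVar k, W.StandardD (X.selfProd n) ∧ V = X.prod P)

end CohomologyData

end Pool.Agent.Helper10
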