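import Mathlib
import Pool.Agent.Helper10.Core

/-!
# Splittings of cohomology compatible with algebraic cycles and Galois conjugation
-/

universe u v w t

open CategoryTheory

namespace Pool.Agent.Helper10

open SmProjVar

namespace SPre

variable {k : Type u} [Field k] {K : Type t} [Field K] {Ω : Type v} [Field Ω] [Algebra K Ω]
  (P : SPre.{u, v, w, t} k K Ω)

/-- parity-homogeneous elements form a monoid -/
def homSub (Z : SmProjVar k) : Submonoid (P.H Z) where
  carrier := {x | P.Hom Z x}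
  one_mem' := .inl (P.alg_le_ev Z (P.one_mem Z))
  mul_mem' := fun ha hb => Hom.mul P ha hb

/-- equality up to sign -/
def signCon (Z : SmProjVar k) : Con (P.homSub Z) where
  r x y := (x : P.H Z) = y ∨ (x : P.H Z) = -y
  iseqv :=
    { refl := fun x => .inl rfl
      symm := by
        rintro x y (h | h)
        · exact .inl h.symm
        · exact .inr (by rw [h, neg_neg])
      trans := by
        rintro x y z (h | h) (h' | h')
        · exact .inl (h.trans h')
        · exact .inr (h.trans h')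
        · exact .inr (by rw [h, h'])
        · exact .inl (by rw [h, h', neg_neg]) }
  mul' := by
    rintro a b c d (h | h) (h' | h')
    · exact .inl (by rw [Submonoid.coe_mul, Submonoid.coe_mul, h, h'])
    · exact .inr (by rw [Submonoid.coe_mul, Submonoid.coe_mul, h, h', mul_neg])
    · exact .inr (by rw [Submonoid.coe_mul, Submonoid.coe_mul, h, h', neg_mul])
    · exact .inl (by rw [Submonoid.coe_mul, Submonoid.coe_mul, h, h', neg_mul_neg])

/-- homogeneous elements up to sign: a commutative monoid -/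
def Q (Z : SmProjVar k) : Type w := (P.signCon Z).Quotient

instance (Z : SmProjVar k) : CommMonoid (P.Q Z) :=
  { (inferInstance : Monoid (P.signCon Z).Quotient) with
    mul_comm := by
      intro a b
      induction a using Con.induction_on with
      | H x =>
        induction b using Con.induction_on with
        | H y =>
          have h := P.comm_or Z x y x.2 y.2
          change ((x * y : P.homSub Z) : (P.signCon Z).Quotient) = ((y * x : P.homSub Z) : _)
          rw [Con.eq]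
          exact h }

/-- the class of a homogeneous element up to sign -/
def cls (Z : SmProjVar k) : P.homSub Z →* P.Q Z := (P.signCon Z).mk'

lemma cls_surjective (Z : SmProjVar k) : Function.Surjective (P.cls Z) := by
  intro q
  exact (P.signCon Z).mk'_surjective q

lemma cls_eq (Z : SmProjVar k) (x y : P.homSub Z) :
    P.cls Z x = P.cls Z y ↔ ((x : P.H Z) = y ∨ (x : P.H Z) = -y) :=
  (P.signCon Z).eq

/-- algebraic classes up to sign -/
def algQ (Z : SmProjVar k) : Submonoid (P.Q Z) where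
  carrier := {q | ∃ x : P.homSub Z, (x : P.H Z) ∈ P.alg Z ∧ P.cls Z x = q}
  one_mem' := ⟨1, P.one_mem Z, map_one _⟩
  mul_mem' := by
    rintro _ _ ⟨x, hx, rfl⟩ ⟨y, hy, rfl⟩
    exact ⟨x * y, P.mul_mem Z _ _ hx hy, map_mul _ _ _⟩

lemma cls_mem_algQ (Z : SmProjVar k) (x : P.homSub Z) :
    P.cls Z x ∈ P.algQ Z ↔ (x : P.H Z) ∈ P.alg Z := by
  constructor
  · rintro ⟨y, hy, h⟩
    rcases (P.cls_eq Z y x).mp h with h | h
    · rwa [← h]
    · rw [h] at hy
      exact (P.alg Z).neg_mem_iff.mp hy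
  · intro h
    exact ⟨x, h, rfl⟩

/-- pull-back on homogeneous elements -/
def pullHom {Z Z' : SmProjVar k} (f : Z.toOver ⟶ Z'.toOver) : P.homSub Z' →* P.homSub Z where
  toFun x := ⟨P.pull f x, Hom.pull P f x.2⟩
  map_one' := Subtype.ext (map_one (P.pull f))
  map_mul' _ _ := Subtype.ext (map_mul (P.pull f) _ _)

@[simp] lemma coe_pullHom {Z Z' : SmProjVar k} (f : Z.toOver ⟶ Z'.toOver) (x : P.homSub Z') :
    (P.pullHom f x : P.H Z) = P.pull f x := rfl

/-- conjugation on homogeneous elements -/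
def sHom (σ : Ω ≃ₐ[K] Ω) (Z : SmProjVar k) : P.homSub Z →* P.homSub Z where
  toFun x := ⟨P.s σ Z x, Hom.s P σ x.2⟩
  map_one' := Subtype.ext (map_one (P.s σ Z))
  map_mul' _ _ := Subtype.ext (map_mul (P.s σ Z) _ _)

@[simp] lemma coe_sHom (σ : Ω ≃ₐ[K] Ω) (Z : SmProjVar k) (x : P.homSub Z) :
    (P.sHom σ Z x : P.H Z) = P.s σ Z x := rfl

/-- pull-back on homogeneous elements up to sign -/
noncomputable def pullQ {Z Z' : SmProjVar k} (f : Z.toOver ⟶ Z'.toOver) : P.Q Z' →* P.Q Z :=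
  (P.signCon Z').lift ((P.cls Z).comp (P.pullHom f)) (by
    intro x y h
    rw [Con.ker_rel]
    change P.cls Z (P.pullHom f x) = P.cls Z (P.pullHom f y)
    rw [cls_eq]
    rcases h with h | h
    · exact .inl (by rw [coe_pullHom, coe_pullHom, h])
    · exact .inr (by rw [coe_pullHom, coe_pullHom, h, map_neg (P.pull f)]))

lemma pullQ_cls {Z Z' : SmProjVar k} (f : Z.toOver ⟶ Z'.toOver) (x : P.homSub Z') :
    P.pullQ f (P.cls Z' x) = P.cls Z (P.pullHom f x) := rfl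

/-- all the classes `∏ j, p_j^* σ_j(e)` are algebraic -/
def Trick {J : Type v} [Fintype J] (ρ : J → (Ω ≃ₐ[K] Ω)) (X : SmProjVar k)
    (e : P.homSub X) : Prop :=
  ∀ (Z : SmProjVar k) (p : J → (Z.toOver ⟶ X.toOver)),
    ∏ j, P.cls Z (P.pullHom (p j) (P.sHom (ρ j) X e)) ∈ P.algQ Z

variable {P}

lemma pullQ_mem {Z Z' : SmProjVar k} (f : Z.toOver ⟶ Z'.toOver) (q : P.Q Z')
    (hq : q ∈ P.algQ Z') : P.pullQ f q ∈ P.algQ Z := by
  obtain ⟨x, hx, rfl⟩ := hq
  rw [pullQ_cls, cls_mem_algQ]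
  exact P.pull_mem f x hx

/-- contraction of one factor -/
lemma contract {X Z : SmProjVar k} (c : P.homSub Z) (f : P.homSub X) (e : P.H X)
    (he : e ∈ P.alg X) (hne : P.tr X (f * e) ≠ 0)
    (h : P.pull (fst Z X) c * P.pull (snd Z X) f ∈ P.alg (Z.prod X)) : (c : P.H Z) ∈ P.alg Z := by
  have h1 : P.pull (fst Z X) c * P.pull (snd Z X) f * P.pull (snd Z X) e ∈ P.alg (Z.prod X) :=
    P.mul_mem _ _ _ h (P.pull_mem _ _ he)
  have hfe : (f : P.H X) * e ∈ P.ev X := by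
    rcases f.2 with hf | hf
    · exact P.ev_mul_ev X _ _ hf (P.alg_le_ev X he)
    · exact absurd (P.tr_od X _ (P.od_mul_ev X _ _ hf (P.alg_le_ev X he))) hne
  obtain ⟨b, hb, hb'⟩ := P.push (fst Z X) _ h1
  have h2 : ∀ z, P.tr Z (b * z) = P.tr X (f * e) * P.tr Z (c * z) := by
    intro z
    have h3 : P.pull (fst Z X) c * P.pull (snd Z X) f * P.pull (snd Z X) e *
        P.pull (fst Z X) z = P.pull (fst Z X) (c * z) * P.pull (snd Z X) (f * e) := by
      rw [mul_assoc, mul_assoc, ← mul_assoc (P.pull (snd Z X) f), ← map_mul (P.pull (snd Z X)),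
        P.ev_comm _ _ _ (P.pull_ev (snd Z X) _ hfe), ← mul_assoc, ← map_mul (P.pull (fst Z X))]
    rw [hb', h3, P.tr_prod, mul_comm]
  have h4 : b = P.tr X (f * e) • (c : P.H Z) := by
    rw [← sub_eq_zero]
    refine P.nondeg Z _ fun z => ?_
    rw [sub_mul, map_sub, h2, smul_mul_assoc, map_smul, smul_eq_mul, sub_self]
  rw [h4] at hb
  have h5 := (P.alg Z).smul_mem (P.tr X (f * e))⁻¹ hb
  rwa [smul_smul, inv_mul_cancel₀ hne, one_smul] at h5

lemma Trick.mem_alg {J : Type v} [Fintype J] [Nonempty J] {ρ : J → (Ω ≃ₐ[K] Ω)}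
    {X : SmProjVar k} {e' : P.homSub X} (h : P.Trick ρ X e') {e : P.H X} (he : e ∈ P.alg X)
    (hne : P.tr X (e * e') ≠ 0) : (e' : P.H X) ∈ P.alg X := by
  classical
  have step : ∀ T : Finset J, ∀ a ∉ T,
      (∀ (Z : SmProjVar k) (p : J → (Z.toOver ⟶ X.toOver)),
        ∏ j ∈ insert a T, P.cls Z (P.pullHom (p j) (P.sHom (ρ j) X e')) ∈ P.algQ Z) →
      (∀ (Z : SmProjVar k) (p : J → (Z.toOver ⟶ X.toOver)),
        ∏ j ∈ T, P.cls Z (P.pullHom (p j) (P.sHom (ρ j) X e')) ∈ P.algQ Z) := by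
    intro T a ha hT Z p
    obtain ⟨c, hc⟩ := P.cls_surjective Z
      (∏ j ∈ T, P.cls Z (P.pullHom (p j) (P.sHom (ρ j) X e')))
    have h1 := hT (Z.prod X) (fun j => if j = a then snd Z X else fst Z X ≫ p j)
    rw [Finset.prod_insert ha, if_pos rfl] at h1
    have h2 : ∏ j ∈ T, P.cls (Z.prod X) (P.pullHom (if j = a then snd Z X else fst Z X ≫ p j)
        (P.sHom (ρ j) X e')) = P.pullQ (fst Z X) (P.cls Z c) := by
      rw [hc, map_prod]
      refine Finset.prod_congr rfl fun j hj => ?_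
      have hja : j ≠ a := fun h => ha (h ▸ hj)
      rw [if_neg hja, pullQ_cls]
      congr 1
      refine Subtype.ext ?_
      rw [coe_pullHom, coe_pullHom, coe_pullHom, P.pull_comp, AlgHom.comp_apply]
    rw [h2, pullQ_cls, mul_comm, ← map_mul, cls_mem_algQ] at h1
    rw [← hc, cls_mem_algQ]
    have hne' : P.tr X ((P.sHom (ρ a) X e' : P.H X) * P.s (ρ a) X e) ≠ 0 := by
      rw [coe_sHom, ← map_mul, P.tr_s, ← P.ev_comm X e e' (P.alg_le_ev X he)]
      exact (map_ne_zero_iff _ (ρ a).injective).mpr hne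
    exact contract c (P.sHom (ρ a) X e') (P.s (ρ a) X e) ((P.s_alg _ X e).mpr he) hne' h1
  have all : ∀ T : Finset J, ∀ (Z : SmProjVar k) (p : J → (Z.toOver ⟶ X.toOver)),
      ∏ j ∈ Tᶜ, P.cls Z (P.pullHom (p j) (P.sHom (ρ j) X e')) ∈ P.algQ Z := by
    intro T
    induction T using Finset.induction_on with
    | empty =>
      rw [Finset.compl_empty]
      exact h
    | insert a T ha ih =>
      refine step _ a (by simp) ?_
      have : insert a (insert a T)ᶜ = Tᶜ := by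
        ext x
        by_cases hx : x = a
        · subst hx; simp [ha]
        · simp [hx]
      rw [this]
      exact ih
  obtain ⟨j0⟩ := ‹Nonempty J›
  have h1 := all ({j0}ᶜ) X (fun _ => 𝟙 X.toOver)
  rw [compl_compl, Finset.prod_singleton, cls_mem_algQ, coe_pullHom, P.pull_id, AlgHom.id_apply,
    coe_sHom, P.s_alg] at h1
  exact h1

variable (P) in
/-- `e` has a finite symmetric family of Galois conjugates whose external product is algebraic -/
def Nice (X : SmProjVar k) (e : P.homSub X) : Prop :=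
  ∃ N₀ : Subgroup (Ω ≃ₐ[K] Ω), N₀.FiniteIndex ∧
    ∀ (N : Subgroup (Ω ≃ₐ[K] Ω)) (_ : N.Normal) (_ : Fintype ((Ω ≃ₐ[K] Ω) ⧸ N)), N ≤ N₀ →
      P.Trick (J := ((Ω ≃ₐ[K] Ω) ⧸ N) ⊕ ((Ω ≃ₐ[K] Ω) ⧸ N))
        (Sum.elim Quotient.out Quotient.out) X e

/-- a homogeneous element which pairs to an algebraic class with one of its Galois conjugates -/
lemma Nice.of_partner {X : SmProjVar k} (e : P.homSub X) (N₀ : Subgroup (Ω ≃ₐ[K] Ω))
    (hN₀ : N₀.FiniteIndex) (τ : Ω ≃ₐ[K] Ω)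
    (h : ∀ g₁ g₂ : Ω ≃ₐ[K] Ω, (g₁ * τ)⁻¹ * g₂ ∈ N₀ →
      P.pull (fst X X) (P.s g₂ X e) * P.pull (snd X X) (P.s g₁ X e) ∈ P.alg (X.prod X)) :
    P.Nice X e := by
  classical
  refine ⟨N₀, hN₀, fun N hN hf hle Z p => ?_⟩
  rw [Fintype.prod_sum_type]
  have hperm : ∏ g : (Ω ≃ₐ[K] Ω) ⧸ N, P.cls Z (P.pullHom (p (Sum.inr g))
      (P.sHom (Sum.elim Quotient.out Quotient.out (Sum.inr g)) X e)) =
      ∏ g : (Ω ≃ₐ[K] Ω) ⧸ N, P.cls Z (P.pullHom (p (Sum.inr (g * QuotientGroup.mk τ)))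
      (P.sHom (Sum.elim Quotient.out Quotient.out
        (Sum.inr (g * QuotientGroup.mk τ) : ((Ω ≃ₐ[K] Ω) ⧸ N) ⊕ ((Ω ≃ₐ[K] Ω) ⧸ N))) X e)) :=
    (Equiv.prod_comp (Equiv.mulRight (QuotientGroup.mk τ : (Ω ≃ₐ[K] Ω) ⧸ N))
      (fun g => P.cls Z (P.pullHom (p (Sum.inr g))
        (P.sHom (Sum.elim Quotient.out Quotient.out
          (Sum.inr g : ((Ω ≃ₐ[K] Ω) ⧸ N) ⊕ ((Ω ≃ₐ[K] Ω) ⧸ N))) X e)))).symm
  rw [hperm, ← Finset.prod_mul_distrib]
  refine (P.algQ Z).prod_mem fun g _ => ?_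
  rw [Sum.elim_inl, Sum.elim_inr, mul_comm, ← map_mul, cls_mem_algQ, Submonoid.coe_mul,
    coe_pullHom, coe_pullHom, coe_sHom, coe_sHom]
  set g₁ : Ω ≃ₐ[K] Ω := Quotient.out g with hg₁
  set g₂ : Ω ≃ₐ[K] Ω := Quotient.out (g * QuotientGroup.mk τ) with hg₂
  have h1 : (QuotientGroup.mk g₂ : (Ω ≃ₐ[K] Ω) ⧸ N) = QuotientGroup.mk (g₁ * τ) := by
    rw [QuotientGroup.mk_mul, hg₁, hg₂]
    rw [QuotientGroup.out_eq', QuotientGroup.out_eq']
  have h2 : (g₁ * τ)⁻¹ * g₂ ∈ N := QuotientGroup.eq.mp h1.symm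
  have h3 := P.pull_mem (lift (p (Sum.inr (g * QuotientGroup.mk τ))) (p (Sum.inl g))) _
    (h g₁ g₂ (hle h2))
  rw [map_mul (P.pull _), ← AlgHom.comp_apply, ← P.pull_comp, ← AlgHom.comp_apply,
    ← P.pull_comp, lift_fst, lift_snd] at h3
  exact h3

lemma Nice.mem_alg {X : SmProjVar k} {e' : P.homSub X} (h : P.Nice X e') {e : P.H X}
    (he : e ∈ P.alg X) (hne : P.tr X (e * e') ≠ 0) : (e' : P.H X) ∈ P.alg X := by
  obtain ⟨N₀, hN₀, h⟩ := h
  have hfin : Finite ((Ω ≃ₐ[K] Ω) ⧸ N₀.normalCore) := inferInstance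
  have hft : Fintype ((Ω ≃ₐ[K] Ω) ⧸ N₀.normalCore) := Fintype.ofFinite _
  exact (h N₀.normalCore inferInstance hft N₀.normalCore_le).mem_alg he hne

variable (P) in
/-- splittings of the cohomology of `X` -/
def Good (X : SmProjVar k) : Prop :=
  ∃ S S' : Set (P.homSub X), Submodule.span Ω (Subtype.val '' S) = ⊤ ∧
    Submodule.span Ω (Subtype.val '' S') = ⊤ ∧
    (∀ e ∈ S, ∀ e' ∈ S', P.tr X (e * e') ≠ 0 →
      P.pull (fst X X) e' * P.pull (snd X X) e ∈ P.alg (X.prod X)) ∧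
    (∀ e' ∈ S', P.Nice X e')

lemma Good.d {X : SmProjVar k} (h : P.Good X) : P.D X := by
  obtain ⟨S, S', hS, hS', ha, hb⟩ := h
  intro r hr
  by_contra hr0
  obtain ⟨e', he', h1⟩ : ∃ e' ∈ S', P.tr X (r * e') ≠ 0 := by
    by_contra hcon
    push Not at hcon
    refine hr0 (P.nondeg X r fun y => ?_)
    have hy : y ∈ Submodule.span Ω (Subtype.val '' S') := by rw [hS']; trivial
    induction hy using Submodule.span_induction with
    | mem x hx => obtain ⟨x, hx, rfl⟩ := hx; exact hcon x hx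
    | zero => rw [mul_zero, map_zero]
    | add x y _ _ hx hy => rw [mul_add, map_add, hx, hy, add_zero]
    | smul a x _ hx => rw [mul_smul_comm, map_smul, hx, smul_zero]
  obtain ⟨e, he, h2⟩ : ∃ e ∈ S, P.tr X (e * e') ≠ 0 := by
    by_contra hcon
    push Not at hcon
    apply h1
    have hy : r ∈ Submodule.span Ω (Subtype.val '' S) := by rw [hS]; trivial
    clear h1 hr hr0
    induction hy using Submodule.span_induction with
    | mem x hx => obtain ⟨x, hx, rfl⟩ := hx; exact hcon x hx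
    | zero => rw [zero_mul, map_zero]
    | add x y _ _ hx hy => rw [add_mul, map_add, hx, hy, add_zero]
    | smul a x _ hx => rw [smul_mul_assoc, map_smul, hx, smul_zero]
  -- `e` is numerically trivial
  have h3 : P.rad X e := by
    have := (P.isCorr_rankOne X e e' (ha e he e' he' h2)).map_rad hr
    rw [rankOne_apply] at this
    refine ⟨?_, fun a ha => ?_⟩
    · have h4 := (P.alg X).smul_mem (P.tr X (r * e'))⁻¹ this.1
      rwa [smul_smul, inv_mul_cancel₀ h1, one_smul] at h4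
    · have h4 := this.2 a ha
      rw [smul_mul_assoc, map_smul, smul_eq_mul] at h4
      exact (mul_eq_zero.mp h4).resolve_left h1
  exact h2 (h3.2 e' ((hb e' he').mem_alg h3.1 h2))

variable (P) in
/-- external product of homogeneous elements -/
noncomputable def extHom (X Y : SmProjVar k) (x : P.homSub X) (y : P.homSub Y) :
    P.homSub (X.prod Y) :=
  P.pullHom (fst X Y) x * P.pullHom (snd X Y) y

lemma coe_extHom (X Y : SmProjVar k) (x : P.homSub X) (y : P.homSub Y) :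
    (P.extHom X Y x y : P.H (X.prod Y)) = P.ext X Y x y := rfl

lemma Nice.ext {X Y : SmProjVar k} {x : P.homSub X} {y : P.homSub Y} (hx : P.Nice X x)
    (hy : P.Nice Y y) : P.Nice (X.prod Y) (P.extHom X Y x y) := by
  obtain ⟨N₁, hN₁, hx⟩ := hx
  obtain ⟨N₂, hN₂, hy⟩ := hy
  refine ⟨N₁ ⊓ N₂, inferInstance, fun N hN hf hle Z p => ?_⟩
  have h1 := hx N hN hf (hle.trans inf_le_left) Z (fun j => p j ≫ fst X Y)
  have h2 := hy N hN hf (hle.trans inf_le_right) Z (fun j => p j ≫ snd X Y)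
  have h3 := (P.algQ Z).mul_mem h1 h2
  rw [← Finset.prod_mul_distrib] at h3
  convert h3 using 2 with j
  rw [← map_mul]
  congr 1
  refine Subtype.ext ?_
  rw [coe_pullHom, coe_sHom, Submonoid.coe_mul, coe_pullHom, coe_pullHom, coe_sHom, coe_sHom,
    coe_extHom, SPre.ext, map_mul (P.s _ _), P.s_pull, P.s_pull, map_mul (P.pull (p j)),
    P.pull_comp, P.pull_comp]
  rfl

lemma Good.prod {X Y : SmProjVar k} (hX : P.Good X) (hY : P.Good Y) : P.Good (X.prod Y) := by
  obtain ⟨S, S', hS, hS', ha, hb⟩ := hX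
  obtain ⟨T, T', hT, hT', ga, gb⟩ := hY
  have aux : ∀ (S : Set (P.homSub X)) (T : Set (P.homSub Y)),
      Subtype.val '' {z | ∃ x ∈ S, ∃ y ∈ T, z = P.extHom X Y x y} =
      {z : P.H (X.prod Y) | ∃ x ∈ (Subtype.val '' S : Set (P.H X)),
        ∃ y ∈ (Subtype.val '' T : Set (P.H Y)), z = P.ext X Y x y} := by
    intro S T
    ext z
    constructor
    · rintro ⟨_, ⟨x, hx, y, hy, rfl⟩, rfl⟩
      exact ⟨x, ⟨x, hx, rfl⟩, y, ⟨y, hy, rfl⟩, rfl⟩
    · rintro ⟨_, ⟨x, hx, rfl⟩, _, ⟨y, hy, rfl⟩, rfl⟩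
      exact ⟨_, ⟨x, hx, y, hy, rfl⟩, rfl⟩
  refine ⟨{z | ∃ x ∈ S, ∃ y ∈ T, z = P.extHom X Y x y},
    {z | ∃ x ∈ S', ∃ y ∈ T', z = P.extHom X Y x y}, ?_, ?_, ?_, ?_⟩
  · rw [aux]; exact P.span_ext_sets X Y _ _ hS hT
  · rw [aux]; exact P.span_ext_sets X Y _ _ hS' hT'
  · rintro _ ⟨x, hx, y, hy, rfl⟩ _ ⟨x', hx', y', hy', rfl⟩ hne
    rw [coe_extHom, coe_extHom] at hne
    have h1 : P.tr X (x * x') * P.tr Y (y * y') ≠ 0 := by
      rcases P.tr_ext_mul_ext X Y x x' y y' x'.2 y.2 with h | h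
      · rwa [h] at hne
      · rw [h] at hne; exact neg_ne_zero.mp hne
    exact P.class_prod_mem X Y x x' y y' x.2 y'.2
      (ha x hx x' hx' (left_ne_zero_of_mul h1)) (ga y hy y' hy' (right_ne_zero_of_mul h1))
  · rintro _ ⟨x, hx, y, hy, rfl⟩
    exact (hb x hx).ext (gb y hy)

end SPre

end Pool.Agent.Helper10
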