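import Mathlib
import Pool.Agent.Helper10.Split

/-!
# A spectral criterion for the existence of splittings
-/

universe u v w t

open CategoryTheory

namespace Pool.Agent.Helper10

open SmProjVar

namespace SPre

variable {k : Type u} [Field k] {K : Type t} [Field K] {Ω : Type v} [Field Ω] [Algebra K Ω]
  {P : SPre.{u, v, w, t} k K Ω}

lemma pull_pull {X Y Z : SmProjVar k} (f : X.toOver ⟶ Y.toOver) (g : Y.toOver ⟶ Z.toOver)
    (x : P.H Z) : P.pull f (P.pull g x) = P.pull (f ≫ g) x := by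
  rw [P.pull_comp, AlgHom.comp_apply]

/-- composition of correspondences -/
lemma IsMap.comp {X Y Z : SmProjVar k} {f : P.H X →ₗ[Ω] P.H Y} {g : P.H Y →ₗ[Ω] P.H Z}
    (hf : P.IsMap X Y f) (hg : P.IsMap Y Z g) : P.IsMap X Z (g ∘ₗ f) := by
  obtain ⟨c₁, hc₁, h₁⟩ := hf
  obtain ⟨c₂, hc₂, h₂⟩ := hg
  set T := (X.prod Y).prod Z
  let p12 := fst (X.prod Y) Z
  let p3 := snd (X.prod Y) Z
  let p23 : T.toOver ⟶ (Y.prod Z).toOver := lift (p12 ≫ snd X Y) p3
  let p13 : T.toOver ⟶ (X.prod Z).toOver := lift (p12 ≫ fst X Y) p3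
  have hA : ∀ (x : P.H X) (c : P.H (Y.prod Z)) (z : P.H Z),
      P.tr (Y.prod Z) (P.pull (fst Y Z) (f x) * c * P.pull (snd Y Z) z) =
      P.tr T (P.pull p12 (P.pull (fst X Y) x * c₁) * P.pull p23 c * P.pull p3 z) := by
    intro x c z
    have hc : c ∈ Submodule.span Ω
      {z : P.H (Y.prod Z) | ∃ x y, z = P.pull (fst Y Z) x * P.pull (snd Y Z) y} := by
      rw [P.span_ext]; trivial
    induction hc using Submodule.span_induction with
    | mem c hc =>
      obtain ⟨a, b, rfl⟩ := hc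
      have e1 : P.pull (fst Y Z) (f x) * (P.pull (fst Y Z) a * P.pull (snd Y Z) b) *
          P.pull (snd Y Z) z = P.pull (fst Y Z) (f x * a) * P.pull (snd Y Z) (b * z) := by
        rw [map_mul (P.pull _), map_mul (P.pull _)]; noncomm_ring
      have e2 : P.pull p23 (P.pull (fst Y Z) a * P.pull (snd Y Z) b) =
          P.pull p12 (P.pull (snd X Y) a) * P.pull p3 b := by
        rw [map_mul (P.pull _), pull_pull, pull_pull, lift_fst, lift_snd, pull_pull]
      have e3 : P.pull p12 (P.pull (fst X Y) x * c₁) *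
          (P.pull p12 (P.pull (snd X Y) a) * P.pull p3 b) * P.pull p3 z =
          P.pull p12 (P.pull (fst X Y) x * c₁ * P.pull (snd X Y) a) * P.pull p3 (b * z) := by
        rw [map_mul (P.pull p12) (P.pull (fst X Y) x * c₁), map_mul (P.pull p3)]; noncomm_ring
      rw [e1, e2, e3, P.tr_prod, P.tr_prod, h₁]
    | zero => simp only [mul_zero, zero_mul, map_zero]
    | add c c' _ _ h h' => simp only [mul_add, add_mul, map_add, h, h']
    | smul a c _ h =>
      rw [mul_smul_comm, smul_mul_assoc, map_smul, h, map_smul, mul_smul_comm, smul_mul_assoc,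
        map_smul]
  obtain ⟨c, hc, h⟩ := P.push p13 (P.pull p12 c₁ * P.pull p23 c₂)
    (P.mul_mem _ _ _ (P.pull_mem _ _ hc₁) (P.pull_mem _ _ hc₂))
  refine ⟨c, hc, fun x z => ?_⟩
  have e1 : P.pull (fst X Z) x * c * P.pull (snd X Z) z =
      c * (P.pull (fst X Z) x * P.pull (snd X Z) z) := by
    rw [← P.ev_comm _ _ _ (P.alg_le_ev _ hc), mul_assoc]
  have e2 : P.pull p13 (P.pull (fst X Z) x * P.pull (snd X Z) z) =
      P.pull p12 (P.pull (fst X Y) x) * P.pull p3 z := by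
    rw [map_mul (P.pull _), pull_pull, pull_pull, lift_fst, lift_snd, pull_pull]
  have hev : P.pull p12 c₁ * P.pull p23 c₂ ∈ P.ev T :=
    P.alg_le_ev _ (P.mul_mem _ _ _ (P.pull_mem _ _ hc₁) (P.pull_mem _ _ hc₂))
  have e3 : P.pull p12 c₁ * P.pull p23 c₂ * (P.pull p12 (P.pull (fst X Y) x) * P.pull p3 z) =
      P.pull p12 (P.pull (fst X Y) x * c₁) * P.pull p23 c₂ * P.pull p3 z := by
    rw [← mul_assoc, P.ev_comm _ _ _ hev, map_mul (P.pull p12)]; noncomm_ring
  rw [e1, h, e2, e3, ← hA, h₂]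
  rfl

lemma IsMap.add {X Y : SmProjVar k} {f g : P.H X →ₗ[Ω] P.H Y} (hf : P.IsMap X Y f)
    (hg : P.IsMap X Y g) : P.IsMap X Y (f + g) := by
  obtain ⟨c, hc, h⟩ := hf
  obtain ⟨d, hd, h'⟩ := hg
  refine ⟨c + d, (P.alg _).add_mem hc hd, fun x y => ?_⟩
  rw [mul_add, add_mul, map_add, h, h', LinearMap.add_apply, add_mul, map_add]

lemma IsMap.smul {X Y : SmProjVar k} {f : P.H X →ₗ[Ω] P.H Y} (hf : P.IsMap X Y f) (a : Ω) :
    P.IsMap X Y (a • f) := by
  obtain ⟨c, hc, h⟩ := hf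
  refine ⟨a • c, (P.alg _).smul_mem a hc, fun x y => ?_⟩
  rw [mul_smul_comm, smul_mul_assoc, map_smul, h, LinearMap.smul_apply, smul_mul_assoc, map_smul]

/-- the identity is algebraic -/
lemma isMap_id (X : SmProjVar k) : P.IsMap X X (LinearMap.id : P.H X →ₗ[Ω] P.H X) := by
  obtain ⟨c, hc, h⟩ := P.push (lift (𝟙 X.toOver) (𝟙 X.toOver)) 1 (P.one_mem X)
  refine ⟨c, hc, fun x y => ?_⟩
  rw [← P.ev_comm _ _ _ (P.alg_le_ev _ hc), mul_assoc, h, one_mul, map_mul (P.pull _),
    ← AlgHom.comp_apply, ← P.pull_comp, ← AlgHom.comp_apply, ← P.pull_comp, lift_fst, lift_snd,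
    P.pull_id]
  rfl

/-- pull-backs are algebraic -/
lemma isMap_pull {X Y : SmProjVar k} (f : X.toOver ⟶ Y.toOver) :
    P.IsMap Y X (P.pull f).toLinearMap := by
  obtain ⟨c, hc, h⟩ := P.push (lift f (𝟙 X.toOver)) 1 (P.one_mem X)
  refine ⟨c, hc, fun x y => ?_⟩
  rw [← P.ev_comm _ _ _ (P.alg_le_ev _ hc), mul_assoc, h, one_mul, map_mul (P.pull _),
    ← AlgHom.comp_apply, ← P.pull_comp, ← AlgHom.comp_apply, ← P.pull_comp, lift_fst, lift_snd,
    P.pull_id]
  rfl

variable (P) in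
/-- the algebra of algebraic operators -/
def corrAlg (X : SmProjVar k) : Subalgebra Ω (Module.End Ω (P.H X)) where
  carrier := {f | P.IsMap X X f}
  mul_mem' := fun ha hb => hb.comp ha
  add_mem' := fun ha hb => ha.add hb
  algebraMap_mem' := fun r => by
    rw [Algebra.algebraMap_eq_smul_one]
    exact (isMap_id X).smul r

lemma mem_corrAlg {X : SmProjVar k} {f : Module.End Ω (P.H X)} :
    f ∈ P.corrAlg X ↔ P.IsMap X X f := Iff.rfl

/-- algebraic operators preserve the parity -/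
lemma IsMap.map_ev {X Y : SmProjVar k} {f : P.H X →ₗ[Ω] P.H Y} (hf : P.IsMap X Y f) {x : P.H X}
    (hx : x ∈ P.ev X) : f x ∈ P.ev Y := by
  obtain ⟨c, hc, h⟩ := hf
  obtain ⟨a, ha, b, hb, hab⟩ := P.exists_decomp Y (f x)
  have hb0 : b = 0 := by
    refine P.nondeg Y b fun y => ?_
    obtain ⟨y1, hy1, y2, hy2, rfl⟩ := P.exists_decomp Y y
    have e1 : P.tr Y (b * y1) = 0 := P.tr_od Y _ (P.od_mul_ev Y _ _ hb hy1)
    have e2 : P.tr Y (a * y2) = 0 := P.tr_od Y _ (P.ev_mul_od Y _ _ ha hy2)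
    have e3 : P.tr Y (f x * y2) = 0 := by
      rw [← h]
      exact P.tr_od _ _ (P.ev_mul_od _ _ _ (P.ev_mul_ev _ _ _ (P.pull_ev _ _ hx)
        (P.alg_le_ev _ hc)) (P.pull_od _ _ hy2))
    rw [← hab, add_mul, map_add, e2, zero_add] at e3
    rw [mul_add, map_add, e1, e3, add_zero]
  rw [← hab, hb0, add_zero]
  exact ha

lemma IsMap.map_od {X Y : SmProjVar k} {f : P.H X →ₗ[Ω] P.H Y} (hf : P.IsMap X Y f) {x : P.H X}
    (hx : x ∈ P.od X) : f x ∈ P.od Y := by
  obtain ⟨c, hc, h⟩ := hf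
  obtain ⟨a, ha, b, hb, hab⟩ := P.exists_decomp Y (f x)
  have ha0 : a = 0 := by
    refine P.nondeg Y a fun y => ?_
    obtain ⟨y1, hy1, y2, hy2, rfl⟩ := P.exists_decomp Y y
    have e1 : P.tr Y (a * y2) = 0 := P.tr_od Y _ (P.ev_mul_od Y _ _ ha hy2)
    have e2 : P.tr Y (b * y1) = 0 := P.tr_od Y _ (P.od_mul_ev Y _ _ hb hy1)
    have e3 : P.tr Y (f x * y1) = 0 := by
      rw [← h]
      exact P.tr_od _ _ (P.od_mul_ev _ _ _ (P.od_mul_ev _ _ _ (P.pull_od _ _ hx)
        (P.alg_le_ev _ hc)) (P.pull_ev _ _ hy1))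
    rw [← hab, add_mul, map_add, e2, add_zero] at e3
    rw [mul_add, map_add, e1, e3, add_zero]
  rw [← hab, ha0, zero_add]
  exact hb

lemma IsMap.map_alg {X Y : SmProjVar k} {f : P.H X →ₗ[Ω] P.H Y} (hf : P.IsMap X Y f) {x : P.H X}
    (hx : x ∈ P.alg X) : f x ∈ P.alg Y := by
  obtain ⟨c, hc, h⟩ := hf
  obtain ⟨b, hb, hb'⟩ := P.push (snd X Y) (P.pull (fst X Y) x * c)
    (P.mul_mem _ _ _ (P.pull_mem _ _ hx) hc)
  have : f x = b := by
    rw [← sub_eq_zero]
    refine P.nondeg Y _ fun y => ?_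
    rw [sub_mul, map_sub, hb' y, ← h x y, sub_self]
  rwa [this]

/-- an even class inducing an algebraic operator is algebraic -/
lemma mem_alg_of_isMap (X : SmProjVar k) (a b : P.H X)
    (hev : P.pull (fst X X) b * P.pull (snd X X) a ∈ P.ev (X.prod X))
    (h : P.IsMap X X (P.rankOne X a b)) :
    P.pull (fst X X) b * P.pull (snd X X) a ∈ P.alg (X.prod X) := by
  obtain ⟨c, hc, h⟩ := h
  have hce := P.alg_le_ev _ hc
  suffices c - P.pull (fst X X) b * P.pull (snd X X) a = 0 by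
    rw [sub_eq_zero] at this; rwa [← this]
  have hd : c - P.pull (fst X X) b * P.pull (snd X X) a ∈ P.ev (X.prod X) :=
    (P.ev _).sub_mem hce hev
  have key : ∀ x y, P.tr (X.prod X) (P.pull (fst X X) x *
      (c - P.pull (fst X X) b * P.pull (snd X X) a) * P.pull (snd X X) y) = 0 := by
    intro x y
    have : P.pull (fst X X) x * (P.pull (fst X X) b * P.pull (snd X X) a) *
        P.pull (snd X X) y = P.pull (fst X X) (x * b) * P.pull (snd X X) (a * y) := by
      rw [map_mul, map_mul]; noncomm_ring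
    rw [mul_sub, sub_mul, map_sub, h, this, P.tr_prod, rankOne_apply, smul_mul_assoc, map_smul,
      smul_eq_mul, sub_self]
  set δ := c - P.pull (fst X X) b * P.pull (snd X X) a
  refine P.nondeg _ _ fun z => ?_
  have hz : z ∈ Submodule.span Ω
      {z : P.H (X.prod X) | ∃ x y, z = P.pull (fst X X) x * P.pull (snd X X) y} := by
    rw [P.span_ext]; trivial
  induction hz using Submodule.span_induction with
  | mem z hz =>
    obtain ⟨x, y, rfl⟩ := hz
    have h1 := key x y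
    rw [← P.ev_comm _ _ _ hd, mul_assoc] at h1
    exact h1
  | zero => rw [mul_zero, map_zero]
  | add x y _ _ hx hy => rw [mul_add, map_add, hx, hy, add_zero]
  | smul a x _ hx => rw [mul_smul_comm, map_smul, hx, smul_zero]

/-- joint generalised eigenspaces -/
noncomputable def joint {X : SmProjVar k} {ι : Type*} (T : ι → Module.End Ω (P.H X))
    (χ : ι → Ω) : Submodule Ω (P.H X) :=
  ⨅ i, (T i).maxGenEigenspace (χ i)

variable {X : SmProjVar k} {ι : Type*} {T : ι → Module.End Ω (P.H X)}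

lemma mem_joint (χ : ι → Ω) (x : P.H X) :
    x ∈ joint T χ ↔ ∀ j, ∃ n : ℕ, ((T j - χ j • 1) ^ n) x = 0 :=
  Module.End.mem_iInf_maxGenEigenspace_iff T χ x

lemma joint_le (χ : ι → Ω) (i : ι) : joint T χ ≤ (T i).maxGenEigenspace (χ i) := iInf_le _ i

lemma mapsTo_joint (hc : ∀ i j, Commute (T i) (T j)) (χ : ι → Ω) (j : ι) {x : P.H X}
    (hx : x ∈ joint T χ) : T j x ∈ joint T χ := by
  unfold joint at hx ⊢
  rw [Submodule.mem_iInf] at hx ⊢
  exact fun i => Module.End.mapsTo_maxGenEigenspace_of_comm (hc i j) (χ i) (hx i)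

lemma iSup_joint [IsAlgClosed Ω] (hc : ∀ i j, Commute (T i) (T j)) : ⨆ χ, joint T χ = ⊤ :=
  Module.End.iSup_iInf_maxGenEigenspace_eq_top_of_iSup_maxGenEigenspace_eq_top_of_commute T
    (fun i j _ => hc i j) (fun _ => Module.End.iSup_maxGenEigenspace_eq_top _)

lemma joint_induction [IsAlgClosed Ω] (hc : ∀ i j, Commute (T i) (T j)) {p : P.H X → Prop}
    (hmem : ∀ χ, ∀ x ∈ joint T χ, p x) (hzero : p 0)
    (hadd : ∀ x y, p x → p y → p (x + y)) (x : P.H X) : p x := by
  have hx : x ∈ ⨆ χ, joint T χ := by rw [iSup_joint hc]; trivial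
  induction hx using Submodule.iSup_induction' with
  | mem m x hxm => exact hmem m x hxm
  | zero => exact hzero
  | add x y _ _ hx hy => exact hadd x y hx hy

lemma finite_weights (hc : ∀ i j, Commute (T i) (T j)) : {χ : ι → Ω | joint T χ ≠ ⊥}.Finite :=
  WellFoundedGT.finite_ne_bot_of_iSupIndep
    (Module.End.independent_iInf_maxGenEigenspace_of_forall_mapsTo T
      (fun i j φ => Module.End.mapsTo_maxGenEigenspace_of_comm (hc j i) φ))

lemma s_pow (hs : ∀ (σ : Ω ≃ₐ[K] Ω) i x, P.s σ X (T i x) = T i (P.s σ X x))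
    (σ : Ω ≃ₐ[K] Ω) (i : ι) (l : Ω) (n : ℕ) (x : P.H X) :
    P.s σ X (((T i - l • 1) ^ n) x) = ((T i - (σ l) • 1) ^ n) (P.s σ X x) := by
  induction n generalizing x with
  | zero => simp
  | succ n ih =>
    rw [pow_succ, pow_succ, Module.End.mul_apply, Module.End.mul_apply, ih]
    congr 1
    simp only [LinearMap.sub_apply, LinearMap.smul_apply, Module.End.one_apply]
    rw [map_sub, P.s_smul, hs]

lemma s_mem_joint (hs : ∀ (σ : Ω ≃ₐ[K] Ω) i x, P.s σ X (T i x) = T i (P.s σ X x))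
    (σ : Ω ≃ₐ[K] Ω) (χ : ι → Ω) (x : P.H X) :
    P.s σ X x ∈ joint T (fun i => σ (χ i)) ↔ x ∈ joint T χ := by
  rw [mem_joint, mem_joint]
  refine forall_congr' fun i => exists_congr fun n => ?_
  rw [← s_pow hs]
  exact map_eq_zero_iff _ (P.s σ X).injective

lemma tr_eq_zero_of_ne {f f' : Module.End Ω (P.H X)}
    (hadj : ∀ x y, P.tr X (f x * y) = P.tr X (x * f' y)) {l m : Ω} (h : l ≠ m) {x y : P.H X}
    (hx : x ∈ f.maxGenEigenspace l) (hy : y ∈ f'.maxGenEigenspace m) :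
    P.tr X (x * y) = 0 := by
  rw [Module.End.mem_maxGenEigenspace] at hx hy
  obtain ⟨a, ha⟩ := hx
  obtain ⟨b, hb⟩ := hy
  induction hn : a + b using Nat.strong_induction_on generalizing a b x y with
  | _ n ih =>
    rcases a with _ | a
    · have : x = 0 := by simpa using ha
      rw [this, zero_mul, map_zero]
    rcases b with _ | b
    · have : y = 0 := by simpa using hb
      rw [this, mul_zero, map_zero]
    have hxs := ha
    have hys := hb
    rw [pow_succ, Module.End.mul_apply] at ha hb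
    set x1 := (f - l • 1) x with hx1
    set y1 := (f' - m • 1) y with hy1
    have ex : f x = l • x + x1 := by rw [hx1]; simp
    have ey : f' y = m • y + y1 := by rw [hy1]; simp
    have e1 : P.tr X (x * y1) = 0 := ih (a + 1 + b) (by omega) (a + 1) hxs b hb rfl
    have e2 : P.tr X (x1 * y) = 0 := ih (a + (b + 1)) (by omega) a ha (b + 1) hys rfl
    have e4 := hadj x y
    rw [ex, ey, add_mul, mul_add, map_add, map_add, e1, e2, smul_mul_assoc, mul_smul_comm,
      map_smul, map_smul, add_zero, add_zero, smul_eq_mul, smul_eq_mul] at e4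
    have e5 : (l - m) * P.tr X (x * y) = 0 := by rw [sub_mul, e4, sub_self]
    exact (mul_eq_zero.mp e5).resolve_left (sub_ne_zero.mpr h)

lemma exists_smul_of_finrank_one {M : Type*} [AddCommGroup M] [Module Ω M] (W : Submodule Ω M)
    (hW : Module.finrank Ω W = 1) {x y : M} (hx : x ∈ W) (hx0 : x ≠ 0) (hy : y ∈ W) :
    ∃ c : Ω, y = c • x := by
  have h := (finrank_eq_one_iff_of_nonzero' (⟨x, hx⟩ : W) (by
    intro h; exact hx0 (congrArg Subtype.val h))).mp hW ⟨y, hy⟩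
  obtain ⟨c, hc⟩ := h
  exact ⟨c, (congrArg Subtype.val hc).symm⟩

end SPre

end Pool.Agent.Helper10
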