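import Mathlib
import Pool.Agent.Helper10.Spectral

/-!
# Push-forward and contraction, and the relative form of the orbit argument
-/

universe u v w t

open CategoryTheory

namespace Pool.Agent.Helper10

open SmProjVar

namespace SPre

variable {k : Type u} [Field k] {K : Type t} [Field K] {Ω : Type v} [Field Ω] [Algebra K Ω]
  (P : SPre.{u, v, w, t} k K Ω)

/-- the linear map `a ↦ (x ↦ tr (a x))` -/
def toDual (X : SmProjVar k) : P.H X →ₗ[Ω] Module.Dual Ω (P.H X) where
  toFun a :=
    { toFun := fun x => P.tr X (a * x)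
      map_add' := fun x y => by rw [mul_add, map_add]
      map_smul' := fun c x => by rw [mul_smul_comm, map_smul, RingHom.id_apply] }
  map_add' a b := by ext x; simp [add_mul]
  map_smul' c a := by ext x; simp

lemma toDual_apply (X : SmProjVar k) (a x : P.H X) : P.toDual X a x = P.tr X (a * x) := rfl

lemma toDual_bijective (X : SmProjVar k) : Function.Bijective (P.toDual X) := by
  have hinj : Function.Injective (P.toDual X) := by
    rw [← LinearMap.ker_eq_bot, LinearMap.ker_eq_bot']
    intro a ha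
    refine P.nondeg X a fun y => ?_
    rw [← toDual_apply, ha, LinearMap.zero_apply]
  exact ⟨hinj, (LinearMap.injective_iff_surjective_of_finrank_eq_finrank
    (Subspace.dual_finrank_eq).symm).mp hinj⟩

/-- the element representing a linear form -/
noncomputable def rep (X : SmProjVar k) : Module.Dual Ω (P.H X) ≃ₗ[Ω] P.H X :=
  (LinearEquiv.ofBijective (P.toDual X) (P.toDual_bijective X)).symm

lemma tr_rep (X : SmProjVar k) (l : Module.Dual Ω (P.H X)) (x : P.H X) :
    P.tr X (P.rep X l * x) = l x := by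
  have h : P.toDual X (P.rep X l) = l :=
    (LinearEquiv.ofBijective (P.toDual X) (P.toDual_bijective X)).apply_symm_apply l
  rw [← toDual_apply, h]

/-- push-forward in cohomology -/
noncomputable def pushF {Z A : SmProjVar k} (f : Z.toOver ⟶ A.toOver) : P.H Z →ₗ[Ω] P.H A where
  toFun u := P.rep A ((P.toDual Z u) ∘ₗ (P.pull f).toLinearMap)
  map_add' u v := by rw [map_add, LinearMap.add_comp, map_add]
  map_smul' c u := by rw [map_smul, LinearMap.smul_comp, map_smul, RingHom.id_apply]

lemma tr_pushF {Z A : SmProjVar k} (f : Z.toOver ⟶ A.toOver) (u : P.H Z) (z : P.H A) :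
    P.tr A (P.pushF f u * z) = P.tr Z (u * P.pull f z) :=
  P.tr_rep A _ z

variable {P}

lemma eq_of_tr {X : SmProjVar k} {a b : P.H X} (h : ∀ x, P.tr X (a * x) = P.tr X (b * x)) :
    a = b := by
  rw [← sub_eq_zero]
  refine P.nondeg X _ fun y => ?_
  rw [sub_mul, map_sub, h, sub_self]

lemma pushF_mem {Z A : SmProjVar k} (f : Z.toOver ⟶ A.toOver) {u : P.H Z} (hu : u ∈ P.alg Z) :
    P.pushF f u ∈ P.alg A := by
  obtain ⟨b, hb, h⟩ := P.push f u hu
  have : P.pushF f u = b := eq_of_tr fun z => by rw [tr_pushF, h]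
  rwa [this]

lemma pushF_ev {Z A : SmProjVar k} (f : Z.toOver ⟶ A.toOver) {u : P.H Z} (hu : u ∈ P.ev Z) :
    P.pushF f u ∈ P.ev A := by
  obtain ⟨a, ha, b, hb, hab⟩ := P.exists_decomp A (P.pushF f u)
  have h0 : b = 0 := by
    refine P.nondeg A b fun w => ?_
    obtain ⟨c, hc, d, hd, rfl⟩ := P.exists_decomp A w
    have h1 : P.tr A (b * c) = 0 := P.tr_od A _ (P.od_mul_ev A b c hb hc)
    have h2 : P.tr A (a * d) = 0 := P.tr_od A _ (P.ev_mul_od A a d ha hd)
    have h3 : P.tr A ((a + b) * d) = 0 := by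
      rw [hab, tr_pushF]
      exact P.tr_od Z _ (P.ev_mul_od Z _ _ hu (P.pull_od f d hd))
    rw [add_mul, map_add, h2, zero_add] at h3
    rw [mul_add, map_add, h1, h3, add_zero]
  rw [← hab, h0, add_zero]
  exact ha

lemma pushF_od {Z A : SmProjVar k} (f : Z.toOver ⟶ A.toOver) {u : P.H Z} (hu : u ∈ P.od Z) :
    P.pushF f u ∈ P.od A := by
  obtain ⟨a, ha, b, hb, hab⟩ := P.exists_decomp A (P.pushF f u)
  have h0 : a = 0 := by
    refine P.nondeg A a fun w => ?_
    obtain ⟨c, hc, d, hd, rfl⟩ := P.exists_decomp A w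
    have h1 : P.tr A (b * c) = 0 := P.tr_od A _ (P.od_mul_ev A b c hb hc)
    have h2 : P.tr A (a * d) = 0 := P.tr_od A _ (P.ev_mul_od A a d ha hd)
    have h3 : P.tr A ((a + b) * c) = 0 := by
      rw [hab, tr_pushF]
      exact P.tr_od Z _ (P.od_mul_ev Z _ _ hu (P.pull_ev f c hc))
    rw [add_mul, map_add, h1, add_zero] at h3
    rw [mul_add, map_add, h2, h3, add_zero]
  rw [← hab, h0, zero_add]
  exact hb

lemma pushF_s (σ : Ω ≃ₐ[K] Ω) {Z A : SmProjVar k} (f : Z.toOver ⟶ A.toOver) (u : P.H Z) :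
    P.s σ A (P.pushF f u) = P.pushF f (P.s σ Z u) := by
  refine eq_of_tr fun z => ?_
  obtain ⟨z, rfl⟩ := (P.s σ A).surjective z
  rw [tr_pushF, ← map_mul (P.s σ A), P.tr_s, tr_pushF, ← P.s_pull, ← map_mul (P.s σ Z), P.tr_s]

/-- push-forward of a numerically trivial class -/
lemma pushF_rad {Z A : SmProjVar k} (f : Z.toOver ⟶ A.toOver) {u : P.H Z} (hu : P.rad Z u) :
    P.rad A (P.pushF f u) :=
  ⟨pushF_mem f hu.1, fun a ha => by rw [tr_pushF]; exact hu.2 _ (P.pull_mem f a ha)⟩

lemma rad_mul {Z : SmProjVar k} {u a : P.H Z} (hu : P.rad Z u) (ha : a ∈ P.alg Z) :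
    P.rad Z (u * a) :=
  ⟨P.mul_mem Z _ _ hu.1 ha, fun b hb => by
    rw [mul_assoc]; exact hu.2 _ (P.mul_mem Z _ _ ha hb)⟩

lemma rad_pull {Z A : SmProjVar k} (f : Z.toOver ⟶ A.toOver) {u : P.H A} (hu : P.rad A u) :
    P.rad Z (P.pull f u) := by
  refine ⟨P.pull_mem f u hu.1, fun a ha => ?_⟩
  have h1 : P.pull f u ∈ P.ev Z := P.pull_ev f u (P.alg_le_ev A hu.1)
  have h2 : u ∈ P.ev A := P.alg_le_ev A hu.1
  rw [P.ev_comm Z _ _ h1, ← tr_pushF, ← P.ev_comm A _ _ h2]
  exact hu.2 _ (pushF_mem f ha)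

variable (P) in
/-- contraction of the second factor with a class -/
noncomputable def contr (A C : SmProjVar k) (c : P.H C) : P.H (A.prod C) →ₗ[Ω] P.H A where
  toFun R := P.pushF (fst A C) (R * P.pull (snd A C) c)
  map_add' R S := by rw [add_mul, map_add]
  map_smul' a R := by rw [smul_mul_assoc, map_smul, RingHom.id_apply]

lemma contr_apply (A C : SmProjVar k) (c : P.H C) (R : P.H (A.prod C)) :
    P.contr A C c R = P.pushF (fst A C) (R * P.pull (snd A C) c) := rfl

/-- `tr (a ⊠ b · fst^* z) = tr (a z) tr b` -/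
lemma tr_mid (A C : SmProjVar k) (a z : P.H A) (b : P.H C) :
    P.tr (A.prod C) (P.pull (fst A C) a * P.pull (snd A C) b * P.pull (fst A C) z) =
      P.tr A (a * z) * P.tr C b := by
  obtain ⟨b₀, h₀, b₁, h₁, rfl⟩ := P.exists_decomp C b
  have e0 : P.tr (A.prod C) (P.pull (fst A C) a * P.pull (snd A C) b₀ * P.pull (fst A C) z) =
      P.tr A (a * z) * P.tr C b₀ := by
    rw [mul_assoc, P.ev_comm _ _ _ (P.pull_ev (snd A C) b₀ h₀), ← mul_assoc,
      ← map_mul (P.pull (fst A C)), P.tr_prod]
  have e1 : P.tr (A.prod C) (P.pull (fst A C) a * P.pull (snd A C) b₁ * P.pull (fst A C) z) =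
      0 := by
    obtain ⟨z₀, hz₀, z₁, hz₁, rfl⟩ := P.exists_decomp A z
    rw [map_add (P.pull _), mul_add, map_add]
    have e2 : P.tr (A.prod C) (P.pull (fst A C) a * P.pull (snd A C) b₁ *
        P.pull (fst A C) z₀) = 0 := by
      rw [mul_assoc, ← P.ev_comm _ _ _ (P.pull_ev (fst A C) z₀ hz₀), ← mul_assoc,
        ← map_mul (P.pull (fst A C)), P.tr_prod, P.tr_od C b₁ h₁, mul_zero]
    have e3 : P.tr (A.prod C) (P.pull (fst A C) a * P.pull (snd A C) b₁ *
        P.pull (fst A C) z₁) = 0 := by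
      rw [mul_assoc, P.od_anti _ _ _ (P.pull_od (snd A C) b₁ h₁) (P.pull_od (fst A C) z₁ hz₁),
        mul_neg, ← mul_assoc, ← map_mul (P.pull (fst A C)), map_neg, P.tr_prod,
        P.tr_od C b₁ h₁, mul_zero, neg_zero]
    rw [e2, e3, add_zero]
  rw [map_add (P.pull _), mul_add, add_mul, map_add, e0, e1, map_add, P.tr_od C b₁ h₁]
  ring

lemma contr_ext (A C : SmProjVar k) (c : P.H C) (a : P.H A) (b : P.H C) :
    P.contr A C c (P.ext A C a b) = P.tr C (b * c) • a := by
  refine eq_of_tr fun z => ?_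
  rw [contr_apply, tr_pushF, ext, mul_assoc (P.pull (fst A C) a), ← map_mul (P.pull (snd A C)),
    tr_mid, smul_mul_assoc, map_smul, smul_eq_mul, mul_comm]

lemma contr_rad {A C : SmProjVar k} {c : P.H C} (hc : c ∈ P.alg C) {R : P.H (A.prod C)}
    (hR : P.rad (A.prod C) R) : P.rad A (P.contr A C c R) :=
  pushF_rad _ (rad_mul hR (P.pull_mem _ _ hc))

lemma contr_s (σ : Ω ≃ₐ[K] Ω) (A C : SmProjVar k) (c : P.H C) (R : P.H (A.prod C)) :
    P.s σ A (P.contr A C c R) = P.contr A C (P.s σ C c) (P.s σ (A.prod C) R) := by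
  rw [contr_apply, contr_apply, pushF_s, map_mul (P.s σ _), P.s_pull]

/-- the contractions with all elements of a spanning set determine a class -/
lemma eq_zero_of_contr {A C : SmProjVar k} {S : Set (P.H C)} (hS : Submodule.span Ω S = ⊤)
    {R : P.H (A.prod C)} (h : ∀ c ∈ S, P.contr A C c R = 0) : R = 0 := by
  have h1 : ∀ c : P.H C, P.contr A C c R = 0 := by
    intro c
    have hc : c ∈ Submodule.span Ω S := by rw [hS]; trivial
    simp only [contr_apply] at h ⊢
    induction hc using Submodule.span_induction with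
    | mem c hc => exact h c hc
    | zero => rw [map_zero (P.pull _), mul_zero, map_zero]
    | add c d _ _ hc hd => rw [map_add (P.pull _), mul_add, map_add, hc, hd, add_zero]
    | smul a c _ hc => rw [map_smul (P.pull _), mul_smul_comm, map_smul, hc, smul_zero]
  have h2 : ∀ (c : P.H C) (z : P.H A),
      P.tr (A.prod C) (R * (P.pull (snd A C) c * P.pull (fst A C) z)) = 0 := by
    intro c z
    rw [← mul_assoc, ← tr_pushF, ← contr_apply, h1, zero_mul, map_zero]
  refine P.nondeg _ R fun y => ?_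
  have hy : y ∈ Submodule.span Ω
      {z : P.H (A.prod C) | ∃ x y, z = P.pull (fst A C) x * P.pull (snd A C) y} := by
    rw [P.span_ext]; trivial
  induction hy using Submodule.span_induction with
  | mem y hy =>
    obtain ⟨a, b, rfl⟩ := hy
    obtain ⟨a₀, ha₀, a₁, ha₁, rfl⟩ := P.exists_decomp A a
    obtain ⟨b₀, hb₀, b₁, hb₁, rfl⟩ := P.exists_decomp C b
    have e1 : P.pull (fst A C) a₀ * P.pull (snd A C) (b₀ + b₁) =
        P.pull (snd A C) (b₀ + b₁) * P.pull (fst A C) a₀ :=
      P.ev_comm _ _ _ (P.pull_ev _ _ ha₀)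
    have e2 : P.pull (fst A C) a₁ * P.pull (snd A C) b₀ =
        P.pull (snd A C) b₀ * P.pull (fst A C) a₁ :=
      (P.ev_comm _ _ _ (P.pull_ev _ _ hb₀)).symm
    have e3 : P.pull (fst A C) a₁ * P.pull (snd A C) b₁ =
        -(P.pull (snd A C) b₁ * P.pull (fst A C) a₁) :=
      P.od_anti _ _ _ (P.pull_od _ _ ha₁) (P.pull_od _ _ hb₁)
    have e4 : P.pull (fst A C) (a₀ + a₁) * P.pull (snd A C) (b₀ + b₁) =
        P.pull (snd A C) (b₀ + b₁) * P.pull (fst A C) a₀ +
          P.pull (snd A C) b₀ * P.pull (fst A C) a₁ -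
          P.pull (snd A C) b₁ * P.pull (fst A C) a₁ := by
      rw [map_add (P.pull (fst A C)), add_mul, e1, map_add (P.pull (snd A C)) b₀ b₁,
        mul_add (P.pull (fst A C) a₁), e2, e3]
      noncomm_ring
    rw [e4, mul_sub, mul_add, map_sub, map_add, h2, h2, h2, sub_zero, add_zero]
  | zero => rw [mul_zero, map_zero]
  | add x y _ _ hx hy => rw [mul_add, map_add, hx, hy, add_zero]
  | smul a x _ hx => rw [mul_smul_comm, map_smul, hx, smul_zero]

/-- an external product of non-zero classes is not zero -/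
lemma ext_ne_zero {A C : SmProjVar k} {a : P.H A} {b : P.H C} (ha : a ≠ 0) (hb : b ≠ 0) :
    P.ext A C a b ≠ 0 := by
  intro h0
  obtain ⟨c, hc⟩ : ∃ c, P.tr C (b * c) ≠ 0 := by
    by_contra hcon
    push Not at hcon
    exact hb (P.nondeg C b hcon)
  have h1 := contr_ext A C c a b
  rw [h0, map_zero] at h1
  exact (smul_ne_zero hc ha) h1.symm

section Four

variable (A X C Y : SmProjVar k)

/-- the projection `(A × X) × (C × Y) → A × C` -/
noncomputable def p13 : ((A.prod X).prod (C.prod Y)).toOver ⟶ (A.prod C).toOver :=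
  lift (fst _ _ ≫ fst A X) (snd _ _ ≫ fst C Y)

/-- the projection `(A × X) × (C × Y) → X × Y` -/
noncomputable def p24 : ((A.prod X).prod (C.prod Y)).toOver ⟶ (X.prod Y).toOver :=
  lift (fst _ _ ≫ snd A X) (snd _ _ ≫ snd C Y)

variable {A X C Y}

lemma tr_four (α : P.H (A.prod C)) (β : P.H (X.prod Y)) :
    P.tr ((A.prod X).prod (C.prod Y)) (P.pull (p13 A X C Y) α * P.pull (p24 A X C Y) β) =
      P.tr _ α * P.tr _ β := by
  have hom_span : ∀ V : SmProjVar k, Submodule.span Ω {x : P.H V | P.Hom V x} = ⊤ := by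
    intro V
    rw [eq_top_iff]
    intro x _
    obtain ⟨a, ha, b, hb, rfl⟩ := P.exists_decomp V x
    exact Submodule.add_mem _ (Submodule.subset_span (.inl ha)) (Submodule.subset_span (.inr hb))
  have hα : α ∈ Submodule.span Ω {z : P.H (A.prod C) | ∃ x ∈ {x : P.H A | P.Hom A x},
      ∃ y ∈ {y : P.H C | P.Hom C y}, z = P.ext A C x y} := by
    rw [P.span_ext_sets A C _ _ (hom_span A) (hom_span C)]; trivial
  have hβ : β ∈ Submodule.span Ω {z : P.H (X.prod Y) | ∃ x ∈ {x : P.H X | P.Hom X x},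
      ∃ y ∈ {y : P.H Y | P.Hom Y y}, z = P.ext X Y x y} := by
    rw [P.span_ext_sets X Y _ _ (hom_span X) (hom_span Y)]; trivial
  induction hα using Submodule.span_induction with
  | mem α hα =>
    obtain ⟨a, ha, c, hc, rfl⟩ := hα
    induction hβ using Submodule.span_induction with
    | mem β hβ =>
      obtain ⟨x, hx, y, hy, rfl⟩ := hβ
      set T := (A.prod X).prod (C.prod Y)
      have e1 : P.pull (p13 A X C Y) (P.ext A C a c) =
          P.pull (fst (A.prod X) (C.prod Y)) (P.pull (fst A X) a) *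
            P.pull (snd (A.prod X) (C.prod Y)) (P.pull (fst C Y) c) := by
        rw [ext, map_mul (P.pull _), pull_pull, pull_pull, p13, lift_fst, lift_snd, pull_pull,
          pull_pull]
      have e2 : P.pull (p24 A X C Y) (P.ext X Y x y) =
          P.pull (fst (A.prod X) (C.prod Y)) (P.pull (snd A X) x) *
            P.pull (snd (A.prod X) (C.prod Y)) (P.pull (snd C Y) y) := by
        rw [ext, map_mul (P.pull _), pull_pull, pull_pull, p24, lift_fst, lift_snd, pull_pull,
          pull_pull]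
      have e3 : P.pull (p13 A X C Y) (P.ext A C a c) * P.pull (p24 A X C Y) (P.ext X Y x y) =
          P.pull (fst (A.prod X) (C.prod Y)) (P.pull (fst A X) a) *
            (P.pull (snd (A.prod X) (C.prod Y)) (P.pull (fst C Y) c) *
            P.pull (fst (A.prod X) (C.prod Y)) (P.pull (snd A X) x)) *
            P.pull (snd (A.prod X) (C.prod Y)) (P.pull (snd C Y) y) := by
        rw [e1, e2]; noncomm_ring
      have e4 : P.tr T (P.pull (fst (A.prod X) (C.prod Y)) (P.pull (fst A X) a) *
            (P.pull (fst (A.prod X) (C.prod Y)) (P.pull (snd A X) x) *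
              P.pull (snd (A.prod X) (C.prod Y)) (P.pull (fst C Y) c)) *
            P.pull (snd (A.prod X) (C.prod Y)) (P.pull (snd C Y) y)) =
          P.tr A a * P.tr X x * (P.tr C c * P.tr Y y) := by
        have : P.pull (fst (A.prod X) (C.prod Y)) (P.pull (fst A X) a) *
            (P.pull (fst (A.prod X) (C.prod Y)) (P.pull (snd A X) x) *
              P.pull (snd (A.prod X) (C.prod Y)) (P.pull (fst C Y) c)) *
            P.pull (snd (A.prod X) (C.prod Y)) (P.pull (snd C Y) y) =
            P.pull (fst (A.prod X) (C.prod Y)) (P.pull (fst A X) a * P.pull (snd A X) x) *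
            P.pull (snd (A.prod X) (C.prod Y)) (P.pull (fst C Y) c * P.pull (snd C Y) y) := by
          rw [map_mul (P.pull _), map_mul (P.pull _)]; noncomm_ring
        rw [this, P.tr_prod, P.tr_prod, P.tr_prod]
      rw [e3, ext, ext, P.tr_prod, P.tr_prod]
      rcases hc with hc | hc
      · rw [P.ev_comm _ _ _ (P.pull_ev _ _ (P.pull_ev _ _ hc)), e4]; ring
      · rcases hx with hx | hx
        · rw [← P.ev_comm _ _ _ (P.pull_ev _ _ (P.pull_ev _ _ hx)), e4]; ring
        · rw [P.od_anti _ _ _ (P.pull_od _ _ (P.pull_od _ _ hc))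
            (P.pull_od _ _ (P.pull_od _ _ hx)), mul_neg, neg_mul, map_neg, e4,
            P.tr_od C c hc]
          ring
    | zero => simp only [map_zero, mul_zero]
    | add x y _ _ hx hy => rw [map_add (P.pull _), mul_add, map_add, hx, hy, map_add, mul_add]
    | smul r x _ hx =>
      rw [map_smul (P.pull _), mul_smul_comm, map_smul, hx, map_smul, smul_eq_mul, smul_eq_mul]
      ring
  | zero => simp only [map_zero, zero_mul]
  | add x y _ _ hx hy => rw [map_add (P.pull _), add_mul, map_add, hx, hy, map_add, add_mul]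
  | smul r x _ hx =>
    rw [map_smul (P.pull _), smul_mul_assoc, map_smul, hx, map_smul, smul_eq_mul, smul_eq_mul]
    ring

/-- push-forward of an external product -/
lemma pushF_four (u : P.H (A.prod C)) (v : P.H (X.prod Y)) :
    P.pushF (fst (A.prod X) (C.prod Y)) (P.pull (p13 A X C Y) u * P.pull (p24 A X C Y) v) =
      P.ext A X (P.pushF (fst A C) u) (P.pushF (fst X Y) v) := by
  refine eq_of_tr fun y => ?_
  rw [tr_pushF]
  have hom_span : ∀ V : SmProjVar k, Submodule.span Ω {x : P.H V | P.Hom V x} = ⊤ := by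
    intro V
    rw [eq_top_iff]
    intro x _
    obtain ⟨a, ha, b, hb, rfl⟩ := P.exists_decomp V x
    exact Submodule.add_mem _ (Submodule.subset_span (.inl ha)) (Submodule.subset_span (.inr hb))
  have hy : y ∈ Submodule.span Ω {z : P.H (A.prod X) | ∃ x ∈ {x : P.H A | P.Hom A x},
      ∃ y ∈ {y : P.H X | P.Hom X y}, z = P.ext A X x y} := by
    rw [P.span_ext_sets A X _ _ (hom_span A) (hom_span X)]; trivial
  induction hy using Submodule.span_induction with
  | mem y hy =>
    obtain ⟨z, hz, w, hw, rfl⟩ := hy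
    have hl : P.pull (fst (A.prod X) (C.prod Y)) (P.ext A X z w) =
        P.pull (p13 A X C Y) (P.pull (fst A C) z) * P.pull (p24 A X C Y) (P.pull (fst X Y) w) := by
      rw [ext, map_mul (P.pull _), pull_pull, pull_pull, pull_pull, pull_pull, p13, p24,
        lift_fst, lift_fst]
    -- reduce to homogeneous `v`
    obtain ⟨v₀, hv₀, v₁, hv₁, rfl⟩ := P.exists_decomp _ v
    have key : ∀ v : P.H (X.prod Y),
        (P.pull (p24 A X C Y) v * P.pull (p13 A X C Y) (P.pull (fst A C) z) =
          P.pull (p13 A X C Y) (P.pull (fst A C) z) * P.pull (p24 A X C Y) v ∧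
        P.pull (snd A X) (P.pushF (fst X Y) v) * P.pull (fst A X) z =
          P.pull (fst A X) z * P.pull (snd A X) (P.pushF (fst X Y) v)) ∨
        (P.pull (p24 A X C Y) v * P.pull (p13 A X C Y) (P.pull (fst A C) z) =
          -(P.pull (p13 A X C Y) (P.pull (fst A C) z) * P.pull (p24 A X C Y) v) ∧
        P.pull (snd A X) (P.pushF (fst X Y) v) * P.pull (fst A X) z =
          -(P.pull (fst A X) z * P.pull (snd A X) (P.pushF (fst X Y) v))) →
        P.tr ((A.prod X).prod (C.prod Y)) (P.pull (p13 A X C Y) u * P.pull (p24 A X C Y) v *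
          P.pull (fst (A.prod X) (C.prod Y)) (P.ext A X z w)) =
        P.tr (A.prod X) (P.ext A X (P.pushF (fst A C) u) (P.pushF (fst X Y) v) *
          P.ext A X z w) := by
      intro v hv
      rw [hl]
      have e1 : P.pull (p13 A X C Y) u * P.pull (p24 A X C Y) v *
          (P.pull (p13 A X C Y) (P.pull (fst A C) z) *
            P.pull (p24 A X C Y) (P.pull (fst X Y) w)) =
          P.pull (p13 A X C Y) u * (P.pull (p24 A X C Y) v *
          P.pull (p13 A X C Y) (P.pull (fst A C) z)) *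
            P.pull (p24 A X C Y) (P.pull (fst X Y) w) := by noncomm_ring
      have e2 : P.ext A X (P.pushF (fst A C) u) (P.pushF (fst X Y) v) * P.ext A X z w =
          P.pull (fst A X) (P.pushF (fst A C) u) *
            (P.pull (snd A X) (P.pushF (fst X Y) v) * P.pull (fst A X) z) *
            P.pull (snd A X) w := by
        unfold ext; noncomm_ring
      have e3 : P.tr ((A.prod X).prod (C.prod Y)) (P.pull (p13 A X C Y) u *
          (P.pull (p13 A X C Y) (P.pull (fst A C) z) * P.pull (p24 A X C Y) v) *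
            P.pull (p24 A X C Y) (P.pull (fst X Y) w)) =
          P.tr _ (u * P.pull (fst A C) z) * P.tr _ (v * P.pull (fst X Y) w) := by
        rw [← tr_four, map_mul (P.pull _), map_mul (P.pull _)]
        congr 1; noncomm_ring
      have e4 : P.tr (A.prod X) (P.pull (fst A X) (P.pushF (fst A C) u) *
            (P.pull (fst A X) z * P.pull (snd A X) (P.pushF (fst X Y) v)) *
            P.pull (snd A X) w) =
          P.tr _ (u * P.pull (fst A C) z) * P.tr _ (v * P.pull (fst X Y) w) := by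
        rw [← P.tr_pushF (fst A C), ← P.tr_pushF (fst X Y), ← P.tr_prod A X,
          map_mul (P.pull (fst A X)), map_mul (P.pull (snd A X))]
        congr 1; noncomm_ring
      rw [e1, e2]
      rcases hv with ⟨h1, h2⟩ | ⟨h1, h2⟩
      · rw [h1, h2, e3, e4]
      · rw [h1, h2, mul_neg, mul_neg, neg_mul, neg_mul, map_neg, map_neg, e3, e4]
    have k0 := key v₀ (.inl ⟨P.ev_comm _ _ _ (P.pull_ev _ _ hv₀),
      P.ev_comm _ _ _ (P.pull_ev _ _ (pushF_ev _ hv₀))⟩)
    have k1 : P.tr ((A.prod X).prod (C.prod Y)) (P.pull (p13 A X C Y) u *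
          P.pull (p24 A X C Y) v₁ *
          P.pull (fst (A.prod X) (C.prod Y)) (P.ext A X z w)) =
        P.tr (A.prod X) (P.ext A X (P.pushF (fst A C) u) (P.pushF (fst X Y) v₁) *
          P.ext A X z w) := by
      rcases hz with hz | hz
      · exact key v₁ (.inl ⟨(P.ev_comm _ _ _ (P.pull_ev _ _ (P.pull_ev _ _ hz))).symm,
          (P.ev_comm _ _ _ (P.pull_ev _ _ hz)).symm⟩)
      · exact key v₁ (.inr ⟨P.od_anti _ _ _ (P.pull_od _ _ hv₁) (P.pull_od _ _ (P.pull_od _ _ hz)),
          P.od_anti _ _ _ (P.pull_od _ _ (pushF_od _ hv₁)) (P.pull_od _ _ hz)⟩)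
    have e5 : P.ext A X (P.pushF (fst A C) u) (P.pushF (fst X Y) (v₀ + v₁)) =
        P.ext A X (P.pushF (fst A C) u) (P.pushF (fst X Y) v₀) +
          P.ext A X (P.pushF (fst A C) u) (P.pushF (fst X Y) v₁) := by
      unfold ext
      rw [map_add (P.pushF _), map_add (P.pull _), mul_add]
    rw [e5, map_add (P.pull (p24 A X C Y)), mul_add, add_mul, add_mul, map_add, map_add, k0, k1]
  | zero => rw [map_zero (P.pull _), mul_zero, mul_zero, map_zero, map_zero]
  | add x y _ _ hx hy => rw [map_add (P.pull _), mul_add, mul_add, map_add, map_add, hx, hy]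
  | smul r x _ hx =>
    rw [map_smul (P.pull _), mul_smul_comm, mul_smul_comm, map_smul, map_smul, hx]

/-- contraction of an external product -/
lemma contr_four (c : P.H C) (d : P.H Y) (R : P.H (A.prod C)) (r : P.H (X.prod Y))
    (hr : r ∈ P.ev (X.prod Y)) :
    P.contr (A.prod X) (C.prod Y) (P.ext C Y c d)
      (P.pull (p13 A X C Y) R * P.pull (p24 A X C Y) r) =
      P.ext A X (P.contr A C c R) (P.contr X Y d r) := by
  rw [contr_apply, contr_apply, contr_apply, ← pushF_four]
  congr 1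
  have e1 : P.pull (snd (A.prod X) (C.prod Y)) (P.ext C Y c d) =
      P.pull (p13 A X C Y) (P.pull (snd A C) c) * P.pull (p24 A X C Y) (P.pull (snd X Y) d) := by
    rw [ext, map_mul (P.pull _), pull_pull, pull_pull, pull_pull, pull_pull, p13, p24,
      lift_snd, lift_snd]
  have e2 : P.pull (p24 A X C Y) r * P.pull (p13 A X C Y) (P.pull (snd A C) c) =
      P.pull (p13 A X C Y) (P.pull (snd A C) c) * P.pull (p24 A X C Y) r :=
    P.ev_comm _ _ _ (P.pull_ev _ _ hr)
  have e3 : P.pull (p13 A X C Y) R * P.pull (p24 A X C Y) r *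
      (P.pull (p13 A X C Y) (P.pull (snd A C) c) *
        P.pull (p24 A X C Y) (P.pull (snd X Y) d)) =
      P.pull (p13 A X C Y) R * (P.pull (p24 A X C Y) r *
        P.pull (p13 A X C Y) (P.pull (snd A C) c)) *
        P.pull (p24 A X C Y) (P.pull (snd X Y) d) := by noncomm_ring
  rw [e1, e3, e2, map_mul (P.pull _), map_mul (P.pull _)]
  noncomm_ring

end Four

end SPre

end Pool.Agent.Helper10
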