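import Mathlib
import Pool.Agent.Helper10.Push
import Pool.Agent.Helper10.NormTypes

/-!
# Powers, and vectors with an algebraic norm
-/

universe u v w t

open CategoryTheory

namespace Pool.Agent.Helper10

open SmProjVar

/-- the projections `X ^ (n + 1) → X` (the projection number `j`, for `j ≤ n`) -/
noncomputable def SmProjVar.projPow {k : Type u} [Field k] (X : SmProjVar k) :
    ∀ n : ℕ, ℕ → ((X.selfProd n).toOver ⟶ X.toOver)
  | 0, _ => 𝟙 X.toOver
  | n + 1, j => if j = n + 1 then snd (X.selfProd n) X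
      else fst (X.selfProd n) X ≫ SmProjVar.projPow X n j

/-- the morphism to a power with given components -/
noncomputable def SmProjVar.liftPow {k : Type u} [Field k] {X Z : SmProjVar k}
    (p : ℕ → (Z.toOver ⟶ X.toOver)) : ∀ n : ℕ, (Z.toOver ⟶ (X.selfProd n).toOver)
  | 0 => p 0
  | n + 1 => lift (SmProjVar.liftPow p n) (p (n + 1))

namespace SPre

variable {k : Type u} [Field k] {K : Type t} [Field K] {Ω : Type v} [Field Ω] [Algebra K Ω]
  (P : SPre.{u, v, w, t} k K Ω)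

/-- iterated external products -/
noncomputable def extPow (Y : SmProjVar k) : ∀ n : ℕ, (ℕ → P.H Y) → P.H (Y.selfProd n)
  | 0, y => y 0
  | n + 1, y => P.ext (Y.selfProd n) Y (extPow Y n y) (y (n + 1))

/-- iterated external products of classes on `X × Y`, on `X ^ (n + 1) × Y ^ (n + 1)` -/
noncomputable def mixPow (X Y : SmProjVar k) : ∀ n : ℕ, (ℕ → P.H (X.prod Y)) →
    P.H ((X.selfProd n).prod (Y.selfProd n))
  | 0, r => r 0
  | n + 1, r => P.pull (p13 (X.selfProd n) X (Y.selfProd n) Y) (mixPow X Y n r) *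
      P.pull (p24 (X.selfProd n) X (Y.selfProd n) Y) (r (n + 1))

variable {P}

lemma contr_mixPow {X Y : SmProjVar k} (n : ℕ) (c : ℕ → P.H Y) (r : ℕ → P.H (X.prod Y))
    (hr : ∀ j, r j ∈ P.ev (X.prod Y)) :
    P.contr (X.selfProd n) (Y.selfProd n) (P.extPow Y n c) (P.mixPow X Y n r) =
      P.extPow X n (fun j => P.contr X Y (c j) (r j)) := by
  induction n with
  | zero => rfl
  | succ n ih =>
    change P.contr ((X.selfProd n).prod X) ((Y.selfProd n).prod Y)
      (P.ext (Y.selfProd n) Y (P.extPow Y n c) (c (n + 1)))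
      (P.pull (p13 (X.selfProd n) X (Y.selfProd n) Y) (P.mixPow X Y n r) *
      P.pull (p24 (X.selfProd n) X (Y.selfProd n) Y) (r (n + 1))) = _
    rw [contr_four _ _ _ _ (hr (n + 1)), ih]
    rfl

lemma mixPow_rad {X Y : SmProjVar k} (n : ℕ) (r : ℕ → P.H (X.prod Y))
    (hr : ∀ j, P.rad (X.prod Y) (r j)) : P.rad _ (P.mixPow X Y n r) := by
  induction n with
  | zero => exact hr 0
  | succ n ih => exact rad_mul (rad_pull _ ih) (P.pull_mem _ _ (hr (n + 1)).1)

lemma extPow_ne_zero {X : SmProjVar k} (n : ℕ) (y : ℕ → P.H X) (hy : ∀ j, y j ≠ 0) :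
    P.extPow X n y ≠ 0 := by
  induction n with
  | zero => exact hy 0
  | succ n ih => exact ext_ne_zero ih (hy (n + 1))

/-- a vector some tensor product of conjugates of which is algebraic -/
def NormVec (Y : SmProjVar k) (e : P.H Y) : Prop :=
  ∃ (n : ℕ) (σ : ℕ → (Ω ≃ₐ[K] Ω)), P.extPow Y n (fun j => P.s (σ j) Y e) ∈ P.alg (Y.selfProd n)

/-- the orbit argument, in relative form -/
lemma contr_eq_zero {X Y : SmProjVar k} (n : ℕ) (σ : ℕ → (Ω ≃ₐ[K] Ω)) {e : P.H Y}
    (he : P.extPow Y n (fun j => P.s (σ j) Y e) ∈ P.alg (Y.selfProd n))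
    (hX : P.D (X.selfProd n)) {r : P.H (X.prod Y)} (hr : P.rad (X.prod Y) r) :
    P.contr X Y e r = 0 := by
  by_contra hne
  have h1 := mixPow_rad n (fun j => P.s (σ j) (X.prod Y) r) (fun j => P.rad_s (σ j) hr)
  have h2 := hX _ (contr_rad he h1)
  rw [contr_mixPow n _ _ (fun j => P.s_ev (σ j) _ _ (P.alg_le_ev _ hr.1))] at h2
  refine extPow_ne_zero n _ (fun j => ?_) h2
  rw [← contr_s]
  exact (map_ne_zero_iff _ (P.s (σ j) X).injective).mpr hne

/-- If D holds for all powers of `X`, and the cohomology of `Y` is spanned by vectors with an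
algebraic norm, then D holds for `X × Y`. -/
lemma D.prod_of_normVec {X Y : SmProjVar k} (hX : ∀ n, P.D (X.selfProd n)) (S : Set (P.H Y))
    (hS : Submodule.span Ω S = ⊤) (h : ∀ e ∈ S, NormVec Y e) : P.D (X.prod Y) := by
  intro r hr
  refine eq_zero_of_contr hS fun e he => ?_
  obtain ⟨n, σ, hn⟩ := h e he
  exact contr_eq_zero n σ hn (hX n) hr

lemma extPow_ev {Y : SmProjVar k} (n : ℕ) (r : ℕ → P.H Y) (hr : ∀ j, r j ∈ P.ev Y) :
    P.extPow Y n r ∈ P.ev (Y.selfProd n) := by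
  induction n with
  | zero => exact hr 0
  | succ n ih => exact P.ev_mul_ev _ _ _ (P.pull_ev _ _ ih) (P.pull_ev _ _ (hr (n + 1)))

lemma tr_ext_mul_ext_ev {A Y : SmProjVar k} (a a' : P.H A) (b b' : P.H Y) (hb : b ∈ P.ev Y) :
    P.tr _ (P.ext A Y a b * P.ext A Y a' b') = P.tr A (a * a') * P.tr Y (b * b') := by
  have h1 : P.pull (snd A Y) b * P.pull (fst A Y) a' = P.pull (fst A Y) a' * P.pull (snd A Y) b :=
    P.ev_comm _ _ _ (P.pull_ev _ _ hb)
  have h2 : P.ext A Y a b * P.ext A Y a' b' =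
      P.pull (fst A Y) a * (P.pull (snd A Y) b * P.pull (fst A Y) a') * P.pull (snd A Y) b' := by
    unfold ext; noncomm_ring
  rw [h2, h1, ← P.tr_prod, map_mul (P.pull _), map_mul (P.pull _)]
  congr 1
  noncomm_ring

lemma tr_extPow_mul {Y : SmProjVar k} (n : ℕ) (r e : ℕ → P.H Y) (hr : ∀ j, r j ∈ P.ev Y) :
    P.tr _ (P.extPow Y n r * P.extPow Y n e) = ∏ j ∈ Finset.range (n + 1), P.tr Y (r j * e j) := by
  induction n with
  | zero => rw [Finset.prod_range_one]; rfl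
  | succ n ih =>
    rw [Finset.prod_range_succ, ← ih]
    exact tr_ext_mul_ext_ev (A := Y.selfProd n) (P.extPow Y n r) (P.extPow Y n e) (r (n + 1))
      (e (n + 1)) (hr (n + 1))

lemma extPow_rad {Y : SmProjVar k} (n : ℕ) (r : ℕ → P.H Y)
    (hr : ∀ j, P.rad Y (r j)) : P.rad _ (P.extPow Y n r) := by
  induction n with
  | zero => exact hr 0
  | succ n ih => exact rad_mul (rad_pull _ ih) (P.pull_mem _ _ (hr (n + 1)).1)

/-- the orbit argument, in absolute form -/
lemma D.of_normVec {Y : SmProjVar k} (S : Set (P.H Y))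
    (hS : Submodule.span Ω S = ⊤) (h : ∀ e ∈ S, NormVec Y e) : P.D Y := by
  intro r hr
  have key : ∀ e ∈ S, P.tr Y (r * e) = 0 := by
    intro e he
    obtain ⟨n, σ, hn⟩ := h e he
    have h1 := (extPow_rad n (fun j => P.s (σ j) Y r) (fun j => P.rad_s (σ j) hr)).2 _ hn
    rw [tr_extPow_mul n _ _ (fun j => P.s_ev (σ j) _ _ (P.alg_le_ev _ hr.1)),
      Finset.prod_eq_zero_iff] at h1
    obtain ⟨j, -, hj⟩ := h1
    rw [← map_mul (P.s (σ j) Y), P.tr_s] at hj
    exact (map_eq_zero_iff _ (σ j).injective).mp hj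
  refine P.nondeg Y r fun y => ?_
  have hy : y ∈ Submodule.span Ω S := by rw [hS]; trivial
  induction hy using Submodule.span_induction with
  | mem y hy => exact key y hy
  | zero => rw [mul_zero, map_zero]
  | add x y _ _ hx hy => rw [mul_add, map_add, hx, hy, add_zero]
  | smul a x _ hx => rw [mul_smul_comm, map_smul, hx, smul_zero]

/-! ### closure under products -/

variable (P) in
/-- iterated external products of homogeneous elements -/
noncomputable def extPowHom (Y : SmProjVar k) : ∀ n : ℕ, (ℕ → P.homSub Y) →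
    P.homSub (Y.selfProd n)
  | 0, y => y 0
  | n + 1, y => P.extHom (Y.selfProd n) Y (extPowHom Y n y) (y (n + 1))

lemma coe_extPowHom (Y : SmProjVar k) (n : ℕ) (y : ℕ → P.homSub Y) :
    (P.extPowHom Y n y : P.H (Y.selfProd n)) = P.extPow Y n (fun j => y j) := by
  induction n with
  | zero => rfl
  | succ n ih =>
    change ((P.extHom (Y.selfProd n) Y (P.extPowHom Y n y) (y (n + 1)) :
      P.homSub ((Y.selfProd n).prod Y)) : P.H ((Y.selfProd n).prod Y)) =
      P.ext (Y.selfProd n) Y (P.extPow Y n (fun j => (y j : P.H Y))) (y (n + 1))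
    rw [coe_extHom, ih]

lemma cls_extPowHom (Y : SmProjVar k) (n : ℕ) (y : ℕ → P.homSub Y) :
    P.cls _ (P.extPowHom Y n y) =
      ∏ j ∈ Finset.range (n + 1), P.cls _ (P.pullHom (Y.projPow n j) (y j)) := by
  induction n with
  | zero =>
    rw [Finset.prod_range_one]
    congr 1
    refine Subtype.ext ?_
    rw [coe_pullHom]
    change (y 0 : P.H Y) = P.pull (𝟙 Y.toOver) (y 0)
    rw [P.pull_id, AlgHom.id_apply]
  | succ n ih =>
    rw [Finset.prod_range_succ]
    have h1 : ∀ j ∈ Finset.range (n + 1), P.cls ((Y.selfProd n).prod Y)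
        (P.pullHom (Y.projPow (n + 1) j) (y j)) =
        P.pullQ (fst (Y.selfProd n) Y) (P.cls _ (P.pullHom (Y.projPow n j) (y j))) := by
      intro j hj
      have hj' : j ≠ n + 1 := by rw [Finset.mem_range] at hj; omega
      have h2 : (Y.projPow (n + 1) j : ((Y.selfProd n).prod Y).toOver ⟶ Y.toOver) =
        fst (Y.selfProd n) Y ≫ Y.projPow n j := if_neg hj'
      rw [pullQ_cls]
      congr 1
      refine Subtype.ext ?_
      exact (congrArg (fun f : ((Y.selfProd n).prod Y).toOver ⟶ Y.toOver =>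
        P.pull f (y j : P.H Y)) h2).trans
        (pull_pull (fst (Y.selfProd n) Y) (Y.projPow n j) (y j : P.H Y)).symm
    have h2 : Y.projPow (n + 1) (n + 1) = snd (Y.selfProd n) Y := if_pos rfl
    have h3 : P.cls ((Y.selfProd n).prod Y) (P.pullHom (fst (Y.selfProd n) Y)
        (P.extPowHom Y n y) * P.pullHom (snd (Y.selfProd n) Y) (y (n + 1))) =
        (∏ j ∈ Finset.range (n + 1), P.cls ((Y.selfProd n).prod Y)
        (P.pullHom (Y.projPow (n + 1) j) (y j))) *
          P.cls ((Y.selfProd n).prod Y) (P.pullHom (Y.projPow (n + 1) (n + 1)) (y (n + 1))) := by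
      rw [Finset.prod_congr rfl h1, h2, map_mul, ← pullQ_cls, ih, map_prod]
      rfl
    exact h3

lemma pull_liftPow {Z Y : SmProjVar k} (p : ℕ → (Z.toOver ⟶ Y.toOver)) (n : ℕ)
    (y : ℕ → P.homSub Y) : P.cls Z (P.pullHom (liftPow p n) (P.extPowHom Y n y)) =
      ∏ j ∈ Finset.range (n + 1), P.cls Z (P.pullHom (p j) (y j)) := by
  induction n with
  | zero => rw [Finset.prod_range_one]; rfl
  | succ n ih =>
    rw [Finset.prod_range_succ, ← ih, ← map_mul]
    congr 1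
    refine Subtype.ext ?_
    rw [coe_pullHom, Submonoid.coe_mul, coe_pullHom, coe_pullHom]
    change P.pull (lift (liftPow p n) (p (n + 1))) (P.pull (fst (Y.selfProd n) Y)
      (P.extPowHom Y n y) * P.pull (snd (Y.selfProd n) Y) (y (n + 1))) = _
    rw [map_mul (P.pull _), pull_pull, pull_pull, lift_fst, lift_snd]

lemma extPow_mem_iff {Y : SmProjVar k} (n : ℕ) (y : ℕ → P.homSub Y) :
    P.extPow Y n (fun j => y j) ∈ P.alg (Y.selfProd n) ↔
      ∀ (Z : SmProjVar k) (p : ℕ → (Z.toOver ⟶ Y.toOver)),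
        ∏ j ∈ Finset.range (n + 1), P.cls Z (P.pullHom (p j) (y j)) ∈ P.algQ Z := by
  rw [← coe_extPowHom]
  constructor
  · intro h Z p
    rw [← pull_liftPow p n y, cls_mem_algQ]
    exact P.pull_mem _ _ h
  · intro h
    rw [← cls_mem_algQ, cls_extPowHom]
    exact h _ _

variable (P) in
/-- the norm of `e` is algebraic -/
def Nice2 (Y : SmProjVar k) (e : P.homSub Y) : Prop :=
  ∃ (N₀ : Subgroup (Ω ≃ₐ[K] Ω)) (r : ℕ), N₀.FiniteIndex ∧ 0 < r ∧
    ∀ (N : Subgroup (Ω ≃ₐ[K] Ω)) (_ : N.Normal) (_ : Fintype ((Ω ≃ₐ[K] Ω) ⧸ N)), N ≤ N₀ →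
      P.Trick (J := ((Ω ≃ₐ[K] Ω) ⧸ N) × Fin r) (fun x => Quotient.out x.1) Y e

lemma Nice.nice2 {Y : SmProjVar k} {e : P.homSub Y} (h : P.Nice Y e) : P.Nice2 Y e := by
  obtain ⟨N₀, hN₀, h⟩ := h
  refine ⟨N₀, 2, hN₀, two_pos, fun N hN hf hle Z p => ?_⟩
  have h1 := h N hN hf hle Z (Sum.elim (fun g => p (g, 0)) (fun g => p (g, 1)))
  rw [Fintype.prod_sum_type] at h1
  rw [Fintype.prod_prod_type]
  simp only [Fin.prod_univ_two, Finset.prod_mul_distrib]
  exact h1

lemma Nice2.mul {Y : SmProjVar k} {e : P.homSub Y} {N : Subgroup (Ω ≃ₐ[K] Ω)}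
    (hf : Fintype ((Ω ≃ₐ[K] Ω) ⧸ N)) {r : ℕ} (m : ℕ)
    (h : P.Trick (J := ((Ω ≃ₐ[K] Ω) ⧸ N) × Fin r) (fun x => Quotient.out x.1) Y e) :
    P.Trick (J := ((Ω ≃ₐ[K] Ω) ⧸ N) × Fin (r * m)) (fun x => Quotient.out x.1) Y e := by
  intro Z p
  rw [Fintype.prod_prod_type, Finset.prod_comm,
    ← Equiv.prod_comp (finProdFinEquiv : Fin r × Fin m ≃ Fin (r * m)), Fintype.prod_prod_type,
    Finset.prod_comm]
  refine (P.algQ Z).prod_mem fun b _ => ?_
  have h1 := h Z (fun x => p (x.1, finProdFinEquiv (x.2, b)))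
  rw [Fintype.prod_prod_type, Finset.prod_comm] at h1
  exact h1

lemma Nice2.ext {X Y : SmProjVar k} {x : P.homSub X} {y : P.homSub Y} (hx : P.Nice2 X x)
    (hy : P.Nice2 Y y) : P.Nice2 (X.prod Y) (P.extHom X Y x y) := by
  obtain ⟨N₁, r₁, hN₁, hr₁, hx⟩ := hx
  obtain ⟨N₂, r₂, hN₂, hr₂, hy⟩ := hy
  refine ⟨N₁ ⊓ N₂, r₁ * r₂, inferInstance, Nat.mul_pos hr₁ hr₂, fun N hN hf hle Z p => ?_⟩
  have h1 := Nice2.mul hf r₂ (hx N hN hf (hle.trans inf_le_left)) Z (fun j => p j ≫ fst X Y)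
  have h2' := Nice2.mul hf r₁ (hy N hN hf (hle.trans inf_le_right))
  rw [mul_comm r₂ r₁] at h2'
  have h2 := h2' Z (fun j => p j ≫ snd X Y)
  have h3 := (P.algQ Z).mul_mem h1 h2
  rw [← Finset.prod_mul_distrib] at h3
  convert h3 using 2 with j
  rw [← map_mul]
  congr 1
  refine Subtype.ext ?_
  rw [coe_pullHom, coe_sHom, Submonoid.coe_mul, coe_pullHom, coe_pullHom, coe_sHom, coe_sHom,
    coe_extHom, SPre.ext, map_mul (P.s _ _), P.s_pull, P.s_pull, map_mul (P.pull (p j)),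
    P.pull_comp, P.pull_comp]
  rfl

lemma Nice2.normVec {Y : SmProjVar k} {e : P.homSub Y} (h : P.Nice2 Y e) :
    NormVec Y (e : P.H Y) := by
  obtain ⟨N₀, r, hN₀, hr, h⟩ := h
  have hfin : Finite ((Ω ≃ₐ[K] Ω) ⧸ N₀.normalCore) := inferInstance
  have hft : Fintype ((Ω ≃ₐ[K] Ω) ⧸ N₀.normalCore) := Fintype.ofFinite _
  have h1 := h N₀.normalCore inferInstance hft N₀.normalCore_le
  have hne : Nonempty (((Ω ≃ₐ[K] Ω) ⧸ N₀.normalCore) × Fin r) := ⟨(QuotientGroup.mk 1, ⟨0, hr⟩)⟩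
  obtain ⟨m, hm⟩ : ∃ m, Fintype.card (((Ω ≃ₐ[K] Ω) ⧸ N₀.normalCore) × Fin r) = m + 1 :=
    ⟨_, (Nat.succ_pred_eq_of_pos Fintype.card_pos).symm⟩
  set J := ((Ω ≃ₐ[K] Ω) ⧸ N₀.normalCore) × Fin r
  let ε : J ≃ Fin (m + 1) := (Fintype.equivFin J).trans (finCongr hm)
  refine ⟨m, fun j => if hj : j < m + 1 then Quotient.out (ε.symm ⟨j, hj⟩).1 else 1, ?_⟩
  have h2 := (extPow_mem_iff (P := P) m
    (fun j => P.sHom (if hj : j < m + 1 then Quotient.out (ε.symm ⟨j, hj⟩).1 else 1) Y e)).mpr ?_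
  · exact h2
  · intro Z p
    rw [Finset.prod_range]
    have h3 := h1 Z (fun j => p (ε j))
    rw [← Equiv.prod_comp ε]
    convert h3 using 2 with j
    have h4 : (if hj : ((ε j : Fin (m + 1)) : ℕ) < m + 1 then
        Quotient.out (ε.symm ⟨ε j, hj⟩).1 else 1) = Quotient.out j.1 := by
      rw [dif_pos (ε j).2]
      congr 2
      exact ε.symm_apply_apply j
    rw [h4]

variable (P) in
/-- the cohomology of `Y` is spanned by homogeneous vectors with an algebraic norm -/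
def NormGood (Y : SmProjVar k) : Prop :=
  Submodule.span Ω (Subtype.val '' {e : P.homSub Y | P.Nice2 Y e} : Set (P.H Y)) = ⊤

lemma Good.normGood {Y : SmProjVar k} (h : P.Good Y) : P.NormGood Y := by
  obtain ⟨S, S', hS, hS', ha, hb⟩ := h
  unfold NormGood
  rw [eq_top_iff, ← hS']
  refine Submodule.span_mono ?_
  rintro _ ⟨e, he, rfl⟩
  exact ⟨e, (hb e he).nice2, rfl⟩

lemma NormGood.prod {X Y : SmProjVar k} (hX : P.NormGood X) (hY : P.NormGood Y) :
    P.NormGood (X.prod Y) := by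
  unfold NormGood
  rw [eq_top_iff, ← P.span_ext_sets X Y _ _ hX hY]
  refine Submodule.span_mono ?_
  rintro _ ⟨_, ⟨x, hx, rfl⟩, _, ⟨y, hy, rfl⟩, rfl⟩
  exact ⟨P.extHom X Y x y, Nice2.ext hx hy, rfl⟩

lemma NormGood.d {Y : SmProjVar k} (h : P.NormGood Y) : P.D Y := by
  refine D.of_normVec _ h ?_
  rintro _ ⟨e, he, rfl⟩
  exact Nice2.normVec he

/-- **Relative theorem** in the auxiliary setting -/
lemma NormGood.prod_d {X Y : SmProjVar k} (hX : ∀ n, P.D (X.selfProd n)) (h : P.NormGood Y) :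
    P.D (X.prod Y) := by
  refine D.prod_of_normVec hX _ h ?_
  rintro _ ⟨e, he, rfl⟩
  exact Nice2.normVec he

/-- a homogeneous vector with finitely many conjugates, some tensor product of conjugates of
which is algebraic -/
lemma Nice2.of_normVec {Y : SmProjVar k} (e : P.homSub Y)
    (hmul : ∀ (σ τ : Ω ≃ₐ[K] Ω), P.s (σ * τ) Y (e : P.H Y) = P.s σ Y (P.s τ Y e))
    (N₀ : Subgroup (Ω ≃ₐ[K] Ω)) (hN₀ : N₀.FiniteIndex)
    (hstab : ∀ (σ τ : Ω ≃ₐ[K] Ω), σ⁻¹ * τ ∈ N₀ → P.s σ Y (e : P.H Y) = P.s τ Y e)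
    (h : NormVec Y (e : P.H Y)) : P.Nice2 Y e := by
  obtain ⟨n, σ, hn⟩ := h
  refine ⟨N₀, n + 1, hN₀, Nat.succ_pos n, fun N hN hf hle Z p => ?_⟩
  -- for every `g`, a conjugate of the algebraic class
  have key : ∀ g : (Ω ≃ₐ[K] Ω) ⧸ N, ∀ q : Fin (n + 1) → (Z.toOver ⟶ Y.toOver),
      ∏ j : Fin (n + 1), P.cls Z (P.pullHom (q j)
        (P.sHom (Quotient.out (g * QuotientGroup.mk (σ j))) Y e)) ∈ P.algQ Z := by
    intro g q
    have h1 : P.extPow Y n (fun j => (P.sHom (Quotient.out (g * QuotientGroup.mk (σ j))) Y e :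
        P.H Y)) = P.s (Quotient.out g) _ (P.extPow Y n (fun j => P.s (σ j) Y e)) := by
      have h2 : ∀ m : ℕ, P.extPow Y m (fun j =>
          (P.sHom (Quotient.out (g * QuotientGroup.mk (σ j))) Y e : P.H Y)) =
          P.s (Quotient.out g) _ (P.extPow Y m (fun j => P.s (σ j) Y e)) := by
        have h3 : ∀ j, (P.sHom (Quotient.out (g * QuotientGroup.mk (σ j))) Y e : P.H Y) =
            P.s (Quotient.out g) Y (P.s (σ j) Y e) := by
          intro j
          rw [coe_sHom, ← hmul]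
          refine hstab _ _ (hle ?_)
          refine QuotientGroup.eq.mp ?_
          rw [QuotientGroup.out_eq', QuotientGroup.mk_mul, QuotientGroup.out_eq']
        intro m
        induction m with
        | zero => exact h3 0
        | succ m ih =>
          change P.ext (Y.selfProd m) Y (P.extPow Y m (fun j =>
            (P.sHom (Quotient.out (g * QuotientGroup.mk (σ j))) Y e : P.H Y)))
            (P.sHom (Quotient.out (g * QuotientGroup.mk (σ (m + 1)))) Y e : P.H Y) =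
            P.s (Quotient.out g) ((Y.selfProd m).prod Y) (P.ext (Y.selfProd m) Y
              (P.extPow Y m (fun j => P.s (σ j) Y e)) (P.s (σ (m + 1)) Y e))
          rw [ih, h3, SPre.ext, SPre.ext, map_mul (P.s _ _), P.s_pull, P.s_pull]
      exact h2 n
    have h2 : P.extPow Y n (fun j => (P.sHom (Quotient.out (g * QuotientGroup.mk (σ j))) Y e :
        P.H Y)) ∈ P.alg (Y.selfProd n) := by
      rw [h1, P.s_alg]
      exact hn
    have h3 := (extPow_mem_iff n
      (fun j => P.sHom (Quotient.out (g * QuotientGroup.mk (σ j))) Y e)).mp h2 Z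
      (fun j => if hj : j < n + 1 then q ⟨j, hj⟩ else q 0)
    rw [Finset.prod_range] at h3
    convert h3 using 2 with j
    rw [dif_pos j.2]
  rw [Fintype.prod_prod_type, Finset.prod_comm]
  have h1 := (P.algQ Z).prod_mem (t := Finset.univ) (f := fun g : (Ω ≃ₐ[K] Ω) ⧸ N =>
    ∏ j : Fin (n + 1), P.cls Z (P.pullHom (p (g * QuotientGroup.mk (σ j), j))
        (P.sHom (Quotient.out (g * QuotientGroup.mk (σ j))) Y e)))
    (fun g _ => key g (fun j => p (g * QuotientGroup.mk (σ j), j)))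
  rw [Finset.prod_comm] at h1
  convert h1 using 2 with j
  exact (Equiv.prod_comp (Equiv.mulRight (QuotientGroup.mk (σ j) : (Ω ≃ₐ[K] Ω) ⧸ N))
      (fun g => P.cls Z (P.pullHom (p (g, j)) (P.sHom (Quotient.out g) Y e)))).symm

end SPre

end Pool.Agent.Helper10
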