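import Mathlib
import Pool.Agent.Helper10.Norm
import Pool.Agent.Helper10.Koszul

/-!
# Classes with an algebraic norm, and products of determinants of such classes
-/

universe u v w t

open CategoryTheory

namespace Pool.Agent.Helper10

open SmProjVar

namespace SPre

variable {k : Type u} [Field k] {K : Type t} [Field K] {Ω : Type v} [Field Ω] [Algebra K Ω]
  (P : SPre.{u, v, w, t} k K Ω)

/-- `x` is homogeneous, and its norm is algebraic -/
def NiceX (Z : SmProjVar k) (x : P.H Z) : Prop := ∃ h : x ∈ P.homSub Z, P.Nice2 Z ⟨x, h⟩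

variable {P}

lemma NiceX.pull {Z Y : SmProjVar k} (f : Z.toOver ⟶ Y.toOver) {x : P.H Y} (hx : P.NiceX Y x) :
    P.NiceX Z (P.pull f x) := by
  obtain ⟨h, N₀, r, hN₀, hr, hx⟩ := hx
  refine ⟨(P.pullHom f ⟨x, h⟩).2, N₀, r, hN₀, hr, fun N hN hf hle Z' p => ?_⟩
  have h1 := hx N hN hf hle Z' (fun j => p j ≫ f)
  convert h1 using 3 with j
  refine Subtype.ext ?_
  rw [coe_pullHom, coe_sHom, coe_pullHom, coe_sHom]
  change P.pull (p j) (P.s _ Z (P.pull f x)) = P.pull (p j ≫ f) (P.s _ Y x)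
  rw [P.s_pull, pull_pull]

lemma NiceX.of_nice2 {Z : SmProjVar k} {e : P.homSub Z} (h : P.Nice2 Z e) :
    P.NiceX Z (e : P.H Z) := ⟨e.2, h⟩

lemma NiceX.mul {Z : SmProjVar k} {x y : P.H Z} (hx : P.NiceX Z x) (hy : P.NiceX Z y) :
    P.NiceX Z (x * y) := by
  obtain ⟨h₁, hx⟩ := hx
  obtain ⟨h₂, hy⟩ := hy
  have h1 := NiceX.of_nice2 (Nice2.ext hx hy)
  rw [coe_extHom] at h1
  have h2 := h1.pull (lift (𝟙 Z.toOver) (𝟙 Z.toOver))
  have h3 : P.pull (lift (𝟙 Z.toOver) (𝟙 Z.toOver)) (P.ext Z Z x y) = x * y := by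
    rw [ext, map_mul (P.pull _), pull_pull, pull_pull, lift_fst, lift_snd, P.pull_id]
    rfl
  rw [← h3]
  exact h2

lemma NiceX.one (Z : SmProjVar k) : P.NiceX Z 1 := by
  refine ⟨(P.homSub Z).one_mem, ⊤, 1, inferInstance, one_pos, fun N hN hf hle Z' p => ?_⟩
  refine (P.algQ Z').prod_mem fun j _ => ?_
  rw [cls_mem_algQ, coe_pullHom, coe_sHom]
  change P.pull (p j) (P.s _ Z 1) ∈ P.alg Z'
  rw [map_one (P.s _ Z), map_one (P.pull _)]
  exact P.one_mem Z'

lemma NiceX.ofFn {Z : SmProjVar k} {m : ℕ} {x : Fin m → P.H Z} (hx : ∀ i, P.NiceX Z (x i)) :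
    P.NiceX Z (List.ofFn x).prod := by
  induction m with
  | zero => rw [List.ofFn_zero, List.prod_nil]; exact NiceX.one Z
  | succ m ih =>
    rw [List.ofFn_succ, List.prod_cons]
    exact (hx 0).mul (ih fun i => hx i.succ)

lemma NiceX.contr_eq_zero {X Y : SmProjVar k} (hX : ∀ n, P.D (X.selfProd n)) {e : P.H Y}
    (he : P.NiceX Y e) {r : P.H (X.prod Y)} (hr : P.rad (X.prod Y) r) : P.contr X Y e r = 0 := by
  obtain ⟨h, he⟩ := he
  obtain ⟨n, σ, hn⟩ := he.normVec
  exact SPre.contr_eq_zero n σ hn (hX n) hr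

/-- contraction is additive in the class -/
lemma contr_sum (A C : SmProjVar k) {ι : Type*} (s : Finset ι) (a : ι → Ω) (c : ι → P.H C)
    (R : P.H (A.prod C)) :
    P.contr A C (∑ i ∈ s, a i • c i) R = ∑ i ∈ s, a i • P.contr A C (c i) R := by
  simp only [contr_apply]
  rw [map_sum (P.pull _), Finset.mul_sum, map_sum]
  refine Finset.sum_congr rfl fun i _ => ?_
  rw [map_smul (P.pull _), mul_smul_comm, map_smul]

lemma contr_zsmul (A C : SmProjVar k) (a : ℤ) (c : P.H C) (R : P.H (A.prod C)) :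
    P.contr A C (a • c) R = a • P.contr A C c R := by
  simp only [contr_apply]
  rw [map_zsmul (P.pull _), mul_smul_comm, map_zsmul]

lemma extPow_eq (Y : SmProjVar k) (n : ℕ) (y : ℕ → P.H Y) :
    P.extPow Y n y = (List.ofFn fun j : Fin (n + 1) => P.pull (Y.projPow n j) (y j)).prod := by
  induction n with
  | zero =>
    rw [List.ofFn_succ, List.ofFn_zero, List.prod_cons, List.prod_nil, mul_one]
    change y 0 = P.pull (𝟙 Y.toOver) (y 0)
    rw [P.pull_id]
    rfl
  | succ n ih =>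
    rw [List.ofFn_succ', List.concat_eq_append, List.prod_append, List.prod_singleton]
    have h1 : (List.ofFn fun i : Fin (n + 1) =>
        (P.pull (Y.projPow (n + 1) (i.castSucc : ℕ)) (y (i.castSucc : ℕ)) :
          P.H ((Y.selfProd n).prod Y))).prod =
        P.pull (fst (Y.selfProd n) Y) (P.extPow Y n y) := by
      rw [ih, map_list_prod, List.map_ofFn]
      congr 2
      funext i
      have hi : (i : ℕ) ≠ n + 1 := by omega
      have h2 : (Y.projPow (n + 1) i : ((Y.selfProd n).prod Y).toOver ⟶ Y.toOver) =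
        fst (Y.selfProd n) Y ≫ Y.projPow n i := if_neg hi
      exact (congrArg (fun f : ((Y.selfProd n).prod Y).toOver ⟶ Y.toOver => P.pull f (y i)) h2).trans
        (pull_pull _ _ _).symm
    have h3 : (Y.projPow (n + 1) (n + 1) : ((Y.selfProd n).prod Y).toOver ⟶ Y.toOver) =
        snd (Y.selfProd n) Y := if_pos rfl
    change P.ext (Y.selfProd n) Y (P.extPow Y n y) (y (n + 1)) = _
    refine congrArg₂ (· * ·) h1.symm ?_
    exact (congrArg (fun f : ((Y.selfProd n).prod Y).toOver ⟶ Y.toOver =>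
      P.pull f (y (n + 1))) h3).symm

variable (P) in
/-- iterated contraction of a class on `X ^ (n + 1)` -/
noncomputable def itr (X : SmProjVar k) (c : ℕ → P.H X) : ∀ n, P.H (X.selfProd n) →ₗ[Ω] Ω
  | 0 => (P.tr X).comp (LinearMap.mulRight Ω (c 0))
  | n + 1 => (itr X c n).comp (P.contr (X.selfProd n) X (c (n + 1)))

lemma itr_extPow (X : SmProjVar k) (c y : ℕ → P.H X) (n : ℕ) :
    P.itr X c n (P.extPow X n y) = ∏ j ∈ Finset.range (n + 1), P.tr X (y j * c j) := by
  induction n with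
  | zero =>
    rw [Finset.prod_range_one]
    rfl
  | succ n ih =>
    rw [Finset.prod_range_succ, ← ih]
    change P.itr X c n (P.contr (X.selfProd n) X (c (n + 1))
      (P.ext (X.selfProd n) X (P.extPow X n y) (y (n + 1)))) = _
    rw [contr_ext, map_smul, smul_eq_mul, mul_comm]

end SPre

end Pool.Agent.Helper10
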