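import Mathlib
import Pool.Agent.Helper10.Norm

/-!
# Retracts, and powers of products
-/

universe u v w t

open CategoryTheory

namespace Pool.Agent.Helper10

open SmProjVar

/-- `A` is a retract of `B` -/
def SmProjVar.Retract {k : Type u} [Field k] (A B : SmProjVar k) : Prop :=
  ∃ (i : A.toOver ⟶ B.toOver) (p : B.toOver ⟶ A.toOver), i ≫ p = 𝟙 A.toOver

namespace SmProjVar.Retract

variable {k : Type u} [Field k] {A B C A' B' : SmProjVar k}

lemma refl (A : SmProjVar k) : Retract A A := ⟨𝟙 _, 𝟙 _, Category.comp_id _⟩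

lemma trans (h : Retract A B) (h' : Retract B C) : Retract A C := by
  obtain ⟨i, p, h⟩ := h
  obtain ⟨j, q, h'⟩ := h'
  refine ⟨i ≫ j, q ≫ p, ?_⟩
  rw [Category.assoc, ← Category.assoc j q p, h', Category.id_comp, h]

lemma prod (h : Retract A B) (h' : Retract A' B') : Retract (A.prod A') (B.prod B') := by
  obtain ⟨i, p, h⟩ := h
  obtain ⟨j, q, h'⟩ := h'
  refine ⟨lift (fst _ _ ≫ i) (snd _ _ ≫ j), lift (fst _ _ ≫ p) (snd _ _ ≫ q), ?_⟩
  apply hom_ext
  · rw [Category.assoc, lift_fst, ← Category.assoc, lift_fst, Category.assoc, h,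
      Category.comp_id, Category.id_comp]
  · rw [Category.assoc, lift_snd, ← Category.assoc, lift_snd, Category.assoc, h',
      Category.comp_id, Category.id_comp]

lemma assoc (A B C : SmProjVar k) : Retract (A.prod (B.prod C)) ((A.prod B).prod C) := by
  refine ⟨lift (lift (fst _ _) (snd _ _ ≫ fst _ _)) (snd _ _ ≫ snd _ _),
    lift (fst _ _ ≫ fst _ _) (lift (fst _ _ ≫ snd _ _) (snd _ _)), ?_⟩
  apply hom_ext
  · simp only [Category.assoc, lift_fst, lift_fst_assoc, Category.id_comp]
  · apply hom_ext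
    · simp only [Category.assoc, lift_fst, lift_snd, lift_fst_assoc, Category.id_comp]
    · simp only [Category.assoc, lift_snd, Category.id_comp]

lemma four (A B C D : SmProjVar k) :
    Retract ((A.prod B).prod (C.prod D)) ((A.prod C).prod (B.prod D)) := by
  refine ⟨lift (lift (fst _ _ ≫ fst _ _) (snd _ _ ≫ fst _ _))
    (lift (fst _ _ ≫ snd _ _) (snd _ _ ≫ snd _ _)),
    lift (lift (fst _ _ ≫ fst _ _) (snd _ _ ≫ fst _ _))
    (lift (fst _ _ ≫ snd _ _) (snd _ _ ≫ snd _ _)), ?_⟩
  apply hom_ext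
  · apply hom_ext <;> simp only [Category.assoc, lift_fst, lift_snd, lift_fst_assoc,
      lift_snd_assoc, Category.id_comp]
  · apply hom_ext <;> simp only [Category.assoc, lift_fst, lift_snd, lift_fst_assoc,
      lift_snd_assoc, Category.id_comp]

lemma pow (h : Retract A B) (n : ℕ) : Retract (A.selfProd n) (B.selfProd n) := by
  induction n with
  | zero => exact h
  | succ n ih => exact ih.prod h

/-- `X ^ a × X ^ b` is a retract of `X ^ (a + b)` -/
lemma pow_prod_pow (X : SmProjVar k) (a b : ℕ) :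
    Retract ((X.selfProd a).prod (X.selfProd b)) (X.selfProd (a + b + 1)) := by
  induction b with
  | zero => exact refl _
  | succ b ih =>
    exact (assoc (X.selfProd a) (X.selfProd b) X).trans (ih.prod (refl X))

/-- powers of powers -/
lemma pow_pow (X : SmProjVar k) (a b : ℕ) :
    ∃ c, Retract ((X.selfProd a).selfProd b) (X.selfProd c) := by
  induction b with
  | zero => exact ⟨a, refl _⟩
  | succ b ih =>
    obtain ⟨c, hc⟩ := ih
    exact ⟨c + a + 1, (hc.prod (refl _)).trans (pow_prod_pow X c a)⟩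

/-- powers of products -/
lemma prod_pow (X Y : SmProjVar k) (n : ℕ) :
    Retract ((X.prod Y).selfProd n) ((X.selfProd n).prod (Y.selfProd n)) := by
  induction n with
  | zero => exact refl _
  | succ n ih =>
    exact (ih.prod (refl (X.prod Y))).trans (four (X.selfProd n) (Y.selfProd n) X Y)

end SmProjVar.Retract

namespace SPre

variable {k : Type u} [Field k] {K : Type t} [Field K] {Ω : Type v} [Field Ω] [Algebra K Ω]
  {P : SPre.{u, v, w, t} k K Ω}

lemma D.retract {A B : SmProjVar k} (h : Retract A B) (hB : P.D B) : P.D A := by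
  obtain ⟨i, p, h⟩ := h
  intro r hr
  have h1 := hB _ (rad_pull p hr)
  have h2 : P.pull i (P.pull p r) = r := by
    rw [pull_pull, h, P.pull_id, AlgHom.id_apply]
  rw [← h2, h1, map_zero]

variable (P) in
/-- D holds for all powers of `X` -/
def DP (X : SmProjVar k) : Prop := ∀ n, P.D (X.selfProd n)

lemma DP.retract {A B : SmProjVar k} (h : Retract A B) (hB : P.DP B) : P.DP A :=
  fun n => (hB n).retract (h.pow n)

lemma DP.pow {X : SmProjVar k} (h : P.DP X) (a : ℕ) : P.DP (X.selfProd a) := by
  intro b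
  obtain ⟨c, hc⟩ := Retract.pow_pow X a b
  exact (h c).retract hc

variable (P) in
/-- multiplication with `Y` preserves D for all powers -/
def Her (Y : SmProjVar k) : Prop := ∀ X : SmProjVar k, P.DP X → P.DP (X.prod Y)

lemma Her.prod {Y Y' : SmProjVar k} (h : P.Her Y) (h' : P.Her Y') : P.Her (Y.prod Y') :=
  fun X hX => (h' _ (h X hX)).retract (Retract.assoc X Y Y')

lemma Her.of {C : SmProjVar k → Prop} (h₁ : ∀ Y n, C Y → C (Y.selfProd n))
    (h₂ : ∀ X Y, P.DP X → C Y → P.D (X.prod Y)) {Y : SmProjVar k} (hY : C Y) : P.Her Y :=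
  fun X hX n => (h₂ _ _ (hX.pow n) (h₁ Y n hY)).retract (Retract.prod_pow X Y n)

lemma NormGood.pow {Y : SmProjVar k} (h : P.NormGood Y) (n : ℕ) : P.NormGood (Y.selfProd n) := by
  induction n with
  | zero => exact h
  | succ n ih => exact ih.prod h

lemma NormGood.her {Y : SmProjVar k} (h : P.NormGood Y) : P.Her Y :=
  Her.of (C := P.NormGood) (fun _ n h => h.pow n) (fun _ _ hX hY => hY.prod_d hX) h

end SPre

end Pool.Agent.Helper10
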