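import Mathlib
import Pool.Agent.Helper10.NiceX
import Pool.Agent.Helper10.Retract
import Pool.Agent.Helper11.GIT.Main

/-!
# Words in irreducible families of classes
-/

universe u v w t

open CategoryTheory

namespace Pool.Agent.Helper10

open SmProjVar GIT

/-- the product of the letters of a word, one letter from each family -/
def word {A : Type*} [Monoid A] {m : ℕ} {n : Fin m → ℕ} (x : ∀ t, Fin (n t) → A) (w : Idx n) : A :=
  (List.ofFn fun t => x t (w t)).prod

namespace SPre

variable {k : Type u} [Field k] {K : Type t} [Field K] {Ω : Type v} [Field Ω] [Algebra K Ω]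
  {P : SPre.{u, v, w, t} k K Ω}

/-- the tensors obtained by pairing numerically trivial classes with words -/
def wordSet (P : SPre.{u, v, w, t} k K Ω) (X Y : SmProjVar k) {m : ℕ} {n : Fin m → ℕ}
    (x : ∀ t, Fin (n t) → P.H Y) : Set (Idx n → Ω) :=
  {z | ∃ r : P.H (X.prod Y), P.rad (X.prod Y) r ∧ ∃ c : P.H X,
    z = fun w => P.tr X (P.contr X Y (word x w) r * c)}

lemma rad_zero (X : SmProjVar k) : P.rad X 0 :=
  ⟨Submodule.zero_mem _, fun a _ => by rw [zero_mul, map_zero]⟩

/-- the product of determinants -/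
noncomputable def detClass {Y : SmProjVar k} {m : ℕ} {n : Fin m → ℕ} (x : ∀ t, Fin (n t) → P.H Y) {N : ℕ}
    {e : Fin m → ℕ} (σ : ∀ t, Fin (e t) × Fin (n t) ≃ Fin (N + 1)) : P.H (Y.selfProd N) :=
  (List.ofFn fun t => (List.ofFn fun k =>
    rowDet fun i b => P.pull (Y.projPow N (σ t (k, i))) (x t b)).prod).prod

/-- if the contractions with a product of determinants vanish, so does the form -/
lemma detForm_eq_zero_of {X Y : SmProjVar k} {m : ℕ} {n : Fin m → ℕ}
    (x : ∀ t, Fin (n t) → P.H Y)
    (hpar : ∀ t, (∀ b, x t b ∈ P.ev Y) ∨ ∀ b, x t b ∈ P.od Y) {N : ℕ} {e : Fin m → ℕ}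
    (σ : ∀ t, Fin (e t) × Fin (n t) ≃ Fin (N + 1))
    (h : ∀ r : ℕ → P.H (X.prod Y), (∀ j, P.rad (X.prod Y) (r j)) →
      P.contr (X.selfProd N) (Y.selfProd N) (detClass x σ) (P.mixPow X Y N r) = 0)
    (z : Fin (N + 1) → Idx n → Ω) (hz : ∀ r, z r ∈ P.wordSet X Y x) : detForm σ z = 0 := by
  classical
  choose r hr c hc using hz
  -- the parities
  have hq : ∀ t, ∃ q : Bool, ∀ b, if q then x t b ∈ P.od Y else x t b ∈ P.ev Y := by
    intro t
    rcases hpar t with h | h
    · exact ⟨false, fun b => by simpa using h b⟩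
    · exact ⟨true, fun b => by simpa using h b⟩
  choose q hq using hq
  let s : Fin m → Fin m → ℤ := fun t t' => if q t && q t' then -1 else 1
  let L : Fin (N + 1) → ∀ t, Fin (n t) → P.H (Y.selfProd N) := fun j t b =>
    P.pull (Y.projPow N j) (x t b)
  obtain ⟨a, ha, hF⟩ := exists_sign_det (Ω := Ω) σ s (fun t t' => by
      by_cases h : (q t && q t') = true
      · exact .inr (if_pos h)
      · exact .inl (if_neg h)) L (by
      intro j t b j' t' b'
      have h1 := hq t b
      have h2 := hq t' b'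
      change P.pull _ _ * P.pull _ _ = (if q t && q t' then (-1 : ℤ) else 1) •
        (P.pull _ _ * P.pull _ _)
      cases hqt : q t with
      | false =>
        rw [hqt] at h1
        rw [Bool.false_and, if_neg (by simp), one_smul]
        exact P.ev_comm _ _ _ (P.pull_ev _ _ (by simpa using h1))
      | true =>
        rw [hqt] at h1
        have h1' : x t b ∈ P.od Y := by simpa using h1
        cases hqt' : q t' with
        | false =>
          rw [hqt'] at h2
          rw [Bool.true_and, if_neg (by simp), one_smul]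
          exact (P.ev_comm _ _ _ (P.pull_ev _ _ (by simpa using h2))).symm
        | true =>
          rw [hqt'] at h2
          have h2' : x t' b' ∈ P.od Y := by simpa using h2
          rw [Bool.true_and, if_pos rfl, neg_one_zsmul]
          exact P.od_anti _ _ _ (P.pull_od _ _ h1') (P.pull_od _ _ h2'))
  -- the families, indexed by natural numbers
  let J : ℕ → Fin (N + 1) := fun j => Fin.ofNat (N + 1) j
  have hJ : ∀ j : Fin (N + 1), J (j : ℕ) = j := fun j => Fin.ext (Nat.mod_eq_of_lt j.2)
  have h0 := h (fun j => r (J j)) (fun j => hr (J j))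
  have h1 : ∀ W : Fin (N + 1) → Idx n, ∏ j, z j (W j) =
      P.itr X (fun j => c (J j)) N (P.contr (X.selfProd N) (Y.selfProd N)
        ((List.ofFn fun j => (List.ofFn fun t => L j t (W j t)).prod).prod)
        (P.mixPow X Y N fun j => r (J j))) := by
    intro W
    have h2 : (List.ofFn fun j => (List.ofFn fun t => L j t (W j t)).prod).prod =
        P.extPow Y N (fun j => word x (W (J j))) := by
      rw [extPow_eq]
      congr 2
      funext j
      rw [hJ, word, map_list_prod, List.map_ofFn]
      rfl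
    rw [h2, contr_mixPow N _ _ (fun j => P.alg_le_ev _ (hr (J j)).1), itr_extPow,
      Finset.prod_range]
    refine Finset.prod_congr rfl fun j _ => ?_
    rw [hJ, hc]
  have h2 : detForm σ z = P.itr X (fun j => c (J j)) N (P.contr (X.selfProd N) (Y.selfProd N)
      (∑ W : Fin (N + 1) → Idx n, (∏ t, ∏ k, (eps (fun i => W (σ t (k, i)) t) : Ω)) •
        (List.ofFn fun j => (List.ofFn fun t => L j t (W j t)).prod).prod)
        (P.mixPow X Y N fun j => r (J j))) := by
    rw [contr_sum, map_sum]
    unfold detForm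
    refine Finset.sum_congr rfl fun W _ => ?_
    rw [map_smul, smul_eq_mul, h1]
  change P.contr (X.selfProd N) (Y.selfProd N) (List.ofFn fun t => (List.ofFn fun k =>
        rowDet fun i b => L (σ t (k, i)) t b).prod).prod _ = 0 at h0
  rw [h2, hF, contr_zsmul, h0, smul_zero, map_zero]

/-- all products of determinants vanish on the set of tensors -/
lemma detZero_wordSet {X Y : SmProjVar k} (hX : P.DP X) {m : ℕ}
    {n : Fin m → ℕ} (x : ∀ t, Fin (n t) → P.H Y)
    (hpar : ∀ t, (∀ b, x t b ∈ P.ev Y) ∨ ∀ b, x t b ∈ P.od Y)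
    (hnice : ∀ t, ∀ (Z : SmProjVar k) (p : Fin (n t) → (Z.toOver ⟶ Y.toOver)),
      P.NiceX Z (rowDet fun i b => P.pull (p i) (x t b))) :
    DetZero (P.wordSet X Y x) := by
  intro N e σ hN z hz
  obtain ⟨N, rfl⟩ : ∃ N', N = N' + 1 := ⟨N - 1, by omega⟩
  refine detForm_eq_zero_of x hpar σ (fun r hr => ?_) z hz
  exact NiceX.contr_eq_zero (X := X.selfProd N) (Y := Y.selfProd N) (hX.pow N)
    (NiceX.ofFn fun t => NiceX.ofFn fun k => hnice t _ _) (mixPow_rad N r hr)

variable (P) in
/-- a symmetry: a family of automorphisms of the algebras `H(X)`, compatible with pull-backs, which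
preserves the algebraic classes and multiplies the traces by constants -/
structure Sym where
  g : ∀ X, P.H X ≃ₐ[Ω] P.H X
  pull : ∀ {X Y : SmProjVar k} (f : X.toOver ⟶ Y.toOver) (x : P.H Y),
    g X (P.pull f x) = P.pull f (g Y x)
  alg : ∀ X x, g X x ∈ P.alg X ↔ x ∈ P.alg X
  tr : ∀ X, ∃ c : Ω, c ≠ 0 ∧ ∀ x, P.tr X (g X x) = c * P.tr X x

/-- symmetries preserve numerical triviality -/
lemma Sym.rad (γ : P.Sym) {X : SmProjVar k} {r : P.H X} (hr : P.rad X r) :
    P.rad X (γ.g X r) := by
  refine ⟨(γ.alg X r).mpr hr.1, fun a ha => ?_⟩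
  obtain ⟨c, -, hc⟩ := γ.tr X
  obtain ⟨b, rfl⟩ := (γ.g X).surjective a
  rw [← map_mul (γ.g X), hc, hr.2 b ((γ.alg X b).mp ha), mul_zero]

lemma Sym.rad' (γ : P.Sym) {X : SmProjVar k} {r : P.H X} (hr : P.rad X r) :
    P.rad X ((γ.g X).symm r) := by
  refine ⟨(γ.alg X _).mp (by rw [AlgEquiv.apply_symm_apply]; exact hr.1), fun a ha => ?_⟩
  obtain ⟨c, hc0, hc⟩ := γ.tr X
  have h1 := hc ((γ.g X).symm r * a)
  rw [map_mul (γ.g X), AlgEquiv.apply_symm_apply, hr.2 _ ((γ.alg X a).mpr ha)] at h1
  exact (mul_eq_zero.mp h1.symm).resolve_left hc0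

/-- an irreducible family of classes on `Y`, permuted linearly by the symmetries `G i`, all of
whose determinants have an algebraic norm -/
structure Fam {ι : Type*} (G : ι → P.Sym) (Y : SmProjVar k) (n : ℕ) (x : Fin n → P.H Y) :
    Prop where
  parity : (∀ b, x b ∈ P.ev Y) ∨ (∀ b, x b ∈ P.od Y)
  irr : ∃ ρ : ι → Matrix (Fin n) (Fin n) Ω,
    (∀ i, (ρ i).det ≠ 0 ∧ ∀ b, (G i).g Y (x b) = ∑ a, ρ i a b • x a) ∧
      Submodule.span Ω (Set.range ρ) = ⊤
  nice : ∀ (Z : SmProjVar k) (p : Fin n → (Z.toOver ⟶ Y.toOver)),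
    P.NiceX Z (rowDet fun i b => P.pull (p i) (x b))

lemma Fam.pull {ι : Type*} {G : ι → P.Sym} {Y Z : SmProjVar k} {n : ℕ} {x : Fin n → P.H Y}
    (h : P.Fam G Y n x) (f : Z.toOver ⟶ Y.toOver) : P.Fam G Z n (fun b => P.pull f (x b)) where
  parity := by
    rcases h.parity with h | h
    · exact .inl fun b => P.pull_ev _ _ (h b)
    · exact .inr fun b => P.pull_od _ _ (h b)
  irr := by
    obtain ⟨ρ, hρ, hs⟩ := h.irr
    refine ⟨ρ, fun i => ⟨(hρ i).1, fun b => ?_⟩, hs⟩
    rw [(G i).pull, (hρ i).2, map_sum (P.pull f)]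
    exact Finset.sum_congr rfl fun a _ => map_smul (P.pull f) _ _
  nice := by
    intro Z' p
    have h1 := h.nice Z' (fun i => p i ≫ f)
    have h2 : (fun (i : Fin n) (b : Fin n) => P.pull (p i) (P.pull f (x b))) =
        fun i b => P.pull (p i ≫ f) (x b) := by
      funext i b
      exact pull_pull _ _ _
    rwa [h2]

/-- the action of a symmetry on words -/
lemma Sym.word (γ : P.Sym) {Y : SmProjVar k} {m : ℕ} {n : Fin m → ℕ}
    (x : ∀ t, Fin (n t) → P.H Y) (ρ : Mats n Ω)
    (hρ : ∀ t b, γ.g Y (x t b) = ∑ a, ρ t a b • x t a) (w : Idx n) :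
    γ.g Y (word x w) = ∑ w' : Idx n, (∏ t, ρ t (w' t) (w t)) • Helper10.word x w' := by
  unfold Helper10.word
  rw [map_list_prod, List.map_ofFn]
  have h1 : (γ.g Y ∘ fun t => x t (w t)) = fun t => ∑ a, ρ t a (w t) • x t a := by
    funext t
    exact hρ t (w t)
  rw [h1]
  exact ofFn_prod_sum (α := fun t => Fin (n t)) (fun t a => ρ t a (w t)) (fun t a => x t a)

lemma tr_contr (X Y : SmProjVar k) (e : P.H Y) (r : P.H (X.prod Y)) (c : P.H X) :
    P.tr X (P.contr X Y e r * c) =
      P.tr (X.prod Y) (r * P.pull (snd X Y) e * P.pull (fst X Y) c) := by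
  rw [contr_apply, tr_pushF]

/-- the set of tensors is stable -/
lemma act_wordSet (γ : P.Sym) {X Y : SmProjVar k} {m : ℕ} {n : Fin m → ℕ}
    (x : ∀ t, Fin (n t) → P.H Y) (ρ : Mats n Ω)
    (hρ : ∀ t b, γ.g Y (x t b) = ∑ a, ρ t a b • x t a) :
    ∃ l : Ω, l ≠ 0 ∧ ∀ (r : P.H (X.prod Y)) (c : P.H X),
      act (fun t => (ρ t).transpose) (fun w => P.tr X (P.contr X Y (word x w)
        (γ.g _ r) * γ.g _ c)) = l • fun w => P.tr X (P.contr X Y (word x w) r * c) := by
  obtain ⟨l, hl, htr⟩ := γ.tr (X.prod Y)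
  refine ⟨l, hl, fun r c => ?_⟩
  funext w
  rw [act_apply, Pi.smul_apply, tr_contr, smul_eq_mul, ← htr, map_mul (γ.g _), map_mul (γ.g _),
    γ.pull, γ.pull, γ.word x ρ hρ, map_sum (P.pull _), Finset.mul_sum, Finset.sum_mul, map_sum]
  refine Finset.sum_congr rfl fun w' _ => ?_
  rw [tr_contr, map_smul (P.pull _), mul_smul_comm, smul_mul_assoc, map_smul, smul_eq_mul]
  rfl

end SPre

/-- products of determinants on the span of a set -/
lemma _root_.Pool.Agent.Helper10.GIT.DetZero.span {m : ℕ} {n : Fin m → ℕ} {Ω : Type*} [Field Ω]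
    {M : Set (Idx n → Ω)} (hM : DetZero M) : DetZero (Submodule.span Ω M : Set (Idx n → Ω)) := by
  classical
  intro N e σ hN z hz
  -- replace the tensors one after the other
  have key : ∀ (s : Finset (Fin N)) (z : Fin N → Idx n → Ω), (∀ r ∈ s, z r ∈ Submodule.span Ω M) →
      (∀ r ∉ s, z r ∈ M) → detForm σ z = 0 := by
    intro s
    induction s using Finset.induction_on with
    | empty => exact fun z _ h => hM N e σ hN z fun r => h r (Finset.notMem_empty r)
    | insert a s ha ih =>
      intro z hz hz'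
      have h1 : ∀ y ∈ Submodule.span Ω M, detForm σ (Function.update z a y) = 0 := by
        have hlin : ∀ (c d : Ω) (y y' : Idx n → Ω), detForm σ (Function.update z a (c • y + d • y')) =
            c * detForm σ (Function.update z a y) + d * detForm σ (Function.update z a y') := by
          intro c d y y'
          unfold detForm
          rw [Finset.mul_sum, Finset.mul_sum, ← Finset.sum_add_distrib]
          refine Finset.sum_congr rfl fun W _ => ?_
          have h2 : ∀ y : Idx n → Ω, ∏ r, Function.update z a y r (W r) =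
              y (W a) * ∏ r ∈ Finset.univ.erase a, z r (W r) := by
            intro y
            rw [← Finset.mul_prod_erase Finset.univ _ (Finset.mem_univ a), Function.update_self]
            congr 1
            refine Finset.prod_congr rfl fun r hr => ?_
            rw [Function.update_of_ne (Finset.ne_of_mem_erase hr)]
          rw [h2, h2, h2, Pi.add_apply, Pi.smul_apply, Pi.smul_apply, smul_eq_mul, smul_eq_mul]
          ring
        intro y hy
        induction hy using Submodule.span_induction with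
        | mem y hy =>
          refine ih _ (fun r hr => ?_) (fun r hr => ?_)
          · have hne : r ≠ a := fun h => ha (h ▸ hr)
            rw [Function.update_of_ne hne]
            exact hz r (Finset.mem_insert_of_mem hr)
          · by_cases hra : r = a
            · rw [hra, Function.update_self]; exact hy
            · rw [Function.update_of_ne hra]
              exact hz' r fun h => (Finset.mem_insert.mp h).elim hra hr
        | zero =>
          have h3 := hlin 0 0 0 0
          simpa using h3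
        | add y y' _ _ hy hy' =>
          have h3 := hlin 1 1 y y'
          simpa [hy, hy'] using h3
        | smul c y _ hy =>
          have h3 := hlin c 0 y 0
          simpa [hy] using h3
      have h2 := h1 (z a) (hz a (Finset.mem_insert_self a s))
      rwa [Function.update_eq_self] at h2
  exact key Finset.univ z (fun r _ => hz r) (fun r hr => absurd (Finset.mem_univ r) hr)

namespace SPre

variable {k : Type u} [Field k] {K : Type t} [Field K] {Ω : Type v} [Field Ω] [Algebra K Ω]
  {P : SPre.{u, v, w, t} k K Ω}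

variable (P) in
/-- an irreducible family of classes on `Y`, permuted linearly by the symmetries `G i` -/
structure FamR {ι : Type*} (G : ι → P.Sym) (Y : SmProjVar k) (n : ℕ) (x : Fin n → P.H Y) :
    Prop where
  parity : (∀ b, x b ∈ P.ev Y) ∨ (∀ b, x b ∈ P.od Y)
  irr : ∃ ρ : ι → Matrix (Fin n) (Fin n) Ω,
    (∀ i, (ρ i).det ≠ 0 ∧ ∀ b, (G i).g Y (x b) = ∑ a, ρ i a b • x a) ∧
      Submodule.span Ω (Set.range ρ) = ⊤

lemma Fam.famR {ι : Type*} {G : ι → P.Sym} {Y : SmProjVar k} {n : ℕ} {x : Fin n → P.H Y}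
    (h : P.Fam G Y n x) : P.FamR G Y n x := ⟨h.parity, h.irr⟩

lemma FamR.pull {ι : Type*} {G : ι → P.Sym} {Y Z : SmProjVar k} {n : ℕ} {x : Fin n → P.H Y}
    (h : P.FamR G Y n x) (f : Z.toOver ⟶ Y.toOver) : P.FamR G Z n (fun b => P.pull f (x b)) where
  parity := by
    rcases h.parity with h | h
    · exact .inl fun b => P.pull_ev _ _ (h b)
    · exact .inr fun b => P.pull_od _ _ (h b)
  irr := by
    obtain ⟨ρ, hρ, hs⟩ := h.irr
    refine ⟨ρ, fun i => ⟨(hρ i).1, fun b => ?_⟩, hs⟩
    rw [(G i).pull, (hρ i).2, map_sum (P.pull f)]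
    exact Finset.sum_congr rfl fun a _ => map_smul (P.pull f) _ _

/-- if all products of determinants vanish, the contractions of numerically trivial classes with
words vanish -/
theorem contr_word_of_detZero [CharZero Ω] {ι : Type*} {G : ι → P.Sym} {X Y : SmProjVar k}
    {m : ℕ} (hm : 0 < m)
    {n : Fin m → ℕ} (x : ∀ t, Fin (n t) → P.H Y) (hx : ∀ t, P.FamR G Y (n t) (x t))
    (hD : DetZero (P.wordSet X Y x)) {r : P.H (X.prod Y)} (hr : P.rad (X.prod Y) r) (w : Idx n) :
    P.contr X Y (word x w) r = 0 := by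
  have hn : ∀ t, 0 < n t := fun t => (w t).pos
  choose ρ hρ hs using fun t => (hx t).irr
  have h0 := Helper11.GIT.eq_zero_of_detZero hm hn (Submodule.span Ω (P.wordSet X Y x))
    hD.span
    (Set.range (fun i => fun t => (ρ t i).transpose)) (by
      rintro _ ⟨i, rfl⟩ t
      rw [Matrix.det_transpose]
      exact (hρ t i).1) (by
      rintro _ ⟨i, rfl⟩ z hz
      obtain ⟨l, hl, hact⟩ := act_wordSet (G i) (X := X) x (fun t => ρ t i)
        (fun t b => (hρ t i).2 b)
      induction hz using Submodule.span_induction with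
      | mem z hz =>
        obtain ⟨r, hr, c, rfl⟩ := hz
        have h1 := hact (((G i).g _).symm r) (((G i).g _).symm c)
        rw [AlgEquiv.apply_symm_apply, AlgEquiv.apply_symm_apply] at h1
        rw [h1]
        exact Submodule.smul_mem _ _ (Submodule.subset_span ⟨_, (G i).rad' hr, _, rfl⟩)
      | zero => rw [map_zero]; exact Submodule.zero_mem _
      | add x y _ _ hx hy => rw [map_add]; exact Submodule.add_mem _ hx hy
      | smul c x _ hx => rw [map_smul]; exact Submodule.smul_mem _ _ hx) (by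
      intro t
      have h1 : ((fun ρ' : Mats n Ω => ρ' t) '' (Set.range (fun i => fun t => (ρ t i).transpose))) =
          (Matrix.transposeLinearEquiv (Fin (n t)) (Fin (n t)) Ω Ω) '' (Set.range (ρ t)) := by
        rw [← Set.range_comp, ← Set.range_comp]
        rfl
      rw [h1, ← LinearEquiv.coe_coe, ← Submodule.map_span, hs t, Submodule.map_top,
        LinearMap.range_eq_top]
      exact (Matrix.transposeLinearEquiv (Fin (n t)) (Fin (n t)) Ω Ω).surjective)
  refine P.nondeg X _ fun c => ?_
  have h1 := h0 _ (Submodule.subset_span ⟨r, hr, c, rfl⟩)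
  exact congrFun h1 w

/-- the contractions of a numerically trivial class with words vanish -/
theorem contr_word_eq_zero [CharZero Ω] {ι : Type*} {G : ι → P.Sym} {X Y : SmProjVar k}
    (hX : P.DP X) {m : ℕ}
    {n : Fin m → ℕ} (x : ∀ t, Fin (n t) → P.H Y) (hx : ∀ t, P.Fam G Y (n t) (x t))
    {r : P.H (X.prod Y)} (hr : P.rad (X.prod Y) r) (w : Idx n) :
    P.contr X Y (word x w) r = 0 := by
  rcases Nat.eq_zero_or_pos m with rfl | hm
  · have h1 : word x w = 1 := by
      unfold word
      rw [List.ofFn_zero, List.prod_nil]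
    rw [h1]
    exact hX 0 _ (contr_rad (P.one_mem Y) hr)
  exact contr_word_of_detZero hm x (fun t => (hx t).famR)
    (detZero_wordSet hX x (fun t => (hx t).parity) (fun t => (hx t).nice)) hr w

/-- the letters -/
def letters {ι : Type*} (G : ι → P.Sym) (Y : SmProjVar k) : Set (P.H Y) :=
  {y | ∃ (n : ℕ) (x : Fin n → P.H Y) (b : Fin n), P.Fam G Y n x ∧ y = x b}

variable (P) in
/-- the cohomology of `Y` is generated by letters -/
def Gen {ι : Type*} (G : ι → P.Sym) (Y : SmProjVar k) : Prop := Algebra.adjoin Ω (letters G Y) = ⊤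

lemma pull_letters {ι : Type*} {G : ι → P.Sym} {Y Z : SmProjVar k} (f : Z.toOver ⟶ Y.toOver) {y : P.H Y}
    (hy : y ∈ letters G Y) : P.pull f y ∈ letters G Z := by
  obtain ⟨n, x, b, hx, rfl⟩ := hy
  exact ⟨n, fun b => P.pull f (x b), b, hx.pull f, rfl⟩

lemma Gen.pull_mem {ι : Type*} {G : ι → P.Sym} {Y Z : SmProjVar k} (h : P.Gen G Y) (f : Z.toOver ⟶ Y.toOver)
    (y : P.H Y) : P.pull f y ∈ Algebra.adjoin Ω (letters G Z) := by
  have hy : y ∈ Algebra.adjoin Ω (letters G Y) := by rw [h]; trivial
  induction hy using Algebra.adjoin_induction with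
  | mem y hy => exact Algebra.subset_adjoin (pull_letters f hy)
  | algebraMap r => rw [AlgHom.commutes]; exact Subalgebra.algebraMap_mem _ r
  | add x y _ _ hx hy => rw [map_add]; exact Subalgebra.add_mem _ hx hy
  | mul x y _ _ hx hy => rw [map_mul]; exact Subalgebra.mul_mem _ hx hy

lemma Gen.prod {ι : Type*} {G : ι → P.Sym} {Y Z : SmProjVar k} (hY : P.Gen G Y) (hZ : P.Gen G Z) :
    P.Gen G (Y.prod Z) := by
  unfold Gen
  rw [eq_top_iff]
  intro z hz
  clear hz
  have hz : z ∈ Submodule.span Ω
      {z : P.H (Y.prod Z) | ∃ x y, z = P.pull (fst Y Z) x * P.pull (snd Y Z) y} := by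
    rw [P.span_ext]; trivial
  induction hz using Submodule.span_induction with
  | mem z hz =>
    obtain ⟨x, y, rfl⟩ := hz
    exact Subalgebra.mul_mem _ (hY.pull_mem _ x) (hZ.pull_mem _ y)
  | zero => exact Subalgebra.zero_mem _
  | add x y _ _ hx hy => exact Subalgebra.add_mem _ hx hy
  | smul a x _ hx => exact Subalgebra.smul_mem _ hx a

lemma Gen.pow {ι : Type*} {G : ι → P.Sym} {Y : SmProjVar k} (h : P.Gen G Y) (n : ℕ) :
    P.Gen G (Y.selfProd n) := by
  induction n with
  | zero => exact h
  | succ n ih => exact ih.prod h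

/-- **Main theorem** in the auxiliary setting -/
theorem Gen.prod_d [CharZero Ω] {ι : Type*} {G : ι → P.Sym} {X Y : SmProjVar k} (hX : P.DP X)
    (h : P.Gen G Y) : P.D (X.prod Y) := by
  intro r hr
  have hspan : Submodule.span Ω (Submonoid.closure (letters G Y) : Set (P.H Y)) = ⊤ := by
    rw [← Algebra.adjoin_eq_span, h]
    rfl
  refine eq_zero_of_contr hspan fun y hy => ?_
  obtain ⟨l, hl, rfl⟩ := Submonoid.exists_list_of_mem_closure hy
  have h2 : ∀ i : Fin l.length, ∃ (n : ℕ) (x : Fin n → P.H Y) (b : Fin n),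
      P.Fam G Y n x ∧ l.get i = x b := fun i => hl _ (List.get_mem l i)
  choose n x b hx hb using h2
  have h3 : l.prod = word x b := by
    unfold word
    rw [← funext hb, List.ofFn_get]
  rw [h3]
  exact contr_word_eq_zero hX x hx hr b

lemma Gen.her [CharZero Ω] {ι : Type*} {G : ι → P.Sym} {Y : SmProjVar k} (h : P.Gen G Y) : P.Her Y :=
  Her.of (C := P.Gen G) (fun _ n h => h.pow n) (fun _ _ hX hY => hY.prod_d hX) h

end SPre

end Pool.Agent.Helper10
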