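import Mathlib
import Pool.Agent.Helper10.Fam

/-!
# Shapes of words, and matched tuples of shapes
-/

universe u v w t

open CategoryTheory

namespace Pool.Agent.Helper10

open SmProjVar GIT

namespace SPre

variable {k : Type u} [Field k] {K : Type t} [Field K] {Ω : Type v} [Field Ω] [Algebra K Ω]
  (P : SPre.{u, v, w, t} k K Ω)

/-- a finite family of classes on `Y` -/
abbrev Letter (Y : SmProjVar k) : Type w := Σ n : ℕ, (Fin n → P.H Y)

variable {P}

/-- `y` is the product, in order, of one member of each family -/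
def IsWord {Y : SmProjVar k} : List (P.Letter Y) → P.H Y → Prop
  | [], y => y = 1
  | a :: l, y => ∃ (b : Fin a.1) (y' : P.H Y), IsWord l y' ∧ y = a.2 b * y'

/-- the pull-back of a family -/
def Letter.pull {Y Z : SmProjVar k} (f : Z.toOver ⟶ Y.toOver) (a : P.Letter Y) : P.Letter Z :=
  ⟨a.1, fun b => P.pull f (a.2 b)⟩

variable (P) in
/-- the families are homogeneous and irreducible -/
def Adm {ι : Type*} (G : ι → P.Sym) (Y : SmProjVar k) (a : P.Letter Y) : Prop :=
  P.FamR G Y a.1 a.2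

/-- all the families have the same size, and the product of their determinants is algebraic -/
def GoodTuple {Y : SmProjVar k} {n : ℕ} (a : Fin (n + 1) → P.Letter Y) : Prop :=
  ∃ (m : ℕ) (x : Fin (n + 1) → Fin m → P.H Y), (∀ j, a j = ⟨m, x j⟩) ∧
    ∀ (Z : SmProjVar k) (p : Fin (n + 1) → Fin m → (Z.toOver ⟶ Y.toOver)),
      (List.ofFn fun j => rowDet fun i b => P.pull (p j i) (x j b)).prod ∈ P.alg Z

/-- up to the order of the letters, the shapes are built from good tuples of families -/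
def Matched {Y : SmProjVar k} {n : ℕ} (l : Fin (n + 1) → List (P.Letter Y)) : Prop :=
  ∃ (m : ℕ) (a : Fin m → Fin (n + 1) → P.Letter Y),
    (∀ j, (l j).Perm (List.ofFn fun i => a i j)) ∧ ∀ i, GoodTuple (a i)

lemma IsWord.append {Y : SmProjVar k} {l l' : List (P.Letter Y)} {y y' : P.H Y}
    (h : IsWord l y) (h' : IsWord l' y') : IsWord (l ++ l') (y * y') := by
  induction l generalizing y with
  | nil =>
    have h1 : y = 1 := h
    rw [h1, one_mul]
    exact h'
  | cons a l ih =>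
    obtain ⟨b, z, hz, rfl⟩ := h
    exact ⟨b, z * y', ih hz, mul_assoc _ _ _⟩

lemma IsWord.exists_append {Y : SmProjVar k} {l l' : List (P.Letter Y)} {y : P.H Y}
    (h : IsWord (l ++ l') y) : ∃ y₁ y₂, IsWord l y₁ ∧ IsWord l' y₂ ∧ y = y₁ * y₂ := by
  induction l generalizing y with
  | nil => exact ⟨1, y, rfl, h, (one_mul y).symm⟩
  | cons a l ih =>
    obtain ⟨b, z, hz, rfl⟩ := h
    obtain ⟨y₁, y₂, h₁, h₂, rfl⟩ := ih hz
    exact ⟨a.2 b * y₁, y₂, ⟨b, y₁, h₁, rfl⟩, h₂, (mul_assoc _ _ _).symm⟩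

lemma IsWord.pull {Y Z : SmProjVar k} (f : Z.toOver ⟶ Y.toOver) {l : List (P.Letter Y)}
    {y : P.H Y} (h : IsWord l y) : IsWord (l.map (Letter.pull f)) (P.pull f y) := by
  induction l generalizing y with
  | nil =>
    have h1 : y = 1 := h
    rw [h1, map_one]
    rfl
  | cons a l ih =>
    obtain ⟨b, z, hz, rfl⟩ := h
    exact ⟨b, P.pull f z, ih hz, map_mul _ _ _⟩

lemma IsWord.exists_pull {Y Z : SmProjVar k} (f : Z.toOver ⟶ Y.toOver) {l : List (P.Letter Y)}
    {z : P.H Z} (h : IsWord (l.map (Letter.pull f)) z) : ∃ y, IsWord l y ∧ z = P.pull f y := by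
  induction l generalizing z with
  | nil => exact ⟨1, rfl, by have h1 : z = 1 := h; rw [h1, map_one]⟩
  | cons a l ih =>
    obtain ⟨b, z', hz, rfl⟩ := h
    obtain ⟨y, hy, rfl⟩ := ih hz
    exact ⟨a.2 b * y, ⟨b, y, hy, rfl⟩, (map_mul _ _ _).symm⟩

lemma Adm.pull {ι : Type*} {G : ι → P.Sym} {Y Z : SmProjVar k} (f : Z.toOver ⟶ Y.toOver)
    {a : P.Letter Y} (h : P.Adm G Y a) : P.Adm G Z (a.pull f) :=
  FamR.pull h f

lemma GoodTuple.pull {Y Z : SmProjVar k} (f : Z.toOver ⟶ Y.toOver) {n : ℕ}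
    {a : Fin (n + 1) → P.Letter Y} (h : GoodTuple a) :
    GoodTuple fun j => (a j).pull f := by
  obtain ⟨m, x, hx, h⟩ := h
  refine ⟨m, fun j b => P.pull f (x j b), fun j => ?_, fun Z' p => ?_⟩
  · change Letter.pull f (a j) = _
    rw [hx]
    rfl
  · have h1 := h Z' (fun j i => p j i ≫ f)
    have h2 : (fun (j : Fin (n + 1)) => rowDet fun (i : Fin m) (b : Fin m) =>
        P.pull (p j i) (P.pull f (x j b))) =
        fun j => rowDet fun i b => P.pull (p j i ≫ f) (x j b) := by
      funext j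
      congr 1
      funext i b
      exact pull_pull _ _ _
    rwa [h2]

lemma Matched.pull {Y Z : SmProjVar k} (f : Z.toOver ⟶ Y.toOver) {n : ℕ}
    {l : Fin (n + 1) → List (P.Letter Y)} (h : Matched l) :
    Matched fun j => (l j).map (Letter.pull f) := by
  obtain ⟨m, a, hl, ha⟩ := h
  refine ⟨m, fun i j => (a i j).pull f, fun j => ?_, fun i => (ha i).pull f⟩
  have h1 := (hl j).map (Letter.pull f)
  rwa [List.map_ofFn] at h1

lemma Matched.append {Y : SmProjVar k} {n : ℕ} {l l' : Fin (n + 1) → List (P.Letter Y)}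
    (h : Matched l) (h' : Matched l') : Matched fun j => l j ++ l' j := by
  obtain ⟨m, a, hl, ha⟩ := h
  obtain ⟨m', a', hl', ha'⟩ := h'
  refine ⟨m + m', Fin.append a a', fun j => ?_, fun i => ?_⟩
  · have h1 := (hl j).append (hl' j)
    rw [← List.ofFn_fin_append] at h1
    convert h1 using 3 with i
    refine Fin.addCases (fun i => ?_) (fun i => ?_) i
    · rw [Fin.append_left, Fin.append_left]
    · rw [Fin.append_right, Fin.append_right]
  · refine Fin.addCases (fun i => ?_) (fun i => ?_) i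
    · rw [Fin.append_left]; exact ha i
    · rw [Fin.append_right]; exact ha' i

/-- words of permuted shapes -/
lemma IsWord.perm {Y : SmProjVar k} {l l' : List (P.Letter Y)} (hp : l.Perm l')
    (hl : ∀ a ∈ l, ∀ b, P.Hom Y (a.2 b)) {y : P.H Y} (h : IsWord l y) :
    ∃ y', IsWord l' y' ∧ (y' = y ∨ y' = -y) := by
  induction hp generalizing y with
  | nil => exact ⟨y, h, .inl rfl⟩
  | cons a _ ih =>
    obtain ⟨b, z, hz, rfl⟩ := h
    obtain ⟨z', hz', h'⟩ := ih (fun a ha => hl a (List.mem_cons_of_mem _ ha)) hz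
    refine ⟨a.2 b * z', ⟨b, z', hz', rfl⟩, ?_⟩
    rcases h' with rfl | rfl
    · exact .inl rfl
    · exact .inr (mul_neg _ _)
  | swap a a' l =>
    obtain ⟨b, z, ⟨b', z', hz', rfl⟩, rfl⟩ := h
    refine ⟨a.2 b' * (a'.2 b * z'), ⟨b', _, ⟨b, z', hz', rfl⟩, rfl⟩, ?_⟩
    have h1 := P.comm_or Y (a.2 b') (a'.2 b) (hl a (by simp) b') (hl a' (by simp) b)
    rcases h1 with h1 | h1
    · left
      rw [← mul_assoc, h1, mul_assoc]
    · right
      rw [← mul_assoc, h1, neg_mul, mul_assoc]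
  | trans h₁ _ ih₁ ih₂ =>
    obtain ⟨y', hy', h'⟩ := ih₁ hl h
    obtain ⟨y'', hy'', h''⟩ := ih₂ (fun a ha => hl a (h₁.mem_iff.mpr ha)) hy'
    refine ⟨y'', hy'', ?_⟩
    rcases h' with rfl | rfl <;> rcases h'' with rfl | rfl <;> simp

/-- words, in terms of indices -/
lemma IsWord.exists_word {Y : SmProjVar k} {m : ℕ} {a : Fin m → P.Letter Y} {y : P.H Y}
    (h : IsWord (List.ofFn a) y) :
    ∃ w : Idx (fun i => (a i).1), y = word (fun i => (a i).2) w := by
  induction m generalizing y with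
  | zero =>
    have h1 : y = 1 := by
      rw [List.ofFn_zero] at h
      exact h
    refine ⟨fun i => i.elim0, ?_⟩
    rw [h1, word, List.ofFn_zero, List.prod_nil]
  | succ m ih =>
    rw [List.ofFn_succ] at h
    obtain ⟨b, z, hz, rfl⟩ := h
    obtain ⟨w, rfl⟩ := ih hz
    refine ⟨Fin.cons (α := fun i : Fin (m + 1) => Fin (a i).1) b w, ?_⟩
    rw [word, word, List.ofFn_succ, List.prod_cons]
    rfl

end SPre

end Pool.Agent.Helper10
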