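import Mathlib
import Pool.Agent.Helper10.BaseChange

/-!
# The standard conjecture D and extension of the coefficients
-/

universe u v w t

open CategoryTheory TensorProduct

namespace Pool.Agent.Helper10

open SmProjVar

section Cycles

variable {k : Type u} [Field k]

lemma exists_cycle_zero (X : SmProjVar k) (j : ℕ) : ∃ c : X.Z j, ∀ x, c.toCyc.coeff x = 0 := by
  refine ⟨⟨(0 : Function.locallyFinsupp X.toOver.left ℤ), fun x hx => ?_⟩, fun x => rfl⟩
  exact absurd rfl hx

lemma exists_cycle_add {X : SmProjVar k} {j : ℕ} (a b : X.Z j) :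
    ∃ c : X.Z j, ∀ x, c.toCyc.coeff x = a.toCyc.coeff x + b.toCyc.coeff x := by
  let a' : Function.locallyFinsupp X.toOver.left ℤ := a.1
  let b' : Function.locallyFinsupp X.toOver.left ℤ := b.1
  refine ⟨⟨(a' + b' : Function.locallyFinsupp X.toOver.left ℤ), fun x hx => ?_⟩, fun x => rfl⟩
  by_cases h : a.toCyc.coeff x = 0
  · refine b.2 x fun h' => hx ?_
    change a.toCyc.coeff x + b.toCyc.coeff x = 0
    change b.toCyc.coeff x = 0 at h'
    rw [h, h', add_zero]
  · exact a.2 x h

lemma exists_cycle_neg {X : SmProjVar k} {j : ℕ} (a : X.Z j) :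
    ∃ c : X.Z j, ∀ x, c.toCyc.coeff x = - a.toCyc.coeff x := by
  let a' : Function.locallyFinsupp X.toOver.left ℤ := a.1
  refine ⟨⟨(-a' : Function.locallyFinsupp X.toOver.left ℤ), fun x hx => ?_⟩, fun x => rfl⟩
  refine a.2 x fun h => hx ?_
  change a.toCyc.coeff x = 0 at h
  change -a.toCyc.coeff x = 0
  rw [h, neg_zero]

end Cycles

namespace WeilCohomology

variable {k : Type u} [Field k] {K : Type v} [Field K] [CharZero K]
  (W : WeilCohomology.{u, v, w} k K)

lemma cy_of_zero {X : SmProjVar k} {j : ℕ} (c : X.Z j) (hc : ∀ x, c.toCyc.coeff x = 0) :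
    W.cy X j c = 0 := by
  have h := W.cycleClasses.cy_add X j c c c (fun x => by rw [hc, add_zero])
  exact left_eq_add.mp h

/-- the group of classes of cycles of codimension `j` -/
def cyG (X : SmProjVar k) (j : ℕ) : AddSubgroup (W.H X) where
  carrier := {z | ∃ c : X.Z j, z = W.cy X j c}
  zero_mem' := by
    obtain ⟨c, hc⟩ := exists_cycle_zero X j
    exact ⟨c, (W.cy_of_zero c hc).symm⟩
  add_mem' := by
    rintro _ _ ⟨a, rfl⟩ ⟨b, rfl⟩
    obtain ⟨c, hc⟩ := exists_cycle_add a b
    exact ⟨c, (W.cycleClasses.cy_add X j a b c hc).symm⟩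
  neg_mem' := by
    rintro _ ⟨a, rfl⟩
    obtain ⟨c, hc⟩ := exists_cycle_neg a
    obtain ⟨o, ho⟩ := exists_cycle_zero X j
    refine ⟨c, ?_⟩
    have h := W.cycleClasses.cy_add X j a c o (fun x => by rw [hc, ho, add_neg_cancel])
    rw [W.cy_of_zero o ho] at h
    exact neg_eq_of_add_eq_zero_right h.symm

lemma cy_mem_cyG {X : SmProjVar k} {j : ℕ} (c : X.Z j) : W.cy X j c ∈ W.cyG X j := ⟨c, rfl⟩

lemma eq_zero_of_mem_cyG {X : SmProjVar k} (hD : W.StandardD X) {j : ℕ} {z : W.H X}
    (hz : z ∈ W.cyG X j)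
    (h : ∀ i, j + i = X.dim → ∀ c : X.Z i, W.trL X (z * W.cy X i c) = 0) : z = 0 := by
  obtain ⟨a, rfl⟩ := hz
  obtain ⟨o, ho⟩ := exists_cycle_zero X j
  rw [← W.cy_of_zero o ho]
  refine hD j a o fun i hi c => ?_
  have h1 := h i hi c
  rw [trL_apply, W.cycleClasses.tr_cy_mul X j i a c hi] at h1
  have h2 := W.cycleClasses.tr_cy_mul X j i o c hi
  rw [W.cy_of_zero o ho, zero_mul, ← trL_apply, map_zero, ← h1] at h2
  exact Int.cast_injective h2

variable (Ω : Type t) [Field Ω] [Algebra K Ω]

/-- the standard conjecture D passes to the spans of algebraic classes over extensions of the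
field of coefficients -/
lemma d_of_standardD {X : SmProjVar k} (hD : W.StandardD X) : (W.toSPre Ω).D X := by
  classical
  have : CharZero Ω := charZero_of_injective_algebraMap (algebraMap K Ω).injective
  intro (x : W.HΩ Ω X) hxr
  obtain ⟨hx, hx'⟩ := hxr
  change x ∈ (W.algClasses X).baseChange Ω at hx
  have hx1 : x ∈ Submodule.span Ω {z : W.HΩ Ω X | ∃ (j : ℕ) (c : X.Z j),
      z = 1 ⊗ₜ[K] W.cy X j c} := by
    refine baseChange_induction _ (p := fun x => x ∈ Submodule.span Ω {z : W.HΩ Ω X |
      ∃ (j : ℕ) (c : X.Z j), z = 1 ⊗ₜ[K] W.cy X j c}) ?_ ?_ ?_ ?_ hx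
    · intro y hy
      unfold CohomologyData.algClasses at hy
      induction hy using Submodule.span_induction with
      | mem y hy =>
        obtain ⟨j, c, rfl⟩ := hy
        exact Submodule.subset_span ⟨j, c, rfl⟩
      | zero => rw [TensorProduct.tmul_zero]; exact Submodule.zero_mem _
      | add a b _ _ ha hb => rw [TensorProduct.tmul_add]; exact Submodule.add_mem _ ha hb
      | smul a b _ hb =>
        have : (1 : Ω) ⊗ₜ[K] (a • b) = algebraMap K Ω a • ((1 : Ω) ⊗ₜ[K] b) := by
          rw [TensorProduct.smul_tmul', ← TensorProduct.smul_tmul, Algebra.smul_def, smul_eq_mul]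
        rw [this]
        exact Submodule.smul_mem _ _ hb
    · exact Submodule.zero_mem _
    · intro a b ha hb
      exact Submodule.add_mem _ ha hb
    · intro a b hb
      exact Submodule.smul_mem _ _ hb
  obtain ⟨n, f, g, hfg⟩ := Submodule.mem_span_set'.mp hx1
  choose j c hc using fun i => (g i).2
  have hx2 : x = ∑ i, f i • ((1 : Ω) ⊗ₜ[K] W.cy X (j i) (c i)) := by
    rw [← hfg]
    exact Finset.sum_congr rfl fun i _ => congrArg (fun y => f i • y) (hc i)
  let β := Module.Basis.ofVectorSpace ℚ Ω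
  -- the intersection numbers
  have key : ∀ (b : _) (m i' : ℕ), m + i' = X.dim → ∀ d : X.Z i',
      ∑ i with j i = m, ((β.repr (f i) b : ℚ) : K) *
        W.trL X (W.cy X (j i) (c i) * W.cy X i' d) = 0 := by
    intro b m i' hm d
    have h0 : ∀ i, j i = m → W.trL X (W.cy X (j i) (c i) * W.cy X i' d) =
        (W.inter X (j i) i' (c i) d : K) := by
      intro i hi
      exact W.cycleClasses.tr_cy_mul X (j i) i' (c i) d (by rw [hi]; exact hm)
    have h1 : W.trΩ Ω X (x * ((1 : Ω) ⊗ₜ[K] W.cy X i' d)) = 0 :=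
      hx' _ (Submodule.tmul_mem_baseChange_of_mem 1 (W.cy_mem_algClasses X i' d))
    have h2 : ∑ i with j i = m, f i * (W.inter X (j i) i' (c i) d : Ω) = 0 := by
      rw [hx2, Finset.sum_mul, map_sum] at h1
      rw [← h1, Finset.sum_filter]
      refine Finset.sum_congr rfl fun i _ => ?_
      rw [smul_mul_assoc, map_smul, Algebra.TensorProduct.tmul_mul_tmul, trΩ_tmul, mul_one,
        smul_eq_mul, Algebra.smul_def, mul_one]
      split_ifs with hi
      · rw [h0 i hi, map_intCast]
      · rw [W.tr_eq_zero_of_gr X (i := 2 * j i + 2 * i') (by omega)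
          (W.gr_mul X (W.cycleClasses.cy_mem X _ _) (W.cycleClasses.cy_mem X _ _)), map_zero,
          mul_zero]
    have h3 : ∑ i with j i = m, β.repr (f i) b * (W.inter X (j i) i' (c i) d : ℚ) = 0 := by
      have h4 := congrArg (fun z : Ω => β.repr z b) h2
      simp only [map_sum, map_zero, Finsupp.coe_zero, Pi.zero_apply] at h4
      rw [Finsupp.finsetSum_apply] at h4
      rw [← h4]
      refine Finset.sum_congr rfl fun i _ => ?_
      have h5 : f i * (W.inter X (j i) i' (c i) d : Ω) =
          (W.inter X (j i) i' (c i) d : ℚ) • f i := by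
        rw [Rat.smul_def, mul_comm, Rat.cast_intCast]
      rw [h5, map_smul, Finsupp.smul_apply, smul_eq_mul, mul_comm]
    have h4 := congrArg (fun q : ℚ => (q : K)) h3
    simp only [Rat.cast_sum, Rat.cast_mul, Rat.cast_intCast, Rat.cast_zero] at h4
    rw [← h4]
    refine Finset.sum_congr rfl fun i hi => ?_
    rw [h0 i (Finset.mem_filter.mp hi).2]
  have hzero : ∀ (b : _) (m : ℕ),
      ∑ i with j i = m, ((β.repr (f i) b : ℚ) : K) • W.cy X (j i) (c i) = 0 := by
    intro b m
    -- clear denominators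
    set N : ℕ := ∏ i, (β.repr (f i) b).den with hN
    have hN0 : (N : K) ≠ 0 := by
      rw [hN, Nat.cast_ne_zero, Finset.prod_ne_zero_iff]
      exact fun i _ => (β.repr (f i) b).den_ne_zero
    have hint : ∀ i, ∃ z : ℤ, (N : ℚ) * β.repr (f i) b = z := by
      intro i
      obtain ⟨d, hd⟩ : (β.repr (f i) b).den ∣ N := Finset.dvd_prod_of_mem _ (Finset.mem_univ i)
      refine ⟨d * (β.repr (f i) b).num, ?_⟩
      rw [hd]
      push_cast
      rw [mul_comm ((β.repr (f i) b).den : ℚ), mul_assoc, mul_comm ((β.repr (f i) b).den : ℚ),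
        Rat.mul_den_eq_num]
    choose z hz using hint
    have hz' : ∀ i, (N : K) * ((β.repr (f i) b : ℚ) : K) = (z i : K) := by
      intro i
      have := congrArg (fun q : ℚ => (q : K)) (hz i)
      simpa using this
    have hsum : (N : K) • ∑ i with j i = m, ((β.repr (f i) b : ℚ) : K) • W.cy X (j i) (c i) =
        ∑ i with j i = m, z i • W.cy X (j i) (c i) := by
      rw [Finset.smul_sum]
      refine Finset.sum_congr rfl fun i _ => ?_
      rw [smul_smul, hz', Int.cast_smul_eq_zsmul]
    have hmem : ∑ i with j i = m, z i • W.cy X (j i) (c i) ∈ W.cyG X m := by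
      refine AddSubgroup.sum_mem _ fun i hi => AddSubgroup.zsmul_mem _ ?_ _
      have hi' := (Finset.mem_filter.mp hi).2
      have : ∀ (m' : ℕ) (c : X.Z m'), m' = m → W.cy X m' c ∈ W.cyG X m := by
        rintro m' c rfl
        exact W.cy_mem_cyG c
      exact this _ _ hi'
    have h0 := W.eq_zero_of_mem_cyG hD hmem ?_
    · rw [← hsum] at h0
      exact (smul_eq_zero.mp h0).resolve_left hN0
    · intro i' hi' d
      rw [← hsum, smul_mul_assoc, map_smul, Finset.sum_mul, map_sum, smul_eq_mul]
      rw [mul_eq_zero]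
      right
      rw [← key b m i' hi' d]
      refine Finset.sum_congr rfl fun i _ => ?_
      rw [smul_mul_assoc, map_smul, smul_eq_mul]
  -- conclusion
  set B : Finset _ := Finset.univ.biUnion fun i => (β.repr (f i)).support with hB
  have hf : ∀ i, f i = ∑ b ∈ B, ((β.repr (f i) b : ℚ) : K) • β b := by
    intro i
    conv_lhs => rw [← β.linearCombination_repr (f i)]
    rw [Finsupp.linearCombination_apply, Finsupp.sum_of_support_subset (s := B)]
    · refine Finset.sum_congr rfl fun b _ => ?_
      rw [Rat.smul_def, Algebra.smul_def, map_ratCast]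
    · exact Finset.subset_biUnion_of_mem (fun i => (β.repr (f i)).support) (Finset.mem_univ i)
    · exact fun b _ => zero_smul _ _
  have hx3 : x = ∑ b ∈ B, β b ⊗ₜ[K] (∑ i, ((β.repr (f i) b : ℚ) : K) • W.cy X (j i) (c i)) := by
    rw [hx2]
    simp only [TensorProduct.tmul_sum]
    rw [Finset.sum_comm]
    refine Finset.sum_congr rfl fun i _ => ?_
    conv_lhs => rw [hf i]
    rw [Finset.sum_smul]
    refine Finset.sum_congr rfl fun b _ => ?_
    rw [TensorProduct.tmul_smul, smul_assoc, TensorProduct.smul_tmul', smul_eq_mul, mul_one]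
  have hinner : ∀ b, ∑ i, ((β.repr (f i) b : ℚ) : K) • W.cy X (j i) (c i) = 0 := by
    intro b
    rw [← Finset.sum_fiberwise_of_maps_to (s := Finset.univ) (t := Finset.univ.image j) (g := j)
      (fun i _ => Finset.mem_image_of_mem j (Finset.mem_univ i))]
    exact Finset.sum_eq_zero fun m _ => hzero b m
  rw [hx3]
  refine Finset.sum_eq_zero fun b _ => ?_
  rw [hinner]
  exact TensorProduct.tmul_zero _ _

end WeilCohomology

end Pool.Agent.Helper10
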