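import Mathlib
import Pool.Agent.Helper10.Spectral

/-!
# The spectral criterion
-/

universe u v w t

open CategoryTheory

namespace Pool.Agent.Helper10

open SmProjVar

namespace SPre

variable {k : Type u} [Field k] {K : Type t} [Field K] {Ω : Type v} [Field Ω] [Algebra K Ω]
  {P : SPre.{u, v, w, t} k K Ω}

variable (P) in
/-- the hypotheses of the spectral criterion -/
structure SpecData (X : SmProjVar k) {ι : Type*} (T : ι → Module.End Ω (P.H X))
    (adj : ι → ι) : Prop where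
  adj_adj : ∀ i, adj (adj i) = i
  corr : ∀ i, P.IsMap X X (T i)
  comm : ∀ i j, Commute (T i) (T j)
  adjoint : ∀ i x y, P.tr X (T i x * y) = P.tr X (x * T (adj i) y)
  s_T : ∀ (σ : Ω ≃ₐ[K] Ω) i x, P.s σ X (T i x) = T i (P.s σ X x)
  fin : ∀ χ, joint T χ ≠ ⊥ → (MulAction.stabilizer (Ω ≃ₐ[K] Ω) χ).FiniteIndex
  spec : ∀ χ : ι → Ω, joint T χ ≤ P.alg X ∨ (Module.finrank Ω (joint T χ) = 1 ∧
    ∃ (σ : Ω ≃ₐ[K] Ω) (U : P.H X →ₗ[Ω] P.H X), P.IsMap X X U ∧ Function.Injective U ∧
      Submodule.map U (joint T (fun i => σ (χ i))) = joint T (fun i => χ (adj i)))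

namespace SpecData

variable {X : SmProjVar k} {ι : Type*} {T : ι → Module.End Ω (P.H X)} {adj : ι → ι}
  (h : P.SpecData X T adj)

include h

lemma eq_of_tr_ne {χ χ' : ι → Ω} {x y : P.H X} (hx : x ∈ joint T χ) (hy : y ∈ joint T χ')
    (hne : P.tr X (x * y) ≠ 0) : χ = fun i => χ' (adj i) := by
  funext i
  by_contra hi
  exact hne (tr_eq_zero_of_ne (h.adjoint i) hi (joint_le χ i hx) (joint_le χ' (adj i) hy))

lemma exc_s (σ : Ω ≃ₐ[K] Ω) {χ : ι → Ω} (hχ : ¬ joint T χ ≤ P.alg X) :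
    ¬ joint T (fun i => σ (χ i)) ≤ P.alg X := by
  intro h1
  exact hχ fun x hx => (P.s_alg σ X x).mp (h1 ((s_mem_joint h.s_T σ χ x).mpr hx))

lemma dim_one {χ : ι → Ω} (hχ : ¬ joint T χ ≤ P.alg X) : Module.finrank Ω (joint T χ) = 1 :=
  ((h.spec χ).resolve_left hχ).1

omit h in
lemma U_alg {U : P.H X →ₗ[Ω] P.H X} (hU : P.IsMap X X U) (hU' : Function.Injective U)
    {y : P.H X} (hy : y ∈ P.alg X) : ∃ x ∈ P.alg X, U x = y := by
  have h1 : Submodule.map U (P.alg X) ≤ P.alg X := by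
    rw [Submodule.map_le_iff_le_comap]
    exact fun x hx => hU.map_alg hx
  have h2 : Submodule.map U (P.alg X) = P.alg X :=
    Submodule.eq_of_le_of_finrank_eq h1
      (LinearEquiv.finrank_eq (Submodule.equivMapOfInjective U hU' (P.alg X))).symm
  rw [← h2] at hy
  exact Submodule.mem_map.mp hy

lemma exc_dual {χ : ι → Ω} (hχ : ¬ joint T χ ≤ P.alg X) :
    ¬ joint T (fun i => χ (adj i)) ≤ P.alg X := by
  intro h1
  obtain ⟨-, σ, U, hU, hU', hm⟩ := (h.spec χ).resolve_left hχ
  apply h.exc_s σ hχ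
  intro x hx
  have h2 : U x ∈ joint T (fun i => χ (adj i)) := by
    rw [← hm]; exact Submodule.mem_map_of_mem hx
  obtain ⟨x', hx', h3⟩ := U_alg hU hU' (h1 h2)
  rwa [← hU' h3]

lemma eq_zero_of_mem_alg {χ : ι → Ω} (hχ : ¬ joint T χ ≤ P.alg X) {x : P.H X}
    (hx : x ∈ joint T χ) (hx' : x ∈ P.alg X) : x = 0 := by
  by_contra h0
  apply hχ
  intro y hy
  obtain ⟨c, rfl⟩ := exists_smul_of_finrank_one _ (h.dim_one hχ) hx h0 hy
  exact (P.alg X).smul_mem c hx'

lemma hom_of_exc {χ : ι → Ω} (hχ : ¬ joint T χ ≤ P.alg X) {x : P.H X} (hx : x ∈ joint T χ) :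
    P.Hom X x := by
  obtain ⟨a, ha, b, hb, rfl⟩ := P.exists_decomp X x
  have hev : ∀ (i : ι) (l : Ω) (n : ℕ) (y : P.H X), y ∈ P.ev X →
      ((T i - l • 1) ^ n) y ∈ P.ev X := by
    intro i l n
    induction n with
    | zero => intro y hy; simpa using hy
    | succ n ih =>
      intro y hy
      rw [pow_succ, Module.End.mul_apply]
      apply ih
      simp only [LinearMap.sub_apply, LinearMap.smul_apply, Module.End.one_apply]
      exact (P.ev X).sub_mem ((h.corr i).map_ev hy) ((P.ev X).smul_mem l hy)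
  have hod : ∀ (i : ι) (l : Ω) (n : ℕ) (y : P.H X), y ∈ P.od X →
      ((T i - l • 1) ^ n) y ∈ P.od X := by
    intro i l n
    induction n with
    | zero => intro y hy; simpa using hy
    | succ n ih =>
      intro y hy
      rw [pow_succ, Module.End.mul_apply]
      apply ih
      simp only [LinearMap.sub_apply, LinearMap.smul_apply, Module.End.one_apply]
      exact (P.od X).sub_mem ((h.corr i).map_od hy) ((P.od X).smul_mem l hy)
  have key : ∀ i, ∃ n : ℕ, ((T i - χ i • 1) ^ n) a = 0 ∧ ((T i - χ i • 1) ^ n) b = 0 := by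
    intro i
    obtain ⟨n, hn⟩ := (mem_joint χ _).mp hx i
    rw [map_add] at hn
    have h1 : ((T i - χ i • 1) ^ n) a = 0 := by
      have h2 : ((T i - χ i • 1) ^ n) a = -((T i - χ i • 1) ^ n) b :=
        eq_neg_of_add_eq_zero_left hn
      have h3 : ((T i - χ i • 1) ^ n) a ∈ P.od X := by
        rw [h2]; exact (P.od X).neg_mem (hod i _ n b hb)
      have := (P.ev_inf_od X).le_bot ⟨hev i _ n a ha, h3⟩
      simpa using this
    exact ⟨n, h1, by rw [h1, zero_add] at hn; exact hn⟩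
  by_cases ha0 : a = 0
  · rw [ha0, zero_add]; exact .inr hb
  · have haV : a ∈ joint T χ := (mem_joint χ a).mpr fun i => (key i).imp fun n hn => hn.1
    have hbV : b ∈ joint T χ := (mem_joint χ b).mpr fun i => (key i).imp fun n hn => hn.2
    obtain ⟨c, rfl⟩ := exists_smul_of_finrank_one _ (h.dim_one hχ) haV ha0 hbV
    have hc : c • a = 0 := by
      have := (P.ev_inf_od X).le_bot ⟨(P.ev X).smul_mem c ha, hb⟩
      simpa using this
    rw [hc, add_zero]
    exact .inl ha

lemma eig {χ : ι → Ω} (hχ : ¬ joint T χ ≤ P.alg X) {x : P.H X} (hx : x ∈ joint T χ) (i : ι) :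
    T i x = χ i • x := by
  by_cases hx0 : x = 0
  · rw [hx0, map_zero, smul_zero]
  have h1 : T i x ∈ joint T χ := mapsTo_joint h.comm χ i hx
  obtain ⟨c, hc⟩ := exists_smul_of_finrank_one _ (h.dim_one hχ) hx hx0 h1
  obtain ⟨n, hn⟩ := (mem_joint χ x).mp hx i
  have h2 : ∀ n : ℕ, ((T i - χ i • 1) ^ n) x = (c - χ i) ^ n • x := by
    intro n
    induction n with
    | zero => simp
    | succ n ih =>
      rw [pow_succ', Module.End.mul_apply, ih, map_smul, pow_succ, mul_smul]
      congr 1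
      simp only [LinearMap.sub_apply, LinearMap.smul_apply, Module.End.one_apply]
      rw [hc, sub_smul]
  rw [h2] at hn
  have h3 : (c - χ i) ^ n = 0 := (smul_eq_zero.mp hn).resolve_right hx0
  have h4 : c = χ i := sub_eq_zero.mp (eq_zero_of_pow_eq_zero h3)
  rw [hc, h4]

omit h in
/-- a polynomial in an operator separating an eigenvalue from the others -/
lemma exists_poly (φ : Module.End Ω (P.H X)) (l : Ω) : ∃ g : Polynomial Ω, g.eval l = 1 ∧
    ∀ m, m ≠ l → ∀ x ∈ φ.maxGenEigenspace m, Polynomial.aeval φ g x = 0 := by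
  have hint : IsIntegral Ω φ := Algebra.IsIntegral.isIntegral φ
  obtain ⟨g, hg, hg'⟩ := Polynomial.exists_eq_pow_rootMultiplicity_mul_and_not_dvd (minpoly Ω φ)
    (minpoly.ne_zero hint) l
  have hgl : g.eval l ≠ 0 := by
    rw [Ne, ← Polynomial.IsRoot.def, ← Polynomial.dvd_iff_isRoot]; exact hg'
  refine ⟨Polynomial.C (g.eval l)⁻¹ * g, ?_, ?_⟩
  · rw [Polynomial.eval_mul, Polynomial.eval_C, inv_mul_cancel₀ hgl]
  · intro m hm x hx
    have h2 : Polynomial.aeval φ g x ∈ φ.maxGenEigenspace m := by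
      refine Module.End.mapsTo_maxGenEigenspace_of_comm ?_ m hx
      have := (Commute.all (Polynomial.X : Polynomial Ω) g).map (Polynomial.aeval φ)
      rwa [Polynomial.aeval_X] at this
    have h3 : Polynomial.aeval φ g x ∈ φ.maxGenEigenspace l := by
      rw [Module.End.mem_maxGenEigenspace]
      refine ⟨(minpoly Ω φ).rootMultiplicity l, ?_⟩
      have h4 := minpoly.aeval Ω φ
      rw [hg, map_mul, map_pow, map_sub, Polynomial.aeval_X, Polynomial.aeval_C] at h4
      have h5 := congrArg (fun T : Module.End Ω (P.H X) => T x) h4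
      simp only [Module.End.mul_apply, LinearMap.zero_apply] at h5
      rw [Algebra.algebraMap_eq_smul_one] at h5
      exact h5
    have h4 : Disjoint (φ.maxGenEigenspace m) (φ.maxGenEigenspace l) :=
      Module.End.disjoint_genEigenspace φ hm ⊤ ⊤
    have h5 : Polynomial.aeval φ g x = 0 := by
      have := h4.le_bot ⟨h2, h3⟩
      simpa using this
    rw [map_mul, Module.End.mul_apply, h5, map_zero]

lemma aeval_eig {χ : ι → Ω} (hχ : ¬ joint T χ ≤ P.alg X) {x : P.H X} (hx : x ∈ joint T χ)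
    (i : ι) (q : Polynomial Ω) : Polynomial.aeval (T i) q x = q.eval (χ i) • x := by
  have h1 : T i x = χ i • x := h.eig hχ hx i
  induction q using Polynomial.induction_on' with
  | add p q hp hq => rw [map_add, LinearMap.add_apply, hp, hq, Polynomial.eval_add, add_smul]
  | monomial n a =>
    have : ∀ n : ℕ, ((T i) ^ n) x = (χ i) ^ n • x := by
      intro n
      induction n with
      | zero => simp
      | succ n ih => rw [pow_succ', Module.End.mul_apply, ih, map_smul, h1, smul_smul, pow_succ]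
    rw [Polynomial.aeval_monomial, Polynomial.eval_monomial, Module.End.mul_apply, this,
      Module.algebraMap_end_apply, smul_smul]

omit h in
lemma aeval_mem_of_stable (φ : Module.End Ω (P.H X)) (V : Submodule Ω (P.H X))
    (hV : ∀ x ∈ V, φ x ∈ V) (g : Polynomial Ω) {x : P.H X} (hx : x ∈ V) :
    Polynomial.aeval φ g x ∈ V := by
  induction g using Polynomial.induction_on' with
  | add p q hp hq => rw [map_add, LinearMap.add_apply]; exact V.add_mem hp hq
  | monomial n a =>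
    have : ∀ n : ℕ, (φ ^ n) x ∈ V := by
      intro n
      induction n with
      | zero => simpa using hx
      | succ n ih => rw [pow_succ', Module.End.mul_apply]; exact hV _ ih
    rw [Polynomial.aeval_monomial, Module.End.mul_apply, Module.algebraMap_end_apply]
    exact V.smul_mem a (this n)

/-- the projector onto an exceptional joint eigenline is algebraic -/
lemma exists_projector {χ : ι → Ω} (hχ : ¬ joint T χ ≤ P.alg X) :
    ∃ R ∈ P.corrAlg X, (∀ x ∈ joint T χ, R x = x) ∧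
      (∀ χ', χ' ≠ χ → ∀ x ∈ joint T χ', R x = 0) := by
  classical
  have main : ∀ F : Finset (ι → Ω), χ ∉ F → ∃ R ∈ P.corrAlg X, (∀ x ∈ joint T χ, R x = x) ∧
      (∀ χ' ∈ F, ∀ x ∈ joint T χ', R x = 0) := by
    intro F
    induction F using Finset.induction_on with
    | empty =>
      intro _
      exact ⟨1, (P.corrAlg X).one_mem, fun x _ => rfl, fun χ' hχ' => by simp at hχ'⟩
    | insert ψ F hψ ih =>
      intro hF
      obtain ⟨hne, hF⟩ := not_or.mp (fun h => hF (Finset.mem_insert.mpr h))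
      obtain ⟨R, hR, hR1, hR2⟩ := ih hF
      obtain ⟨i, hi⟩ : ∃ i, ψ i ≠ χ i := by
        by_contra hcon
        push Not at hcon
        exact hne (funext hcon).symm
      obtain ⟨g, hg1, hg2⟩ := exists_poly (T i) (χ i)
      refine ⟨R * Polynomial.aeval (T i) g, (P.corrAlg X).mul_mem hR ?_, ?_, ?_⟩
      · exact Algebra.adjoin_singleton_le (show T i ∈ P.corrAlg X from h.corr i)
          (Polynomial.aeval_mem_adjoin_singleton _ _)
      · intro x hx
        rw [Module.End.mul_apply, h.aeval_eig hχ hx i g, hg1, one_smul, hR1 x hx]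
      · intro χ' hχ' x hx
        rw [Module.End.mul_apply]
        rcases Finset.mem_insert.mp hχ' with rfl | hχ'
        · rw [hg2 _ hi x (joint_le _ i hx), map_zero]
        · exact hR2 χ' hχ' _ (aeval_mem_of_stable (T i) _
            (fun x hx => mapsTo_joint h.comm χ' i hx) g hx)
  obtain ⟨R, hR, hR1, hR2⟩ := main ((finite_weights h.comm).toFinset.erase χ)
    (Finset.notMem_erase _ _)
  refine ⟨R, hR, hR1, fun χ' hχ' x hx => ?_⟩
  by_cases hb : joint T χ' = ⊥
  · rw [hb] at hx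
    rw [(Submodule.mem_bot Ω).mp hx, map_zero]
  · exact hR2 χ' (Finset.mem_erase.mpr ⟨hχ', (finite_weights h.comm).mem_toFinset.mpr hb⟩) x hx

variable [IsAlgClosed Ω]

lemma tr_alg_eq_zero {χ : ι → Ω} (hχ : ¬ joint T χ ≤ P.alg X) {x y : P.H X} (hx : x ∈ P.alg X)
    (hy : y ∈ joint T χ) : P.tr X (x * y) = 0 := by
  have hχ' := h.exc_dual hχ
  obtain ⟨R, hR, hR1, hR2⟩ := h.exists_projector hχ'
  have h1 : R x ∈ joint T (fun i => χ (adj i)) ∧ P.tr X (x * y) = P.tr X (R x * y) := by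
    refine joint_induction h.comm (p := fun x => R x ∈ joint T (fun i => χ (adj i)) ∧
      P.tr X (x * y) = P.tr X (R x * y)) ?_ ?_ ?_ x
    · intro ψ x hx
      by_cases hψ : ψ = fun i => χ (adj i)
      · subst hψ
        rw [hR1 x hx]
        exact ⟨hx, rfl⟩
      · rw [hR2 ψ hψ x hx, zero_mul, map_zero]
        refine ⟨Submodule.zero_mem _, ?_⟩
        by_contra hne
        exact hψ (h.eq_of_tr_ne hx hy hne)
    · rw [map_zero, zero_mul, map_zero]
      exact ⟨Submodule.zero_mem _, rfl⟩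
    · rintro a b ⟨ha, ha'⟩ ⟨hb, hb'⟩
      rw [map_add, add_mul, add_mul, map_add, map_add, ha', hb']
      exact ⟨Submodule.add_mem _ ha hb, rfl⟩
  have h2 : R x = 0 := h.eq_zero_of_mem_alg hχ' h1.1 (IsMap.map_alg (mem_corrAlg.mp hR) hx)
  rw [h1.2, h2, zero_mul, map_zero]

omit [IsAlgClosed Ω] h in
lemma class_mem_ev {x y : P.H X} (hxy : (x ∈ P.ev X ∧ y ∈ P.ev X) ∨ (x ∈ P.od X ∧ y ∈ P.od X)) :
    P.pull (fst X X) y * P.pull (snd X X) x ∈ P.ev (X.prod X) := by
  rcases hxy with ⟨hx, hy⟩ | ⟨hx, hy⟩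
  · exact P.ev_mul_ev _ _ _ (P.pull_ev _ _ hy) (P.pull_ev _ _ hx)
  · exact P.od_mul_od _ _ _ (P.pull_od _ _ hy) (P.pull_od _ _ hx)

omit [IsAlgClosed Ω] h in
lemma parity_of_tr_ne {x y : P.H X} (hx : P.Hom X x) (hy : P.Hom X y)
    (hne : P.tr X (x * y) ≠ 0) :
    (x ∈ P.ev X ∧ y ∈ P.ev X) ∨ (x ∈ P.od X ∧ y ∈ P.od X) := by
  rcases hx with hx | hx <;> rcases hy with hy | hy
  · exact .inl ⟨hx, hy⟩
  · exact absurd (P.tr_od X _ (P.ev_mul_od X _ _ hx hy)) hne
  · exact absurd (P.tr_od X _ (P.od_mul_ev X _ _ hx hy)) hne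
  · exact .inr ⟨hx, hy⟩

/-- the class attached to a pair of dual exceptional eigenvectors is algebraic -/
lemma class_mem {χ χ' : ι → Ω} (hχ : ¬ joint T χ ≤ P.alg X) {e e' : P.H X}
    (he : e ∈ joint T χ) (he' : e' ∈ joint T χ') (hhe : P.Hom X e') (hne : P.tr X (e * e') ≠ 0) :
    P.pull (fst X X) e' * P.pull (snd X X) e ∈ P.alg (X.prod X) := by
  have hpar := parity_of_tr_ne (h.hom_of_exc hχ he) hhe hne
  refine mem_alg_of_isMap X e e' (class_mem_ev hpar) ?_
  obtain ⟨R, hR, hR1, hR2⟩ := h.exists_projector hχ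
  have h1 : P.rankOne X e e' = P.tr X (e * e') • R := by
    refine LinearMap.ext fun x => ?_
    refine joint_induction h.comm (p := fun x => P.rankOne X e e' x =
      (P.tr X (e * e') • R) x) ?_ ?_ ?_ x
    · intro ψ x hx
      have he0 : e ≠ 0 := by
        rintro rfl; apply hne; rw [zero_mul, map_zero]
      by_cases hψ : ψ = χ
      · subst hψ
        obtain ⟨c, rfl⟩ := exists_smul_of_finrank_one _ (h.dim_one hχ) he he0 hx
        rw [LinearMap.smul_apply, hR1 _ hx, rankOne_apply, smul_mul_assoc, map_smul, smul_eq_mul,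
          smul_smul, mul_comm]
      · rw [LinearMap.smul_apply, hR2 ψ hψ x hx, rankOne_apply, smul_zero]
        have : P.tr X (x * e') = 0 := by
          by_contra hcon
          apply hψ
          rw [h.eq_of_tr_ne hx he' hcon, h.eq_of_tr_ne he he' hne]
        rw [this, zero_smul]
    · rw [map_zero, map_zero]
    · intro a b ha hb
      rw [map_add, ha, hb, map_add]
  rw [h1]
  exact IsMap.smul (mem_corrAlg.mp hR) _

/-- an exceptional eigenline pairs to an algebraic class with one of its Galois conjugates -/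
lemma exists_partner {χ : ι → Ω} (hχ : ¬ joint T χ ≤ P.alg X) : ∃ τ : Ω ≃ₐ[K] Ω,
    ∀ a ∈ joint T χ, ∀ b ∈ joint T (fun i => τ (χ i)),
      P.pull (fst X X) b * P.pull (snd X X) a ∈ P.alg (X.prod X) := by
  have hl := h.exc_dual hχ
  obtain ⟨-, σ, U, hU, hU', hm⟩ := (h.spec _).resolve_left hl
  have hdd : (fun i => χ (adj (adj i))) = χ := by
    funext i; rw [h.adj_adj]
  rw [hdd] at hm
  refine ⟨σ, fun a ha b hb => ?_⟩
  by_cases ha0 : a = 0
  · rw [ha0, map_zero (P.pull (snd X X)), mul_zero]; exact (P.alg _).zero_mem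
  have hσχ := h.exc_s σ hχ
  have hσl := h.exc_s σ hl
  -- `b` is a multiple of `σ a`
  have hsa : P.s σ X a ∈ joint T (fun i => σ (χ i)) := (s_mem_joint h.s_T σ χ a).mpr ha
  have hsa0 : P.s σ X a ≠ 0 := (map_ne_zero_iff _ (P.s σ X).injective).mpr ha0
  obtain ⟨r, rfl⟩ := exists_smul_of_finrank_one _ (h.dim_one hσχ) hsa hsa0 hb
  have hpar : (a ∈ P.ev X ∧ r • P.s σ X a ∈ P.ev X) ∨ (a ∈ P.od X ∧ r • P.s σ X a ∈ P.od X) := by
    rcases h.hom_of_exc hχ ha with h1 | h1
    · exact .inl ⟨h1, (P.ev X).smul_mem r (P.s_ev σ X _ h1)⟩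
    · exact .inr ⟨h1, (P.od X).smul_mem r (P.s_od σ X _ h1)⟩
  set b := r • P.s σ X a with hb'
  refine mem_alg_of_isMap X a b (class_mem_ev hpar) ?_
  obtain ⟨R, hR, hR1, hR2⟩ := h.exists_projector hσl
  have ha' := ha
  rw [← hm] at ha'
  obtain ⟨y, hy, hya⟩ := Submodule.mem_map.mp ha'
  have hy0 : y ≠ 0 := by
    rintro rfl; rw [map_zero] at hya; exact ha0 hya.symm
  have h1 : P.rankOne X a b = P.tr X (y * b) • (U ∘ₗ R) := by
    refine LinearMap.ext fun x => ?_
    refine joint_induction h.comm (p := fun x => P.rankOne X a b x =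
      (P.tr X (y * b) • (U ∘ₗ R)) x) ?_ ?_ ?_ x
    · intro ψ x hx
      by_cases hψ : ψ = fun i => σ (χ (adj i))
      · subst hψ
        obtain ⟨c, rfl⟩ := exists_smul_of_finrank_one _ (h.dim_one hσl) hy hy0 hx
        rw [LinearMap.smul_apply, LinearMap.comp_apply, hR1 _ hx, rankOne_apply,
          smul_mul_assoc, map_smul, smul_eq_mul, map_smul, hya, smul_smul, mul_comm]
      · rw [LinearMap.smul_apply, LinearMap.comp_apply, hR2 ψ hψ x hx, rankOne_apply,
          map_zero, smul_zero]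
        have : P.tr X (x * b) = 0 := by
          by_contra hcon
          exact hψ (h.eq_of_tr_ne hx hb hcon)
        rw [this, zero_smul]
    · rw [map_zero, map_zero]
    · intro a b ha hb
      rw [map_add, ha, hb, map_add]
  rw [h1]
  exact ((mem_corrAlg.mp hR).comp hU).smul _

omit [IsAlgClosed Ω] h in
lemma nice_of_alg (e : P.homSub X) (he : (e : P.H X) ∈ P.alg X) : P.Nice X e := by
  refine ⟨⊤, inferInstance, fun N _ _ _ Z p => ?_⟩
  refine (P.algQ Z).prod_mem fun j _ => ?_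
  rw [cls_mem_algQ, coe_pullHom, coe_sHom]
  exact P.pull_mem _ _ ((P.s_alg _ _ _).mpr he)

lemma nice {χ : ι → Ω} (hχ : ¬ joint T χ ≤ P.alg X) (e : P.homSub X)
    (he : (e : P.H X) ∈ joint T χ) : P.Nice X e := by
  obtain ⟨τ, hτ⟩ := h.exists_partner hχ
  have hbot : joint T χ ≠ ⊥ := by
    intro hb; apply hχ; rw [hb]; exact bot_le
  refine Nice.of_partner e (MulAction.stabilizer (Ω ≃ₐ[K] Ω) χ) (h.fin χ hbot) τ ?_
  intro g₁ g₂ h3
  -- `g₂ χ = g₁ τ χ`
  have hχ₂ : (fun i => g₂ (χ i)) = fun i => g₁ (τ (χ i)) := by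
    rw [MulAction.mem_stabilizer_iff, mul_smul, inv_smul_eq_iff] at h3
    exact h3
  have hsb : P.s g₂ X e ∈ joint T (fun i => g₁ (τ (χ i))) := by
    rw [← hχ₂]
    exact (s_mem_joint h.s_T g₂ χ e).mpr he
  obtain ⟨b, hb⟩ := (P.s g₁ X).surjective (P.s g₂ X e)
  have hb' : b ∈ joint T (fun i => τ (χ i)) := by
    rw [← s_mem_joint h.s_T g₁, hb]
    exact hsb
  have h1 := (P.s_alg g₁ _ _).mpr (hτ e he b hb')
  rwa [map_mul, P.s_pull, P.s_pull, hb] at h1

/-- **The spectral criterion.** -/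
theorem good : P.Good X := by
  set S : Set (P.homSub X) :=
    {x | (x : P.H X) ∈ P.alg X ∨ ∃ χ, ¬ joint T χ ≤ P.alg X ∧ (x : P.H X) ∈ joint T χ} with hS
  have hspan : Submodule.span Ω (Subtype.val '' S) = ⊤ := by
    rw [eq_top_iff]
    intro x _
    refine joint_induction h.comm (p := fun x => x ∈ Submodule.span Ω (Subtype.val '' S))
      ?_ ?_ ?_ x
    · intro χ x hx
      by_cases hχ : joint T χ ≤ P.alg X
      · exact Submodule.subset_span ⟨⟨x, .inl (P.alg_le_ev X (hχ hx))⟩, Or.inl (hχ hx), rfl⟩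
      · exact Submodule.subset_span ⟨⟨x, h.hom_of_exc hχ hx⟩, Or.inr ⟨χ, hχ, hx⟩, rfl⟩
    · exact Submodule.zero_mem _
    · intro a b ha hb
      exact Submodule.add_mem _ ha hb
  refine ⟨S, S, hspan, hspan, ?_, ?_⟩
  · intro e he e' he' hne
    rcases he with he | ⟨χ, hχ, he⟩
    · rcases he' with he' | ⟨χ', hχ', he'⟩
      · exact P.mul_mem _ _ _ (P.pull_mem _ _ he') (P.pull_mem _ _ he)
      · exact absurd (h.tr_alg_eq_zero hχ' he he') hne
    · rcases he' with he' | ⟨χ', hχ', he'⟩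
      · refine absurd ?_ hne
        rw [← P.ev_comm X e' e (P.alg_le_ev X he')]
        exact h.tr_alg_eq_zero hχ he' he
      · exact h.class_mem hχ he he' e'.2 hne
  · intro e he
    rcases he with he | ⟨χ, hχ, he⟩
    · exact nice_of_alg e he
    · exact h.nice hχ e he

end SpecData

end SPre

end Pool.Agent.Helper10
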