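import Mathlib
import Pool.Agent.Helper10.Types
import Pool.Agent.Helper10.BaseChange
import Pool.Agent.Helper10.SpecData

/-!
# Varieties of spectral type
-/

universe u v w t

open CategoryTheory Limits AlgebraicGeometry TensorProduct

namespace Pool.Agent.Helper10

open SmProjVar

namespace WeilCohomology

section Proofs

variable {k : Type u} [Field k] {K : Type v} [Field K] [CharZero K]
  (W : WeilCohomology.{u, v, w} k K) (Ω : Type t) [Field Ω] [Algebra K Ω]

lemma corr_baseChange {X Y : SmProjVar k} {f : W.H X →ₗ[K] W.H Y} {c : W.H (X.prod Y)}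
    (h : ∀ (x : W.H X) (y : W.H Y),
      W.trL Y (f x * y) = W.trL (X.prod Y) (W.pullA (fst X Y) x * c * W.pullA (snd X Y) y))
    (x : W.HΩ Ω X) (y : W.HΩ Ω Y) :
    W.trΩ Ω (X.prod Y) (W.pullΩ Ω (fst X Y) x * (1 ⊗ₜ[K] c : W.HΩ Ω (X.prod Y)) *
      W.pullΩ Ω (snd X Y) y) = W.trΩ Ω Y (f.baseChange Ω x * y) := by
  refine baseChange_induction_top (p := fun x =>
    W.trΩ Ω (X.prod Y) (W.pullΩ Ω (fst X Y) x * (1 ⊗ₜ[K] c : W.HΩ Ω (X.prod Y)) *
      W.pullΩ Ω (snd X Y) y) = W.trΩ Ω Y (f.baseChange Ω x * y)) ?_ ?_ ?_ ?_ x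
  · intro x
    refine baseChange_induction_top (p := fun y =>
      W.trΩ Ω (X.prod Y) (W.pullΩ Ω (fst X Y) (1 ⊗ₜ[K] x) * (1 ⊗ₜ[K] c : W.HΩ Ω (X.prod Y)) *
        W.pullΩ Ω (snd X Y) y) = W.trΩ Ω Y (f.baseChange Ω (1 ⊗ₜ[K] x) * y)) ?_ ?_ ?_ ?_ y
    · intro y
      rw [pullΩ_tmul, pullΩ_tmul, Algebra.TensorProduct.tmul_mul_tmul,
        Algebra.TensorProduct.tmul_mul_tmul, LinearMap.baseChange_tmul,
        Algebra.TensorProduct.tmul_mul_tmul, trΩ_tmul, trΩ_tmul, h]
      simp
    · simp only [map_zero, mul_zero]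
    · intro a b ha hb
      simp only [map_add, mul_add, ha, hb]
    · intro a b hb
      simp only [map_smul, mul_smul_comm, hb]
  · simp only [map_zero, zero_mul]
  · intro a b ha hb
    simp only [map_add, add_mul, ha, hb]
  · intro a b hb
    simp only [map_smul, smul_mul_assoc, hb]

lemma isMap_baseChange {X Y : SmProjVar k} {f : W.H X →ₗ[K] W.H Y} (hf : W.IsAlgebraicMap X Y f) :
    (W.toSPre Ω).IsMap X Y (f.baseChange Ω) := by
  obtain ⟨c, hc, h⟩ := hf
  exact ⟨1 ⊗ₜ[K] c, Submodule.tmul_mem_baseChange_of_mem 1 hc, W.corr_baseChange Ω h⟩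

lemma exists_linear {X Y : SmProjVar k} {f : W.H X → W.H Y} (hf : W.IsAlgebraicMap X Y f) :
    ∃ u : W.H X →ₗ[K] W.H Y, ∀ x, u x = f x := by
  obtain ⟨c, hc, h⟩ := hf
  have h' : ∀ x y, W.trL Y (f x * y) =
      W.trL (X.prod Y) (W.pullA (fst X Y) x * c * W.pullA (snd X Y) y) := h
  refine ⟨{ toFun := f, map_add' := fun a b => ?_, map_smul' := fun r a => ?_ }, fun x => rfl⟩
  · rw [← sub_eq_zero]
    refine (W.trace Y).nondegenerate _ fun y => ?_
    show W.trL Y _ = 0
    rw [sub_mul, add_mul, map_sub, map_add, h', h', h', map_add, add_mul, add_mul, map_add,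
      sub_self]
  · rw [← sub_eq_zero]
    refine (W.trace Y).nondegenerate _ fun y => ?_
    show W.trL Y _ = 0
    rw [RingHom.id_apply, sub_mul, map_sub, smul_mul_assoc, map_smul, h', h', map_smul,
      smul_mul_assoc, smul_mul_assoc, map_smul, sub_self]

lemma isMap_of_mem {X : SmProjVar k} {U : Ω ⊗[K] W.H X →ₗ[Ω] Ω ⊗[K] W.H X}
    (hU : U ∈ extOperators Ω (W.algEnd X)) : (W.toSPre Ω).IsMap X X U := by
  unfold extOperators at hU
  induction hU using Submodule.span_induction with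
  | mem f hf =>
    obtain ⟨g, hg, rfl⟩ := hf
    exact W.isMap_baseChange Ω hg
  | zero => exact ((W.toSPre Ω).corrAlg X).zero_mem
  | add f g _ _ hf hg => exact hf.add hg
  | smul a f _ hf => exact hf.smul a

lemma sΩ_baseChange_apply (σ : Ω ≃ₐ[K] Ω) {X : SmProjVar k} (f : W.H X →ₗ[K] W.H X)
    (x : W.HΩ Ω X) : W.sΩ σ X (f.baseChange Ω x) = f.baseChange Ω (W.sΩ σ X x) := by
  induction x using TensorProduct.induction_on with
  | zero => simp only [map_zero]
  | tmul a y => rw [LinearMap.baseChange_tmul, sΩ_tmul, sΩ_tmul, LinearMap.baseChange_tmul]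
  | add x y hx hy => simp only [map_add, hx, hy]

lemma adjoint_baseChange {X : SmProjVar k} {f g : W.H X →ₗ[K] W.H X}
    (h : ∀ x y, W.trL X (f x * y) = W.trL X (x * g y)) (x y : W.HΩ Ω X) :
    W.trΩ Ω X (f.baseChange Ω x * y) = W.trΩ Ω X (x * g.baseChange Ω y) := by
  refine baseChange_induction_top (p := fun x =>
    W.trΩ Ω X (f.baseChange Ω x * y) = W.trΩ Ω X (x * g.baseChange Ω y)) ?_ ?_ ?_ ?_ x
  · intro x
    refine baseChange_induction_top (p := fun y =>
      W.trΩ Ω X (f.baseChange Ω (1 ⊗ₜ[K] x) * y) =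
        W.trΩ Ω X (1 ⊗ₜ[K] x * g.baseChange Ω y)) ?_ ?_ ?_ ?_ y
    · intro y
      rw [LinearMap.baseChange_tmul, LinearMap.baseChange_tmul,
        Algebra.TensorProduct.tmul_mul_tmul, Algebra.TensorProduct.tmul_mul_tmul, trΩ_tmul,
        trΩ_tmul, h]
    · simp only [map_zero, mul_zero]
    · intro a b ha hb
      simp only [map_add, mul_add, ha, hb]
    · intro a b hb
      simp only [map_smul, mul_smul_comm, hb]
  · simp only [map_zero, zero_mul]
  · intro a b ha hb
    simp only [map_add, add_mul, ha, hb]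
  · intro a b hb
    simp only [map_smul, smul_mul_assoc, hb]

end Proofs

end WeilCohomology

section FiniteOrbits

lemma exists_eigenvector {Ω : Type t} [Field Ω] {M : Type w} [AddCommGroup M] [Module Ω M]
    (f : Module.End Ω M) (l : Ω) (h : f.maxGenEigenspace l ≠ ⊥) : ∃ x ≠ 0, f x = l • x := by
  obtain ⟨x, hx, hx0⟩ := (Submodule.ne_bot_iff _).mp h
  rw [Module.End.mem_maxGenEigenspace] at hx
  classical
  have hn := Nat.find_spec hx
  have hmin : ∀ m < Nat.find hx, ¬ ((f - l • 1) ^ m) x = 0 := fun m hm => Nat.find_min hx hm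
  set n := Nat.find hx
  rcases n with _ | n
  · exact absurd (by simpa using hn) hx0
  · refine ⟨((f - l • 1) ^ n) x, hmin n (Nat.lt_succ_self n), ?_⟩
    rw [pow_succ', Module.End.mul_apply] at hn
    simp only [LinearMap.sub_apply, LinearMap.smul_apply, Module.End.one_apply] at hn
    exact sub_eq_zero.mp hn

variable {K : Type v} [Field K] {Ω : Type t} [Field Ω] [Algebra K Ω]

lemma isIntegral_of_maxGenEigenspace_ne_bot {V : Type w} [AddCommGroup V] [Module K V]
    [Module.Finite K V] (f : Module.End K V) (l : Ω)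
    (h : Module.End.maxGenEigenspace (f.baseChange Ω : Module.End Ω (Ω ⊗[K] V)) l ≠ ⊥) :
    IsIntegral K l := by
  have hint : IsIntegral K f := Algebra.IsIntegral.isIntegral f
  refine ⟨minpoly K f, minpoly.monic hint, ?_⟩
  set φ : Module.End Ω (Ω ⊗[K] V) := f.baseChange Ω with hφ
  have h1 : Polynomial.aeval φ (minpoly K f) = 0 := by
    have h2 := minpoly.aeval K f
    have h3 : Module.End.baseChangeHom K Ω V (Polynomial.aeval f (minpoly K f)) = 0 := by
      rw [h2, map_zero]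
    rw [← Polynomial.aeval_algHom_apply] at h3
    exact h3
  obtain ⟨x, hx0, hx⟩ := exists_eigenvector _ l h
  have h4 := Module.End.aeval_apply_of_mem_apply_eq_smul (f := φ)
    (p := (minpoly K f).map (algebraMap K Ω)) hx
  rw [Polynomial.aeval_map_algebraMap, h1, LinearMap.zero_apply] at h4
  rw [Polynomial.eval₂_eq_eval_map]
  exact (smul_eq_zero.mp h4.symm).resolve_right hx0

lemma finiteIndex_stabilizer (l : Ω) (hl : IsIntegral K l) :
    (MulAction.stabilizer (Ω ≃ₐ[K] Ω) l).FiniteIndex := by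
  have hfin : (MulAction.orbit (Ω ≃ₐ[K] Ω) l).Finite := by
    refine ((minpoly K l).rootSet_finite Ω).subset ?_
    rintro _ ⟨σ, rfl⟩
    rw [Polynomial.mem_rootSet]
    refine ⟨minpoly.ne_zero hl, ?_⟩
    have h1 : Polynomial.aeval (σ l) (minpoly K l) = σ (Polynomial.aeval l (minpoly K l)) :=
      Polynomial.aeval_algHom_apply (σ : Ω →ₐ[K] Ω) l _
    change Polynomial.aeval (σ l) (minpoly K l) = 0
    rw [h1, minpoly.aeval, map_zero]
  refine ⟨?_⟩
  rw [MulAction.index_stabilizer]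
  rw [Ne, Set.ncard_eq_zero hfin]
  exact (MulAction.nonempty_orbit l).ne_empty

lemma finiteIndex_stabilizer_pi {m : ℕ} (χ : Fin m → Ω) (h : ∀ i, IsIntegral K (χ i)) :
    (MulAction.stabilizer (Ω ≃ₐ[K] Ω) χ).FiniteIndex := by
  have h1 : (⨅ i, MulAction.stabilizer (Ω ≃ₐ[K] Ω) (χ i)).FiniteIndex :=
    Subgroup.finiteIndex_iInf fun i => finiteIndex_stabilizer (χ i) (h i)
  refine Subgroup.finiteIndex_of_le (H := ⨅ i, MulAction.stabilizer (Ω ≃ₐ[K] Ω) (χ i)) ?_
  intro σ hσ
  rw [MulAction.mem_stabilizer_iff]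
  funext i
  rw [Subgroup.mem_iInf] at hσ
  exact hσ i

end FiniteOrbits

namespace WeilCohomology

variable {k : Type u} [Field k] {K : Type v} [Field K] [CharZero K]
  (W : WeilCohomology.{u, v, w} k K) (Ω : Type t) [Field Ω] [Algebra K Ω]

lemma specData {X : SmProjVar k} (h : W.SpectralType Ω X) :
    ∃ (m : ℕ) (T : Fin m → Module.End Ω ((W.toSPre Ω).H X)) (adj : Fin m → Fin m),
      (W.toSPre Ω).SpecData X T adj := by
  obtain ⟨m, T, adj, h1, h2, h3, h4, h5⟩ := h
  have hfin := (W.graded X).finite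
  refine ⟨m, fun i => (T i).baseChange Ω, adj, ⟨h1, fun i => W.isMap_baseChange Ω (h2 i), ?_,
    fun i x y => W.adjoint_baseChange Ω (h4 i) x y,
    fun σ i x => W.sΩ_baseChange_apply Ω σ (T i) x, ?_, ?_⟩⟩
  · intro i j
    exact (h3 i j).map (Module.End.baseChangeHom K Ω (W.H X))
  · intro χ hχ
    refine finiteIndex_stabilizer_pi χ fun i => ?_
    refine isIntegral_of_maxGenEigenspace_ne_bot (T i) (χ i) ?_
    intro hb
    apply hχ
    rw [eq_bot_iff]
    exact (SPre.joint_le χ i).trans hb.le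
  · intro χ
    rcases h5 χ with h | ⟨h, σ, U, hU, hU', hm⟩
    · exact .inl h
    · exact .inr ⟨h, σ, U, W.isMap_of_mem Ω hU, hU', hm⟩

lemma good_of_productsOf [IsAlgClosed Ω] {X : SmProjVar k}
    (h : ProductsOf (W.SpectralType Ω) X) : (W.toSPre Ω).Good X := by
  induction h with
  | of h =>
    obtain ⟨m, T, adj, h⟩ := W.specData Ω h
    exact h.good
  | prod _ _ h h' => exact h.prod h'

/-- D for a summand of motives of varieties which satisfy D. -/
lemma standardD_of_summandOf_aux {C : SmProjVar k → Prop} (Y : SmProjVar k)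
    (hC : ∀ X, C X → (W.toSPre Ω).D X) (hY : W.SummandOf C Y) : W.StandardD Y := by
  obtain ⟨n, X, f, g, hX, hf, hg, hfg⟩ := hY
  choose f' hf' using fun i => W.exists_linear (hf i)
  choose g' hg' using fun i => W.exists_linear (hg i)
  have hf'' : ∀ i, W.IsAlgebraicMap Y (X i) (f' i) := fun i => by
    rw [show (⇑(f' i)) = f i from funext (hf' i)]; exact hf i
  refine W.standardD_of_D Ω Y ?_
  refine SPre.D.of_summand _ X (fun i => hC _ (hX i))
    (fun i => (f' i).baseChange Ω) (fun i => (g' i).baseChange Ω)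
    (fun i => W.isMap_baseChange Ω (hf'' i)) ?_
  have hfg' : ∑ i, g' i ∘ₗ f' i = LinearMap.id := by
    ext y
    rw [LinearMap.sum_apply, LinearMap.id_apply]
    simp only [LinearMap.comp_apply, hf', hg']
    exact hfg y
  have h1 := congrArg (LinearMap.baseChangeHom K Ω (W.H Y) (W.H Y)) hfg'
  rw [map_sum] at h1
  simp only [LinearMap.baseChangeHom_apply, LinearMap.baseChange_comp,
    LinearMap.baseChange_id] at h1
  exact h1

/-- **Main theorem.** -/
theorem standardD_of_summandOf [IsAlgClosed Ω] (Y : SmProjVar k)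
    (hY : W.SummandOf (ProductsOf (W.SpectralType Ω)) Y) : W.StandardD Y := by
  exact W.standardD_of_summandOf_aux Ω Y (fun X hX => (W.good_of_productsOf Ω hX).d) hY

end WeilCohomology

end Pool.Agent.Helper10
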