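import Mathlib
import Pool.Agent.Helper10.SpectralType

/-!
# Varieties of Tate type
-/

universe u v w t

open CategoryTheory Limits AlgebraicGeometry TensorProduct

namespace Pool.Agent.Helper10

open SmProjVar

section Linear

variable {K : Type v} [Field K] {Ω : Type t} [Field Ω] [Algebra K Ω]
variable {V : Type w} [AddCommGroup V] [Module K V]

/-- coordinates of an element of `Ω ⊗ V` with respect to a basis of `Ω` over `K` -/
noncomputable def coord {ι : Type*} (b : Module.Basis ι K Ω) : Ω ⊗[K] V ≃ₗ[K] (ι →₀ V) :=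
  by classical exact TensorProduct.equivFinsuppOfBasisLeft b

lemma eq_sum_coord {ι : Type*} (b : Module.Basis ι K Ω) (x : Ω ⊗[K] V) :
    x = (coord b x).sum fun i n => b i ⊗ₜ[K] n := by
  classical
  unfold coord
  rw [← TensorProduct.equivFinsuppOfBasisLeft_symm_apply, LinearEquiv.symm_apply_apply]

lemma coord_tmul {ι : Type*} (b : Module.Basis ι K Ω) (a : Ω) (x : V) (i : ι) :
    coord b (a ⊗ₜ[K] x) i = b.repr a i • x := by
  classical
  unfold coord
  exact TensorProduct.equivFinsuppOfBasisLeft_apply_tmul_apply b a x i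

lemma coord_baseChange {ι : Type*} (b : Module.Basis ι K Ω) (f : V →ₗ[K] V) (x : Ω ⊗[K] V)
    (i : ι) : coord b (f.baseChange Ω x) i = f (coord b x i) := by
  induction x using TensorProduct.induction_on with
  | zero => simp
  | tmul a y => rw [LinearMap.baseChange_tmul, coord_tmul, coord_tmul, map_smul]
  | add x y hx hy => simp only [map_add, Finsupp.add_apply, hx, hy]

lemma mem_baseChange_iff {ι : Type*} (b : Module.Basis ι K Ω) (A : Submodule K V)
    (x : Ω ⊗[K] V) : x ∈ A.baseChange Ω ↔ ∀ i, coord b x i ∈ A := by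
  constructor
  · intro hx i
    obtain ⟨y, rfl⟩ := hx
    induction y using TensorProduct.induction_on with
    | zero => simp
    | tmul a y =>
      rw [LinearMap.baseChange_tmul, coord_tmul]
      exact A.smul_mem _ y.2
    | add x y hx hy =>
      simp only [map_add, Finsupp.add_apply]
      exact A.add_mem hx hy
  · intro h
    rw [eq_sum_coord b x]
    exact Submodule.sum_mem _ fun i _ => Submodule.tmul_mem_baseChange_of_mem _ (h i)

/-- generalised eigenspaces for eigenvalues in `K` commute with extension of scalars -/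
lemma inf_maxGenEigenspace_baseChange (A B : Submodule K V) (f : Module.End K V) (c : K)
    (h : A ⊓ f.maxGenEigenspace c ≤ B) {x : Ω ⊗[K] V} (hx : x ∈ A.baseChange Ω)
    (hx' : x ∈ Module.End.maxGenEigenspace (f.baseChange Ω : Module.End Ω (Ω ⊗[K] V))
      (algebraMap K Ω c)) : x ∈ B.baseChange Ω := by
  let b := Module.Basis.ofVectorSpace K Ω
  rw [mem_baseChange_iff b] at hx ⊢
  rw [Module.End.mem_maxGenEigenspace] at hx'
  obtain ⟨n, hn⟩ := hx'
  intro i
  refine h ⟨hx i, ?_⟩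
  rw [SetLike.mem_coe, Module.End.mem_maxGenEigenspace]
  refine ⟨n, ?_⟩
  have h1 : ((f.baseChange Ω : Module.End Ω (Ω ⊗[K] V)) - (algebraMap K Ω c) • 1) ^ n =
      (((f - c • 1) ^ n : Module.End K V).baseChange Ω : Module.End Ω (Ω ⊗[K] V)) := by
    rw [LinearMap.baseChange_pow]
    congr 1
    refine TensorProduct.AlgebraTensorModule.curry_injective ?_
    ext y
    simp [TensorProduct.smul_tmul']
  rw [h1] at hn
  rw [← coord_baseChange, hn]
  simp

end Linear

section Eigen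

variable {Ω : Type t} [Field Ω]

lemma mem_maxGenEigenspace_of_sub {M : Type w} [AddCommGroup M] [Module Ω M]
    (f : Module.End Ω M) (l : Ω) {x : M} (h : f x - l • x ∈ f.maxGenEigenspace l) :
    x ∈ f.maxGenEigenspace l := by
  rw [Module.End.mem_maxGenEigenspace] at h ⊢
  obtain ⟨n, hn⟩ := h
  refine ⟨n + 1, ?_⟩
  rw [pow_succ, Module.End.mul_apply]
  simpa using hn

/-- the product of two generalised eigenvectors of a ring endomorphism is a generalised
eigenvector -/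
lemma mul_mem_maxGenEigenspace {A : Type w} [Ring A] [Algebra Ω A] (φ : A →ₐ[Ω] A) {l m : Ω}
    {x y : A} (hx : x ∈ Module.End.maxGenEigenspace (φ.toLinearMap : Module.End Ω A) l)
    (hy : y ∈ Module.End.maxGenEigenspace (φ.toLinearMap : Module.End Ω A) m) :
    x * y ∈ Module.End.maxGenEigenspace (φ.toLinearMap : Module.End Ω A) (l * m) := by
  rw [Module.End.mem_maxGenEigenspace] at hx hy
  obtain ⟨a, ha⟩ := hx
  obtain ⟨b, hb⟩ := hy
  induction hn : a + b using Nat.strong_induction_on generalizing a b x y with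
  | _ n ih =>
    rcases a with _ | a
    · have : x = 0 := by simpa using ha
      rw [this, zero_mul]; exact Submodule.zero_mem _
    rcases b with _ | b
    · have : y = 0 := by simpa using hb
      rw [this, mul_zero]; exact Submodule.zero_mem _
    have hxs := ha
    have hys := hb
    rw [pow_succ, Module.End.mul_apply] at ha hb
    set x1 := ((φ.toLinearMap : Module.End Ω A) - l • 1) x with hx1
    set y1 := ((φ.toLinearMap : Module.End Ω A) - m • 1) y with hy1
    have ex : φ x = l • x + x1 := by rw [hx1]; simp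
    have ey : φ y = m • y + y1 := by rw [hy1]; simp
    have e1 := ih (a + 1 + b) (by omega) (a + 1) hxs b hb rfl
    have e2 := ih (a + (b + 1)) (by omega) a ha (b + 1) hys rfl
    have e3 := ih (a + b) (by omega) a ha b hb rfl
    refine mem_maxGenEigenspace_of_sub _ _ ?_
    have e4 : (φ.toLinearMap : Module.End Ω A) (x * y) - (l * m) • (x * y) =
        l • (x * y1) + m • (x1 * y) + x1 * y1 := by
      rw [AlgHom.toLinearMap_apply, map_mul, ex, ey, add_mul, mul_add, mul_add,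
        smul_mul_smul_comm, smul_mul_assoc, mul_smul_comm]
      abel
    rw [e4]
    exact Submodule.add_mem _ (Submodule.add_mem _ (Submodule.smul_mem _ _ e1)
      (Submodule.smul_mem _ _ e2)) e3

lemma map_mem_maxGenEigenspace {M N : Type w} [AddCommGroup M] [Module Ω M] [AddCommGroup N]
    [Module Ω N] (f : Module.End Ω M) (g : Module.End Ω N) (ψ : M →ₗ[Ω] N)
    (h : ∀ x, g (ψ x) = ψ (f x)) {l : Ω} {x : M} (hx : x ∈ f.maxGenEigenspace l) :
    ψ x ∈ g.maxGenEigenspace l := by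
  rw [Module.End.mem_maxGenEigenspace] at hx ⊢
  obtain ⟨n, hn⟩ := hx
  refine ⟨n, ?_⟩
  have h1 : ∀ (n : ℕ) (x : M), ((g - l • 1) ^ n) (ψ x) = ψ (((f - l • 1) ^ n) x) := by
    intro n
    induction n with
    | zero => intro x; simp
    | succ n ih =>
      intro x
      rw [pow_succ, pow_succ, Module.End.mul_apply, Module.End.mul_apply, ← ih]
      congr 1
      simp [h]
  rw [h1, hn, map_zero]

end Eigen

namespace WeilCohomology

variable {k : Type u} [Field k] {K : Type v} [Field K] [CharZero K]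
  (W : WeilCohomology.{u, v, w} k K) (Ω : Type t) [Field Ω] [Algebra K Ω]

/-- graded pieces with coefficients in `Ω` -/
noncomputable def grΩ (X : SmProjVar k) (i : ℕ) : Submodule Ω (W.HΩ Ω X) :=
  (W.gr X i).baseChange Ω

lemma mul_mem_grΩ (X : SmProjVar k) {i j : ℕ} {x y : W.HΩ Ω X} (hx : x ∈ W.grΩ Ω X i)
    (hy : y ∈ W.grΩ Ω X j) : x * y ∈ W.grΩ Ω X (i + j) :=
  W.mulΩ_baseChange Ω X _ _ _ (fun _ hx _ hy => W.gr_mul X hx hy) x y hx hy

lemma pull_mem_grΩ {X Y : SmProjVar k} (f : X.toOver ⟶ Y.toOver) {i : ℕ} {x : W.HΩ Ω Y}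
    (hx : x ∈ W.grΩ Ω Y i) : W.pullΩ Ω f x ∈ W.grΩ Ω X i :=
  W.pullΩ_baseChange Ω f _ _ (fun y hy => (W.pull_hom f).map_mem i y hy) x hx

lemma trΩ_grΩ (X : SmProjVar k) {i : ℕ} (hi : i ≠ 2 * X.dim) {x : W.HΩ Ω X}
    (hx : x ∈ W.grΩ Ω X i) : W.trΩ Ω X x = 0 := by
  refine baseChange_induction _ (p := fun x => W.trΩ Ω X x = 0) ?_ ?_ ?_ ?_ hx
  · intro y hy
    rw [trΩ_tmul, W.tr_eq_zero_of_gr X hi hy, zero_smul]
  · rw [map_zero]
  · intro a b ha hb
    rw [map_add, ha, hb, add_zero]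
  · intro a b hb
    rw [map_smul, hb, smul_zero]

lemma grΩ_le_ev (X : SmProjVar k) {i : ℕ} (hi : Even i) {x : W.HΩ Ω X}
    (hx : x ∈ W.grΩ Ω X i) : x ∈ (W.evK X).baseChange Ω := by
  refine baseChange_induction _ (p := fun x => x ∈ (W.evK X).baseChange Ω) ?_ ?_ ?_ ?_ hx
  · intro y hy
    exact Submodule.tmul_mem_baseChange_of_mem 1 (W.gr_le_evK X hi hy)
  · exact Submodule.zero_mem _
  · intro a b ha hb
    exact Submodule.add_mem _ ha hb
  · intro a b hb
    exact Submodule.smul_mem _ _ hb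

lemma grΩ_le_od (X : SmProjVar k) {i : ℕ} (hi : ¬ Even i) {x : W.HΩ Ω X}
    (hx : x ∈ W.grΩ Ω X i) : x ∈ (W.odK X).baseChange Ω := by
  refine baseChange_induction _ (p := fun x => x ∈ (W.odK X).baseChange Ω) ?_ ?_ ?_ ?_ hx
  · intro y hy
    exact Submodule.tmul_mem_baseChange_of_mem 1 (W.gr_le_odK X hi hy)
  · exact Submodule.zero_mem _
  · intro a b ha hb
    exact Submodule.add_mem _ ha hb
  · intro a b hb
    exact Submodule.smul_mem _ _ hb

lemma hom_of_grΩ (X : SmProjVar k) {i : ℕ} {x : W.HΩ Ω X} (hx : x ∈ W.grΩ Ω X i) :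
    (W.toSPre Ω).Hom X x := by
  by_cases hi : Even i
  · exact .inl (W.grΩ_le_ev Ω X hi hx)
  · exact .inr (W.grΩ_le_od Ω X hi hx)

/-- generalised eigenspaces of a pull-back -/
noncomputable def eigΩ {X : SmProjVar k} (F : X.toOver ⟶ X.toOver) (l : Ω) :
    Submodule Ω (W.HΩ Ω X) :=
  Module.End.maxGenEigenspace ((W.pullΩ Ω F).toLinearMap : Module.End Ω (W.HΩ Ω X)) l

lemma pullΩ_toLinearMap {X Y : SmProjVar k} (f : X.toOver ⟶ Y.toOver) :
    (W.pullΩ Ω f).toLinearMap = (W.pullA f).toLinearMap.baseChange Ω := by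
  refine TensorProduct.AlgebraTensorModule.curry_injective ?_
  ext y
  simp

lemma iSup_grΩ_eigΩ [IsAlgClosed Ω] {X : SmProjVar k} (F : X.toOver ⟶ X.toOver)
    {p : W.HΩ Ω X → Prop}
    (hmem : ∀ i l, ∀ x ∈ W.grΩ Ω X i ⊓ W.eigΩ Ω F l, p x) (hzero : p 0)
    (hadd : ∀ x y, p x → p y → p (x + y)) (x : W.HΩ Ω X) : p x := by
  have hfin := (W.graded X).finite
  have hgr : ∀ i, ∀ x ∈ W.grΩ Ω X i, p x := by
    intro i x hx
    have hstable : ∀ x ∈ W.grΩ Ω X i,
        ((W.pullΩ Ω F).toLinearMap : Module.End Ω (W.HΩ Ω X)) x ∈ W.grΩ Ω X i :=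
      fun x hx => W.pull_mem_grΩ Ω F hx
    rw [Submodule.eq_iSup_inf_genEigenspace ⊤ hstable
      (Module.End.iSup_maxGenEigenspace_eq_top _)] at hx
    induction hx using Submodule.iSup_induction' with
    | mem l x hxm => exact hmem i l x hxm
    | zero => exact hzero
    | add x y _ _ hx hy => exact hadd x y hx hy
  have hx : x ∈ ⨆ i, W.grΩ Ω X i := by
    refine baseChange_induction_top (p := fun x => x ∈ ⨆ i, W.grΩ Ω X i) ?_ ?_ ?_ ?_ x
    · intro y
      refine W.gr_induction X (p := fun y => (1 ⊗ₜ[K] y : W.HΩ Ω X) ∈ ⨆ i, W.grΩ Ω X i)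
        ?_ ?_ ?_ y
      · intro i y hy
        exact Submodule.mem_iSup_of_mem i (Submodule.tmul_mem_baseChange_of_mem 1 hy)
      · rw [TensorProduct.tmul_zero]; exact Submodule.zero_mem _
      · intro a b ha hb
        rw [TensorProduct.tmul_add]; exact Submodule.add_mem _ ha hb
    · exact Submodule.zero_mem _
    · intro a b ha hb
      exact Submodule.add_mem _ ha hb
    · intro a b hb
      exact Submodule.smul_mem _ _ hb
  induction hx using Submodule.iSup_induction' with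
  | mem i x hxm => exact hgr i x hxm
  | zero => exact hzero
  | add x y _ _ hx hy => exact hadd x y hx hy

lemma s_mem_eigΩ {X : SmProjVar k} (F : X.toOver ⟶ X.toOver) (σ : Ω ≃ₐ[K] Ω) (l : Ω)
    {x : W.HΩ Ω X} (hx : x ∈ W.eigΩ Ω F l) : W.sΩ σ X x ∈ W.eigΩ Ω F (σ l) := by
  unfold eigΩ at hx ⊢
  rw [Module.End.mem_maxGenEigenspace] at hx ⊢
  obtain ⟨n, hn⟩ := hx
  refine ⟨n, ?_⟩
  have key : ∀ (n : ℕ) (x : W.HΩ Ω X),
      ((((W.pullΩ Ω F).toLinearMap : Module.End Ω (W.HΩ Ω X)) - σ l • 1) ^ n) (W.sΩ σ X x) =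
      W.sΩ σ X (((((W.pullΩ Ω F).toLinearMap : Module.End Ω (W.HΩ Ω X)) - l • 1) ^ n) x) := by
    intro n
    induction n with
    | zero => intro x; simp
    | succ n ih =>
      intro x
      rw [pow_succ, pow_succ, Module.End.mul_apply, Module.End.mul_apply, ← ih]
      congr 1
      simp only [LinearMap.sub_apply, LinearMap.smul_apply, Module.End.one_apply,
        AlgHom.toLinearMap_apply]
      rw [map_sub, W.sΩ_smul, W.sΩ_pullΩ]
  rw [key, hn, map_zero]

lemma trΩ_pullΩ {X : SmProjVar k} (F : X.toOver ⟶ X.toOver) (d : K)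
    (h : ∀ x : W.H X, W.trL X (W.pullA F x) = d * W.trL X x) (x : W.HΩ Ω X) :
    W.trΩ Ω X (W.pullΩ Ω F x) = algebraMap K Ω d * W.trΩ Ω X x := by
  induction x using TensorProduct.induction_on with
  | zero => simp only [map_zero, mul_zero]
  | tmul a y =>
    rw [pullΩ_tmul, trΩ_tmul, trΩ_tmul, h, mul_smul, Algebra.smul_def d]
  | add x y hx hy => simp only [map_add, mul_add, hx, hy]

lemma tr_eigΩ {X : SmProjVar k} (F : X.toOver ⟶ X.toOver) (d : K)
    (h : ∀ x : W.H X, W.trL X (W.pullA F x) = d * W.trL X x) {l : Ω} (hl : l ≠ algebraMap K Ω d)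
    {x : W.HΩ Ω X} (hx : x ∈ W.eigΩ Ω F l) : W.trΩ Ω X x = 0 := by
  unfold eigΩ at hx
  rw [Module.End.mem_maxGenEigenspace] at hx
  obtain ⟨n, hn⟩ := hx
  have key : ∀ (n : ℕ) (x : W.HΩ Ω X),
      W.trΩ Ω X (((((W.pullΩ Ω F).toLinearMap : Module.End Ω (W.HΩ Ω X)) - l • 1) ^ n) x) =
        (algebraMap K Ω d - l) ^ n * W.trΩ Ω X x := by
    intro n
    induction n with
    | zero => intro x; simp
    | succ n ih =>
      intro x
      rw [pow_succ, Module.End.mul_apply, ih]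
      simp only [LinearMap.sub_apply, LinearMap.smul_apply, Module.End.one_apply,
        AlgHom.toLinearMap_apply]
      rw [map_sub, map_smul, W.trΩ_pullΩ Ω F d h, smul_eq_mul]
      ring
  have h1 := key n x
  rw [hn, map_zero] at h1
  exact (mul_eq_zero.mp h1.symm).resolve_left (pow_ne_zero n (sub_ne_zero.mpr hl.symm))

lemma class_mem_grΩ_eigΩ {X : SmProjVar k} (F : X.toOver ⟶ X.toOver) {i j : ℕ} {l m : Ω}
    {x y : W.HΩ Ω X} (hx : x ∈ W.grΩ Ω X i ⊓ W.eigΩ Ω F l) (hy : y ∈ W.grΩ Ω X j ⊓ W.eigΩ Ω F m) :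
    W.pullΩ Ω (fst X X) x * W.pullΩ Ω (snd X X) y ∈
      W.grΩ Ω (X.prod X) (i + j) ⊓ W.eigΩ Ω (prodMap F F) (l * m) := by
  refine ⟨W.mul_mem_grΩ Ω _ (W.pull_mem_grΩ Ω _ hx.1) (W.pull_mem_grΩ Ω _ hy.1), ?_⟩
  have hcomp : ∀ {A B C : SmProjVar k} (f : A.toOver ⟶ B.toOver) (g : B.toOver ⟶ C.toOver)
      (z : W.HΩ Ω C), W.pullΩ Ω f (W.pullΩ Ω g z) = W.pullΩ Ω (f ≫ g) z := by
    intro A B C f g z
    induction z using TensorProduct.induction_on with
    | zero => simp only [map_zero]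
    | tmul a y => rw [pullΩ_tmul, pullΩ_tmul, pullΩ_tmul, W.pullA_comp]; rfl
    | add x y hx hy => simp only [map_add, hx, hy]
  refine mul_mem_maxGenEigenspace (W.pullΩ Ω (prodMap F F)) ?_ ?_
  · refine map_mem_maxGenEigenspace _ _ (W.pullΩ Ω (fst X X)).toLinearMap ?_ hx.2
    intro z
    simp only [AlgHom.toLinearMap_apply]
    rw [hcomp, hcomp, prodMap, lift_fst]
  · refine map_mem_maxGenEigenspace _ _ (W.pullΩ Ω (snd X X)).toLinearMap ?_ hy.2
    intro z
    simp only [AlgHom.toLinearMap_apply]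
    rw [hcomp, hcomp, prodMap, lift_snd]

lemma tateType_good [IsAlgClosed Ω] {X : SmProjVar k} (h : W.TateType Ω X) :
    (W.toSPre Ω).Good X := by
  obtain ⟨F, q, φ, φ₂, hφ, hφ₂, htr, hT, hconj⟩ := h
  obtain rfl : φ = (W.pullA F).toLinearMap := LinearMap.ext hφ
  obtain rfl : φ₂ = (W.pullA (prodMap F F)).toLinearMap := LinearMap.ext hφ₂
  have hfin := (W.graded X).finite
  have hTΩ : ∀ (i : ℕ) (z : W.HΩ Ω (X.prod X)), z ∈ W.grΩ Ω (X.prod X) (2 * i) →
      z ∈ W.eigΩ Ω (prodMap F F) (algebraMap K Ω (q ^ i)) → z ∈ W.algΩ Ω (X.prod X) := by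
    intro i z hz hz'
    unfold eigΩ at hz'
    rw [pullΩ_toLinearMap] at hz'
    refine inf_maxGenEigenspace_baseChange _ _ _ _ ?_ hz hz'
    rintro x ⟨hx, hx'⟩
    exact hT i x hx ((Module.End.mem_maxGenEigenspace _ _ _).mp hx')
  set S : Set ((W.toSPre Ω).homSub X) :=
    {x | ∃ (i : ℕ) (l : Ω), (x.1 : W.HΩ Ω X) ∈ W.grΩ Ω X i ⊓ W.eigΩ Ω F l} with hS
  have hspan : Submodule.span Ω (Subtype.val '' S : Set (W.HΩ Ω X)) = ⊤ := by
    rw [eq_top_iff]
    intro x _
    refine W.iSup_grΩ_eigΩ Ω F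
      (p := fun x => x ∈ Submodule.span Ω (Subtype.val '' S : Set (W.HΩ Ω X))) ?_ ?_ ?_ x
    · intro i l x hx
      exact Submodule.subset_span ⟨⟨x, W.hom_of_grΩ Ω X hx.1⟩, ⟨i, l, hx⟩, rfl⟩
    · exact Submodule.zero_mem _
    · intro a b ha hb
      exact Submodule.add_mem _ ha hb
  refine ⟨S, S, hspan, hspan, ?_, ?_⟩
  · rintro e ⟨i, l, he⟩ e' ⟨j, m, he'⟩ hne
    have hij : i + j = 2 * X.dim := by
      by_contra hcon
      exact hne (W.trΩ_grΩ Ω X hcon (W.mul_mem_grΩ Ω X he.1 he'.1))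
    have hlm : l * m = algebraMap K Ω (q ^ X.dim) := by
      by_contra hcon
      exact hne (W.tr_eigΩ Ω F _ htr hcon
        (mul_mem_maxGenEigenspace (W.pullΩ Ω F) he.2 he'.2))
    have h1 := W.class_mem_grΩ_eigΩ Ω F he' he
    rw [add_comm j i, hij, mul_comm m l, hlm] at h1
    exact hTΩ X.dim _ h1.1 h1.2
  · rintro e ⟨i, l, he⟩
    by_cases hbot : W.grΩ Ω X i ⊓ W.eigΩ Ω F l = ⊥
    · refine SPre.SpecData.nice_of_alg e ?_
      rw [hbot] at he
      have he0 : (e.1 : W.HΩ Ω X) = 0 := (Submodule.mem_bot (R := Ω) (M := W.HΩ Ω X)).mp he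
      change (e.1 : W.HΩ Ω X) ∈ W.algΩ Ω X
      rw [he0]
      exact Submodule.zero_mem _
    obtain ⟨σ, hσ⟩ := hconj i l (by
      unfold extEigenspace
      rw [← pullΩ_toLinearMap]
      exact hbot)
    have hint : IsIntegral K l := by
      refine isIntegral_of_maxGenEigenspace_ne_bot (W.pullA F).toLinearMap l ?_
      rw [← pullΩ_toLinearMap]
      intro hb
      apply hbot
      rw [eq_bot_iff]
      exact inf_le_right.trans hb.le
    refine SPre.Nice.of_partner e (MulAction.stabilizer (Ω ≃ₐ[K] Ω) l)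
      (finiteIndex_stabilizer l hint) σ ?_
    intro g₁ g₂ h3
    have h4 : g₂ l = g₁ (σ l) := by
      rw [MulAction.mem_stabilizer_iff, mul_smul, inv_smul_eq_iff] at h3
      exact h3
    have e1 : W.sΩ g₁ X (e.1 : W.HΩ Ω X) ∈ W.grΩ Ω X i ⊓ W.eigΩ Ω F (g₁ l) :=
      ⟨W.sΩ_baseChange Ω g₁ X _ _ he.1, W.s_mem_eigΩ Ω F g₁ l he.2⟩
    have e2 : W.sΩ g₂ X (e.1 : W.HΩ Ω X) ∈ W.grΩ Ω X i ⊓ W.eigΩ Ω F (g₁ (σ l)) := by
      rw [← h4]
      exact ⟨W.sΩ_baseChange Ω g₂ X _ _ he.1, W.s_mem_eigΩ Ω F g₂ l he.2⟩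
    have h5 := W.class_mem_grΩ_eigΩ Ω F e2 e1
    rw [← map_mul, mul_comm (σ l), hσ, AlgEquiv.commutes, ← two_mul] at h5
    exact hTΩ i _ h5.1 h5.2

lemma good_of_productsOf' [IsAlgClosed Ω] {X : SmProjVar k}
    (h : ProductsOf (fun X => W.SpectralType Ω X ∨ W.TateType Ω X) X) :
    (W.toSPre Ω).Good X := by
  induction h with
  | of h =>
    rcases h with h | h
    · obtain ⟨m, T, adj, h⟩ := W.specData Ω h
      exact h.good
    · exact W.tateType_good Ω h
  | prod _ _ h h' => exact h.prod h'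

/-- **Main theorem.** -/
theorem standardD_of_summandOf' [IsAlgClosed Ω] (Y : SmProjVar k)
    (hY : W.SummandOf (ProductsOf fun X => W.SpectralType Ω X ∨ W.TateType Ω X) Y) :
    W.StandardD Y :=
  W.standardD_of_summandOf_aux Ω Y (fun _ hX => (W.good_of_productsOf' Ω hX).d) hY

end WeilCohomology

end Pool.Agent.Helper10
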