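import Mathlib
import Pool.Agent.Helper10.Norm
import Pool.Agent.Helper10.Descent
import Pool.Agent.Helper10.TateType

/-!
# Varieties of norm type
-/

universe u v w t

open CategoryTheory TensorProduct

namespace Pool.Agent.Helper10

open SmProjVar

namespace SPre

variable {k : Type u} [Field k] {K : Type t} [Field K] {Ω : Type v} [Field Ω] [Algebra K Ω]
  {P : SPre.{u, v, w, t} k K Ω}

lemma hom_extPow {Y : SmProjVar k} (n : ℕ) (e : ℕ → P.H Y) (he : ∀ j, P.Hom Y (e j)) :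
    P.Hom (Y.selfProd n) (P.extPow Y n e) := by
  induction n with
  | zero => exact he 0
  | succ n ih => exact Hom.mul P (Hom.pull P _ ih) (Hom.pull P _ (he (n + 1)))

lemma tr_extPow_mul_pm {Y : SmProjVar k} (n : ℕ) (r e : ℕ → P.H Y) (hr : ∀ j, P.Hom Y (r j))
    (he : ∀ j, P.Hom Y (e j)) :
    P.tr _ (P.extPow Y n r * P.extPow Y n e) = ∏ j ∈ Finset.range (n + 1), P.tr Y (r j * e j) ∨
    P.tr _ (P.extPow Y n r * P.extPow Y n e) =
      -∏ j ∈ Finset.range (n + 1), P.tr Y (r j * e j) := by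
  induction n with
  | zero => rw [Finset.prod_range_one]; exact .inl rfl
  | succ n ih =>
    rw [Finset.prod_range_succ]
    have h1 := P.tr_ext_mul_ext (Y.selfProd n) Y (P.extPow Y n r) (P.extPow Y n e) (r (n + 1))
      (e (n + 1)) (hom_extPow n e he) (hr (n + 1))
    rcases ih with ih | ih <;> rcases h1 with h1 | h1
    · left; exact h1.trans (by rw [ih])
    · right; exact h1.trans (by rw [ih])
    · right; exact h1.trans (by rw [ih]; ring)
    · left; exact h1.trans (by rw [ih]; ring)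

lemma extPow_od {Y : SmProjVar k} (n : ℕ) (e : ℕ → P.H Y) (he : ∀ j, e j ∈ P.od Y) :
    (Even n → P.extPow Y n e ∈ P.od (Y.selfProd n)) ∧
      (¬ Even n → P.extPow Y n e ∈ P.ev (Y.selfProd n)) := by
  induction n with
  | zero => exact ⟨fun _ => he 0, fun h => absurd Even.zero h⟩
  | succ n ih =>
    constructor
    · intro h
      have h' : ¬ Even n := by rwa [Nat.even_add_one] at h
      exact P.ev_mul_od _ _ _ (P.pull_ev _ _ (ih.2 h')) (P.pull_od _ _ (he (n + 1)))
    · intro h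
      have h' : Even n := by rwa [Nat.even_add_one, not_not] at h
      exact P.od_mul_od _ _ _ (P.pull_od _ _ (ih.1 h')) (P.pull_od _ _ (he (n + 1)))

lemma tr_ext_mul_ext_od {A Y : SmProjVar k} (a a' : P.H A) (b b' : P.H Y) (hb : b ∈ P.od Y)
    (ha' : a' ∈ P.od A) :
    P.tr _ (P.ext A Y a b * P.ext A Y a' b') = -(P.tr A (a * a') * P.tr Y (b * b')) := by
  have h1 : P.pull (snd A Y) b * P.pull (fst A Y) a' =
      -(P.pull (fst A Y) a' * P.pull (snd A Y) b) :=
    P.od_anti _ _ _ (P.pull_od _ _ hb) (P.pull_od _ _ ha')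
  have h2 : P.ext A Y a b * P.ext A Y a' b' =
      P.pull (fst A Y) a * (P.pull (snd A Y) b * P.pull (fst A Y) a') * P.pull (snd A Y) b' := by
    unfold ext; noncomm_ring
  rw [h2, h1, ← P.tr_prod, map_mul (P.pull _), map_mul (P.pull _), mul_neg, neg_mul, map_neg]
  congr 2
  noncomm_ring

lemma tr_ext_mul_ext_ev' {A Y : SmProjVar k} (a a' : P.H A) (b b' : P.H Y) (ha' : a' ∈ P.ev A) :
    P.tr _ (P.ext A Y a b * P.ext A Y a' b') = P.tr A (a * a') * P.tr Y (b * b') := by
  have h1 : P.pull (snd A Y) b * P.pull (fst A Y) a' = P.pull (fst A Y) a' * P.pull (snd A Y) b :=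
    (P.ev_comm _ _ _ (P.pull_ev _ _ ha')).symm
  have h2 : P.ext A Y a b * P.ext A Y a' b' =
      P.pull (fst A Y) a * (P.pull (snd A Y) b * P.pull (fst A Y) a') * P.pull (snd A Y) b' := by
    unfold ext; noncomm_ring
  rw [h2, h1, ← P.tr_prod, map_mul (P.pull _), map_mul (P.pull _)]
  congr 1
  noncomm_ring

lemma exists_sign (Y : SmProjVar k) (n : ℕ) : ∃ η : Ω, (η = 1 ∨ η = -1) ∧
    ∀ r e : ℕ → P.H Y, (∀ j, r j ∈ P.od Y) → (∀ j, e j ∈ P.od Y) →
      P.tr _ (P.extPow Y n r * P.extPow Y n e) =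
        η * ∏ j ∈ Finset.range (n + 1), P.tr Y (r j * e j) := by
  induction n with
  | zero =>
    refine ⟨1, .inl rfl, fun r e _ _ => ?_⟩
    rw [Finset.prod_range_one, one_mul]
    rfl
  | succ n ih =>
    obtain ⟨η, hη, h⟩ := ih
    by_cases hn : Even n
    · refine ⟨-η, by rcases hη with rfl | rfl <;> simp, fun r e hr he => ?_⟩
      rw [Finset.prod_range_succ]
      refine (tr_ext_mul_ext_od (A := Y.selfProd n) (P.extPow Y n r) (P.extPow Y n e) (r (n + 1))
        (e (n + 1)) (hr (n + 1)) ((extPow_od n e he).1 hn)).trans ?_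
      rw [h r e hr he]
      ring
    · refine ⟨η, hη, fun r e hr he => ?_⟩
      rw [Finset.prod_range_succ]
      refine (tr_ext_mul_ext_ev' (A := Y.selfProd n) (P.extPow Y n r) (P.extPow Y n e) (r (n + 1))
        (e (n + 1)) ((extPow_od n e he).2 hn)).trans ?_
      rw [h r e hr he]
      ring

end SPre

namespace WeilCohomology

variable {k : Type u} [Field k] {K : Type v} [Field K] [CharZero K]
  (W : WeilCohomology.{u, v, w} k K) (Ω : Type t) [Field Ω] [Algebra K Ω]

lemma sΩ_mul (σ τ : Ω ≃ₐ[K] Ω) (X : SmProjVar k) (x : W.HΩ Ω X) :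
    W.sΩ (σ * τ) X x = W.sΩ σ X (W.sΩ τ X x) := by
  induction x using TensorProduct.induction_on with
  | zero => simp only [map_zero]
  | tmul a y => simp only [sΩ_tmul, AlgEquiv.mul_apply]
  | add x y hx hy => simp only [map_add, hx, hy]

/-- the vector representing a linear form -/
noncomputable def vec (X : SmProjVar k) (l : W.H X →ₗ[K] Ω) : W.HΩ Ω X :=
  (W.toSPre Ω).rep X (LinearMap.liftBaseChange Ω l)

lemma trΩ_vec (X : SmProjVar k) (l : W.H X →ₗ[K] Ω) (y : W.H X) :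
    W.trΩ Ω X (W.vec Ω X l * (1 ⊗ₜ[K] y)) = l y := by
  refine ((W.toSPre Ω).tr_rep X (LinearMap.liftBaseChange Ω l) (1 ⊗ₜ[K] y)).trans ?_
  exact (LinearMap.liftBaseChange_tmul (R := K) Ω l 1 y).trans (one_smul Ω (l y))

lemma trΩ_vec' (X : SmProjVar k) (l : W.H X →ₗ[K] Ω) (x : W.HΩ Ω X) :
    W.trΩ Ω X (W.vec Ω X l * x) = LinearMap.liftBaseChange Ω l x :=
  (W.toSPre Ω).tr_rep X (LinearMap.liftBaseChange Ω l) x

lemma span_vec (X : SmProjVar k) (S : Set (W.H X →ₗ[K] Ω)) (hS : Submodule.span Ω S = ⊤) :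
    Submodule.span Ω (W.vec Ω X '' S : Set (W.HΩ Ω X)) = ⊤ := by
  let φ : (W.H X →ₗ[K] Ω) ≃ₗ[Ω] W.HΩ Ω X :=
    (LinearMap.liftBaseChangeEquiv (R := K) (M := W.H X) (N := Ω) Ω).trans
      ((W.toSPre Ω).rep X : Module.Dual Ω (W.HΩ Ω X) ≃ₗ[Ω] W.HΩ Ω X)
  have h1 : (W.vec Ω X '' S : Set (W.HΩ Ω X)) = φ '' S := by
    refine Set.image_congr fun l _ => ?_
    rfl
  rw [h1]
  change Submodule.span Ω (φ.toLinearMap '' S) = ⊤
  rw [Submodule.span_image, hS, Submodule.map_top, LinearEquiv.range]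

lemma vec_hom {X : SmProjVar k} {l : W.H X →ₗ[K] Ω} (hl : W.HasParity Ω X l) :
    (W.toSPre Ω).Hom X (W.vec Ω X l) := by
  obtain ⟨p, hp⟩ := hl
  obtain ⟨a, ha, b, hb, hab⟩ := (W.toSPre Ω).exists_decomp X (W.vec Ω X l)
  by_cases hp0 : Even p
  · -- `l` vanishes on the odd part
    left
    have h0 : b = 0 := by
      refine (W.toSPre Ω).nondeg X b fun w => ?_
      obtain ⟨c, hc, d, hd, rfl⟩ := (W.toSPre Ω).exists_decomp X w
      have h1 : (W.toSPre Ω).tr X (b * c) = 0 :=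
        (W.toSPre Ω).tr_od X _ ((W.toSPre Ω).od_mul_ev X b c hb hc)
      have h2 : (W.toSPre Ω).tr X (a * d) = 0 :=
        (W.toSPre Ω).tr_od X _ ((W.toSPre Ω).ev_mul_od X a d ha hd)
      have h3 : (W.toSPre Ω).tr X ((a + b) * d) = 0 := by
        rw [hab]
        refine (W.trΩ_vec' Ω X l d).trans ?_
        refine baseChange_induction _ (p := fun d => LinearMap.liftBaseChange Ω l d = 0)
          ?_ ?_ ?_ ?_ hd
        · intro y hy
          rw [LinearMap.liftBaseChange_tmul, one_smul]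
          refine W.odK_induction X (p := fun y => l y = 0) ?_ (map_zero _) ?_ hy
          · intro i hi x hx
            refine hp i x hx ?_
            rw [← Nat.not_even_iff_odd, Nat.even_add]
            tauto
          · intro x y hx hy
            rw [map_add, hx, hy, add_zero]
        · exact map_zero _
        · intro x y hx hy
          rw [map_add, hx, hy, add_zero]
        · intro a x hx
          rw [map_smul, hx, smul_zero]
      rw [add_mul, map_add, h2, zero_add] at h3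
      rw [mul_add, map_add, h1, h3, add_zero]
    rw [← hab, h0, add_zero]
    exact ha
  · right
    have h0 : a = 0 := by
      refine (W.toSPre Ω).nondeg X a fun w => ?_
      obtain ⟨c, hc, d, hd, rfl⟩ := (W.toSPre Ω).exists_decomp X w
      have h1 : (W.toSPre Ω).tr X (b * c) = 0 :=
        (W.toSPre Ω).tr_od X _ ((W.toSPre Ω).od_mul_ev X b c hb hc)
      have h2 : (W.toSPre Ω).tr X (a * d) = 0 :=
        (W.toSPre Ω).tr_od X _ ((W.toSPre Ω).ev_mul_od X a d ha hd)
      have h3 : (W.toSPre Ω).tr X ((a + b) * c) = 0 := by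
        rw [hab]
        refine (W.trΩ_vec' Ω X l c).trans ?_
        refine baseChange_induction _ (p := fun d => LinearMap.liftBaseChange Ω l d = 0)
          ?_ ?_ ?_ ?_ hc
        · intro y hy
          rw [LinearMap.liftBaseChange_tmul, one_smul]
          refine W.evK_induction X (p := fun y => l y = 0) ?_ (map_zero _) ?_ hy
          · intro i hi x hx
            refine hp i x hx ?_
            rw [← Nat.not_even_iff_odd, Nat.even_add]
            tauto
          · intro x y hx hy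
            rw [map_add, hx, hy, add_zero]
        · exact map_zero _
        · intro x y hx hy
          rw [map_add, hx, hy, add_zero]
        · intro a x hx
          rw [map_smul, hx, smul_zero]
      rw [add_mul, map_add, h1, add_zero] at h3
      rw [mul_add, map_add, h2, h3, add_zero]
    rw [← hab, h0, zero_add]
    exact hb

lemma exists_of_mem_algForms {X : SmProjVar k} {n : ℕ} {F : (ℕ → W.H X) → Ω}
    (hF : F ∈ W.algForms Ω X n) : ∃ c ∈ W.algΩ Ω (X.selfProd n),
      ∀ y : ℕ → W.H X, F y = W.trΩ Ω (X.selfProd n) (c * (1 ⊗ₜ[K] W.extProd X n y)) := by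
  unfold CohomologyData.algForms at hF
  induction hF using Submodule.span_induction with
  | mem F hF =>
    obtain ⟨c, hc, h⟩ := hF
    refine ⟨1 ⊗ₜ[K] c, Submodule.tmul_mem_baseChange_of_mem 1 hc, fun y => ?_⟩
    rw [h, Algebra.TensorProduct.tmul_mul_tmul, trΩ_tmul, one_mul, Algebra.smul_def, mul_one]
    rfl
  | zero => exact ⟨0, Submodule.zero_mem _, fun y => by rw [zero_mul, map_zero]; rfl⟩
  | add F G _ _ hF hG =>
    obtain ⟨c, hc, h⟩ := hF
    obtain ⟨d, hd, h'⟩ := hG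
    exact ⟨c + d, Submodule.add_mem _ hc hd, fun y => by
      rw [Pi.add_apply, h, h', add_mul, map_add]⟩
  | smul a F _ hF =>
    obtain ⟨c, hc, h⟩ := hF
    exact ⟨a • c, Submodule.smul_mem _ _ hc, fun y => by
      rw [Pi.smul_apply, h, smul_mul_assoc, map_smul]⟩

lemma extPow_tmul (X : SmProjVar k) (n : ℕ) (y : ℕ → W.H X) :
    (W.toSPre Ω).extPow X n (fun j => ((1 : Ω) ⊗ₜ[K] y j : W.HΩ Ω X)) =
      ((1 : Ω) ⊗ₜ[K] W.extProd X n y : W.HΩ Ω (X.selfProd n)) := by
  induction n with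
  | zero => rfl
  | succ n ih =>
    change W.pullΩ Ω (fst (X.selfProd n) X) ((W.toSPre Ω).extPow X n
      (fun j => ((1 : Ω) ⊗ₜ[K] y j : W.HΩ Ω X))) *
      W.pullΩ Ω (snd (X.selfProd n) X) ((1 : Ω) ⊗ₜ[K] y (n + 1)) = _
    rw [ih, pullΩ_tmul, pullΩ_tmul, Algebra.TensorProduct.tmul_mul_tmul, mul_one]
    rfl

lemma extProd_congr (X : SmProjVar k) (n : ℕ) (y z : ℕ → W.H X) (h : ∀ j ≤ n, y j = z j) :
    W.extProd X n y = W.extProd X n z := by
  induction n with
  | zero => exact h 0 le_rfl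
  | succ n ih =>
    change W.pull (fst (X.selfProd n) X) (W.extProd X n y) *
      W.pull (snd (X.selfProd n) X) (y (n + 1)) =
      W.pull (fst (X.selfProd n) X) (W.extProd X n z) *
      W.pull (snd (X.selfProd n) X) (z (n + 1))
    rw [ih fun j hj => h j (by omega), h (n + 1) le_rfl]

lemma span_extProd (X : SmProjVar k) (n : ℕ) :
    Submodule.span Ω {z : W.HΩ Ω (X.selfProd n) | ∃ y : ℕ → W.H X,
      (∀ j, y j ∈ W.evK X ∨ y j ∈ W.odK X) ∧ z = 1 ⊗ₜ[K] W.extProd X n y} = ⊤ := by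
  have h0 : Submodule.span Ω {z : W.HΩ Ω X | ∃ y, (y ∈ W.evK X ∨ y ∈ W.odK X) ∧
      z = 1 ⊗ₜ[K] y} = ⊤ := by
    rw [eq_top_iff]
    intro x _
    refine baseChange_induction_top (p := fun x => x ∈ Submodule.span Ω
      {z : W.HΩ Ω X | ∃ y, (y ∈ W.evK X ∨ y ∈ W.odK X) ∧ z = 1 ⊗ₜ[K] y}) ?_ ?_ ?_ ?_ x
    · intro y
      have hy : y ∈ W.evK X ⊔ W.odK X := by rw [(W.isCompl X).sup_eq_top]; trivial
      obtain ⟨a, ha, b, hb, rfl⟩ := Submodule.mem_sup.mp hy
      rw [TensorProduct.tmul_add]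
      exact Submodule.add_mem _ (Submodule.subset_span ⟨a, .inl ha, rfl⟩)
        (Submodule.subset_span ⟨b, .inr hb, rfl⟩)
    · exact Submodule.zero_mem _
    · intro a b ha hb
      exact Submodule.add_mem _ ha hb
    · intro a b hb
      exact Submodule.smul_mem _ _ hb
  induction n with
  | zero =>
    rw [eq_top_iff]
    refine le_trans (le_of_eq h0.symm) (Submodule.span_mono ?_)
    rintro _ ⟨y, hy, rfl⟩
    exact ⟨fun _ => y, fun _ => hy, rfl⟩
  | succ n ih =>
    rw [eq_top_iff]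
    refine le_trans (le_of_eq
      ((W.toSPre Ω).span_ext_sets (X.selfProd n) X _ _ ih h0).symm) (Submodule.span_mono ?_)
    rintro _ ⟨_, ⟨y, hy, rfl⟩, _, ⟨x, hx, rfl⟩, rfl⟩
    refine ⟨fun j => if j ≤ n then y j else x, fun j => ?_, ?_⟩
    · dsimp only
      split_ifs
      · exact hy j
      · exact hx
    · change W.pullΩ Ω (fst (X.selfProd n) X) ((1 : Ω) ⊗ₜ[K] W.extProd X n y) *
        W.pullΩ Ω (snd (X.selfProd n) X) ((1 : Ω) ⊗ₜ[K] x) = (1 : Ω) ⊗ₜ[K]
          (W.pull (fst (X.selfProd n) X) (W.extProd X n (fun j => if j ≤ n then y j else x)) *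
          W.pull (snd (X.selfProd n) X) (if n + 1 ≤ n then y (n + 1) else x))
      rw [pullΩ_tmul, pullΩ_tmul, Algebra.TensorProduct.tmul_mul_tmul, mul_one,
        W.extProd_congr X n (fun j => if j ≤ n then y j else x) y (fun j hj => if_pos hj),
        if_neg (by omega)]
      rfl

/-- a linear form with an algebraic norm is represented by a vector with an algebraic norm -/
lemma normVec_of_normAlgebraic {X : SmProjVar k} {n : ℕ} {σ : ℕ → (Ω ≃ₐ[K] Ω)}
    {l : W.H X →ₗ[K] Ω} (hl : W.HasParity Ω X l) (h : W.NormAlgebraic Ω X n σ l) :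
    (W.toSPre Ω).extPow X n (fun j => W.sΩ (σ j) X (W.vec Ω X l)) ∈
      (W.toSPre Ω).alg (X.selfProd n) := by
  obtain ⟨c, hc, hF⟩ := W.exists_of_mem_algForms Ω h
  have hconj : ∀ (τ : Ω ≃ₐ[K] Ω) (y : W.H X),
      W.trΩ Ω X (W.sΩ τ X (W.vec Ω X l) * (1 ⊗ₜ[K] y)) = τ (l y) := by
    intro τ y
    have : ((1 : Ω) ⊗ₜ[K] y : W.HΩ Ω X) = W.sΩ τ X (1 ⊗ₜ[K] y) := by
      rw [sΩ_tmul, map_one]
    rw [this, ← map_mul (W.sΩ τ X), trΩ_sΩ, trΩ_vec]
  obtain ⟨E, hE⟩ : ∃ E : W.HΩ Ω (X.selfProd n),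
    E = (W.toSPre Ω).extPow X n (fun j => W.sΩ (σ j) X (W.vec Ω X l)) := ⟨_, rfl⟩
  rw [← hE]
  -- it suffices to show that the two classes agree up to sign
  have key : ∃ η : Ω, (η = 1 ∨ η = -1) ∧ ∀ y : ℕ → W.H X, (∀ j, y j ∈ W.evK X ∨ y j ∈ W.odK X) →
      W.trΩ Ω (X.selfProd n) (E * (1 ⊗ₜ[K] W.extProd X n y)) =
      η * ∏ j ∈ Finset.range (n + 1), σ j (l (y j)) := by
    rcases W.vec_hom Ω hl with hv | hv
    · refine ⟨1, .inl rfl, fun y _ => ?_⟩
      rw [one_mul, ← W.extPow_tmul Ω X n y, hE]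
      refine ((SPre.tr_extPow_mul (P := W.toSPre Ω) n _ _
        (fun j => (W.toSPre Ω).s_ev (σ j) X _ hv))).trans ?_
      exact Finset.prod_congr rfl fun j _ => hconj (σ j) (y j)
    · obtain ⟨η, hη, h'⟩ := SPre.exists_sign (P := W.toSPre Ω) X n
      refine ⟨η, hη, fun y hy => ?_⟩
      have hodd : ∀ j, W.sΩ (σ j) X (W.vec Ω X l) ∈ (W.toSPre Ω).od X :=
        fun j => (W.toSPre Ω).s_od (σ j) X _ hv
      have hy' : ∀ j, (W.toSPre Ω).Hom X ((1 : Ω) ⊗ₜ[K] y j : W.HΩ Ω X) := by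
        intro j
        rcases hy j with h1 | h1
        · exact .inl (Submodule.tmul_mem_baseChange_of_mem 1 h1)
        · exact .inr (Submodule.tmul_mem_baseChange_of_mem 1 h1)
      by_cases hall : ∀ j, j ≤ n → y j ∈ W.odK X
      · have h2 := h' (fun j => W.sΩ (σ j) X (W.vec Ω X l))
          (fun j => ((1 : Ω) ⊗ₜ[K] (if j ≤ n then y j else 0) : W.HΩ Ω X)) hodd ?_
        · rw [W.extPow_tmul Ω X n, W.extProd_congr X n (fun j => if j ≤ n then y j else 0) y
            (fun j hj => if_pos hj), ← hE] at h2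
          refine h2.trans ?_
          congr 1
          refine Finset.prod_congr rfl fun j hj => ?_
          rw [if_pos (by rw [Finset.mem_range] at hj; omega)]
          exact hconj (σ j) (y j)
        · intro j
          split_ifs with hj
          · exact Submodule.tmul_mem_baseChange_of_mem 1 (hall j hj)
          · rw [TensorProduct.tmul_zero]; exact Submodule.zero_mem _
      · push Not at hall
        obtain ⟨j, hj, hj'⟩ := hall
        have hje : y j ∈ W.evK X := (hy j).resolve_right hj'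
        have hz : σ j (l (y j)) = 0 := by
          rw [← hconj]
          exact (W.toSPre Ω).tr_od X _ ((W.toSPre Ω).od_mul_ev X _ _ (hodd j)
            (Submodule.tmul_mem_baseChange_of_mem 1 hje))
        have hprod : ∏ j ∈ Finset.range (n + 1), σ j (l (y j)) = 0 :=
          Finset.prod_eq_zero (Finset.mem_range.mpr (by omega)) hz
        rw [hprod, mul_zero, ← W.extPow_tmul Ω X n y, hE]
        have h3 : ∏ j ∈ Finset.range (n + 1), W.trΩ Ω X
            (W.sΩ (σ j) X (W.vec Ω X l) * ((1 : Ω) ⊗ₜ[K] y j)) = 0 := by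
          rw [← hprod]
          exact Finset.prod_congr rfl fun j _ => hconj (σ j) (y j)
        rcases SPre.tr_extPow_mul_pm (P := W.toSPre Ω) n
          (fun j => W.sΩ (σ j) X (W.vec Ω X l)) (fun j => (1 : Ω) ⊗ₜ[K] y j)
          (fun j => .inr (hodd j)) hy' with h4 | h4
        · exact h4.trans h3
        · exact h4.trans (neg_eq_zero.mpr h3)
  obtain ⟨η, hη, key⟩ := key
  have heq : E = η • c := by
    have h0 : ∀ x : W.HΩ Ω (X.selfProd n), W.trΩ Ω _ (E * x) = W.trΩ Ω _ ((η • c) * x) := by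
      intro x
      have hx : x ∈ Submodule.span Ω {z : W.HΩ Ω (X.selfProd n) | ∃ y : ℕ → W.H X,
        (∀ j, y j ∈ W.evK X ∨ y j ∈ W.odK X) ∧ z = 1 ⊗ₜ[K] W.extProd X n y} := by
        rw [W.span_extProd Ω X n]; trivial
      induction hx using Submodule.span_induction with
      | mem x hx =>
        obtain ⟨y, hy, rfl⟩ := hx
        rw [key y hy, smul_mul_assoc, map_smul, smul_eq_mul, ← hF y]
      | zero => rw [mul_zero, mul_zero]
      | add x y _ _ hx hy => rw [mul_add, mul_add, map_add, map_add, hx, hy]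
      | smul a x _ hx => rw [mul_smul_comm, mul_smul_comm, map_smul, map_smul, hx]
    exact SPre.eq_of_tr (P := W.toSPre Ω) h0
  rw [heq]
  exact Submodule.smul_mem _ _ hc

/-- for an algebraic extension `Ω` of `K`, every vector has finitely many conjugates -/
lemma exists_stabilizer [Algebra.IsAlgebraic K Ω] {X : SmProjVar k} (x : W.HΩ Ω X) :
    ∃ N₀ : Subgroup (Ω ≃ₐ[K] Ω), N₀.FiniteIndex ∧
      ∀ σ τ : Ω ≃ₐ[K] Ω, σ⁻¹ * τ ∈ N₀ → W.sΩ σ X x = W.sΩ τ X x := by
  induction x using TensorProduct.induction_on with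
  | zero => exact ⟨⊤, inferInstance, fun σ τ _ => by rw [map_zero, map_zero]⟩
  | tmul a y =>
    refine ⟨MulAction.stabilizer (Ω ≃ₐ[K] Ω) a, finiteIndex_stabilizer a
      (Algebra.IsIntegral.isIntegral a), fun σ τ h => ?_⟩
    rw [sΩ_tmul, sΩ_tmul]
    rw [MulAction.mem_stabilizer_iff, mul_smul, inv_smul_eq_iff] at h
    have h' : τ a = σ a := h
    rw [h']
  | add x y hx hy =>
    obtain ⟨N₁, h₁, h₁'⟩ := hx
    obtain ⟨N₂, h₂, h₂'⟩ := hy
    exact ⟨N₁ ⊓ N₂, inferInstance, fun σ τ h => by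
      rw [map_add, map_add, h₁' σ τ h.1, h₂' σ τ h.2]⟩

lemma normGood_of_normType [Algebra.IsAlgebraic K Ω] {X : SmProjVar k} (h : W.NormType Ω X) :
    (W.toSPre Ω).NormGood X := by
  have h1 := W.span_vec Ω X _ h
  unfold SPre.NormGood
  rw [eq_top_iff]
  refine le_trans (le_of_eq h1.symm) (Submodule.span_mono ?_)
  rintro _ ⟨l, ⟨hl, n, σ, hn⟩, rfl⟩
  refine ⟨⟨W.vec Ω X l, W.vec_hom Ω hl⟩, ?_, rfl⟩
  obtain ⟨N₀, hN₀, hst⟩ := W.exists_stabilizer Ω (W.vec Ω X l)
  exact SPre.Nice2.of_normVec (P := W.toSPre Ω) _ (fun σ τ => W.sΩ_mul Ω σ τ X _) N₀ hN₀ hst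
    ⟨n, σ, W.normVec_of_normAlgebraic Ω hl hn⟩

end WeilCohomology

end Pool.Agent.Helper10
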