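import Mathlib
import Pool.Agent.Helper10.NormProof

/-!
# The relative theorems
-/

universe u v w t

open CategoryTheory TensorProduct

namespace Pool.Agent.Helper10

open SmProjVar

namespace SPre

variable {k : Type u} [Field k] {K : Type t} [Field K] {Ω : Type v} [Field Ω] [Algebra K Ω]
  {P : SPre.{u, v, w, t} k K Ω}

variable (P) in
/-- the cohomology of `Y` is spanned by homogeneous vectors with an algebraic norm, for a given
family of automorphisms -/
def UNormGood (n : ℕ) (σ : ℕ → (Ω ≃ₐ[K] Ω)) (Y : SmProjVar k) : Prop :=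
  Submodule.span Ω (Subtype.val '' {e : P.homSub Y |
    ∀ (Z : SmProjVar k) (p : ℕ → (Z.toOver ⟶ Y.toOver)),
        ∏ j ∈ Finset.range (n + 1), P.cls Z (P.pullHom (p j) (P.sHom (σ j) Y e)) ∈ P.algQ Z} :
    Set (P.H Y)) = ⊤

lemma UNormGood.prod {n : ℕ} {σ : ℕ → (Ω ≃ₐ[K] Ω)} {X Y : SmProjVar k}
    (hX : P.UNormGood n σ X) (hY : P.UNormGood n σ Y) : P.UNormGood n σ (X.prod Y) := by
  unfold UNormGood
  rw [eq_top_iff, ← P.span_ext_sets X Y _ _ hX hY]
  refine Submodule.span_mono ?_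
  rintro _ ⟨_, ⟨x, hx, rfl⟩, _, ⟨y, hy, rfl⟩, rfl⟩
  refine ⟨P.extHom X Y x y, fun Z p => ?_, rfl⟩
  have h1 := hx Z (fun j => p j ≫ fst X Y)
  have h2 := hy Z (fun j => p j ≫ snd X Y)
  have h3 := (P.algQ Z).mul_mem h1 h2
  rw [← Finset.prod_mul_distrib] at h3
  convert h3 using 2 with j
  rw [← map_mul]
  congr 1
  refine Subtype.ext ?_
  rw [coe_pullHom, coe_sHom, Submonoid.coe_mul, coe_pullHom, coe_pullHom, coe_sHom, coe_sHom,
    coe_extHom, SPre.ext, map_mul (P.s _ _), P.s_pull, P.s_pull, map_mul (P.pull (p j)),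
    P.pull_comp, P.pull_comp]
  rfl

lemma UNormGood.d {n : ℕ} {σ : ℕ → (Ω ≃ₐ[K] Ω)} {Y : SmProjVar k} (h : P.UNormGood n σ Y) :
    P.D Y := by
  refine D.of_normVec _ h ?_
  rintro _ ⟨e, he, rfl⟩
  exact ⟨n, σ, (extPow_mem_iff (P := P) n (fun j => P.sHom (σ j) Y e)).mpr he⟩

lemma UNormGood.prod_d {n : ℕ} {σ : ℕ → (Ω ≃ₐ[K] Ω)} {X Y : SmProjVar k}
    (hX : P.D (X.selfProd n)) (h : P.UNormGood n σ Y) : P.D (X.prod Y) := by
  intro r hr
  refine eq_zero_of_contr h fun c hc => ?_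
  obtain ⟨e, he, rfl⟩ := hc
  exact contr_eq_zero n σ ((extPow_mem_iff (P := P) n (fun j => P.sHom (σ j) Y e)).mpr he) hX hr

end SPre

namespace WeilCohomology

variable {k : Type u} [Field k] {K : Type v} [Field K] [CharZero K]
  (W : WeilCohomology.{u, v, w} k K) (Ω : Type t) [Field Ω] [Algebra K Ω]

lemma normGood_of_selfDualType [IsAlgClosure K Ω] {X : SmProjVar k} (h : W.SelfDualType Ω X) :
    (W.toSPre Ω).NormGood X := by
  have h1 : IsAlgClosed Ω := IsAlgClosure.isAlgClosed K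
  have h2 : Algebra.IsAlgebraic K Ω := IsAlgClosure.isAlgebraic
  rcases h with h | h | h
  · exact W.normGood_of_normType Ω h
  · obtain ⟨m, T, adj, h⟩ := W.specData Ω h
    exact h.good.normGood
  · exact (W.tateType_good Ω h).normGood

lemma normGood_of_productsOf [IsAlgClosure K Ω] {X : SmProjVar k}
    (h : ProductsOf (W.SelfDualType Ω) X) : (W.toSPre Ω).NormGood X := by
  induction h with
  | of h => exact W.normGood_of_selfDualType Ω h
  | prod _ _ h h' => exact h.prod h'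

/-- **Relative theorem** -/
theorem standardD_of_relativeType [IsAlgClosure K Ω] (Y : SmProjVar k)
    (hY : W.SummandOf (W.RelativeType Ω) Y) : W.StandardD Y := by
  refine W.standardD_of_summandOf_aux Ω Y (fun V hV => ?_) hY
  obtain ⟨P, hP, rfl | ⟨X, hX, rfl⟩⟩ := hV
  · exact (W.normGood_of_productsOf Ω hP).d
  · exact (W.normGood_of_productsOf Ω hP).prod_d fun n => W.d_of_standardD Ω (hX n)

lemma uNormGood_of_uniformNormType {n : ℕ} {σ : ℕ → (Ω ≃ₐ[K] Ω)} {X : SmProjVar k}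
    (h : W.UniformNormType Ω n σ X) : (W.toSPre Ω).UNormGood n σ X := by
  have h1 := W.span_vec Ω X _ h
  unfold SPre.UNormGood
  rw [eq_top_iff]
  refine le_trans (le_of_eq h1.symm) (Submodule.span_mono ?_)
  rintro _ ⟨l, ⟨hl, hn⟩, rfl⟩
  exact ⟨⟨W.vec Ω X l, W.vec_hom Ω hl⟩, (SPre.extPow_mem_iff (P := W.toSPre Ω) n
    (fun j => (W.toSPre Ω).sHom (σ j) X ⟨W.vec Ω X l, W.vec_hom Ω hl⟩)).mp
    (W.normVec_of_normAlgebraic Ω hl hn), rfl⟩

lemma uNormGood_of_productsOf {n : ℕ} {σ : ℕ → (Ω ≃ₐ[K] Ω)} {X : SmProjVar k}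
    (h : ProductsOf (W.UniformNormType Ω n σ) X) : (W.toSPre Ω).UNormGood n σ X := by
  induction h with
  | of h => exact W.uNormGood_of_uniformNormType Ω h
  | prod _ _ h h' => exact h.prod h'

/-- **Relative theorem**, uniform version -/
theorem standardD_of_uniformRelativeType (n : ℕ) (σ : ℕ → (Ω ≃ₐ[K] Ω)) (Y : SmProjVar k)
    (hY : W.SummandOf (W.UniformRelativeType Ω n σ) Y) : W.StandardD Y := by
  refine W.standardD_of_summandOf_aux Ω Y (fun V hV => ?_) hY
  obtain ⟨P, hP, rfl | ⟨X, hX, rfl⟩⟩ := hV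
  · exact (W.uNormGood_of_productsOf Ω hP).d
  · exact (W.uNormGood_of_productsOf Ω hP).prod_d (W.d_of_standardD Ω hX)

end WeilCohomology

end Pool.Agent.Helper10
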