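import Mathlib
import Pool.Agent.Helper10.NormTypes
import Pool.Agent.Helper10.BaseChange
import Pool.Agent.Helper10.RowDet

/-!
# Varieties whose cohomology is generated by irreducible families of classes
-/

universe u v w t

open CategoryTheory TensorProduct

namespace Pool.Agent.Helper10

open SmProjVar

section Algebra

variable {K : Type v} [Field K] {Ω : Type t} [Field Ω] [Algebra K Ω]
  {A : Type w} [Ring A] [Algebra K A] {E : Type w} [Ring E] [Algebra Ω E]

/-- `g` is an automorphism of the `Ω`-algebra `E`. -/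
structure IsAlgAut (Ω : Type t) [Field Ω] {E : Type w} [Ring E] [Algebra Ω E] (g : E → E) :
    Prop where
  bijective : Function.Bijective g
  map_add : ∀ x y, g (x + y) = g x + g y
  map_smul : ∀ (a : Ω) (x : E), g (a • x) = a • g x
  map_one : g 1 = 1
  map_mul : ∀ x y, g (x * y) = g x * g y

/-- `x` is in the `Ω`-linear span of the subspace `S` of `A`. -/
def InExtension (S : Submodule K A) (x : Ω ⊗[K] A) : Prop := x ∈ S.baseChange Ω

/-- The part of even degree (for `p` even) or of odd degree (for `p` odd) of a graded space. -/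
def parityPart (gr : ℕ → Submodule K A) (p : ℕ) : Submodule K A := ⨆ i ∈ {i | Even (i + p)}, gr i

/-- The action of an automorphism of `Ω` over `K` on `Ω ⊗ A`. -/
noncomputable def conjT (σ : Ω ≃ₐ[K] Ω) (x : Ω ⊗[K] A) : Ω ⊗[K] A :=
  σ.toLinearMap.rTensor A x

/-- The map `g` acts on the family `e_0, …, e_{n-1}` by the matrix `ρ`. -/
def ActsBy {n : ℕ} (g : E → E) (ρ : Matrix (Fin n) (Fin n) Ω) (e : Fin n → E) : Prop :=
  ∀ b, g (e b) = ∑ a, ρ a b • e a

/-- The element `∑ B_{ab} x_a y_b`. -/
def bilinear {n : ℕ} (B : Matrix (Fin n) (Fin n) Ω) (x y : Fin n → E) : E :=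
  ∑ a, ∑ b, B a b • (x a * y b)

/-- The product `x_0 ⋯ x_{m-1}`, in this order. -/
def ordProd {m : ℕ} (x : Fin m → E) : E := (List.ofFn x).prod

/-- The `Ω`-algebra `E` is generated by the set `S`. -/
def Generates (Ω : Type t) [Field Ω] {E : Type w} [Ring E] [Algebra Ω E] (S : Set E) : Prop :=
  Algebra.adjoin Ω S = ⊤

end Algebra

namespace CohomologyData

variable {k : Type u} [Field k] {K : Type v} [Field K] (W : CohomologyData.{u, v, w} k K)

/-- `Y` is dominated by varieties in the class `C`: every element of `H(Y)` is a sum of images of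
elements of `H(X i)` under finitely many maps `H(X i) → H(Y)` induced by algebraic correspondences,
where the varieties `X i` are in the class `C`. (This holds for instance if the motive of `Y` is a
direct summand of the direct sum of the motives of the `X i`.) -/
def DominatedBy (C : SmProjVar k → Prop) (Y : SmProjVar k) : Prop :=
  ∃ (n : ℕ) (X : Fin n → SmProjVar k) (g : ∀ i, W.H (X i) → W.H Y),
    (∀ i, C (X i)) ∧ (∀ i, W.IsAlgebraicMap (X i) Y (g i)) ∧
      ∀ y, ∃ x : ∀ i, W.H (X i), ∑ i, g i (x i) = y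

end CohomologyData

namespace WeilCohomology

variable {k : Type u} [Field k] {K : Type v} [Field K] [CharZero K]
  (W : WeilCohomology.{u, v, w} k K) (Ω : Type t) [Field Ω] [Algebra K Ω]

/-- The pull-back `f^* : Ω ⊗ H(Y) → Ω ⊗ H(X)`. -/
noncomputable def pullT {X Y : SmProjVar k} (f : X.toOver ⟶ Y.toOver) (y : W.HΩ Ω Y) :
    W.HΩ Ω X := W.pullΩ Ω f y

/-- The trace map `Ω ⊗ H(X) → Ω`. -/
noncomputable def trT (X : SmProjVar k) (x : W.HΩ Ω X) : Ω := W.trΩ Ω X x

/-- `x` is an `Ω`-linear combination of classes of algebraic cycles. -/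
def IsAlg (X : SmProjVar k) (x : W.HΩ Ω X) : Prop := InExtension (W.algClasses X) x

/-- A symmetry with multiplier `χ` of the Weil cohomology theory `W`, with coefficients extended to
`Ω`: a family of automorphisms `g_X` of the `Ω`-algebras `Ω ⊗ H(X)`, compatible with pull-backs,
such that `g_X` multiplies the classes of algebraic cycles of codimension `j` by `χ ^ j`, and the
trace by `χ ^ dim X`. (Example: the action of an automorphism of an algebraic closure of `k` over
`k` on `ℓ`-adic cohomology, with `χ` given by the cyclotomic character.) -/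
structure IsSymmetry (g : ∀ X : SmProjVar k, W.HΩ Ω X → W.HΩ Ω X) (χ : Ω) : Prop where
  aut : ∀ X, IsAlgAut Ω (g X)
  pull : ∀ {X Y : SmProjVar k} (f : X.toOver ⟶ Y.toOver) (y : W.HΩ Ω Y),
    g X (W.pullT Ω f y) = W.pullT Ω f (g Y y)
  ne_zero : χ ≠ 0
  cycle : ∀ (X : SmProjVar k) (j : ℕ) (c : X.Z j),
    g X ((1 : Ω) ⊗ₜ[K] W.cy X j c) = (χ ^ j) ⊗ₜ[K] W.cy X j c
  trace : ∀ (X : SmProjVar k) (x : W.HΩ Ω X), W.trT Ω X (g X x) = χ ^ X.dim * W.trT Ω X x

/-- The group of symmetries of `W` over `Ω` (families of automorphisms, with all multipliers). -/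
def symmetries : Set (∀ X : SmProjVar k, W.HΩ Ω X → W.HΩ Ω X) :=
  {g | ∃ χ, W.IsSymmetry Ω g χ}

/-- The family `e_0, …, e_{n-1}` of elements of `Ω ⊗ H(V)` consists of elements of even degree, or
of elements of odd degree. -/
def ParityFamily (V : SmProjVar k) {n : ℕ} (e : Fin n → W.HΩ Ω V) : Prop :=
  ∃ p, ∀ b, InExtension (parityPart (W.gr V) p) (e b)

/-- The family `e_0, …, e_{n-1}` of elements of `Ω ⊗ H(V)` is absolutely irreducible under the set
`G` of symmetries: the symmetries `g` in `G` act on it by invertible matrices `ρ(g)`, which span the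
space of all `n × n`-matrices over `Ω`. -/
def IrreducibleFamily (G : Set (∀ X : SmProjVar k, W.HΩ Ω X → W.HΩ Ω X)) (V : SmProjVar k) {n : ℕ}
    (e : Fin n → W.HΩ Ω V) : Prop :=
  ∃ ρ : (∀ X : SmProjVar k, W.HΩ Ω X → W.HΩ Ω X) → Matrix (Fin n) (Fin n) Ω,
    (∀ g ∈ G, (ρ g).det ≠ 0 ∧ ActsBy (g V) (ρ g) e) ∧ Submodule.span Ω (ρ '' G) = ⊤

/-- The family `e_0, …, e_{n-1}` in `Ω ⊗ H(V)` is dual to one of its conjugates by an algebraic
correspondence: for some automorphism `σ` of `Ω` over `K` and some invertible matrix `B`, the class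
`∑ B_{ab} e_a × σ(e_b)` on `V × V` is a linear combination of classes of algebraic cycles. -/
def DualToConjugate (V : SmProjVar k) {n : ℕ} (e : Fin n → W.HΩ Ω V) : Prop :=
  ∃ (σ : Ω ≃ₐ[K] Ω) (B : Matrix (Fin n) (Fin n) Ω), B.det ≠ 0 ∧
    W.IsAlg Ω (V.prod V) (bilinear B (fun a => W.pullT Ω (fst V V) (e a))
      fun b => W.pullT Ω (snd V V) (conjT σ (e b)))

/-- Some product of conjugates of the determinant `∑_π sgn(π) e_{π 0} × ⋯ × e_{π (n-1)}` on `V ^ n`
is algebraic: there are automorphisms `σ_0, …, σ_N` of `Ω` over `K` such that for all varieties `Z`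
and all morphisms `p_{ji} : Z → V` (`j ≤ N`, `i < n`), the class
`∏_j ∑_π sgn(π) ∏_i p_{ji}^* σ_j(e_{π i})` on `Z` is a linear combination of classes of algebraic
cycles. -/
def DetNormAlgebraic (V : SmProjVar k) {n : ℕ} (e : Fin n → W.HΩ Ω V) : Prop :=
  ∃ (N : ℕ) (σ : Fin (N + 1) → (Ω ≃ₐ[K] Ω)),
    ∀ (Z : SmProjVar k) (p : Fin (N + 1) → Fin n → (Z.toOver ⟶ V.toOver)),
      W.IsAlg Ω Z (ordProd fun j => rowDet fun i b => W.pullT Ω (p j i) (conjT (σ j) (e b)))

/-- For a set `G` of symmetries: the `Ω`-algebra `Ω ⊗ H(P)` is generated by the pull-backs, under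
morphisms `P → V` to arbitrary varieties, of the members of families in `Ω ⊗ H(V)` of even or odd
classes, which are absolutely irreducible under `G`, and dual to one of their conjugates by an
algebraic correspondence (or, more generally, some product of conjugates of the determinant of the
family is algebraic). -/
def StablyGenerated (G : Set (∀ X : SmProjVar k, W.HΩ Ω X → W.HΩ Ω X)) (P : SmProjVar k) : Prop :=
  Generates Ω {y : W.HΩ Ω P | ∃ (V : SmProjVar k) (f : P.toOver ⟶ V.toOver) (n : ℕ)
    (e : Fin n → W.HΩ Ω V) (b : Fin n), W.ParityFamily Ω V e ∧ W.IrreducibleFamily Ω G V e ∧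
      (W.DualToConjugate Ω V e ∨ W.DetNormAlgebraic Ω V e) ∧ y = W.pullT Ω f (e b)}

/-- `V` is a finite product of varieties which are stably generated (for some set of symmetries) or
of Tate type, or the product of such a product and a variety all of whose powers satisfy the
standard conjecture D. -/
def StableType (V : SmProjVar k) : Prop :=
  ∃ P, ProductsOf (fun P => (∃ G ⊆ W.symmetries Ω, W.StablyGenerated Ω G P) ∨
      W.TateType Ω P) P ∧
    (V = P ∨ ∃ X : SmProjVar k, (∀ n, W.StandardD (X.selfProd n)) ∧ V = X.prod P)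

end WeilCohomology

end Pool.Agent.Helper10
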