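import Mathlib
import Pool.Agent.Helper10.StableTypes
import Pool.Agent.Helper10.Relative
import Pool.Agent.Helper10.Fam
import Pool.Agent.Helper11.RowDetDual
import Pool.Agent.Helper11.Point

/-!
# The relative theorem for varieties generated by irreducible families
-/

universe u v w t

open CategoryTheory TensorProduct

namespace Pool.Agent.Helper10

open SmProjVar

/-- ring homomorphisms commute with `rowDet` -/
lemma map_rowDet {A B F : Type*} [Ring A] [Ring B] [FunLike F A B] [RingHomClass F A B] (f : F)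
    {n : ℕ} (x : Fin n → Fin n → A) : f (rowDet x) = rowDet fun i b => f (x i b) := by
  unfold rowDet
  rw [map_sum]
  refine Finset.sum_congr rfl fun π _ => ?_
  rw [map_zsmul, map_list_prod, List.map_ofFn]
  rfl

namespace SPre

variable {k : Type u} [Field k] {K : Type t} [Field K] {Ω : Type v} [Field Ω] [Algebra K Ω]
  {P : SPre.{u, v, w, t} k K Ω}

lemma ofFn_ev {Z : SmProjVar k} {n : ℕ} (x : Fin n → P.H Z) (h : ∀ i, x i ∈ P.ev Z) :
    (List.ofFn x).prod ∈ P.ev Z := by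
  induction n with
  | zero => rw [List.ofFn_zero, List.prod_nil]; exact P.alg_le_ev Z (P.one_mem Z)
  | succ n ih =>
    rw [List.ofFn_succ, List.prod_cons]
    exact P.ev_mul_ev Z _ _ (h 0) (ih _ fun i => h i.succ)

lemma ofFn_od {Z : SmProjVar k} {n : ℕ} (x : Fin n → P.H Z) (h : ∀ i, x i ∈ P.od Z) :
    (Even n → (List.ofFn x).prod ∈ P.ev Z) ∧ (¬ Even n → (List.ofFn x).prod ∈ P.od Z) := by
  induction n with
  | zero =>
    rw [List.ofFn_zero, List.prod_nil]
    exact ⟨fun _ => P.alg_le_ev Z (P.one_mem Z), fun h => absurd Even.zero h⟩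
  | succ n ih =>
    rw [List.ofFn_succ, List.prod_cons]
    have h1 := ih (fun i => x i.succ) fun i => h i.succ
    constructor
    · intro hn
      exact P.od_mul_od Z _ _ (h 0) (h1.2 fun h2 => (Nat.even_add_one.mp hn) h2)
    · intro hn
      rw [Nat.even_add_one, not_not] at hn
      exact P.od_mul_ev Z _ _ (h 0) (h1.1 hn)

/-- the determinant of a homogeneous family is homogeneous -/
lemma rowDet_hom {Z : SmProjVar k} {n : ℕ} (x : Fin n → Fin n → P.H Z)
    (h : (∀ i b, x i b ∈ P.ev Z) ∨ ∀ i b, x i b ∈ P.od Z) : rowDet x ∈ P.homSub Z := by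
  unfold rowDet
  rcases h with h | h
  · refine Or.inl ?_
    exact (P.ev Z).sum_mem fun π _ => zsmul_mem (ofFn_ev _ fun i => h i (π i)) _
  · by_cases hn : Even n
    · refine Or.inl ?_
      exact (P.ev Z).sum_mem fun π _ => zsmul_mem ((ofFn_od _ fun i => h i (π i)).1 hn) _
    · refine Or.inr ?_
      exact (P.od Z).sum_mem fun π _ => zsmul_mem ((ofFn_od _ fun i => h i (π i)).2 hn) _

end SPre

namespace SPre

variable {k : Type u} [Field k] {K : Type t} [Field K] {Ω : Type v} [Field Ω] [Algebra K Ω]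
  {P : SPre.{u, v, w, t} k K Ω}

lemma tr_dominated {X Y : SmProjVar k} (hX : P.D X) {c : P.H (X.prod Y)}
    (hc : c ∈ P.alg (X.prod Y)) {r : P.H Y} (hr : P.rad Y r) (x : P.H X) :
    P.tr (X.prod Y) (P.pull (fst X Y) x * c * P.pull (snd X Y) r) = 0 := by
  have h1 : P.rad (X.prod Y) (P.pull (snd X Y) r * c) := rad_mul (rad_pull _ hr) hc
  have h2 := hX _ (pushF_rad (fst X Y) h1)
  have h3 : P.pull (fst X Y) x * c * P.pull (snd X Y) r =
      P.pull (snd X Y) r * c * P.pull (fst X Y) x := by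
    rw [P.ev_comm _ _ _ (P.alg_le_ev _ h1.1), mul_assoc,
      P.ev_comm _ _ _ (P.alg_le_ev _ hc)]
  rw [h3, ← tr_pushF, h2, zero_mul, map_zero]

end SPre

namespace WeilCohomology

variable {k : Type u} [Field k] {K : Type v} [Field K] [CharZero K]
  (W : WeilCohomology.{u, v, w} k K) (Ω : Type t) [Field Ω] [Algebra K Ω]

lemma map_algΩ {g : ∀ X : SmProjVar k, W.HΩ Ω X → W.HΩ Ω X} {χ : Ω} (hg : W.IsSymmetry Ω g χ)
    (X : SmProjVar k) {x : W.HΩ Ω X} (hx : x ∈ W.algΩ Ω X) : g X x ∈ W.algΩ Ω X := by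
  have h0 : g X 0 = 0 := by
    have := (hg.aut X).map_smul 0 0
    rwa [zero_smul, zero_smul] at this
  refine baseChange_induction _ (p := fun x => g X x ∈ W.algΩ Ω X) ?_ ?_ ?_ ?_ hx
  · intro y hy
    unfold CohomologyData.algClasses at hy
    induction hy using Submodule.span_induction with
    | mem y hy =>
      obtain ⟨j, c, rfl⟩ := hy
      rw [hg.cycle]
      exact Submodule.tmul_mem_baseChange_of_mem _ (W.cy_mem_algClasses X j c)
    | zero => rw [TensorProduct.tmul_zero, h0]; exact Submodule.zero_mem _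
    | add a b _ _ ha hb =>
      rw [TensorProduct.tmul_add, (hg.aut X).map_add]; exact Submodule.add_mem _ ha hb
    | smul a b _ hb =>
      have : (1 : Ω) ⊗ₜ[K] (a • b) = algebraMap K Ω a • ((1 : Ω) ⊗ₜ[K] b) := by
        rw [TensorProduct.tmul_smul, algebraMap_smul]
      rw [this, (hg.aut X).map_smul]
      exact Submodule.smul_mem _ _ hb
  · rw [h0]; exact Submodule.zero_mem _
  · intro a b ha hb
    rw [(hg.aut X).map_add]; exact Submodule.add_mem _ ha hb
  · intro a x hx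
    rw [(hg.aut X).map_smul]; exact Submodule.smul_mem _ _ hx

/-- the algebra automorphisms of a symmetry -/
noncomputable def symEquiv {g : ∀ X : SmProjVar k, W.HΩ Ω X → W.HΩ Ω X} {χ : Ω}
    (hg : W.IsSymmetry Ω g χ) (X : SmProjVar k) : W.HΩ Ω X ≃ₐ[Ω] W.HΩ Ω X :=
  AlgEquiv.ofBijective
    ({ toFun := g X
       map_one' := (hg.aut X).map_one
       map_mul' := (hg.aut X).map_mul
       map_zero' := by
        have := (hg.aut X).map_smul 0 0
        rwa [zero_smul, zero_smul] at this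
       map_add' := (hg.aut X).map_add
       commutes' := fun a => by
        rw [Algebra.algebraMap_eq_smul_one, (hg.aut X).map_smul, (hg.aut X).map_one] } :
      W.HΩ Ω X →ₐ[Ω] W.HΩ Ω X) (hg.aut X).bijective

lemma map_algΩ_iff {g : ∀ X : SmProjVar k, W.HΩ Ω X → W.HΩ Ω X} {χ : Ω}
    (hg : W.IsSymmetry Ω g χ) (X : SmProjVar k) (x : W.HΩ Ω X) :
    W.symEquiv Ω hg X x ∈ W.algΩ Ω X ↔ x ∈ W.algΩ Ω X := by
  refine ⟨fun h => ?_, fun h => W.map_algΩ Ω hg X h⟩
  have hfin : Module.Finite K (W.H X) := (W.graded X).finite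
  let f : W.algΩ Ω X →ₗ[Ω] W.algΩ Ω X :=
    (W.symEquiv Ω hg X).toLinearMap.restrict fun x hx => W.map_algΩ Ω hg X hx
  have hinj : Function.Injective f := by
    intro a b hab
    exact Subtype.ext ((W.symEquiv Ω hg X).injective (congrArg Subtype.val hab))
  obtain ⟨y, hy⟩ := (LinearMap.injective_iff_surjective.mp hinj) ⟨_, h⟩
  have h1 : W.symEquiv Ω hg X y = W.symEquiv Ω hg X x := congrArg Subtype.val hy
  rw [← (W.symEquiv Ω hg X).injective h1]
  exact y.2

/-- symmetries in the auxiliary setting -/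
noncomputable def symSPre {g : ∀ X : SmProjVar k, W.HΩ Ω X → W.HΩ Ω X} {χ : Ω}
    (hg : W.IsSymmetry Ω g χ) : (W.toSPre Ω).Sym where
  g X := W.symEquiv Ω hg X
  pull f x := hg.pull f x
  alg X x := W.map_algΩ_iff Ω hg X x
  tr X := ⟨χ ^ X.dim, pow_ne_zero _ hg.ne_zero, fun x => hg.trace X x⟩

lemma conjT_eq (σ : Ω ≃ₐ[K] Ω) (X : SmProjVar k) (x : W.HΩ Ω X) :
    conjT σ x = W.sΩ σ X x := by
  unfold conjT
  induction x using TensorProduct.induction_on with
  | zero => rw [map_zero, map_zero]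
  | tmul a y => rw [sΩ_tmul, LinearMap.rTensor_tmul]; rfl
  | add x y hx hy => rw [map_add, map_add, hx, hy]

/-- the parity of a family in the auxiliary setting -/
lemma parity_of_parityFamily {V : SmProjVar k} {n : ℕ} {e : Fin n → W.HΩ Ω V}
    (hp : W.ParityFamily Ω V e) :
    (∀ b, e b ∈ (W.toSPre Ω).ev V) ∨ ∀ b, e b ∈ (W.toSPre Ω).od V := by
  obtain ⟨p, hp⟩ := hp
  have key : ∀ S : Submodule K (W.H V), parityPart (W.gr V) p ≤ S → ∀ b, e b ∈ S.baseChange Ω := by
    intro S hS b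
    refine baseChange_induction _ (p := fun x => x ∈ S.baseChange Ω) ?_ ?_ ?_ ?_ (hp b)
    · intro y hy
      exact Submodule.tmul_mem_baseChange_of_mem 1 (hS hy)
    · exact Submodule.zero_mem _
    · intro a b ha hb
      exact Submodule.add_mem _ ha hb
    · intro a x hx
      exact Submodule.smul_mem _ _ hx
  by_cases h : Even p
  · refine .inl (key (W.evK V) (iSup₂_le fun i hi => W.gr_le_evK V ?_))
    have h1 : Even (i + p) := hi
    exact (Nat.even_add.mp h1).mpr h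
  · refine .inr (key (W.odK V) (iSup₂_le fun i hi => W.gr_le_odK V fun h2 => h ?_))
    have h1 : Even (i + p) := hi
    exact (Nat.even_add.mp h1).mp h2

lemma sΩ_one (X : SmProjVar k) (x : W.HΩ Ω X) : W.sΩ (1 : Ω ≃ₐ[K] Ω) X x = x := by
  induction x using TensorProduct.induction_on with
  | zero => rw [map_zero]
  | tmul a y => rw [sΩ_tmul]; rfl
  | add x y hx hy => rw [map_add, hx, hy]

lemma detNormAlgebraic_of_dual {V : SmProjVar k} {n : ℕ} {e : Fin n → W.HΩ Ω V}
    (hp : W.ParityFamily Ω V e) (h : W.DualToConjugate Ω V e) : W.DetNormAlgebraic Ω V e := by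
  replace hp := W.parity_of_parityFamily Ω hp
  obtain ⟨σ, B, hB, h⟩ := h
  unfold IsAlg InExtension bilinear pullT at h
  simp only [conjT_eq] at h
  have hΩ : CharZero Ω := charZero_of_injective_algebraMap (algebraMap K Ω).injective
  refine ⟨1, fun j => if j = 0 then 1 else σ, fun Z p => ?_⟩
  unfold IsAlg InExtension ordProd pullT
  simp only [conjT_eq]
  rw [List.ofFn_succ, List.ofFn_succ, List.ofFn_zero, List.prod_cons, List.prod_cons,
    List.prod_nil, mul_one]
  have h01 : (Fin.succ (0 : Fin 1)) ≠ 0 := Fin.succ_ne_zero 0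
  rw [if_pos rfl, if_neg h01]
  set x : Fin n → Fin n → W.HΩ Ω Z := fun i b => W.pullΩ Ω (p 0 i) (W.sΩ 1 V (e b)) with hx
  set y : Fin n → Fin n → W.HΩ Ω Z := fun i b =>
    W.pullΩ Ω (p (Fin.succ 0) i) (W.sΩ σ V (e b)) with hy
  have hpar : ∃ ε : Ω, (ε = 1 ∨ ε = -1) ∧
      (∀ i a j b, x i a * x j b = ε • (x j b * x i a)) ∧
      (∀ i a j b, x i a * y j b = ε • (y j b * x i a)) ∧
      (∀ i a j b, y i a * y j b = ε • (y j b * y i a)) := by
    rcases hp with hp | hp
    · have hx' : ∀ i b, x i b ∈ (W.toSPre Ω).ev Z := fun i b =>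
        (W.toSPre Ω).pull_ev (p 0 i) _ ((W.toSPre Ω).s_ev 1 V _ (hp b))
      have hy' : ∀ i b, y i b ∈ (W.toSPre Ω).ev Z := fun i b =>
        (W.toSPre Ω).pull_ev (p (Fin.succ 0) i) _ ((W.toSPre Ω).s_ev σ V _ (hp b))
      refine ⟨1, .inl rfl, fun i a j b => ?_, fun i a j b => ?_, fun i a j b => ?_⟩
      · rw [one_smul]; exact (W.toSPre Ω).ev_comm Z _ _ (hx' i a)
      · rw [one_smul]; exact (W.toSPre Ω).ev_comm Z _ _ (hx' i a)
      · rw [one_smul]; exact (W.toSPre Ω).ev_comm Z _ _ (hy' i a)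
    · have hx' : ∀ i b, x i b ∈ (W.toSPre Ω).od Z := fun i b =>
        (W.toSPre Ω).pull_od (p 0 i) _ ((W.toSPre Ω).s_od 1 V _ (hp b))
      have hy' : ∀ i b, y i b ∈ (W.toSPre Ω).od Z := fun i b =>
        (W.toSPre Ω).pull_od (p (Fin.succ 0) i) _ ((W.toSPre Ω).s_od σ V _ (hp b))
      refine ⟨-1, .inr rfl, fun i a j b => ?_, fun i a j b => ?_, fun i a j b => ?_⟩
      · rw [neg_one_smul]; exact (W.toSPre Ω).od_anti Z _ _ (hx' i a) (hx' j b)
      · rw [neg_one_smul]; exact (W.toSPre Ω).od_anti Z _ _ (hx' i a) (hy' j b)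
      · rw [neg_one_smul]; exact (W.toSPre Ω).od_anti Z _ _ (hy' i a) (hy' j b)
  obtain ⟨ε, hε, hxx, hxy, hyy⟩ := hpar
  have h1 := Helper11.RowDetDual.det_smul_mem (W.algΩ Ω Z) ((W.toSPre Ω).one_mem Z)
    (fun a ha b hb => (W.toSPre Ω).mul_mem Z a b ha hb) x y ε hε hxx hxy hyy B (by
      intro i j
      have h2 := (W.toSPre Ω).pull_mem (lift (p 0 i) (p (Fin.succ 0) j)) _ h
      have h3 : W.pullΩ Ω (lift (p 0 i) (p (Fin.succ 0) j)) (∑ a, ∑ b, B a b •
          (W.pullΩ Ω (fst V V) (e a) * W.pullΩ Ω (snd V V) (W.sΩ σ V (e b)))) =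
          ∑ a, ∑ b, B a b • (x i a * y j b) := by
        rw [map_sum]
        refine Finset.sum_congr rfl fun a _ => ?_
        rw [map_sum]
        refine Finset.sum_congr rfl fun b _ => ?_
        rw [map_smul, map_mul]
        have h4 : W.pullΩ Ω (lift (p 0 i) (p (Fin.succ 0) j)) (W.pullΩ Ω (fst V V) (e a)) =
            W.pullΩ Ω (p 0 i) (e a) := by
          have h5 := SPre.pull_pull (P := W.toSPre Ω) (lift (p 0 i) (p (Fin.succ 0) j))
            (fst V V) (e a)
          rw [lift_fst] at h5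
          exact h5
        have h5 : W.pullΩ Ω (lift (p 0 i) (p (Fin.succ 0) j)) (W.pullΩ Ω (snd V V)
            (W.sΩ σ V (e b))) = W.pullΩ Ω (p (Fin.succ 0) j) (W.sΩ σ V (e b)) := by
          have h6 := SPre.pull_pull (P := W.toSPre Ω) (lift (p 0 i) (p (Fin.succ 0) j))
            (snd V V) (W.sΩ σ V (e b))
          rw [lift_snd] at h6
          exact h6
        have h7 : x i a = W.pullΩ Ω (p 0 i) (e a) :=
          congrArg (W.pullΩ Ω (p 0 i)) (W.sΩ_one Ω V (e a))
        rw [h4, h5, h7]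
      rw [← h3]
      exact h2)
  exact (Submodule.smul_mem_iff _ hB).mp h1

lemma nice_of_detNormAlgebraic [Algebra.IsAlgebraic K Ω] {V : SmProjVar k} {n : ℕ}
    {e : Fin n → W.HΩ Ω V} (hp : W.ParityFamily Ω V e) (h : W.DetNormAlgebraic Ω V e)
    (Z : SmProjVar k) (p : Fin n → (Z.toOver ⟶ V.toOver)) :
    (W.toSPre Ω).NiceX Z (rowDet fun i b => (W.toSPre Ω).pull (p i) (e b)) := by
  replace hp := W.parity_of_parityFamily Ω hp
  obtain ⟨N, σ, h⟩ := h
  unfold IsAlg InExtension ordProd pullT at h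
  simp only [conjT_eq] at h
  have hhom : (rowDet fun i b => (W.toSPre Ω).pull (p i) (e b)) ∈ (W.toSPre Ω).homSub Z := by
    refine SPre.rowDet_hom _ ?_
    rcases hp with hp | hp
    · exact .inl fun i b => (W.toSPre Ω).pull_ev _ _ (hp b)
    · exact .inr fun i b => (W.toSPre Ω).pull_od _ _ (hp b)
  obtain ⟨N₀, hN₀, hst⟩ := W.exists_stabilizer Ω (X := Z)
    (rowDet fun i b => W.pullΩ Ω (p i) (e b))
  refine ⟨hhom, SPre.Nice2.of_normVec (P := W.toSPre Ω) _ (fun σ τ => W.sΩ_mul Ω σ τ Z _) N₀ hN₀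
    hst ⟨N, fun j => σ (Fin.ofNat (N + 1) j), ?_⟩⟩
  rw [SPre.extPow_eq]
  have h1 := h (Z.selfProd N) (fun j i => Z.projPow N j ≫ p i)
  have h2 : ∀ j : Fin (N + 1), (rowDet fun i b => W.pullΩ Ω (Z.projPow N j ≫ p i)
      (W.sΩ (σ j) V (e b))) = (W.toSPre Ω).pull (Z.projPow N j)
        ((W.toSPre Ω).s (σ (Fin.ofNat (N + 1) (j : ℕ))) Z
          (rowDet fun i b => (W.toSPre Ω).pull (p i) (e b))) := by
    intro j
    have hj : Fin.ofNat (N + 1) (j : ℕ) = j := Fin.ext (Nat.mod_eq_of_lt j.2)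
    rw [hj, map_rowDet, map_rowDet]
    congr 1
    funext i b
    refine Eq.trans ?_ (congrArg ((W.toSPre Ω).pull (Z.projPow N j))
      ((W.toSPre Ω).s_pull (σ j) (p i) (e b)).symm)
    exact (SPre.pull_pull (P := W.toSPre Ω) (Z.projPow N j) (p i) _).symm
  rw [funext h2] at h1
  exact h1

/-- admissible families in the auxiliary setting -/
lemma fam_of_admissible [Algebra.IsAlgebraic K Ω]
    {G : Set (∀ X : SmProjVar k, W.HΩ Ω X → W.HΩ Ω X)} (hG : G ⊆ W.symmetries Ω)
    {V : SmProjVar k} {n : ℕ} {e : Fin n → W.HΩ Ω V} (hp : W.ParityFamily Ω V e)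
    (hi : W.IrreducibleFamily Ω G V e)
    (h : W.DualToConjugate Ω V e ∨ W.DetNormAlgebraic Ω V e) :
    (W.toSPre Ω).Fam (fun g : G => W.symSPre Ω (hG g.2).choose_spec) V n e where
  parity := W.parity_of_parityFamily Ω hp
  irr := by
    obtain ⟨ρ, hρ, hs⟩ := hi
    refine ⟨fun g => ρ g, fun g => ⟨(hρ g g.2).1, (hρ g g.2).2⟩, ?_⟩
    rw [← hs]
    congr 1
    rw [Set.image_eq_range]
  nice := by
    have h1 : W.DetNormAlgebraic Ω V e := h.elim (W.detNormAlgebraic_of_dual Ω hp) id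
    exact W.nice_of_detNormAlgebraic Ω hp h1

/-- stably generated varieties in the auxiliary setting -/
lemma gen_of_stablyGenerated [Algebra.IsAlgebraic K Ω]
    {G : Set (∀ X : SmProjVar k, W.HΩ Ω X → W.HΩ Ω X)} (hG : G ⊆ W.symmetries Ω)
    {X : SmProjVar k} (h : W.StablyGenerated Ω G X) :
    (W.toSPre Ω).Gen (fun g : G => W.symSPre Ω (hG g.2).choose_spec) X := by
  unfold SPre.Gen
  rw [eq_top_iff]
  refine le_trans (le_of_eq (Eq.symm h)) (Algebra.adjoin_mono ?_)
  rintro _ ⟨V, f, n, e, b, hp, hi, hd, rfl⟩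
  exact SPre.pull_letters f ⟨n, e, b, W.fam_of_admissible Ω hG hp hi hd, rfl⟩

lemma her_of_productsOf [IsAlgClosure K Ω] {X : SmProjVar k}
    (h : ProductsOf (fun P => (∃ G ⊆ W.symmetries Ω, W.StablyGenerated Ω G P) ∨
      W.TateType Ω P) X) : (W.toSPre Ω).Her X := by
  have h1 : Algebra.IsAlgebraic K Ω := IsAlgClosure.isAlgebraic
  have h3 : IsAlgClosed Ω := IsAlgClosure.isAlgClosed K
  have h2 : CharZero Ω := charZero_of_injective_algebraMap (algebraMap K Ω).injective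
  induction h with
  | of h =>
    rcases h with ⟨G, hG, h⟩ | h
    · exact (W.gen_of_stablyGenerated Ω hG h).her
    · exact (W.tateType_good Ω h).normGood.her
  | prod _ _ h h' => exact h.prod h'

/-- D passes to dominated varieties -/
lemma d_of_dominatedBy {C : SmProjVar k → Prop} {Y : SmProjVar k} (h : W.DominatedBy C Y)
    (hC : ∀ V, C V → (W.toSPre Ω).D V) : (W.toSPre Ω).D Y := by
  obtain ⟨n, X, g, hX, hg, hsurj⟩ := h
  choose c hc hcg using hg
  suffices main : ∀ r : W.HΩ Ω Y, (W.toSPre Ω).rad Y r → r = 0 from main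
  intro r hr
  have key : ∀ (i : Fin n) (x : W.H (X i)), W.trΩ Ω Y ((1 ⊗ₜ[K] g i x) * r) = 0 := by
    intro i x
    have h1 : ∀ z : W.HΩ Ω Y, W.trΩ Ω Y ((1 ⊗ₜ[K] g i x) * z) =
        W.trΩ Ω ((X i).prod Y) (W.pullΩ Ω (fst (X i) Y) (1 ⊗ₜ[K] x) * (1 ⊗ₜ[K] c i) *
          W.pullΩ Ω (snd (X i) Y) z) := by
      intro z
      refine baseChange_induction_top (p := fun z => W.trΩ Ω Y ((1 ⊗ₜ[K] g i x) * z) =
        W.trΩ Ω ((X i).prod Y) (W.pullΩ Ω (fst (X i) Y) (1 ⊗ₜ[K] x) * (1 ⊗ₜ[K] c i) *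
          W.pullΩ Ω (snd (X i) Y) z)) ?_ ?_ ?_ ?_ z
      · intro z
        rw [pullΩ_tmul, pullΩ_tmul, Algebra.TensorProduct.tmul_mul_tmul,
          Algebra.TensorProduct.tmul_mul_tmul, Algebra.TensorProduct.tmul_mul_tmul, trΩ_tmul,
          trΩ_tmul, mul_one, mul_one]
        congr 1
        exact hcg i x z
      · simp only [map_zero, mul_zero]
      · intro a b ha hb
        rw [mul_add, map_add, ha, hb, map_add, mul_add, map_add]
      · intro a b hb
        rw [mul_smul_comm, map_smul, hb, map_smul, mul_smul_comm, map_smul]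
    rw [h1]
    exact SPre.tr_dominated (P := W.toSPre Ω) (hC _ (hX i))
      (Submodule.tmul_mem_baseChange_of_mem 1 (hc i)) hr (1 ⊗ₜ[K] x)
  refine W.trΩ_pull_mul Ω Y r fun y => ?_
  obtain ⟨x, rfl⟩ := hsurj y
  have h2 : r * (1 ⊗ₜ[K] ∑ i, g i (x i)) = ∑ i, (1 ⊗ₜ[K] g i (x i)) * r := by
    rw [TensorProduct.tmul_sum, ← Finset.sum_mul]
    exact (W.toSPre Ω).ev_comm Y _ _ ((W.toSPre Ω).alg_le_ev Y hr.1)
  rw [h2, map_sum]
  exact Finset.sum_eq_zero fun i _ => key i (x i)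

/-- **Relative theorem** for varieties generated by irreducible families -/
theorem standardD_of_stableType [IsAlgClosure K Ω] (Y : SmProjVar k)
    (hY : W.DominatedBy (W.StableType Ω) Y) : W.StandardD Y := by
  refine W.standardD_of_D Ω Y (W.d_of_dominatedBy Ω hY fun V hV => ?_)
  obtain ⟨P, hP, h⟩ := hV
  have h0 := W.her_of_productsOf Ω hP
  rcases h with rfl | ⟨X, hX, rfl⟩
  · have hpt : (W.toSPre Ω).DP (Helper11.pt k) := fun n => W.d_of_standardD Ω
      (Helper11.standardD_selfProd_of_dim_eq_zero W (Helper11.pt k) rfl n)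
    exact (h0 _ hpt 0).retract (Helper11.retract_pt_prod V)
  · exact h0 X (fun n => W.d_of_standardD Ω (hX n)) 0

end WeilCohomology

end Pool.Agent.Helper10
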