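import Mathlib
import Pool.Agent.Helper10.Shapes
import Pool.Agent.Helper10.Stable

/-!
# Matched shapes: one of them has vanishing contractions
-/

universe u v w t

open CategoryTheory

namespace Pool.Agent.Helper10

open SmProjVar GIT

namespace SPre

variable {k : Type u} [Field k] {K : Type t} [Field K] {Ω : Type v} [Field Ω] [Algebra K Ω]
  {P : SPre.{u, v, w, t} k K Ω}

/-- some numerically trivial class on a product of `V` and (a retract of) a power of `X` has a
non-zero contraction with `F` -/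
def NV (X V : SmProjVar k) (F : P.H V) : Prop :=
  ∃ A : SmProjVar k, (∃ c, Retract A (X.selfProd c)) ∧ ∃ R, P.rad (A.prod V) R ∧
    P.contr A V F R ≠ 0

lemma NV.ext {X V V' : SmProjVar k} {F : P.H V} {F' : P.H V'} (h : NV X V F) (h' : NV X V' F') :
    NV X (V.prod V') (P.ext V V' F F') := by
  obtain ⟨A, ⟨c, hA⟩, R, hR, hne⟩ := h
  obtain ⟨A', ⟨c', hA'⟩, R', hR', hne'⟩ := h'
  refine ⟨A.prod A', ⟨c + c' + 1, (hA.prod hA').trans (Retract.pow_prod_pow X c c')⟩,
    P.pull (p13 A A' V V') R * P.pull (p24 A A' V V') R',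
    rad_mul (rad_pull _ hR) (P.pull_mem _ _ hR'.1), ?_⟩
  rw [contr_four _ _ _ _ (P.alg_le_ev _ hR'.1)]
  exact ext_ne_zero hne hne'

lemma NV.not_alg {X V : SmProjVar k} (hX : P.DP X) {F : P.H V} (h : NV X V F) : F ∉ P.alg V := by
  obtain ⟨A, ⟨c, hA⟩, R, hR, hne⟩ := h
  intro hF
  exact hne ((hX c).retract hA _ (contr_rad hF hR))

section Rep

variable {Y : SmProjVar k} {m n : ℕ} (a : Fin m → Fin (n + 1) → P.Letter Y)

/-- the classes (up to sign) of the determinants of the family `a i j` on `V` -/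
def detQ (V : SmProjVar k) (x : Fin m × Fin (n + 1)) : Set (P.Q V) :=
  {q | ∃ (p : Fin (a x.1 x.2).1 → (V.toOver ⟶ Y.toOver))
    (h : (rowDet fun i b => P.pull (p i) ((a x.1 x.2).2 b)) ∈ P.homSub V), q = P.cls V ⟨_, h⟩}

/-- the class (up to sign) `q` is a product of determinants, with multiplicities `A` -/
def Rep (V : SmProjVar k) (q : P.Q V) (A : Fin m × Fin (n + 1) → ℕ) : Prop :=
  ∃ d : ∀ x : Fin m × Fin (n + 1), Fin (A x) → P.Q V, (∀ x i, d x i ∈ detQ a V x) ∧
    q = ∏ x, ∏ i, d x i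

variable {a}

lemma detQ_pull {V W : SmProjVar k} (f : W.toOver ⟶ V.toOver) {x : Fin m × Fin (n + 1)}
    {q : P.Q V} (h : q ∈ detQ a V x) : P.pullQ f q ∈ detQ a W x := by
  obtain ⟨p, hh, rfl⟩ := h
  have h1 : P.pull f (rowDet fun i b => P.pull (p i) ((a x.1 x.2).2 b)) =
      rowDet fun i b => P.pull (f ≫ p i) ((a x.1 x.2).2 b) := by
    unfold rowDet
    rw [map_sum]
    refine Finset.sum_congr rfl fun π _ => ?_
    rw [map_zsmul, map_list_prod, List.map_ofFn]
    congr 3
    funext i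
    exact pull_pull _ _ _
  refine ⟨fun i => f ≫ p i, ?_, ?_⟩
  · rw [← h1]
    exact (P.pullHom f ⟨_, hh⟩).2
  · rw [pullQ_cls]
    congr 1
    exact Subtype.ext h1

lemma Rep.pull {V W : SmProjVar k} (f : W.toOver ⟶ V.toOver) {q : P.Q V}
    {A : Fin m × Fin (n + 1) → ℕ} (h : Rep a V q A) : Rep a W (P.pullQ f q) A := by
  obtain ⟨d, hd, rfl⟩ := h
  refine ⟨fun x i => P.pullQ f (d x i), fun x i => detQ_pull f (hd x i), ?_⟩
  rw [map_prod]
  exact Finset.prod_congr rfl fun x _ => map_prod _ _ _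

lemma Rep.mul {V : SmProjVar k} {q q' : P.Q V} {A A' : Fin m × Fin (n + 1) → ℕ}
    (h : Rep a V q A) (h' : Rep a V q' A') : Rep a V (q * q') (A + A') := by
  obtain ⟨d, hd, rfl⟩ := h
  obtain ⟨d', hd', rfl⟩ := h'
  refine ⟨fun x => Fin.append (d x) (d' x), fun x i => ?_, ?_⟩
  · refine Fin.addCases (fun i => ?_) (fun i => ?_) i
    · change Fin.append (d x) (d' x) _ ∈ _
      rw [Fin.append_left]; exact hd x i
    · change Fin.append (d x) (d' x) _ ∈ _
      rw [Fin.append_right]; exact hd' x i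
  · rw [← Finset.prod_mul_distrib]
    refine Finset.prod_congr rfl fun x _ => ?_
    change _ = ∏ i : Fin (A x + A' x), Fin.append (d x) (d' x) i
    rw [Fin.prod_univ_add]
    simp only [Fin.append_left, Fin.append_right]

/-- products of determinants in which the members of each tuple occur equally often are
algebraic -/
lemma Rep.mem_algQ (ha : ∀ i, GoodTuple (a i)) {V : SmProjVar k} {q : P.Q V}
    {A : Fin m × Fin (n + 1) → ℕ} (h : Rep a V q A) (c : Fin m → ℕ)
    (hA : ∀ i j, A (i, j) = c i) : q ∈ P.algQ V := by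
  obtain ⟨d, hd, rfl⟩ := h
  have hA' : A = fun x => c x.1 := funext fun x => hA x.1 x.2
  subst hA'
  rw [Fintype.prod_prod_type]
  refine (P.algQ V).prod_mem fun i _ => ?_
  change ∏ j, ∏ l : Fin (c i), d (i, j) l ∈ _
  rw [Finset.prod_comm]
  refine (P.algQ V).prod_mem fun l _ => ?_
  obtain ⟨M, x, hx, hgood⟩ := ha i
  choose p hh hp using fun j => hd (i, j) l
  -- transport to the common size
  have key : ∀ j : Fin (n + 1), ∃ (p' : Fin M → (V.toOver ⟶ Y.toOver))
      (h' : (rowDet fun i b => P.pull (p' i) (x j b)) ∈ P.homSub V),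
      d (i, j) l = P.cls V ⟨_, h'⟩ := by
    intro j
    have h1 := hp j
    have h2 := hh j
    have gen : ∀ (L : P.Letter Y) (hL : L = ⟨M, x j⟩) (p : Fin L.1 → (V.toOver ⟶ Y.toOver))
        (hh : (rowDet fun i b => P.pull (p i) (L.2 b)) ∈ P.homSub V),
        ∃ (p' : Fin M → (V.toOver ⟶ Y.toOver))
        (h' : (rowDet fun i b => P.pull (p' i) (x j b)) ∈ P.homSub V),
        P.cls V ⟨_, hh⟩ = P.cls V ⟨_, h'⟩ := by
      rintro _ rfl p hh
      exact ⟨p, hh, rfl⟩
    obtain ⟨p', h', h4⟩ := gen (a i j) (hx j) (p j) h2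
    exact ⟨p', h', h1.trans h4⟩
  choose p' h' hq using key
  have h5 := hgood V p'
  have h6 : ∏ j, d (i, j) l = P.cls V (List.ofFn fun j => (⟨_, h' j⟩ : P.homSub V)).prod := by
    rw [map_list_prod, List.map_ofFn, List.prod_ofFn]
    exact Finset.prod_congr rfl fun j _ => hq j
  rw [h6, cls_mem_algQ]
  have h7 : (((List.ofFn fun j => (⟨_, h' j⟩ : P.homSub V)).prod : P.homSub V) : P.H V) =
      (List.ofFn fun j => rowDet fun i b => P.pull (p' j i) (x j b)).prod := by
    have h8 := map_list_prod (P.homSub V).subtype (List.ofFn fun j => (⟨_, h' j⟩ : P.homSub V))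
    rw [List.map_ofFn] at h8
    exact h8
  rw [h7]
  exact h5

/-- multiplicities which are realised by products of determinants with a non-zero contraction -/
def Real (a : Fin m → Fin (n + 1) → P.Letter Y) (X : SmProjVar k)
    (A : Fin m × Fin (n + 1) → ℕ) : Prop :=
  ∃ (V : SmProjVar k) (F : P.homSub V), Rep a V (P.cls V F) A ∧ NV X V (F : P.H V)

lemma Real.add {X : SmProjVar k} {A A' : Fin m × Fin (n + 1) → ℕ} (h : Real a X A)
    (h' : Real a X A') : Real a X (A + A') := by
  obtain ⟨V, F, hF, hN⟩ := h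
  obtain ⟨V', F', hF', hN'⟩ := h'
  refine ⟨V.prod V', P.extHom V V' F F', ?_, ?_⟩
  · have h1 := (hF.pull (fst V V')).mul (hF'.pull (snd V V'))
    rw [pullQ_cls, pullQ_cls, ← map_mul] at h1
    exact h1
  · rw [coe_extHom]
    exact hN.ext hN'

lemma Real.nsmul {X : SmProjVar k} {A : Fin m × Fin (n + 1) → ℕ} (h : Real a X A) {c : ℕ}
    (hc : 0 < c) : Real a X (c • A) := by
  induction c with
  | zero => exact absurd hc (lt_irrefl 0)
  | succ c ih =>
    rcases Nat.eq_zero_or_pos c with rfl | hc'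
    · rw [zero_add, one_smul]; exact h
    · rw [succ_nsmul]; exact (ih hc').add h

lemma Real.not_const (ha : ∀ i, GoodTuple (a i)) {X : SmProjVar k} (hX : P.DP X)
    {A : Fin m × Fin (n + 1) → ℕ} (h : Real a X A) (c : Fin m → ℕ) : ¬ ∀ i j, A (i, j) = c i := by
  intro hA
  obtain ⟨V, F, hF, hN⟩ := h
  exact hN.not_alg hX ((cls_mem_algQ _ _ _).mp (hF.mem_algQ ha c hA))

lemma Rep.one (V : SmProjVar k) : Rep a V 1 0 :=
  ⟨fun _ i => i.elim0, fun _ i => i.elim0, by
    symm
    refine Finset.prod_eq_one fun x _ => ?_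
    change ∏ i : Fin 0, _ = _
    exact Finset.prod_of_isEmpty _⟩

lemma Rep.single {V : SmProjVar k} {x : Fin m × Fin (n + 1)} {q : P.Q V} (h : q ∈ detQ a V x) :
    Rep a V q (Pi.single x 1) := by
  classical
  refine ⟨fun _ _ => q, fun y i => ?_, ?_⟩
  · change q ∈ detQ a V y
    by_cases hy : y = x
    · subst hy; exact h
    · exfalso
      have h1 : (Pi.single x 1 : Fin m × Fin (n + 1) → ℕ) y = 0 := Pi.single_eq_of_ne hy 1
      have h2 := i.2
      omega
  · rw [Finset.prod_eq_single x]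
    · rw [Finset.prod_const, Finset.card_univ, Fintype.card_fin, Pi.single_eq_same, pow_one]
    · intro y _ hy
      rw [Finset.prod_const, Finset.card_univ, Fintype.card_fin, Pi.single_eq_of_ne hy, pow_zero]
    · intro h; exact absurd (Finset.mem_univ x) h

lemma Rep.prod {V : SmProjVar k} {ι : Type*} (s : Finset ι) {q : ι → P.Q V}
    {A : ι → Fin m × Fin (n + 1) → ℕ} (h : ∀ i, Rep a V (q i) (A i)) :
    Rep a V (∏ i ∈ s, q i) (∑ i ∈ s, A i) := by
  classical
  induction s using Finset.induction_on with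
  | empty => rw [Finset.prod_empty, Finset.sum_empty]; exact Rep.one V
  | insert i s hi ih =>
    rw [Finset.prod_insert hi, Finset.sum_insert hi]
    exact (h i).mul ih

/-- a determinant class with a non-zero contraction -/
lemma real_of_contr_ne_zero [CharZero Ω] {ι : Type*} {G : ι → P.Sym} {X : SmProjVar k}
    (hm : 0 < m) (hAdm : ∀ i j, P.Adm G Y (a i j)) (j : Fin (n + 1))
    {w : Idx fun i => (a i j).1} {r : P.H (X.prod Y)} (hr : P.rad (X.prod Y) r)
    (hne : P.contr X Y (word (fun i => (a i j).2) w) r ≠ 0) :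
    ∃ (N : ℕ) (e : Fin m → ℕ), 0 < N ∧ (∀ i, e i * (a i j).1 = N) ∧
      Real a X (fun x => if x.2 = j then e x.1 else 0) := by
  classical
  have h1 : ¬ DetZero (P.wordSet X Y fun i => (a i j).2) := fun h =>
    hne (contr_word_of_detZero hm _ (fun i => hAdm i j) h hr w)
  unfold DetZero at h1
  push Not at h1
  obtain ⟨N, e, σ, hN, z, hz, h2⟩ := h1
  obtain ⟨N, rfl⟩ : ∃ N', N = N' + 1 := ⟨N - 1, by omega⟩
  have h3 : ∃ r : ℕ → P.H (X.prod Y), (∀ j, P.rad (X.prod Y) (r j)) ∧
      P.contr (X.selfProd N) (Y.selfProd N) (detClass (fun i => (a i j).2) σ)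
        (P.mixPow X Y N r) ≠ 0 := by
    by_contra h
    push Not at h
    exact h2 (detForm_eq_zero_of _ (fun i => (hAdm i j).parity) σ h z hz)
  obtain ⟨r', hr', h4⟩ := h3
  have hrow : ∀ i (l : Fin (e i)), (rowDet fun i' b =>
      P.pull (Y.projPow N (σ i (l, i'))) ((a i j).2 b)) ∈ P.homSub (Y.selfProd N) := by
    intro i l
    refine rowDet_hom _ ?_
    rcases (hAdm i j).parity with h | h
    · exact .inl fun i' b => P.pull_ev _ _ (h b)
    · exact .inr fun i' b => P.pull_od _ _ (h b)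
  let F : P.homSub (Y.selfProd N) :=
    (List.ofFn fun i => (List.ofFn fun l => (⟨_, hrow i l⟩ : P.homSub (Y.selfProd N))).prod).prod
  have hF : (F : P.H _) = detClass (fun i => (a i j).2) σ := by
    have h8 := map_list_prod (P.homSub (Y.selfProd N)).subtype (List.ofFn fun i =>
      (List.ofFn fun l => (⟨_, hrow i l⟩ : P.homSub (Y.selfProd N))).prod)
    rw [List.map_ofFn] at h8
    refine h8.trans ?_
    unfold detClass
    congr 2
    funext i
    have h9 := map_list_prod (P.homSub (Y.selfProd N)).subtype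
      (List.ofFn fun l => (⟨_, hrow i l⟩ : P.homSub (Y.selfProd N)))
    rw [List.map_ofFn] at h9
    exact h9
  refine ⟨N + 1, e, hN, fun i => ?_, Y.selfProd N, F, ?_, ?_⟩
  · have h5 := Fintype.card_congr (σ i)
    rwa [Fintype.card_prod, Fintype.card_fin, Fintype.card_fin, Fintype.card_fin] at h5
  · have h5 : P.cls _ F = ∏ i, ∏ l, P.cls _ ⟨_, hrow i l⟩ := by
      change P.cls _ (List.ofFn fun i =>
        (List.ofFn fun l => (⟨_, hrow i l⟩ : P.homSub (Y.selfProd N))).prod).prod = _
      rw [map_list_prod, List.map_ofFn, List.prod_ofFn]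
      refine Finset.prod_congr rfl fun i _ => ?_
      change P.cls _ (List.ofFn fun l => (⟨_, hrow i l⟩ : P.homSub (Y.selfProd N))).prod = _
      rw [map_list_prod, List.map_ofFn, List.prod_ofFn]
      rfl
    have h6 : (fun x : Fin m × Fin (n + 1) => if x.2 = j then e x.1 else 0) =
        ∑ i, ∑ _l : Fin (e i), Pi.single (i, j) 1 := by
      funext x
      rw [Finset.sum_apply]
      simp only [Finset.sum_const, Finset.card_univ, Fintype.card_fin, Pi.smul_apply,
        smul_eq_mul, Pi.single_apply]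
      rw [Finset.sum_eq_single x.1]
      · by_cases hx : x.2 = j
        · have h7 : x = (x.1, j) := Prod.ext rfl hx
          rw [if_pos hx, if_pos h7, mul_one]
        · have h7 : ¬ x = (x.1, j) := fun h => hx (congrArg Prod.snd h)
          rw [if_neg hx, if_neg h7, mul_zero]
      · intro i _ hi
        have h7 : ¬ x = (i, j) := fun h => hi (congrArg Prod.fst h).symm
        rw [if_neg h7, mul_zero]
      · intro h; exact absurd (Finset.mem_univ _) h
    rw [h5, h6]
    exact Rep.prod _ fun i => Rep.prod _ fun l => Rep.single ⟨_, hrow i l, rfl⟩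
  · exact ⟨X.selfProd N, ⟨N, Retract.refl _⟩, _, mixPow_rad N r' hr', by rw [hF]; exact h4⟩

/-- **Lemma N**: for a family of good tuples, one of the members has vanishing contractions with all
numerically trivial classes -/
theorem exists_contr_eq_zero [CharZero Ω] {ι : Type*} {G : ι → P.Sym} {X : SmProjVar k}
    (hX : P.DP X) (hAdm : ∀ i j, P.Adm G Y (a i j)) (ha : ∀ i, GoodTuple (a i)) :
    ∃ j, ∀ (w : Idx fun i => (a i j).1) (r : P.H (X.prod Y)), P.rad (X.prod Y) r →
      P.contr X Y (word (fun i => (a i j).2) w) r = 0 := by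
  classical
  rcases Nat.eq_zero_or_pos m with rfl | hm
  · refine ⟨0, fun w r hr => ?_⟩
    have h1 : word (fun i => (a i 0).2) w = 1 := by
      unfold word
      rw [List.ofFn_zero, List.prod_nil]
    rw [h1]
    exact hX 0 _ (contr_rad (P.one_mem Y) hr)
  by_contra h
  push Not at h
  choose w r hr hne using h
  choose N e hN he hR using fun j => real_of_contr_ne_zero hm hAdm j (hr j) (hne j)
  have hL : ∀ j, ∃ c, 0 < c ∧ c * N j = ∏ j, N j := fun j =>
    ⟨∏ i ∈ Finset.univ.erase j, N i, Finset.prod_pos fun i _ => hN i,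
      Finset.prod_erase_mul _ _ (Finset.mem_univ j)⟩
  choose c hc hcN using hL
  have h1 : Real a X (∑ j, c j • fun x : Fin m × Fin (n + 1) =>
      if x.2 = j then e j x.1 else 0) :=
    Finset.sum_induction_nonempty _ _ (fun _ _ => Real.add) Finset.univ_nonempty
      (fun j _ => (hR j).nsmul (hc j))
  refine h1.not_const ha hX (fun i => (∏ j, N j) / (a i 0).1) fun i j => ?_
  have h2 : (∑ j', c j' • fun x : Fin m × Fin (n + 1) =>
      if x.2 = j' then e j' x.1 else 0) (i, j) = c j * e j i := by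
    rw [Finset.sum_apply, Finset.sum_eq_single j]
    · rw [Pi.smul_apply, smul_eq_mul, if_pos rfl]
    · intro j' _ hj'
      rw [Pi.smul_apply, smul_eq_mul, if_neg (Ne.symm hj'), mul_zero]
    · intro h; exact absurd (Finset.mem_univ _) h
  have h3 : c j * e j i * (a i j).1 = ∏ j, N j := by rw [mul_assoc, he, hcN]
  have h4 : (a i 0).1 = (a i j).1 := by
    obtain ⟨M, x, hx, -⟩ := ha i
    rw [hx, hx]
  rw [h2, h4, ← h3, Nat.mul_div_cancel _ (w j i).pos]

end Rep

/-- **Lemma N**, for matched tuples of shapes -/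
theorem Matched.exists_contr_eq_zero [CharZero Ω] {ι : Type*} {G : ι → P.Sym}
    {X Y : SmProjVar k} (hX : P.DP X) {n : ℕ} {l : Fin (n + 1) → List (P.Letter Y)}
    (hl : Matched l) (hAdm : ∀ j, ∀ a ∈ l j, P.Adm G Y a) :
    ∃ j, ∀ y, IsWord (l j) y → ∀ r : P.H (X.prod Y), P.rad (X.prod Y) r →
      P.contr X Y y r = 0 := by
  obtain ⟨m, a, hp, ha⟩ := hl
  have h1 : ∀ i j, P.Adm G Y (a i j) := fun i j =>
    hAdm j _ ((hp j).mem_iff.mpr (List.mem_ofFn.mpr ⟨i, rfl⟩))
  obtain ⟨j, hj⟩ := SPre.exists_contr_eq_zero hX h1 ha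
  refine ⟨j, fun y hy r hr => ?_⟩
  obtain ⟨y', hy', h2⟩ := hy.perm (hp j) (fun b hb i => by
    rcases (hAdm j b hb).parity with h | h
    · exact .inl (h i)
    · exact .inr (h i))
  obtain ⟨w, rfl⟩ := hy'.exists_word
  have h3 := hj w r hr
  rcases h2 with h2 | h2
  · rwa [h2] at h3
  · have h4 : y = (-1 : ℤ) • word (fun i => (a i j).2) w := by
      rw [h2, neg_one_zsmul, neg_neg]
    rw [h4, contr_zsmul, h3, smul_zero]

end SPre

end Pool.Agent.Helper10
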