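import Mathlib
import Pool.Agent.Helper10.LemmaN
import Pool.Agent.Helper11.LettersD
import Pool.Agent.Helper11.RatLinear

/-!
# Relations between determinants of irreducible families
-/

universe u v w t

open CategoryTheory

namespace Pool.Agent.Helper10

open SmProjVar GIT Helper11

namespace SPre

variable {k : Type u} [Field k] {K : Type t} [Field K] {Ω : Type v} [Field Ω] [Algebra K Ω]
  (P : SPre.{u, v, w, t} k K Ω)

/-! ### tests -/

/-- a symmetry, with a submonoid containing its eigenvalues on algebraic classes -/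
structure Test where
  γ : P.Sym
  U : Submonoid Ω
  alg_eig : ∀ X z c, z ∈ P.alg X → z ≠ 0 → γ.g X z = c • z → c ∈ U
  tr : ∀ X, ∃ t ∈ U, ∀ x, P.tr X (γ.g X x) = t * P.tr X x
  div : ∀ a b, a * b ∈ U → b ∈ U → a ∈ U

variable {P}

namespace Test

variable (T : P.Test)

/-- generalised eigenspaces -/
noncomputable def E (X : SmProjVar k) (c : Ω) : Submodule Ω (P.H X) :=
  Module.End.maxGenEigenspace ((T.γ.g X : P.H X →ₐ[Ω] P.H X).toLinearMap :
    Module.End Ω (P.H X)) c

variable {T}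

lemma mul_mem_E {X : SmProjVar k} {a b : Ω} {x y : P.H X} (hx : x ∈ T.E X a)
    (hy : y ∈ T.E X b) : x * y ∈ T.E X (a * b) :=
  mul_mem_maxGenEigenspace (T.γ.g X : P.H X →ₐ[Ω] P.H X) hx hy

lemma pull_mem_E {X Y : SmProjVar k} (f : X.toOver ⟶ Y.toOver) {a : Ω} {y : P.H Y}
    (hy : y ∈ T.E Y a) : P.pull f y ∈ T.E X a :=
  map_mem_maxGenEigenspace _ _ (P.pull f).toLinearMap (fun x => T.γ.pull f x) hy

lemma tr_eq_zero {X : SmProjVar k} {a t : Ω} {x : P.H X} (hx : x ∈ T.E X a) (ha : a ≠ t)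
    (ht : ∀ x, P.tr X (T.γ.g X x) = t * P.tr X x) : P.tr X x = 0 := by
  unfold E at hx
  rw [Module.End.mem_maxGenEigenspace] at hx
  obtain ⟨n, hn⟩ := hx
  have key : ∀ (n : ℕ) (x : P.H X),
      P.tr X (((((T.γ.g X : P.H X →ₐ[Ω] P.H X).toLinearMap : Module.End Ω (P.H X)) -
        a • 1) ^ n) x) = (t - a) ^ n * P.tr X x := by
    intro n
    induction n with
    | zero => intro x; simp
    | succ n ih =>
      intro x
      rw [pow_succ, Module.End.mul_apply, ih]
      have h1 : P.tr X (((((T.γ.g X : P.H X →ₐ[Ω] P.H X).toLinearMap : Module.End Ω (P.H X)) -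
        a • 1)) x) = (t - a) * P.tr X x := by
        rw [LinearMap.sub_apply, LinearMap.smul_apply, Module.End.one_apply, map_sub, map_smul,
          smul_eq_mul, sub_mul]
        congr 1
        exact ht x
      rw [h1, pow_succ]
      ring
  have h1 := key n x
  rw [hn, map_zero] at h1
  exact (mul_eq_zero.mp h1.symm).resolve_left (pow_ne_zero n (sub_ne_zero.mpr ha.symm))

variable (T) in
lemma E_induction [IsAlgClosed Ω] {X : SmProjVar k} {p : P.H X → Prop}
    (hmem : ∀ a, ∀ x ∈ T.E X a, p x) (hzero : p 0)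
    (hadd : ∀ x y, p x → p y → p (x + y)) (x : P.H X) : p x := by
  have hx : x ∈ ⨆ a, T.E X a := by
    unfold E
    rw [Module.End.iSup_maxGenEigenspace_eq_top]; trivial
  induction hx using Submodule.iSup_induction' with
  | mem m x hxm => exact hmem m x hxm
  | zero => exact hzero
  | add x y _ _ hx hy => exact hadd x y hx hy

/-- a stable subspace containing a generalised eigenvector contains an eigenvector -/
lemma exists_eigenvector {X : SmProjVar k} {a : Ω} {A : Submodule Ω (P.H X)}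
    (hA : ∀ x ∈ A, T.γ.g X x ∈ A) {x : P.H X} (hx : x ∈ T.E X a) (hxA : x ∈ A) (hx0 : x ≠ 0) :
    ∃ y ∈ A, y ≠ 0 ∧ T.γ.g X y = a • y := by
  classical
  unfold E at hx
  rw [Module.End.mem_maxGenEigenspace] at hx
  obtain ⟨F, hF⟩ : ∃ F : Module.End Ω (P.H X),
    F = (T.γ.g X : P.H X →ₐ[Ω] P.H X).toLinearMap - a • 1 := ⟨_, rfl⟩
  rw [← hF] at hx
  have hFx : ∀ y, F y = T.γ.g X y - a • y := fun y => by rw [hF]; rfl
  have hn := Nat.find_spec hx
  have hmin : ∀ m < Nat.find hx, ¬ (F ^ m) x = 0 := fun m hm => Nat.find_min hx hm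
  have hst : ∀ m, (F ^ m) x ∈ A := by
    intro m
    induction m with
    | zero => exact hxA
    | succ m ih =>
      rw [pow_succ', Module.End.mul_apply, hFx]
      exact A.sub_mem (hA _ ih) (A.smul_mem a ih)
  set n := Nat.find hx
  rcases n with _ | n
  · exact absurd (by simpa using hn) hx0
  · refine ⟨_, hst n, hmin n (Nat.lt_succ_self n), ?_⟩
    rw [pow_succ', Module.End.mul_apply, hFx] at hn
    exact sub_eq_zero.mp hn

lemma alg_induction [IsAlgClosed Ω] {X : SmProjVar k} {p : P.H X → Prop}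
    (hmem : ∀ a ∈ T.U, ∀ x ∈ T.E X a, x ∈ P.alg X → p x) (hzero : p 0)
    (hadd : ∀ x y, p x → p y → p (x + y)) {x : P.H X} (hx : x ∈ P.alg X) : p x := by
  have hst : ∀ x ∈ P.alg X, T.γ.g X x ∈ P.alg X := fun x hx => (T.γ.alg X x).mpr hx
  have h1 := Submodule.eq_iSup_inf_genEigenspace (p := P.alg X)
    (f := ((T.γ.g X : P.H X →ₐ[Ω] P.H X).toLinearMap : Module.End Ω (P.H X))) ⊤ hst
    (Module.End.iSup_maxGenEigenspace_eq_top _)
  rw [h1] at hx
  induction hx using Submodule.iSup_induction' with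
  | mem a x hxm =>
    by_cases h0 : x = 0
    · rw [h0]; exact hzero
    · obtain ⟨y, hy, hy0, hy1⟩ := exists_eigenvector hst hxm.2 hxm.1 h0
      exact hmem a (T.alg_eig X y a hy hy0 hy1) x hxm.2 hxm.1
  | zero => exact hzero
  | add x y _ _ hx hy => exact hadd x y hx hy

/-- the eigenvalues on `H(X)` are in `U` -/
def Good (T : P.Test) (X : SmProjVar k) : Prop :=
  ∀ (a : Ω) (x : P.H X), x ≠ 0 → T.γ.g X x = a • x → a ∈ T.U

lemma Good.mem {X : SmProjVar k} (hX : T.Good X) {a : Ω} {x : P.H X} (hx : x ∈ T.E X a)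
    (h0 : x ≠ 0) : a ∈ T.U := by
  obtain ⟨y, -, hy0, hy⟩ := exists_eigenvector (T := T) (A := ⊤) (fun _ _ => trivial) hx
    trivial h0
  exact hX a y hy0 hy

/-- a generalised eigenvector, the contraction with which of some algebraic class is not
trivial -/
lemma mem_of_contr_ne [IsAlgClosed Ω] {X Z : SmProjVar k} {w : P.H Z} {r : P.H (X.prod Z)}
    {c : Ω} (hX : T.Good X)
    (hw : w ∈ T.E Z c) (hr : r ∈ P.alg (X.prod Z)) (h : P.contr X Z w r ≠ 0) :
    c ∈ T.U := by
  by_contra hc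
  apply h
  obtain ⟨t, ht, htr⟩ := T.tr (X.prod Z)
  refine P.nondeg X _ fun x => ?_
  rw [contr_apply, tr_pushF]
  refine E_induction T (p := fun x =>
    P.tr _ (r * P.pull (snd X Z) w * P.pull (fst X Z) x) = 0) ?_ ?_ ?_ x
  · intro m x hx
    by_cases hx0 : x = 0
    · rw [hx0, map_zero (P.pull _), mul_zero, map_zero]
    have hm : m ∈ T.U := hX.mem hx hx0
    refine alg_induction (T := T) (p := fun r =>
      P.tr _ (r * P.pull (snd X Z) w * P.pull (fst X Z) x) = 0) ?_ ?_ ?_ hr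
    · intro a ha z hz _
      refine tr_eq_zero (mul_mem_E (mul_mem_E hz (pull_mem_E _ hw)) (pull_mem_E _ hx))
        (fun h0 => hc ?_) htr
      refine T.div c (a * m) ?_ (T.U.mul_mem ha hm)
      have h1 : c * (a * m) = a * c * m := by ring
      rw [h1, h0]
      exact ht
    · rw [zero_mul, zero_mul, map_zero]
    · intro y z hy hz
      rw [add_mul, add_mul, map_add, hy, hz, add_zero]
  · rw [map_zero (P.pull _), mul_zero, map_zero]
  · intro y z hy hz
    rw [map_add (P.pull _), mul_add, map_add, hy, hz, add_zero]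

lemma Good.retract {A X : SmProjVar k} (hX : T.Good X) (h : Retract A X) : T.Good A := by
  obtain ⟨i, p, hip⟩ := h
  intro a x hx0 hx
  have hinj : Function.Injective (P.pull p) := by
    refine Function.LeftInverse.injective (g := P.pull i) fun x => ?_
    rw [pull_pull, hip, P.pull_id]
    rfl
  refine hX a (P.pull p x) ((map_ne_zero_iff _ hinj).mpr hx0) ?_
  rw [T.γ.pull, hx, map_smul]

lemma Good.prod [IsAlgClosed Ω] {X Y : SmProjVar k} (hX : T.Good X) (hY : T.Good Y) :
    T.Good (X.prod Y) := by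
  intro c z hz0 hz
  by_contra hc
  -- everything is a sum of generalised eigenvectors with eigenvalues in `U`
  have h1 : (⊤ : Submodule Ω (P.H (X.prod Y))) ≤ ⨆ ν, ⨆ (_ : ν ≠ c), T.E (X.prod Y) ν := by
    rw [← P.span_ext, Submodule.span_le]
    rintro _ ⟨x, y, rfl⟩
    refine E_induction T (p := fun x => P.pull (fst X Y) x * P.pull (snd X Y) y ∈
      ((⨆ ν, ⨆ (_ : ν ≠ c), T.E (X.prod Y) ν : Submodule Ω (P.H (X.prod Y))) :
        Set (P.H (X.prod Y)))) ?_ ?_ ?_ x
    · intro a x hx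
      refine E_induction T (p := fun y => P.pull (fst X Y) x * P.pull (snd X Y) y ∈
        ((⨆ ν, ⨆ (_ : ν ≠ c), T.E (X.prod Y) ν : Submodule Ω (P.H (X.prod Y))) :
          Set (P.H (X.prod Y)))) ?_ ?_ ?_ y
      · intro b y hy
        by_cases hx0 : x = 0
        · rw [hx0, map_zero (P.pull _), zero_mul]
          exact Submodule.zero_mem _
        by_cases hy0 : y = 0
        · rw [hy0, map_zero (P.pull _), mul_zero]
          exact Submodule.zero_mem _
        have hab : a * b ≠ c := by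
          rintro rfl
          exact hc (T.U.mul_mem (hX.mem hx hx0) (hY.mem hy hy0))
        exact Submodule.mem_iSup_of_mem (a * b) (Submodule.mem_iSup_of_mem hab
          (mul_mem_E (pull_mem_E _ hx) (pull_mem_E _ hy)))
      · rw [map_zero (P.pull _), mul_zero]
        exact Submodule.zero_mem _
      · intro y z hy hz
        rw [map_add (P.pull _), mul_add]
        exact Submodule.add_mem _ hy hz
    · rw [map_zero (P.pull _), zero_mul]
      exact Submodule.zero_mem _
    · intro y z hy hz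
      rw [map_add (P.pull _), add_mul]
      exact Submodule.add_mem _ hy hz
  have h2 : z ∈ T.E (X.prod Y) c := by
    unfold E
    rw [Module.End.mem_maxGenEigenspace]
    refine ⟨1, ?_⟩
    rw [pow_one, LinearMap.sub_apply, LinearMap.smul_apply, Module.End.one_apply]
    exact sub_eq_zero.mpr hz
  have h3 := (Module.End.independent_maxGenEigenspace
    ((T.γ.g (X.prod Y) : P.H (X.prod Y) →ₐ[Ω] P.H (X.prod Y)).toLinearMap :
      Module.End Ω (P.H (X.prod Y)))) c
  have := h3.le_bot ⟨h2, h1 trivial⟩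
  exact hz0 (by simpa using this)

lemma Good.pow [IsAlgClosed Ω] {X : SmProjVar k} (hX : T.Good X) (n : ℕ) :
    T.Good (X.selfProd n) := by
  induction n with
  | zero => exact hX
  | succ n ih => exact ih.prod hX

end Test

/-! ### labels and products of determinants -/

variable (P) in
/-- a family of classes on some variety -/
structure Lab where
  V : SmProjVar k
  n : ℕ
  e : Fin n → P.H V

/-- the conjugate of a family -/
def Lab.conj (σ : Ω ≃ₐ[K] Ω) (l : P.Lab) : P.Lab := ⟨l.V, l.n, fun b => P.s σ l.V (l.e b)⟩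

/-- products of determinants of pull-backs of families, with the multiset of the families -/
inductive DWord (Z : SmProjVar k) : P.H Z → Multiset P.Lab → Prop
  | one : DWord Z 1 0
  | cons (l : P.Lab) (p : Fin l.n → (Z.toOver ⟶ l.V.toOver)) {y : P.H Z} {S : Multiset P.Lab} :
      DWord Z y S → DWord Z ((rowDet fun i b => P.pull (p i) (l.e b)) * y) (l ::ₘ S)

namespace DWord

variable {Z : SmProjVar k} {y y' : P.H Z} {S S' : Multiset P.Lab}

lemma single (l : P.Lab) (p : Fin l.n → (Z.toOver ⟶ l.V.toOver)) :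
    DWord Z (rowDet fun i b => P.pull (p i) (l.e b)) {l} := by
  have h := DWord.cons l p (DWord.one (Z := Z))
  rwa [mul_one] at h

lemma mul (h : DWord Z y S) (h' : DWord Z y' S') : DWord Z (y * y') (S + S') := by
  induction h with
  | one => rwa [one_mul, zero_add]
  | cons l p _ ih =>
    rw [mul_assoc, Multiset.cons_add]
    exact DWord.cons l p ih

lemma pull {Z' : SmProjVar k} (f : Z'.toOver ⟶ Z.toOver) (h : DWord Z y S) :
    DWord Z' (P.pull f y) S := by
  induction h with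
  | one => rw [map_one]; exact DWord.one
  | cons l p _ ih =>
    rw [map_mul (P.pull f), map_rowDet]
    have h1 : (fun (i : Fin l.n) (b : Fin l.n) => P.pull f (P.pull (p i) (l.e b))) =
        fun i b => P.pull (f ≫ p i) (l.e b) := by
      funext i b
      exact pull_pull _ _ _
    rw [h1]
    exact DWord.cons l (fun i => f ≫ p i) ih

lemma conj (σ : Ω ≃ₐ[K] Ω) (h : DWord Z y S) : DWord Z (P.s σ Z y) (S.map (Lab.conj σ)) := by
  induction h with
  | one => rw [map_one (P.s σ Z), Multiset.map_zero]; exact DWord.one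
  | cons l p _ ih =>
    rw [map_mul (P.s σ Z), map_rowDet, Multiset.map_cons]
    have h1 : (fun (i : Fin l.n) (b : Fin l.n) => P.s σ Z (P.pull (p i) (l.e b))) =
        fun i b => P.pull (p i) (P.s σ l.V (l.e b)) := by
      funext i b
      exact P.s_pull σ _ _
    rw [h1]
    exact DWord.cons (l.conj σ) p ih

lemma ofFn {m : ℕ} {x : Fin m → P.H Z} {S : Fin m → Multiset P.Lab}
    (h : ∀ i, DWord Z (x i) (S i)) : DWord Z (List.ofFn x).prod (∑ i, S i) := by
  induction m with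
  | zero => rw [List.ofFn_zero, List.prod_nil, Fin.sum_univ_zero]; exact DWord.one
  | succ m ih =>
    rw [List.ofFn_succ, List.prod_cons, Fin.sum_univ_succ]
    exact (h 0).mul (ih fun i => h i.succ)

end DWord

/-- the multiset `S` has a product of determinants with a non-vanishing contraction -/
def DReal (X : SmProjVar k) (S : Multiset P.Lab) : Prop :=
  ∃ (V : SmProjVar k) (F : P.H V), DWord V F S ∧ NV X V F

lemma DReal.add {X : SmProjVar k} {S S' : Multiset P.Lab} (h : DReal X S) (h' : DReal X S') :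
    DReal X (S + S') := by
  obtain ⟨V, F, hF, hN⟩ := h
  obtain ⟨V', F', hF', hN'⟩ := h'
  exact ⟨V.prod V', P.ext V V' F F', (hF.pull (fst V V')).mul (hF'.pull (snd V V')),
    hN.ext hN'⟩

lemma DReal.nsmul {X : SmProjVar k} {S : Multiset P.Lab} (h : DReal X S) {c : ℕ}
    (hc : 1 ≤ c) : DReal X (c • S) := by
  induction c with
  | zero => omega
  | succ c ih =>
    rcases Nat.eq_zero_or_pos c with rfl | hc'
    · rw [zero_add, one_smul]; exact h
    · rw [succ_nsmul]; exact (ih hc').add h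

lemma NV.conj (σ : Ω ≃ₐ[K] Ω) {X V : SmProjVar k} {F : P.H V} (h : NV X V F) :
    NV X V (P.s σ V F) := by
  obtain ⟨A, hA, R, hR, hne⟩ := h
  refine ⟨A, hA, P.s σ _ R, P.rad_s σ hR, ?_⟩
  rw [← contr_s]
  exact (map_ne_zero_iff _ (P.s σ A).injective).mpr hne

lemma DReal.conj (σ : Ω ≃ₐ[K] Ω) {X : SmProjVar k} {S : Multiset P.Lab} (h : DReal X S) :
    DReal X (S.map (Lab.conj σ)) := by
  obtain ⟨V, F, hF, hN⟩ := h
  exact ⟨V, _, hF.conj σ, hN.conj σ⟩

/-- a set of irreducible families, stable under conjugation -/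
structure LabelSet {ι κ : Type*} (G : ι → P.Sym) (T : κ → P.Test) (L : Set P.Lab)
    (lam : P.Lab → κ → Ω) : Prop where
  fam : ∀ l ∈ L, P.FamR G l.V l.n l.e
  eig : ∀ l ∈ L, ∀ (j : κ) (Z : SmProjVar k) (p : Fin l.n → (Z.toOver ⟶ l.V.toOver)),
    (rowDet fun i b => P.pull (p i) (l.e b)) ∈ (T j).E Z (lam l j)
  conj : ∀ l ∈ L, ∀ σ : Ω ≃ₐ[K] Ω, l.conj σ ∈ L
  fin : ∀ l ∈ L, (Set.range fun σ : Ω ≃ₐ[K] Ω => l.conj σ).Finite

/-- stable multisets have algebraic multiples -/
def Relations {κ : Type*} (T : κ → P.Test) (L : Set P.Lab) (lam : P.Lab → κ → Ω) : Prop :=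
  ∀ S : Multiset P.Lab, S ≠ 0 → (∀ l ∈ S, l ∈ L) → (∀ σ, S.map (Lab.conj σ) = S) →
    (∀ j, (S.map fun l => lam l j).prod ∈ (T j).U) →
      ∃ m, 1 ≤ m ∧ ∀ (Z : SmProjVar k) (y : P.H Z), DWord Z y (m • S) → y ∈ P.alg Z

variable {ι κ : Type*} {G : ι → P.Sym} {T : κ → P.Test} {L : Set P.Lab} {lam : P.Lab → κ → Ω}

lemma DWord.mem_E (hL : LabelSet G T L lam) {Z : SmProjVar k} {y : P.H Z}
    {S : Multiset P.Lab} (h : DWord Z y S) (hS : ∀ l ∈ S, l ∈ L) (j : κ) :
    y ∈ (T j).E Z (S.map fun l => lam l j).prod := by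
  induction h with
  | one =>
    rw [Multiset.map_zero, Multiset.prod_zero]
    unfold Test.E
    rw [Module.End.mem_maxGenEigenspace]
    refine ⟨1, ?_⟩
    rw [pow_one, LinearMap.sub_apply, LinearMap.smul_apply, Module.End.one_apply, one_smul]
    exact sub_eq_zero.mpr (map_one ((T j).γ.g Z))
  | cons l p _ ih =>
    rw [Multiset.map_cons, Multiset.prod_cons]
    exact Test.mul_mem_E (hL.eig l (hS l (Multiset.mem_cons_self _ _)) j Z p)
      (ih fun l hl => hS l (Multiset.mem_cons_of_mem hl))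

lemma Lab.conj_conj (hm : ∀ (σ τ : Ω ≃ₐ[K] Ω) X x, P.s (σ * τ) X x = P.s σ X (P.s τ X x))
    (σ τ : Ω ≃ₐ[K] Ω) (l : P.Lab) : (l.conj τ).conj σ = l.conj (σ * τ) := by
  unfold Lab.conj
  congr 1
  funext b
  exact (hm σ τ _ _).symm

/-- the orbit of a multiset is finite -/
lemma finite_orbit (hL : LabelSet G T L lam) (S : Multiset P.Lab) (hS : ∀ l ∈ S, l ∈ L) :
    (Set.range fun σ : Ω ≃ₐ[K] Ω => S.map (Lab.conj σ)).Finite := by
  induction S using Multiset.induction_on with
  | empty =>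
    refine (Set.finite_singleton (0 : Multiset P.Lab)).subset ?_
    rintro _ ⟨σ, rfl⟩
    exact Multiset.map_zero _
  | cons l S ih =>
    have h1 := hL.fin l (hS l (Multiset.mem_cons_self _ _))
    have h2 := ih fun l hl => hS l (Multiset.mem_cons_of_mem hl)
    refine ((h1.prod h2).image fun x => x.1 ::ₘ x.2).subset ?_
    rintro _ ⟨σ, rfl⟩
    exact ⟨(l.conj σ, S.map (Lab.conj σ)), ⟨⟨σ, rfl⟩, ⟨σ, rfl⟩⟩, (Multiset.map_cons _ _ _).symm⟩

/-- the relations exclude non-vanishing contractions -/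
theorem not_dReal [IsAlgClosed Ω]
    (hm : ∀ (σ τ : Ω ≃ₐ[K] Ω) X x, P.s (σ * τ) X x = P.s σ X (P.s τ X x))
    (hL : LabelSet G T L lam) (hR : Relations T L lam) {X : SmProjVar k} (hX : P.DP X)
    (hXT : ∀ j, (T j).Good X) {S : Multiset P.Lab} (hS0 : S ≠ 0) (hS : ∀ l ∈ S, l ∈ L) :
    ¬ DReal X S := by
  classical
  intro hreal
  have hfin := finite_orbit hL S hS
  set O : Finset (Multiset P.Lab) := hfin.toFinset with hO
  have hmemO : ∀ A, A ∈ O ↔ ∃ σ : Ω ≃ₐ[K] Ω, S.map (Lab.conj σ) = A := by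
    intro A
    rw [hO, Set.Finite.mem_toFinset]
    exact Iff.rfl
  have hO0 : O.Nonempty := ⟨_, (hmemO _).mpr ⟨1, rfl⟩⟩
  have hOr : ∀ A ∈ O, DReal X A := by
    intro A hA
    obtain ⟨σ, rfl⟩ := (hmemO A).mp hA
    exact hreal.conj σ
  have hOL : ∀ A ∈ O, ∀ l ∈ A, l ∈ L := by
    intro A hA l hl
    obtain ⟨σ, rfl⟩ := (hmemO A).mp hA
    obtain ⟨l', hl', rfl⟩ := Multiset.mem_map.mp hl
    exact hL.conj l' (hS l' hl') σ
  have hOne : ∀ A ∈ O, A ≠ 0 := by
    intro A hA h0
    obtain ⟨σ, rfl⟩ := (hmemO A).mp hA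
    exact hS0 (Multiset.map_eq_zero.mp h0)
  have h1 : DReal X (∑ A ∈ O, A) :=
    Finset.sum_induction_nonempty _ _ (fun _ _ => DReal.add) hO0 hOr
  have h2 : ∑ A ∈ O, A ≠ 0 := by
    obtain ⟨A, hA⟩ := hO0
    intro h0
    have h3 := Finset.single_le_sum (f := fun A : Multiset P.Lab => A)
      (fun A _ => Multiset.zero_le A) hA
    rw [h0] at h3
    exact hOne A hA (le_antisymm h3 (Multiset.zero_le A))
  have h3 : ∀ l ∈ ∑ A ∈ O, A, l ∈ L := by
    intro l hl
    rw [Multiset.mem_sum] at hl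
    obtain ⟨A, hA, hl⟩ := hl
    exact hOL A hA l hl
  have hcomp : ∀ (σ τ : Ω ≃ₐ[K] Ω) (A : Multiset P.Lab),
      (A.map (Lab.conj τ)).map (Lab.conj σ) = A.map (Lab.conj (σ * τ)) := by
    intro σ τ A
    rw [Multiset.map_map]
    exact Multiset.map_congr rfl fun l _ => Lab.conj_conj hm σ τ l
  have hstab : ∀ (σ : Ω ≃ₐ[K] Ω), ∀ A ∈ O, A.map (Lab.conj σ) ∈ O := by
    intro σ A hA
    obtain ⟨τ, rfl⟩ := (hmemO A).mp hA
    exact (hmemO _).mpr ⟨σ * τ, (hcomp σ τ S).symm⟩
  have hinv : ∀ (σ : Ω ≃ₐ[K] Ω), ∀ A ∈ O, (A.map (Lab.conj σ)).map (Lab.conj σ⁻¹) = A := by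
    intro σ A hA
    obtain ⟨τ, rfl⟩ := (hmemO A).mp hA
    rw [hcomp, hcomp, inv_mul_cancel, one_mul]
  have hinv' : ∀ (σ : Ω ≃ₐ[K] Ω), ∀ A ∈ O, (A.map (Lab.conj σ⁻¹)).map (Lab.conj σ) = A := by
    intro σ A hA
    have := hinv σ⁻¹ A hA
    rwa [inv_inv] at this
  have h4 : ∀ σ : Ω ≃ₐ[K] Ω, (∑ A ∈ O, A).map (Lab.conj σ) = ∑ A ∈ O, A := by
    intro σ
    have h5 : (∑ A ∈ O, A).map (Lab.conj σ) = ∑ A ∈ O, A.map (Lab.conj σ) :=
      map_sum (Multiset.mapAddMonoidHom (Lab.conj σ)) _ _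
    rw [h5]
    exact Finset.sum_nbij' (fun A => A.map (Lab.conj σ)) (fun A => A.map (Lab.conj σ⁻¹))
      (hstab σ) (hstab σ⁻¹) (hinv σ) (hinv' σ) fun A _ => rfl
  have h5 : ∀ j, ((∑ A ∈ O, A).map fun l => lam l j).prod ∈ (T j).U := by
    intro j
    obtain ⟨V, F, hF, A, ⟨c, hA⟩, R, hRr, hne⟩ := h1
    exact Test.mem_of_contr_ne (((hXT j).pow c).retract hA) (hF.mem_E hL h3 j) hRr.1 hne
  obtain ⟨m, hm1, hm2⟩ := hR _ h2 h3 h4 h5
  obtain ⟨V, F, hF, hN⟩ := h1.nsmul hm1
  exact hN.not_alg hX (hm2 V F hF)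

/-- **Main theorem**: contractions with words in the families vanish -/
theorem contr_word_eq_zero_of_relations [CharZero Ω] [IsAlgClosed Ω]
    (hm : ∀ (σ τ : Ω ≃ₐ[K] Ω) X x, P.s (σ * τ) X x = P.s σ X (P.s τ X x))
    (hL : LabelSet G T L lam) (hR : Relations T L lam) {X : SmProjVar k} (hX : P.DP X)
    (hXT : ∀ j, (T j).Good X) {Y : SmProjVar k} {m : ℕ} (l : Fin m → P.Lab)
    (hl : ∀ t, l t ∈ L) (f : ∀ t, Y.toOver ⟶ (l t).V.toOver) (w : Idx fun t => (l t).n)
    {r : P.H (X.prod Y)} (hr : P.rad (X.prod Y) r) :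
    P.contr X Y (word (fun t b => P.pull (f t) ((l t).e b)) w) r = 0 := by
  classical
  rcases Nat.eq_zero_or_pos m with rfl | hm0
  · have h1 : word (fun t b => P.pull (f t) ((l t).e b)) w = 1 := by
      unfold word
      rw [List.ofFn_zero, List.prod_nil]
    rw [h1]
    exact hX 0 _ (contr_rad (P.one_mem Y) hr)
  have hfam : ∀ t, P.FamR G Y (l t).n (fun b => P.pull (f t) ((l t).e b)) := fun t =>
    (hL.fam (l t) (hl t)).pull (f t)
  by_contra hne
  have h1 : ¬ DetZero (P.wordSet X Y fun t b => P.pull (f t) ((l t).e b)) := fun h =>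
    hne (contr_word_of_detZero hm0 _ hfam h hr w)
  unfold DetZero at h1
  push Not at h1
  obtain ⟨N, e, σ, hN, z, hz, h2⟩ := h1
  obtain ⟨N, rfl⟩ : ∃ N', N = N' + 1 := ⟨N - 1, by omega⟩
  have h3 : ∃ r : ℕ → P.H (X.prod Y), (∀ j, P.rad (X.prod Y) (r j)) ∧
      P.contr (X.selfProd N) (Y.selfProd N)
        (detClass (fun t b => P.pull (f t) ((l t).e b)) σ) (P.mixPow X Y N r) ≠ 0 := by
    by_contra h
    push Not at h
    exact h2 (detForm_eq_zero_of _ (fun t => (hfam t).parity) σ h z hz)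
  obtain ⟨r', hr', h4⟩ := h3
  have hcard : ∀ t, e t * (l t).n = N + 1 := by
    intro t
    have h5 := Fintype.card_congr (σ t)
    rwa [Fintype.card_prod, Fintype.card_fin, Fintype.card_fin, Fintype.card_fin] at h5
  have hreal : DReal X (∑ t, e t • ({l t} : Multiset P.Lab)) := by
    refine ⟨Y.selfProd N, _, ?_, X.selfProd N, ⟨N, Retract.refl _⟩, _, mixPow_rad N r' hr', h4⟩
    unfold detClass
    refine DWord.ofFn fun t => ?_
    have h6 : e t • ({l t} : Multiset P.Lab) = ∑ _k : Fin (e t), {l t} := by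
      rw [Finset.sum_const, Finset.card_univ, Fintype.card_fin]
    rw [h6]
    refine DWord.ofFn fun k => ?_
    have h7 : (fun (i : Fin (l t).n) (b : Fin (l t).n) =>
        P.pull (Y.projPow N (σ t (k, i))) (P.pull (f t) ((l t).e b))) =
        fun i b => P.pull (Y.projPow N (σ t (k, i)) ≫ f t) ((l t).e b) := by
      funext i b
      exact pull_pull _ _ _
    rw [h7]
    exact DWord.single (l t) fun i => Y.projPow N (σ t (k, i)) ≫ f t
  refine not_dReal hm hL hR hX hXT ?_ ?_ hreal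
  · intro h0
    have h5 : e ⟨0, hm0⟩ • ({l ⟨0, hm0⟩} : Multiset P.Lab) = 0 := by
      have h6 := Finset.single_le_sum (f := fun t => e t • ({l t} : Multiset P.Lab))
        (fun t _ => Multiset.zero_le _) (Finset.mem_univ (⟨0, hm0⟩ : Fin m))
      rw [h0] at h6
      exact le_antisymm h6 (Multiset.zero_le _)
    have h6 := congrArg Multiset.card h5
    rw [Multiset.card_nsmul, Multiset.card_singleton, Multiset.card_zero, mul_one] at h6
    have h7 := hcard ⟨0, hm0⟩
    rw [h6, zero_mul] at h7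
    omega
  · intro l' hl'
    rw [Multiset.mem_sum] at hl'
    obtain ⟨t, -, ht⟩ := hl'
    have h5 := Multiset.mem_of_mem_nsmul ht
    rw [Multiset.mem_singleton] at h5
    rw [h5]
    exact hl t

/-! ### varieties generated by words -/

variable (L) in
/-- the products of pull-backs of members of the families -/
def lwords (Z : SmProjVar k) : Set (P.H Z) :=
  {w | ∃ (m : ℕ) (l : Fin m → P.Lab) (_ : ∀ t, l t ∈ L) (f : ∀ t, Z.toOver ⟶ (l t).V.toOver)
    (b : Idx fun t => (l t).n), w = word (fun t b => P.pull (f t) ((l t).e b)) b}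

variable (L) in
/-- the cohomology of `Y` is spanned by images of words -/
def GenW (Y : SmProjVar k) : Prop :=
  Submodule.span Ω {y : P.H Y | ∃ (Z V : SmProjVar k) (w : P.H Z) (_ : w ∈ lwords L Z)
    (h : V.toOver ⟶ Z.toOver) (g : V.toOver ⟶ Y.toOver) (c : P.H V) (_ : c ∈ P.alg V),
      y = P.pushF g (P.pull h w * c)} = ⊤

/-- **D for products with everything generated by the families** -/
theorem GenW.prod_d [CharZero Ω] [IsAlgClosed Ω]
    (hm : ∀ (σ τ : Ω ≃ₐ[K] Ω) X x, P.s (σ * τ) X x = P.s σ X (P.s τ X x))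
    (hL : LabelSet G T L lam) (hR : Relations T L lam) {X : SmProjVar k} (hX : P.DP X)
    (hXT : ∀ j, (T j).Good X) {Y : SmProjVar k} (hY : GenW L Y) : P.D (X.prod Y) := by
  intro r hr
  refine eq_zero_of_contr hY fun y hy => ?_
  obtain ⟨Z, V, w, ⟨m, l, hl, f, b, rfl⟩, h, g, c, hc, rfl⟩ := hy
  obtain ⟨r', hr', h1⟩ := exists_contr_map h g hc hr
  rw [h1]
  exact contr_word_eq_zero_of_relations hm hL hR hX hXT l hl f b hr'

end SPre

end Pool.Agent.Helper10
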