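import Mathlib
import Pool.Agent.Helper10.Rel
import Pool.Agent.Helper11.Point

/-!
# The determinant criterion
-/

universe u v w t

open CategoryTheory

namespace Pool.Agent.Helper10

open SmProjVar GIT Helper11

namespace SPre

variable {k : Type u} [Field k] {K : Type t} [Field K] {Ω : Type v} [Field Ω] [Algebra K Ω]
  {P : SPre.{u, v, w, t} k K Ω}

/-- the multiset `S` has a product of determinants with a non-vanishing contraction, on a variety
in the class `C` -/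
def DRealC (C : SmProjVar k → Prop) (X : SmProjVar k) (S : Multiset P.Lab) : Prop :=
  ∃ (V : SmProjVar k) (F : P.H V), C V ∧ DWord V F S ∧ NV X V F

lemma DRealC.add {C : SmProjVar k → Prop} (hC : ∀ V V', C V → C V' → C (V.prod V'))
    {X : SmProjVar k} {S S' : Multiset P.Lab} (h : DRealC C X S) (h' : DRealC C X S') :
    DRealC C X (S + S') := by
  obtain ⟨V, F, hV, hF, hN⟩ := h
  obtain ⟨V', F', hV', hF', hN'⟩ := h'
  exact ⟨V.prod V', P.ext V V' F F', hC V V' hV hV', (hF.pull (fst V V')).mul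
    (hF'.pull (snd V V')), hN.ext hN'⟩

lemma DRealC.conj {C : SmProjVar k → Prop} (σ : Ω ≃ₐ[K] Ω) {X : SmProjVar k}
    {S : Multiset P.Lab} (h : DRealC C X S) : DRealC C X (S.map (Lab.conj σ)) := by
  obtain ⟨V, F, hV, hF, hN⟩ := h
  exact ⟨V, _, hV, hF.conj σ, hN.conj σ⟩

variable {ι κ : Type*} {G : ι → P.Sym} {T : κ → P.Test} {L : Set P.Lab} {lam : P.Lab → κ → Ω}

/-- stable multisets have no non-vanishing contractions on varieties in the class `C` -/
def NoReal (C : SmProjVar k → Prop) (T : κ → P.Test) (L : Set P.Lab) (lam : P.Lab → κ → Ω)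
    (X : SmProjVar k) : Prop :=
  ∀ S : Multiset P.Lab, S ≠ 0 → (∀ l ∈ S, l ∈ L) → (∀ σ, S.map (Lab.conj σ) = S) →
    (∀ j, (S.map fun l => lam l j).prod ∈ (T j).U) → ¬ DRealC C X S

theorem not_dRealC [IsAlgClosed Ω]
    (hm : ∀ (σ τ : Ω ≃ₐ[K] Ω) X x, P.s (σ * τ) X x = P.s σ X (P.s τ X x))
    (hL : LabelSet G T L lam) {C : SmProjVar k → Prop}
    (hC : ∀ V V', C V → C V' → C (V.prod V')) {X : SmProjVar k} (hXT : ∀ j, (T j).Good X)
    (hR : NoReal C T L lam X) {S : Multiset P.Lab} (hS0 : S ≠ 0) (hS : ∀ l ∈ S, l ∈ L) :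
    ¬ DRealC C X S := by
  classical
  intro hreal
  have hfin := finite_orbit hL S hS
  set O : Finset (Multiset P.Lab) := hfin.toFinset with hO
  have hmemO : ∀ A, A ∈ O ↔ ∃ σ : Ω ≃ₐ[K] Ω, S.map (Lab.conj σ) = A := by
    intro A
    rw [hO, Set.Finite.mem_toFinset]
    exact Iff.rfl
  have hO0 : O.Nonempty := ⟨_, (hmemO _).mpr ⟨1, rfl⟩⟩
  have hOr : ∀ A ∈ O, DRealC C X A := by
    intro A hA
    obtain ⟨σ, rfl⟩ := (hmemO A).mp hA
    exact hreal.conj σ
  have hOL : ∀ A ∈ O, ∀ l ∈ A, l ∈ L := by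
    intro A hA l hl
    obtain ⟨σ, rfl⟩ := (hmemO A).mp hA
    obtain ⟨l', hl', rfl⟩ := Multiset.mem_map.mp hl
    exact hL.conj l' (hS l' hl') σ
  have hOne : ∀ A ∈ O, A ≠ 0 := by
    intro A hA h0
    obtain ⟨σ, rfl⟩ := (hmemO A).mp hA
    exact hS0 (Multiset.map_eq_zero.mp h0)
  have h1 : DRealC C X (∑ A ∈ O, A) :=
    Finset.sum_induction_nonempty _ _ (fun _ _ => DRealC.add hC) hO0 hOr
  have h2 : ∑ A ∈ O, A ≠ 0 := by
    obtain ⟨A, hA⟩ := hO0
    intro h0
    have h3 := Finset.single_le_sum (f := fun A : Multiset P.Lab => A)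
      (fun A _ => Multiset.zero_le A) hA
    rw [h0] at h3
    exact hOne A hA (le_antisymm h3 (Multiset.zero_le A))
  have h3 : ∀ l ∈ ∑ A ∈ O, A, l ∈ L := by
    intro l hl
    rw [Multiset.mem_sum] at hl
    obtain ⟨A, hA, hl⟩ := hl
    exact hOL A hA l hl
  have hcomp : ∀ (σ τ : Ω ≃ₐ[K] Ω) (A : Multiset P.Lab),
      (A.map (Lab.conj τ)).map (Lab.conj σ) = A.map (Lab.conj (σ * τ)) := by
    intro σ τ A
    rw [Multiset.map_map]
    exact Multiset.map_congr rfl fun l _ => Lab.conj_conj hm σ τ l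
  have hstab : ∀ (σ : Ω ≃ₐ[K] Ω), ∀ A ∈ O, A.map (Lab.conj σ) ∈ O := by
    intro σ A hA
    obtain ⟨τ, rfl⟩ := (hmemO A).mp hA
    exact (hmemO _).mpr ⟨σ * τ, (hcomp σ τ S).symm⟩
  have hinv : ∀ (σ : Ω ≃ₐ[K] Ω), ∀ A ∈ O, (A.map (Lab.conj σ)).map (Lab.conj σ⁻¹) = A := by
    intro σ A hA
    obtain ⟨τ, rfl⟩ := (hmemO A).mp hA
    rw [hcomp, hcomp, inv_mul_cancel, one_mul]
  have hinv' : ∀ (σ : Ω ≃ₐ[K] Ω), ∀ A ∈ O, (A.map (Lab.conj σ⁻¹)).map (Lab.conj σ) = A := by
    intro σ A hA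
    have := hinv σ⁻¹ A hA
    rwa [inv_inv] at this
  have h4 : ∀ σ : Ω ≃ₐ[K] Ω, (∑ A ∈ O, A).map (Lab.conj σ) = ∑ A ∈ O, A := by
    intro σ
    have h5 : (∑ A ∈ O, A).map (Lab.conj σ) = ∑ A ∈ O, A.map (Lab.conj σ) :=
      map_sum (Multiset.mapAddMonoidHom (Lab.conj σ)) _ _
    rw [h5]
    exact Finset.sum_nbij' (fun A => A.map (Lab.conj σ)) (fun A => A.map (Lab.conj σ⁻¹))
      (hstab σ) (hstab σ⁻¹) (hinv σ) (hinv' σ) fun A _ => rfl
  have h5 : ∀ j, ((∑ A ∈ O, A).map fun l => lam l j).prod ∈ (T j).U := by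
    intro j
    obtain ⟨V, F, -, hF, A, ⟨c, hA⟩, R, hRr, hne⟩ := h1
    exact Test.mem_of_contr_ne (((hXT j).pow c).retract hA) (hF.mem_E hL h3 j) hRr.1 hne
  exact hR _ h2 h3 h4 h5 h1

/-- contractions with words in the families vanish, on varieties the powers of which are in the
class `C` -/
theorem contr_word_eq_zero_of_noReal [CharZero Ω] [IsAlgClosed Ω]
    (hm : ∀ (σ τ : Ω ≃ₐ[K] Ω) X x, P.s (σ * τ) X x = P.s σ X (P.s τ X x))
    (hL : LabelSet G T L lam) {C : SmProjVar k → Prop}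
    (hC : ∀ V V', C V → C V' → C (V.prod V')) {X : SmProjVar k} (hX : P.D X)
    (hXT : ∀ j, (T j).Good X) (hR : NoReal C T L lam X)
    {Y : SmProjVar k} (hY : C Y) {m : ℕ} (l : Fin m → P.Lab)
    (hl : ∀ t, l t ∈ L) (f : ∀ t, Y.toOver ⟶ (l t).V.toOver) (w : Idx fun t => (l t).n)
    {r : P.H (X.prod Y)} (hr : P.rad (X.prod Y) r) :
    P.contr X Y (word (fun t b => P.pull (f t) ((l t).e b)) w) r = 0 := by
  classical
  rcases Nat.eq_zero_or_pos m with rfl | hm0
  · have h1 : word (fun t b => P.pull (f t) ((l t).e b)) w = 1 := by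
      unfold word
      rw [List.ofFn_zero, List.prod_nil]
    rw [h1]
    exact hX _ (contr_rad (P.one_mem Y) hr)
  have hfam : ∀ t, P.FamR G Y (l t).n (fun b => P.pull (f t) ((l t).e b)) := fun t =>
    (hL.fam (l t) (hl t)).pull (f t)
  by_contra hne
  have h1 : ¬ DetZero (P.wordSet X Y fun t b => P.pull (f t) ((l t).e b)) := fun h =>
    hne (contr_word_of_detZero hm0 _ hfam h hr w)
  unfold DetZero at h1
  push Not at h1
  obtain ⟨N, e, σ, hN, z, hz, h2⟩ := h1
  obtain ⟨N, rfl⟩ : ∃ N', N = N' + 1 := ⟨N - 1, by omega⟩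
  have h3 : ∃ r : ℕ → P.H (X.prod Y), (∀ j, P.rad (X.prod Y) (r j)) ∧
      P.contr (X.selfProd N) (Y.selfProd N)
        (detClass (fun t b => P.pull (f t) ((l t).e b)) σ) (P.mixPow X Y N r) ≠ 0 := by
    by_contra h
    push Not at h
    exact h2 (detForm_eq_zero_of _ (fun t => (hfam t).parity) σ h z hz)
  obtain ⟨r', hr', h4⟩ := h3
  have hcard : ∀ t, e t * (l t).n = N + 1 := by
    intro t
    have h5 := Fintype.card_congr (σ t)
    rwa [Fintype.card_prod, Fintype.card_fin, Fintype.card_fin, Fintype.card_fin] at h5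
  have hYN : ∀ N, C (Y.selfProd N) := by
    intro N
    induction N with
    | zero => exact hY
    | succ N ih => exact hC _ _ ih hY
  have hreal : DRealC C X (∑ t, e t • ({l t} : Multiset P.Lab)) := by
    refine ⟨Y.selfProd N, _, hYN N, ?_, X.selfProd N, ⟨N, Retract.refl _⟩, _,
      mixPow_rad N r' hr', h4⟩
    unfold detClass
    refine DWord.ofFn fun t => ?_
    have h6 : e t • ({l t} : Multiset P.Lab) = ∑ _k : Fin (e t), {l t} := by
      rw [Finset.sum_const, Finset.card_univ, Fintype.card_fin]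
    rw [h6]
    refine DWord.ofFn fun k => ?_
    have h7 : (fun (i : Fin (l t).n) (b : Fin (l t).n) =>
        P.pull (Y.projPow N (σ t (k, i))) (P.pull (f t) ((l t).e b))) =
        fun i b => P.pull (Y.projPow N (σ t (k, i)) ≫ f t) ((l t).e b) := by
      funext i b
      exact pull_pull _ _ _
    rw [h7]
    exact DWord.single (l t) fun i => Y.projPow N (σ t (k, i)) ≫ f t
  refine not_dRealC hm hL hC hXT hR ?_ ?_ hreal
  · intro h0
    have h5 : e ⟨0, hm0⟩ • ({l ⟨0, hm0⟩} : Multiset P.Lab) = 0 := by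
      have h6 := Finset.single_le_sum (f := fun t => e t • ({l t} : Multiset P.Lab))
        (fun t _ => Multiset.zero_le _) (Finset.mem_univ (⟨0, hm0⟩ : Fin m))
      rw [h0] at h6
      exact le_antisymm h6 (Multiset.zero_le _)
    have h6 := congrArg Multiset.card h5
    rw [Multiset.card_nsmul, Multiset.card_singleton, Multiset.card_zero, mul_one] at h6
    have h7 := hcard ⟨0, hm0⟩
    rw [h6, zero_mul] at h7
    omega
  · intro l' hl'
    rw [Multiset.mem_sum] at hl'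
    obtain ⟨t, -, ht⟩ := hl'
    have h5 := Multiset.mem_of_mem_nsmul ht
    rw [Multiset.mem_singleton] at h5
    rw [h5]
    exact hl t

/-- morphisms to finitely many varieties factor through a product -/
lemma exists_universal {C : SmProjVar k → Prop} (hC : ∀ V V', C V → C V' → C (V.prod V'))
    (hpt : C (pt k)) {m : ℕ} (V : Fin m → SmProjVar k) (hV : ∀ t, C (V t)) {Z : SmProjVar k}
    (f : ∀ t, Z.toOver ⟶ (V t).toOver) :
    ∃ (Z₁ : SmProjVar k) (_ : C Z₁) (F : Z.toOver ⟶ Z₁.toOver)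
      (q : ∀ t, Z₁.toOver ⟶ (V t).toOver), ∀ t, F ≫ q t = f t := by
  induction m with
  | zero => exact ⟨pt k, hpt, toPt k Z, fun t => t.elim0, fun t => t.elim0⟩
  | succ m ih =>
    obtain ⟨Z₁, hZ₁, F, q, hq⟩ := ih (fun t => V t.succ) (fun t => hV _) fun t => f t.succ
    refine ⟨(V 0).prod Z₁, hC _ _ (hV 0) hZ₁, lift (f 0) F,
      Fin.cons (fst (V 0) Z₁) (fun t => snd (V 0) Z₁ ≫ q t), fun t => ?_⟩
    refine Fin.cases ?_ (fun t => ?_) t
    · rw [Fin.cons_zero, lift_fst]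
    · rw [Fin.cons_succ, ← Category.assoc, lift_snd, hq]

/-- **D for products with everything generated by the families** -/
theorem GenW.prod_dC [CharZero Ω] [IsAlgClosed Ω]
    (hm : ∀ (σ τ : Ω ≃ₐ[K] Ω) X x, P.s (σ * τ) X x = P.s σ X (P.s τ X x))
    (hL : LabelSet G T L lam) {C : SmProjVar k → Prop}
    (hC : ∀ V V', C V → C V' → C (V.prod V')) (hpt : C (pt k)) (hV : ∀ l ∈ L, C l.V)
    {X : SmProjVar k} (hX : P.D X) (hXT : ∀ j, (T j).Good X) (hR : NoReal C T L lam X)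
    {Y : SmProjVar k} (hY : GenW L Y) : P.D (X.prod Y) := by
  intro r hr
  refine eq_zero_of_contr hY fun y hy => ?_
  obtain ⟨Z, V, w, ⟨m, l, hl, f, b, rfl⟩, h, g, c, hc, rfl⟩ := hy
  obtain ⟨r', hr', h1⟩ := exists_contr_map h g hc hr
  rw [h1]
  obtain ⟨Z₁, hZ₁, F, q, hq⟩ := exists_universal hC hpt (fun t => (l t).V)
    (fun t => hV _ (hl t)) f
  have h2 : word (fun t b => P.pull (f t) ((l t).e b)) b =
      P.pull F (word (fun t b => P.pull (q t) ((l t).e b)) b) := by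
    unfold word
    rw [map_list_prod, List.map_ofFn]
    congr 2
    funext t
    change _ = P.pull F (P.pull (q t) ((l t).e (b t)))
    rw [pull_pull, hq]
  rw [h2, contr_pull]
  exact contr_word_eq_zero_of_noReal hm hL hC hX hXT hR hZ₁ l hl q b (pushF_rad _ hr')

/-! ### words and products -/

lemma mem_lwords_iff {Z : SmProjVar k} {w : P.H Z} : w ∈ lwords L Z ↔
    w ∈ Submonoid.closure {y : P.H Z | ∃ l ∈ L, ∃ (f : Z.toOver ⟶ l.V.toOver) (b : Fin l.n),
      y = P.pull f (l.e b)} := by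
  constructor
  · rintro ⟨m, l, hl, f, b, rfl⟩
    unfold word
    refine Submonoid.list_prod_mem _ fun x hx => ?_
    rw [List.mem_ofFn] at hx
    obtain ⟨t, rfl⟩ := hx
    exact Submonoid.subset_closure ⟨l t, hl t, f t, b t, rfl⟩
  · intro hw
    obtain ⟨x, hx, rfl⟩ := Submonoid.exists_list_of_mem_closure hw
    have h2 : ∀ i : Fin x.length, ∃ a ∈ L, ∃ (f : Z.toOver ⟶ a.V.toOver) (b : Fin a.n),
        x.get i = P.pull f (a.e b) := fun i => hx _ (List.get_mem x i)
    choose a ha f b hb using h2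
    refine ⟨x.length, a, ha, f, b, ?_⟩
    have h3 : (fun t => P.pull (f t) ((a t).e (b t))) = x.get := by
      funext t
      exact (hb t).symm
    have h4 : x.prod = (List.ofFn x.get).prod := by rw [List.ofFn_get]
    refine h4.trans ?_
    rw [← h3]
    rfl

lemma lwords_one (Z : SmProjVar k) : (1 : P.H Z) ∈ lwords L Z :=
  mem_lwords_iff.mpr (Submonoid.one_mem _)

lemma lwords_mul {Z : SmProjVar k} {w w' : P.H Z} (hw : w ∈ lwords L Z) (hw' : w' ∈ lwords L Z) :
    w * w' ∈ lwords L Z :=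
  mem_lwords_iff.mpr (Submonoid.mul_mem _ (mem_lwords_iff.mp hw) (mem_lwords_iff.mp hw'))

lemma lwords_pull {Z Z' : SmProjVar k} (g : Z'.toOver ⟶ Z.toOver) {w : P.H Z}
    (hw : w ∈ lwords L Z) : P.pull g w ∈ lwords L Z' := by
  rw [mem_lwords_iff] at hw ⊢
  induction hw using Submonoid.closure_induction with
  | mem x hx =>
    obtain ⟨l, hl, f, b, rfl⟩ := hx
    refine Submonoid.subset_closure ⟨l, hl, g ≫ f, b, ?_⟩
    rw [pull_pull]
  | one => rw [map_one]; exact Submonoid.one_mem _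
  | mul x y _ _ hx hy => rw [map_mul (P.pull g)]; exact Submonoid.mul_mem _ hx hy

/-- images of words, in terms of correspondences -/
lemma exists_corr {Z V Y : SmProjVar k} (w : P.H Z) (h : V.toOver ⟶ Z.toOver)
    (g : V.toOver ⟶ Y.toOver) (c : P.H V) (hc : c ∈ P.alg V) :
    ∃ c' ∈ P.alg (Y.prod Z), P.pushF g (P.pull h w * c) =
      P.pushF (fst Y Z) (P.pull (snd Y Z) w * c') := by
  refine ⟨P.pushF (lift g h) c, pushF_mem _ hc, ?_⟩
  refine eq_of_tr fun x => ?_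
  rw [tr_pushF, tr_pushF]
  have h1 : P.pull (snd Y Z) w * P.pushF (lift g h) c * P.pull (fst Y Z) x =
      P.pushF (lift g h) c * (P.pull (snd Y Z) w * P.pull (fst Y Z) x) := by
    rw [← P.ev_comm _ (P.pushF (lift g h) c) _ (pushF_ev _ (P.alg_le_ev _ hc)), mul_assoc]
  rw [h1, tr_pushF, map_mul (P.pull _), pull_pull, pull_pull, lift_fst, lift_snd,
    ← P.ev_comm _ c _ (P.alg_le_ev _ hc), mul_assoc]

lemma GenW.prod {Y Y' : SmProjVar k} (hY : GenW L Y) (hY' : GenW L Y') : GenW L (Y.prod Y') := by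
  unfold GenW
  rw [eq_top_iff, ← P.span_ext_sets Y Y' _ _ hY hY']
  refine Submodule.span_mono ?_
  rintro _ ⟨y, ⟨Z, V, w, hw, h, g, c, hc, rfl⟩, y', ⟨Z', V', w', hw', h', g', c', hc', rfl⟩, rfl⟩
  obtain ⟨d, hd, e1⟩ := exists_corr w h g c hc
  obtain ⟨d', hd', e2⟩ := exists_corr w' h' g' c' hc'
  refine ⟨Z.prod Z', (Y.prod Y').prod (Z.prod Z'), P.ext Z Z' w w',
    lwords_mul (lwords_pull _ hw) (lwords_pull _ hw'), snd _ _, fst _ _,
    P.pull (p13 Y Y' Z Z') d * P.pull (p24 Y Y' Z Z') d',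
    P.mul_mem _ _ _ (P.pull_mem _ _ hd) (P.pull_mem _ _ hd'), ?_⟩
  rw [e1, e2, ← pushF_four]
  congr 1
  have e3 : P.pull (snd (Y.prod Y') (Z.prod Z')) (P.ext Z Z' w w') =
      P.pull (p13 Y Y' Z Z') (P.pull (snd Y Z) w) *
        P.pull (p24 Y Y' Z Z') (P.pull (snd Y' Z') w') := by
    rw [ext, map_mul (P.pull _), pull_pull, pull_pull, pull_pull, pull_pull, p13, p24,
      lift_snd, lift_snd]
  have e4 : P.pull (p13 Y Y' Z Z') d * P.pull (p24 Y Y' Z Z') (P.pull (snd Y' Z') w') =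
      P.pull (p24 Y Y' Z Z') (P.pull (snd Y' Z') w') * P.pull (p13 Y Y' Z Z') d :=
    P.ev_comm _ _ _ (P.pull_ev _ _ (P.alg_le_ev _ hd))
  rw [e3, map_mul (P.pull _), map_mul (P.pull _)]
  have e5 : P.pull (p13 Y Y' Z Z') (P.pull (snd Y Z) w) * P.pull (p13 Y Y' Z Z') d *
      (P.pull (p24 Y Y' Z Z') (P.pull (snd Y' Z') w') * P.pull (p24 Y Y' Z Z') d') =
      P.pull (p13 Y Y' Z Z') (P.pull (snd Y Z) w) * (P.pull (p13 Y Y' Z Z') d *
      P.pull (p24 Y Y' Z Z') (P.pull (snd Y' Z') w')) * P.pull (p24 Y Y' Z Z') d' := by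
    noncomm_ring
  rw [e5, e4]
  noncomm_ring

/-- contraction and pull-back in the first factor -/
lemma contr_pull_fst {A A' V : SmProjVar k} (p : A'.toOver ⟶ A.toOver) (F : P.H V)
    (R : P.H (A.prod V)) :
    P.contr A' V F (P.pull (lift (fst A' V ≫ p) (snd A' V)) R) = P.pull p (P.contr A V F R) := by
  have hr : R ∈ Submodule.span Ω
      {z : P.H (A.prod V) | ∃ x y, z = P.pull (fst A V) x * P.pull (snd A V) y} := by
    rw [P.span_ext]; trivial
  induction hr using Submodule.span_induction with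
  | mem r hr =>
    obtain ⟨a, b, rfl⟩ := hr
    have h1 : P.pull (lift (fst A' V ≫ p) (snd A' V)) (P.pull (fst A V) a * P.pull (snd A V) b) =
        P.ext A' V (P.pull p a) b := by
      rw [map_mul (P.pull _), pull_pull, pull_pull, lift_fst, lift_snd, SPre.ext, pull_pull]
    rw [h1, contr_ext]
    have h2 := contr_ext A V F a b
    unfold ext at h2
    rw [h2, map_smul (P.pull p)]
  | zero => rw [map_zero, map_zero, map_zero, map_zero]
  | add x y _ _ hx hy => rw [map_add, map_add, map_add, map_add, hx, hy]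
  | smul a x _ hx => rw [map_smul, map_smul, map_smul, map_smul, hx]

lemma NV.exists_pow {X V : SmProjVar k} {F : P.H V} (h : NV X V F) :
    ∃ (c : ℕ) (R : P.H ((X.selfProd c).prod V)), P.rad _ R ∧
      P.contr (X.selfProd c) V F R ≠ 0 := by
  obtain ⟨A, ⟨c, i, p, hip⟩, R, hR, hne⟩ := h
  refine ⟨c, P.pull (lift (fst _ V ≫ p) (snd _ V)) R, rad_pull _ hR, ?_⟩
  rw [contr_pull_fst]
  have hinj : Function.Injective (P.pull p) := by
    refine Function.LeftInverse.injective (g := P.pull i) fun x => ?_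
    rw [pull_pull, hip, P.pull_id]
    rfl
  exact (map_ne_zero_iff _ hinj).mpr hne

end SPre

end Pool.Agent.Helper10
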