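import Mathlib
import Pool.Agent.Helper10.StableTypes
import Pool.Agent.Helper11.RatTypes

/-!
# Varieties of rational stable type
-/

universe u v w t

open CategoryTheory TensorProduct

namespace Pool.Agent.Helper10

open SmProjVar

section Algebra

variable {Ω : Type t} [Field Ω] {E : Type w} [Ring E] [Algebra Ω E]

/-- A finite family of elements of `E` (with the number of its members). -/
abbrev FinFamily (E : Type w) : Type w := Σ m : ℕ, (Fin m → E)

/-- `w` is the product, in order, of one member of each family of the list. -/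
def IsWordOf : List (FinFamily E) → E → Prop
  | [], w => w = 1
  | e :: l, w => ∃ (b : Fin e.1) (w' : E), IsWordOf l w' ∧ w = e.2 b * w'

/-- `w` is a generalised eigenvector of the map `T` for the eigenvalue `c` (or `0`). -/
def IsGenEigenvector (T : E → E) (c : Ω) (w : E) : Prop :=
  ∃ N : ℕ, (fun x => T x - c • x)^[N] w = 0

/-- The `Ω`-vector space `E` is spanned by the set `S`. -/
def Spans (Ω : Type t) [Field Ω] {E : Type w} [Ring E] [Algebra Ω E] (S : Set E) : Prop :=
  Submodule.span Ω S = ⊤

end Algebra

namespace WeilCohomology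

variable {k : Type u} [Field k] {K : Type v} [Field K] [CharZero K]
  (W : WeilCohomology.{u, v, w} k K) (Ω : Type t) [Field Ω] [Algebra K Ω]

/-- The trace of a product of two elements of `Ω ⊗ H(X)`. -/
noncomputable def trMulT (X : SmProjVar k) (x y : W.HΩ Ω X) : Ω := W.trT Ω X (x * y)

/-- The trace of `p^* x ∪ (1 ⊗ c) ∪ q^* y`, where `p` and `q` are the projections of `X × X`. -/
noncomputable def trCorrT (X : SmProjVar k) (c : W.H (X.prod X)) (x y : W.HΩ Ω X) : Ω :=
  W.trMulT Ω (X.prod X) (W.pullT Ω (fst X X) x * (1 ⊗ₜ[K] c)) (W.pullT Ω (snd X X) y)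

/-- The map `T` on `Ω ⊗ H(X)` is `x ↦ q_* (p^* x ∪ c)` for an element `c` of the group generated by
the classes of algebraic cycles on `X × X`, where `p` and `q` are the projections and `q_*` is the
Poincaré dual of `q^*`. -/
def IsIntegralMapT (X : SmProjVar k) (T : W.HΩ Ω X → W.HΩ Ω X) : Prop :=
  ∃ c ∈ Helper11.cycleGroup W.toCohomologyData (X.prod X), ∀ x y : W.HΩ Ω X,
    W.trMulT Ω X (T x) y = W.trCorrT Ω X c x y

/-- The family `e_0, …, e_{m-1}` in `Ω ⊗ H(X)` consists of even or of odd elements, and it is
absolutely irreducible under the set `G` of symmetries. -/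
def Admissible (G : Set (∀ X : SmProjVar k, W.HΩ Ω X → W.HΩ Ω X)) (X : SmProjVar k)
    (e : FinFamily (W.HΩ Ω X)) : Prop :=
  W.ParityFamily Ω X e.2 ∧ W.IrreducibleFamily Ω G X e.2

/-- All the members of the families `e` and `f` in `Ω ⊗ H(X)` are even, or all of them are odd. -/
def SameParity (X : SmProjVar k) {m : ℕ} (e f : Fin m → W.HΩ Ω X) : Prop :=
  ∃ p, ∀ b, InExtension (parityPart (W.gr X) p) (e b) ∧ InExtension (parityPart (W.gr X) p) (f b)

/-- The families `e` and `f` in `Ω ⊗ H(X)` are of the same parity, and dual by an algebraic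
correspondence: for some invertible matrix `B`, the class `∑ B_{ab} e_a × f_b` on `X × X` is a
linear combination of classes of algebraic cycles. -/
def DualFamilies (X : SmProjVar k) {m : ℕ} (e f : Fin m → W.HΩ Ω X) : Prop :=
  W.SameParity Ω X e f ∧ ∃ B : Matrix (Fin m) (Fin m) Ω, B.det ≠ 0 ∧
    W.IsAlg Ω (X.prod X) (bilinear B (fun a => W.pullT Ω (fst X X) (e a))
      fun b => W.pullT Ω (snd X X) (f b))

/-- The product of the determinants of the families `e_0, …, e_n`, with `m` members each, is
algebraic: for all varieties `Z` and all morphisms `p_{ji} : Z → X` (`j ≤ n`, `i < m`), the class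
`∏_j ∑_π sgn(π) ∏_i p_{ji}^* e_j(π i)` on `Z` is a linear combination of classes of algebraic
cycles. -/
def DetProductAlgebraic (X : SmProjVar k) {n m : ℕ} (e : Fin (n + 1) → Fin m → W.HΩ Ω X) : Prop :=
  ∀ (Z : SmProjVar k) (p : Fin (n + 1) → Fin m → (Z.toOver ⟶ X.toOver)),
    W.IsAlg Ω Z (ordProd fun j => rowDet fun i b => W.pullT Ω (p j i) (e j b))

/-- The families `a 0, …, a n` in `Ω ⊗ H(X)` are complementary: they have the same number of
members, and either the product of their determinants is algebraic, or there are two of them and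
they are dual by an algebraic correspondence. -/
def Complementary (X : SmProjVar k) {n : ℕ} (a : Fin (n + 1) → FinFamily (W.HΩ Ω X)) : Prop :=
  ∃ (m : ℕ) (e : Fin (n + 1) → Fin m → W.HΩ Ω X), (∀ j, a j = ⟨m, e j⟩) ∧
    (W.DetProductAlgebraic Ω X e ∨ (n = 1 ∧ W.DualFamilies Ω X (e 0) (e (Fin.last n))))

/-- Up to the order of their entries, the lists `l 0, …, l n` consist of complementary families: the
`i`-th entries of the reordered lists are complementary, for all `i`. -/
def MatchedLists (X : SmProjVar k) {n : ℕ} (l : Fin (n + 1) → List (FinFamily (W.HΩ Ω X))) :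
    Prop :=
  ∃ (r : ℕ) (a : Fin r → Fin (n + 1) → FinFamily (W.HΩ Ω X)),
    (∀ j, (l j).Perm (List.ofFn fun i => a i j)) ∧ ∀ i, W.Complementary Ω X (a i)

/-- `X` is of rational stable type for the automorphisms `σ_0, …, σ_n` of the field `Ω` (which need
not fix `K`), the set `G` of symmetries and the bound `M`: there are an integral algebraic
correspondence `T` on `X` and, for every `c ∈ Ω`, a set `S c` of lists of families in `Ω ⊗ H(X)`,
such that
* the families are absolutely irreducible under `G` and have at most `M` members, and the products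
of one member of each family of a list in `S c` are generalised eigenvectors of `T` for the
eigenvalue `c`;
* these products, for all `c`, span `Ω ⊗ H(X)`;
* if the list `l j` is in `S (σ_j c)` for `j = 0, …, n`, then the lists `l 0, …, l n` consist, up to
the order of their entries, of complementary families. -/
def RationalStableType (n : ℕ) (σ : ℕ → (Ω ≃+* Ω))
    (G : Set (∀ X : SmProjVar k, W.HΩ Ω X → W.HΩ Ω X)) (M : ℕ) (X : SmProjVar k) : Prop :=
  ∃ (T : W.HΩ Ω X → W.HΩ Ω X) (S : Ω → Set (List (FinFamily (W.HΩ Ω X)))),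
    W.IsIntegralMapT Ω X T ∧
    (∀ c, ∀ l ∈ S c, (∀ e ∈ l, W.Admissible Ω G X e ∧ e.1 ≤ M) ∧
      ∀ w, IsWordOf l w → IsGenEigenvector T c w) ∧
    Spans Ω {w | ∃ c, ∃ l ∈ S c, IsWordOf l w} ∧
    ∀ c, ∀ l : Fin (n + 1) → List (FinFamily (W.HΩ Ω X)), (∀ j : Fin (n + 1), l j ∈ S (σ j c)) →
      W.MatchedLists Ω X l

/-- `Y` is a finite product of varieties of rational stable type, or the product of such a product
and a variety `V` such that `V ^ (n + 1)` and, in case `M ≠ 1`, all powers of `V` satisfy the
standard conjecture D. -/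
def RationalStableRelativeType (n : ℕ) (σ : ℕ → (Ω ≃+* Ω))
    (G : Set (∀ X : SmProjVar k, W.HΩ Ω X → W.HΩ Ω X)) (M : ℕ) (Y : SmProjVar k) : Prop :=
  ∃ P, ProductsOf (W.RationalStableType Ω n σ G M) P ∧
    (Y = P ∨ ∃ V : SmProjVar k, W.StandardD (V.selfProd n) ∧
      (M ≠ 1 → ∀ m, W.StandardD (V.selfProd m)) ∧ Y = V.prod P)

end WeilCohomology

end Pool.Agent.Helper10
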