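import Mathlib
import Pool.Agent.Helper10.RatStableTypes

/-!
# Relations between the determinants of irreducible families
-/

universe u v w t

open CategoryTheory TensorProduct

namespace Pool.Agent.Helper10

open SmProjVar

namespace WeilCohomology

variable {k : Type u} [Field k] {K : Type v} [Field K] [CharZero K]

/-- A finite family `e_0, …, e_{n-1}` of elements of `Ω ⊗ H(V)`, for some variety `V`. -/
structure ClassFamily (W : WeilCohomology.{u, v, w} k K) (Ω : Type t) [Field Ω] [Algebra K Ω] where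
  /-- the variety -/
  V : SmProjVar k
  /-- the number of members -/
  n : ℕ
  /-- the members -/
  e : Fin n → W.HΩ Ω V

/-- A family of maps `Ω ⊗ H(X) → Ω ⊗ H(X)`, for all varieties `X`. -/
abbrev Operator (W : WeilCohomology.{u, v, w} k K) (Ω : Type t) [Field Ω] [Algebra K Ω] :=
  ∀ X : SmProjVar k, W.HΩ Ω X → W.HΩ Ω X

variable (W : WeilCohomology.{u, v, w} k K) (Ω : Type t) [Field Ω] [Algebra K Ω]

variable {W Ω} in
/-- The conjugate of a family by an automorphism of `Ω` over `K`. -/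
noncomputable def ClassFamily.conj (σ : Ω ≃ₐ[K] Ω) (a : ClassFamily W Ω) : ClassFamily W Ω :=
  ⟨a.V, a.n, fun b => conjT σ (a.e b)⟩

/-- The determinant `∑_π sgn(π) p_0^* e_{π 0} ⋯ p_{n-1}^* e_{π (n-1)}` on `Z` of the family
`e_0, …, e_{n-1}` on `V`, for morphisms `p_0, …, p_{n-1} : Z → V`. -/
noncomputable def detOn (a : ClassFamily W Ω) (Z : SmProjVar k)
    (p : Fin a.n → (Z.toOver ⟶ a.V.toOver)) : W.HΩ Ω Z :=
  rowDet fun i b => W.pullT Ω (p i) (a.e b)

/-- `y` is a product of determinants on `Z` of the families of the multiset `S`, in some order,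
for some choices of morphisms. -/
inductive DetProduct (Z : SmProjVar k) : W.HΩ Ω Z → Multiset (ClassFamily W Ω) → Prop
  | one : DetProduct Z 1 0
  | cons (a : ClassFamily W Ω) (p : Fin a.n → (Z.toOver ⟶ a.V.toOver)) (y : W.HΩ Ω Z)
      (S : Multiset (ClassFamily W Ω)) :
      DetProduct Z y S → DetProduct Z (W.detOn Ω a Z p * y) (a ::ₘ S)

/-- `L` is a set of families of even or of odd classes, absolutely irreducible under the set `G` of
symmetries, stable under conjugation, such that the determinants of the families are generalised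
eigenvectors of the operators `h ∈ T`, with eigenvalues `lam`. -/
structure IsFamilySystem (G T : Set (Operator W Ω)) (L : Set (ClassFamily W Ω))
    (lam : ClassFamily W Ω → Operator W Ω → Ωˣ) : Prop where
  parity : ∀ a ∈ L, W.ParityFamily Ω a.V a.e
  irreducible : ∀ a ∈ L, W.IrreducibleFamily Ω G a.V a.e
  eigen : ∀ a ∈ L, ∀ h ∈ T, ∀ (Z : SmProjVar k) (p : Fin a.n → (Z.toOver ⟶ a.V.toOver)),
    IsGenEigenvector (h Z) (lam a h : Ω) (W.detOn Ω a Z p)
  conj : ∀ a ∈ L, ∀ σ : Ω ≃ₐ[K] Ω, a.conj σ ∈ L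

/-- Every non-empty multiset `S` of families in `L` which is stable under conjugation, and for
which the product of the eigenvalues of `h` is in `U h` for all `h ∈ T`, has a multiple `m • S`,
`m ≥ 1`, all of whose products of determinants are algebraic. -/
def InvariantDeterminantsAlgebraic (T : Set (Operator W Ω)) (L : Set (ClassFamily W Ω))
    (lam : ClassFamily W Ω → Operator W Ω → Ωˣ) (U : Operator W Ω → Subgroup Ωˣ) : Prop :=
  ∀ S : Multiset (ClassFamily W Ω), S ≠ 0 → (∀ a ∈ S, a ∈ L) →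
    (∀ σ : Ω ≃ₐ[K] Ω, S.map (ClassFamily.conj σ) = S) →
    (∀ h ∈ T, (S.map fun a => lam a h).prod ∈ U h) →
    ∃ m : ℕ, 1 ≤ m ∧ ∀ (Z : SmProjVar k) (y : W.HΩ Ω Z), W.DetProduct Ω Z y (m • S) →
      W.IsAlg Ω Z y

/-- The products of pull-backs, under morphisms `Z → V`, of members of families in `L`. -/
def wordsOn (L : Set (ClassFamily W Ω)) (Z : SmProjVar k) : Set (W.HΩ Ω Z) :=
  Submonoid.closure {y | ∃ a ∈ L, ∃ (f : Z.toOver ⟶ a.V.toOver) (b : Fin a.n),
    y = W.pullT Ω f (a.e b)}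

/-- `y ∈ Ω ⊗ H(Y)` is the image of `z ∈ Ω ⊗ H(Z)` under an algebraic correspondence:
`y = q_* (p^* z ∪ c)` for an `Ω`-linear combination `c` of classes of algebraic cycles on `Z × Y`,
where `p` and `q` are the projections and `q_*` is the Poincaré dual of `q^*`. -/
def IsImage (Z Y : SmProjVar k) (z : W.HΩ Ω Z) (y : W.HΩ Ω Y) : Prop :=
  ∃ c, W.IsAlg Ω (Z.prod Y) c ∧ ∀ x, W.trMulT Ω Y y x =
    W.trMulT Ω (Z.prod Y) (W.pullT Ω (fst Z Y) z * c) (W.pullT Ω (snd Z Y) x)

/-- `Ω ⊗ H(Y)` is spanned by the images, under algebraic correspondences, of products of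
pull-backs of members of families in `L`. -/
def SpannedByWords (L : Set (ClassFamily W Ω)) (Y : SmProjVar k) : Prop :=
  Spans Ω {y | ∃ (Z : SmProjVar k) (z : W.HΩ Ω Z), z ∈ W.wordsOn Ω L Z ∧ W.IsImage Ω Z Y z y}

/-- The eigenvalues of `h` on `Ω ⊗ H(X)` are in `U`. -/
def EigenvaluesIn (h : Operator W Ω) (U : Subgroup Ωˣ) (X : SmProjVar k) : Prop :=
  ∀ (c : Ω) (y : W.HΩ Ω X), y ≠ 0 → h X y = c • y → ∃ a ∈ U, (a : Ω) = c

/-- `V` is spanned by words, or `V = X × Y` where `Y` is spanned by words, all the powers of `X`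
satisfy the standard conjecture D, and the eigenvalues of `h ∈ T` on `Ω ⊗ H(X)` are in `U h`. -/
def RelationType (T : Set (Operator W Ω)) (L : Set (ClassFamily W Ω))
    (U : Operator W Ω → Subgroup Ωˣ) (V : SmProjVar k) : Prop :=
  W.SpannedByWords Ω L V ∨ ∃ X Y : SmProjVar k, (∀ n, W.StandardD (X.selfProd n)) ∧
    (∀ h ∈ T, W.EigenvaluesIn Ω h (U h) X) ∧ W.SpannedByWords Ω L Y ∧ V = X.prod Y

/-- The operators in `T` are symmetries with multiplier in `U`. -/
def AreSymmetries (T : Set (Operator W Ω)) (U : Operator W Ω → Subgroup Ωˣ) : Prop :=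
  ∀ h ∈ T, ∃ χ ∈ U h, W.IsSymmetry Ω h (χ : Ω)

end WeilCohomology

end Pool.Agent.Helper10
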