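import Mathlib
import Pool.Agent.Helper10.RelTypes

/-!
# Orthogonality of numerically trivial classes to determinants
-/

universe u v w t

open CategoryTheory TensorProduct

namespace Pool.Agent.Helper10

open SmProjVar

namespace WeilCohomology

variable {k : Type u} [Field k] {K : Type v} [Field K] [CharZero K]
  (W : WeilCohomology.{u, v, w} k K) (Ω : Type t) [Field Ω] [Algebra K Ω]

/-- `x ∈ Ω ⊗ H(V)` is a linear combination of classes of algebraic cycles and is numerically
trivial. -/
def NumTriv (V : SmProjVar k) (x : W.HΩ Ω V) : Prop :=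
  W.IsAlg Ω V x ∧ ∀ z, W.IsAlg Ω V z → W.trMulT Ω V x z = 0

/-- `y ∈ Ω ⊗ H(Z)` is orthogonal to the numerically trivial classes, relative to `A`: the
push-forward to `A` of `x ∪ q^* y` vanishes for every numerically trivial `x` on `A × Z`, where `q`
is the projection to `Z`. -/
def OrthogonalOver (A Z : SmProjVar k) (y : W.HΩ Ω Z) : Prop :=
  ∀ x, W.NumTriv Ω (A.prod Z) x → ∀ u : W.HΩ Ω A,
    W.trMulT Ω (A.prod Z) (x * W.pullT Ω (snd A Z) y) (W.pullT Ω (fst A Z) u) = 0

/-- `S` is a non-empty multiset of families in `L`, which is stable under conjugation and for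
which the product of the eigenvalues of `h` is in `U h` for all `h ∈ T`. -/
def IsInvariant (T : Set (Operator W Ω)) (L : Set (ClassFamily W Ω))
    (lam : ClassFamily W Ω → Operator W Ω → Ωˣ) (U : Operator W Ω → Subgroup Ωˣ)
    (S : Multiset (ClassFamily W Ω)) : Prop :=
  S ≠ 0 ∧ (∀ a ∈ S, a ∈ L) ∧ (∀ σ : Ω ≃ₐ[K] Ω, S.map (ClassFamily.conj σ) = S) ∧
    ∀ h ∈ T, (S.map fun a => lam a h).prod ∈ U h

/-- For every invariant multiset `S` of families, the products of the determinants of the families
in `S`, on varieties `Z` which are spanned by words, are orthogonal to the numerically trivial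
classes, relative to all powers of `X`. -/
def DeterminantsOrthogonal (T : Set (Operator W Ω)) (L : Set (ClassFamily W Ω))
    (lam : ClassFamily W Ω → Operator W Ω → Ωˣ) (U : Operator W Ω → Subgroup Ωˣ)
    (X : SmProjVar k) : Prop :=
  ∀ S, W.IsInvariant Ω T L lam U S → ∀ (n : ℕ) (Z : SmProjVar k), W.SpannedByWords Ω L Z →
    ∀ y, W.DetProduct Ω Z y S → W.OrthogonalOver Ω (X.selfProd n) Z y

/-- `V` is spanned by words, or it is the product of a variety which is spanned by words and of a
power of `X`. -/
def RelativeWords (L : Set (ClassFamily W Ω)) (X V : SmProjVar k) : Prop :=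
  ∃ Y : SmProjVar k, W.SpannedByWords Ω L Y ∧ (V = Y ∨ ∃ n, V = (X.selfProd n).prod Y)

end WeilCohomology

end Pool.Agent.Helper10
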