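import Mathlib
import Pool.Agent.Helper10.RelTypes
import Pool.Agent.Helper10.Rel
import Pool.Agent.Helper11.FrobThm
import Pool.Agent.Helper11.Point

/-!
# Conjecture D from relations between determinants of irreducible families
-/

universe u v w t

open CategoryTheory TensorProduct

namespace Pool.Agent.Helper10

open SmProjVar SPre Helper11 GIT

namespace WeilCohomology

variable {k : Type u} [Field k] {K : Type v} [Field K] [CharZero K]
  (W : WeilCohomology.{u, v, w} k K) (Ω : Type t) [Field Ω] [Algebra K Ω]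

/-! ### tests -/

/-- the eigenvalues of a symmetry on algebraic classes are powers of the multiplier -/
lemma symmetry_alg_eig {g : Operator W Ω} {χ : Ω} (hg : W.IsSymmetry Ω g χ)
    (X : SmProjVar k) (z : W.HΩ Ω X) (c : Ω) (hz : z ∈ W.algΩ Ω X) (hz0 : z ≠ 0)
    (h : g X z = c • z) : ∃ j : ℕ, c = χ ^ j := by
  by_contra hcon
  push Not at hcon
  let F : Module.End Ω (W.HΩ Ω X) := (W.symEquiv Ω hg X).toLinearMap
  have hF : ∀ x, F x = g X x := fun x => rfl
  have h1 : z ∈ ⨆ ν, ⨆ (_ : ν ≠ c), F.eigenspace ν := by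
    refine baseChange_induction _ (p := fun x => x ∈ ⨆ ν, ⨆ (_ : ν ≠ c), F.eigenspace ν)
      ?_ ?_ ?_ ?_ hz
    · intro y hy
      unfold CohomologyData.algClasses at hy
      induction hy using Submodule.span_induction with
      | mem y hy =>
        obtain ⟨j, c', rfl⟩ := hy
        refine Submodule.mem_iSup_of_mem (χ ^ j) (Submodule.mem_iSup_of_mem (hcon j).symm ?_)
        rw [Module.End.mem_eigenspace_iff, hF, hg.cycle, TensorProduct.smul_tmul', smul_eq_mul,
          mul_one]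
      | zero => rw [TensorProduct.tmul_zero]; exact Submodule.zero_mem _
      | add a b _ _ ha hb => rw [TensorProduct.tmul_add]; exact Submodule.add_mem _ ha hb
      | smul a b _ hb =>
        have : (1 : Ω) ⊗ₜ[K] (a • b) = algebraMap K Ω a • ((1 : Ω) ⊗ₜ[K] b) := by
          rw [TensorProduct.tmul_smul, algebraMap_smul]
        rw [this]
        exact Submodule.smul_mem _ _ hb
    · exact Submodule.zero_mem _
    · intro a b ha hb
      exact Submodule.add_mem _ ha hb
    · intro a x hx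
      exact Submodule.smul_mem _ _ hx
  have h2 : z ∈ F.eigenspace c := Module.End.mem_eigenspace_iff.mpr h
  have h3 := (Module.End.eigenspaces_iSupIndep F) c
  have := h3.le_bot ⟨h2, h1⟩
  exact hz0 (by simpa using this)

/-- the test given by a symmetry with multiplier in `U` -/
noncomputable def symTest {g : Operator W Ω} {χ : Ω} (hg : W.IsSymmetry Ω g χ)
    (U : Subgroup Ωˣ) (hχ : χ ∈ grp Ω U) : (W.toSPre Ω).Test where
  γ := W.symSPre Ω hg
  U := grp Ω U
  alg_eig X z c hz hz0 h := by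
    obtain ⟨j, rfl⟩ := W.symmetry_alg_eig Ω hg X z c hz hz0 h
    exact (grp Ω U).pow_mem hχ j
  tr X := ⟨χ ^ X.dim, (grp Ω U).pow_mem hχ _, fun x => hg.trace X x⟩
  div a b h hb := grp_div Ω a b h hb

/-- the cohomology of the point -/
lemma pt_eq_smul_one (y : W.H (pt k)) : ∃ a : K, y = a • 1 := by
  have h1 : W.tr (pt k) 1 ≠ 0 := by
    intro h0
    obtain ⟨x, -, hx⟩ := (W.trace (pt k)).bijective 0
    have e1 : (1 : W.H (pt k)) = x := hx 1 ⟨(W.graded (pt k)).one_mem, h0⟩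
    have e2 : (0 : W.H (pt k)) = x := hx 0 ⟨Submodule.zero_mem _, by
      have := (W.trace (pt k)).map_smul 0 0
      rwa [zero_smul, zero_mul] at this⟩
    have e3 : (1 : W.H (pt k)) = 0 := e1.trans e2.symm
    obtain ⟨z, ⟨-, hz⟩, -⟩ := (W.trace (pt k)).bijective 1
    have e4 : z = 0 := by rw [← mul_one z, e3, mul_zero]
    have e5 : W.tr (pt k) 0 = 0 := by
      have := (W.trace (pt k)).map_smul 0 0
      rwa [zero_smul, zero_mul] at this
    rw [e4, e5] at hz
    exact zero_ne_one hz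
  refine W.gr_induction (pt k) (p := fun y => ∃ a : K, y = a • 1) ?_ ?_ ?_ y
  · intro i x hx
    rcases Nat.eq_zero_or_pos i with rfl | hi
    · refine ⟨W.tr (pt k) x / W.tr (pt k) 1, ?_⟩
      obtain ⟨z, -, hz⟩ := (W.trace (pt k)).bijective (W.tr (pt k) x)
      exact (hz x ⟨hx, rfl⟩).trans (hz ((W.tr (pt k) x / W.tr (pt k) 1) • 1)
        ⟨Submodule.smul_mem _ _ (W.graded (pt k)).one_mem, by
          rw [(W.trace (pt k)).map_smul, div_mul_cancel₀ _ h1]⟩).symm
    · refine ⟨0, ?_⟩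
      have h2 := (W.graded (pt k)).eq_bot i hi
      rw [h2] at hx
      rw [zero_smul]
      exact (Submodule.mem_bot K).mp hx
  · exact ⟨0, (zero_smul _ _).symm⟩
  · rintro x y ⟨a, rfl⟩ ⟨b, rfl⟩
    exact ⟨a + b, (add_smul _ _ _).symm⟩

lemma pt_eq_smul_oneΩ (y : W.HΩ Ω (pt k)) : ∃ a : Ω, y = a • 1 := by
  refine baseChange_induction_top (p := fun y : W.HΩ Ω (pt k) => ∃ a : Ω, y = a • 1)
    ?_ ?_ ?_ ?_ y
  · intro y
    obtain ⟨a, rfl⟩ := W.pt_eq_smul_one y
    refine ⟨algebraMap K Ω a, ?_⟩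
    rw [TensorProduct.tmul_smul, algebraMap_smul]
    rfl
  · exact ⟨0, (zero_smul _ _).symm⟩
  · rintro x y ⟨a, rfl⟩ ⟨b, rfl⟩
    exact ⟨a + b, (add_smul _ _ _).symm⟩
  · rintro a _ ⟨b, rfl⟩
    exact ⟨a * b, (mul_smul _ _ _).symm⟩

lemma symTest_good_pt {g : Operator W Ω} {χ : Ω} (hg : W.IsSymmetry Ω g χ)
    (U : Subgroup Ωˣ) (hχ : χ ∈ grp Ω U) : (W.symTest Ω hg U hχ).Good (pt k) := by
  intro a x hx0 hx
  obtain ⟨b, rfl⟩ := W.pt_eq_smul_oneΩ Ω x
  have hb : b ≠ 0 := by
    rintro rfl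
    exact hx0 (zero_smul _ _)
  have h1 : g (pt k) (b • 1) = b • 1 := by
    rw [(hg.aut (pt k)).map_smul, (hg.aut (pt k)).map_one]
  have h2 : (b • 1 : W.HΩ Ω (pt k)) = a • (b • 1) := h1.symm.trans hx
  have h3 : a = 1 := by
    by_contra hne
    apply hx0
    have h4 : (1 - a) • (b • 1 : W.HΩ Ω (pt k)) = 0 := by
      rw [sub_smul, one_smul, ← h2, sub_self]
    exact (smul_eq_zero.mp h4).resolve_left (sub_ne_zero.mpr (Ne.symm hne))
  rw [h3]
  exact ⟨1, U.one_mem, Units.val_one⟩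

/-! ### families -/

variable {W Ω}

/-- families in the auxiliary setting -/
def toLab (a : ClassFamily W Ω) : (W.toSPre Ω).Lab := ⟨a.V, a.n, a.e⟩

/-- families in the auxiliary setting -/
def ofLab (l : (W.toSPre Ω).Lab) : ClassFamily W Ω := ⟨l.V, l.n, l.e⟩

lemma ofLab_conj (σ : Ω ≃ₐ[K] Ω) (l : (W.toSPre Ω).Lab) :
    ofLab (l.conj σ) = (ofLab l).conj σ := by
  unfold ofLab SPre.Lab.conj ClassFamily.conj
  congr 1

lemma detProduct_of_dWord {Z : SmProjVar k} {y : (W.toSPre Ω).H Z}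
    {S : Multiset (W.toSPre Ω).Lab} (h : SPre.DWord Z y S) :
    W.DetProduct Ω Z y (S.map ofLab) := by
  induction h with
  | one => rw [Multiset.map_zero]; exact DetProduct.one
  | cons l p _ ih =>
    rw [Multiset.map_cons]
    exact DetProduct.cons (ofLab l) p _ _ ih

variable (W Ω) in
lemma finite_range_conj [Algebra.IsAlgebraic K Ω] (l : (W.toSPre Ω).Lab) :
    (Set.range fun σ : Ω ≃ₐ[K] Ω => l.conj σ).Finite := by
  classical
  have h1 : ∀ b, (Set.range fun σ : Ω ≃ₐ[K] Ω => W.sΩ σ l.V (l.e b)).Finite := by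
    intro b
    obtain ⟨N, hN, hst⟩ := W.exists_stabilizer Ω (X := l.V) (l.e b)
    have hfin : Finite ((Ω ≃ₐ[K] Ω) ⧸ N) := inferInstance
    refine (Set.finite_range fun q : (Ω ≃ₐ[K] Ω) ⧸ N => W.sΩ (Quotient.out q) l.V (l.e b)).subset
      ?_
    rintro _ ⟨σ, rfl⟩
    refine ⟨(σ : (Ω ≃ₐ[K] Ω) ⧸ N), ?_⟩
    refine hst _ _ ?_
    exact QuotientGroup.eq.mp (QuotientGroup.out_eq' _)
  refine ((Set.Finite.pi h1).image fun e : Fin l.n → W.HΩ Ω l.V =>
    (⟨l.V, l.n, e⟩ : (W.toSPre Ω).Lab)).subset ?_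
  rintro _ ⟨σ, rfl⟩
  exact ⟨fun b => W.sΩ σ l.V (l.e b), fun b _ => ⟨σ, rfl⟩, rfl⟩

/-- family systems in the auxiliary setting -/
lemma labelSet_of_familySystem [Algebra.IsAlgebraic K Ω] {G T : Set (Operator W Ω)}
    (hG : G ⊆ W.symmetries Ω) {U : Operator W Ω → Subgroup Ωˣ}
    (χ : T → Ω) (hχ : ∀ h : T, W.IsSymmetry Ω h.1 (χ h)) (hχU : ∀ h : T, χ h ∈ grp Ω (U h.1))
    {L : Set (ClassFamily W Ω)} {lam : ClassFamily W Ω → Operator W Ω → Ωˣ}
    (hL : W.IsFamilySystem Ω G T L lam) :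
    SPre.LabelSet (P := W.toSPre Ω) (fun g : G => W.symSPre Ω (hG g.2).choose_spec)
      (fun h : T => W.symTest Ω (hχ h) (U h.1) (hχU h)) {l | ofLab l ∈ L}
      (fun l h => (lam (ofLab l) h.1 : Ω)) where
  fam l hl :=
    { parity := W.parity_of_parityFamily Ω (hL.parity _ hl)
      irr := by
        obtain ⟨ρ, hρ, hs⟩ := hL.irreducible _ hl
        refine ⟨fun g => ρ g, fun g => ⟨(hρ g g.2).1, (hρ g g.2).2⟩, ?_⟩
        have h1 : ρ '' G = Set.range fun g : G => ρ g := Set.image_eq_range ρ G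
        rw [h1] at hs
        exact hs }
  eig l hl h Z p := by
    obtain ⟨N, hN⟩ := hL.eigen _ hl h.1 h.2 Z p
    unfold SPre.Test.E
    rw [Module.End.mem_maxGenEigenspace]
    refine ⟨N, ?_⟩
    rw [Module.End.pow_apply]
    exact hN
  conj l hl σ := by
    change ofLab (l.conj σ) ∈ L
    rw [ofLab_conj]
    exact hL.conj _ hl σ
  fin l _ := finite_range_conj W Ω l

lemma relations_of_invariantDeterminants {T : Set (Operator W Ω)}
    {U : Operator W Ω → Subgroup Ωˣ}
    (χ : T → Ω) (hχ : ∀ h : T, W.IsSymmetry Ω h.1 (χ h)) (hχU : ∀ h : T, χ h ∈ grp Ω (U h.1))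
    {L : Set (ClassFamily W Ω)} {lam : ClassFamily W Ω → Operator W Ω → Ωˣ}
    (hR : W.InvariantDeterminantsAlgebraic Ω T L lam U) :
    SPre.Relations (P := W.toSPre Ω)
      (fun h : T => W.symTest Ω (hχ h) (U h.1) (hχU h)) {l | ofLab l ∈ L}
      (fun l h => (lam (ofLab l) h.1 : Ω)) := by
  intro S hS0 hS hinv hU
  obtain ⟨m, hm, halg⟩ := hR (S.map ofLab) (fun h0 => hS0 (Multiset.map_eq_zero.mp h0))
    (by
      intro a ha
      obtain ⟨l, hl, rfl⟩ := Multiset.mem_map.mp ha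
      exact hS l hl)
    (by
      intro σ
      conv_rhs => rw [← hinv σ]
      rw [Multiset.map_map, Multiset.map_map]
      refine Multiset.map_congr rfl fun l _ => ?_
      exact (ofLab_conj σ l).symm)
    (by
      intro h hh
      obtain ⟨a, ha, ha'⟩ := hU ⟨h, hh⟩
      have h1 : a = ((S.map ofLab).map fun a => lam a h).prod := by
        apply Units.ext
        rw [ha', Multiset.map_map]
        have h2 := map_multiset_prod (Units.coeHom Ω) (S.map ((fun a => lam a h) ∘ ofLab))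
        rw [Multiset.map_map] at h2
        exact h2.symm
      rw [← h1]
      exact ha)
  refine ⟨m, hm, fun Z y hy => ?_⟩
  have h1 := detProduct_of_dWord hy
  rw [Multiset.map_nsmul] at h1
  exact halg Z y h1

variable (W Ω) in
lemma genW_of_spannedByWords {L : Set (ClassFamily W Ω)} {Y : SmProjVar k}
    (h : W.SpannedByWords Ω L Y) :
    SPre.GenW (P := W.toSPre Ω) {l | ofLab l ∈ L} Y := by
  unfold SPre.GenW
  unfold SpannedByWords Spans at h
  rw [eq_top_iff]
  refine le_trans (le_of_eq (Eq.symm h)) (Submodule.span_mono ?_)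
  rintro y ⟨Z, z, hz, c, hc, hy⟩
  refine ⟨Z, Z.prod Y, z, ?_, fst Z Y, snd Z Y, c, hc, ?_⟩
  · obtain ⟨x, hx, rfl⟩ := Submonoid.exists_list_of_mem_closure hz
    have h2 : ∀ i : Fin x.length, ∃ a ∈ L, ∃ (f : Z.toOver ⟶ a.V.toOver) (b : Fin a.n),
        x.get i = W.pullT Ω f (a.e b) := fun i => hx _ (List.get_mem x i)
    choose a ha f b hb using h2
    refine ⟨x.length, fun i => toLab (a i), fun i => ha i, f, b, ?_⟩
    have h3 : (fun t => (W.toSPre Ω).pull (f t) ((toLab (a t)).e (b t))) = x.get := by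
      funext t
      exact (hb t).symm
    have h4 : x.prod = (List.ofFn x.get).prod := by rw [List.ofFn_get]
    refine h4.trans ?_
    rw [← h3]
    rfl
  · refine eq_of_tr (P := W.toSPre Ω) fun x => ?_
    rw [tr_pushF]
    exact hy x

/-- **Relations theorem** -/
theorem standardD_of_relationType [IsAlgClosure K Ω] {G T : Set (Operator W Ω)}
    (hG : G ⊆ W.symmetries Ω) {U : Operator W Ω → Subgroup Ωˣ} (hT : W.AreSymmetries Ω T U)
    {L : Set (ClassFamily W Ω)} {lam : ClassFamily W Ω → Operator W Ω → Ωˣ}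
    (hL : W.IsFamilySystem Ω G T L lam) (hR : W.InvariantDeterminantsAlgebraic Ω T L lam U)
    (Y : SmProjVar k) (hY : W.DominatedBy (W.RelationType Ω T L U) Y) : W.StandardD Y := by
  have h1 : Algebra.IsAlgebraic K Ω := IsAlgClosure.isAlgebraic
  have h3 : IsAlgClosed Ω := IsAlgClosure.isAlgClosed K
  have h2 : CharZero Ω := charZero_of_injective_algebraMap (algebraMap K Ω).injective
  choose χ hχU hχ using fun h : T => hT h.1 h.2
  have hχU' : ∀ h : T, (χ h : Ω) ∈ grp Ω (U h.1) := fun h => ⟨χ h, hχU h, rfl⟩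
  have hL' := labelSet_of_familySystem hG (fun h => (χ h : Ω)) hχ hχU' hL
  have hR' := relations_of_invariantDeterminants (fun h => (χ h : Ω)) hχ hχU' hR
  have hm : ∀ (σ τ : Ω ≃ₐ[K] Ω) X x, (W.toSPre Ω).s (σ * τ) X x =
      (W.toSPre Ω).s σ X ((W.toSPre Ω).s τ X x) := fun σ τ X x => W.sΩ_mul Ω σ τ X x
  refine W.standardD_of_D Ω Y (W.d_of_dominatedBy Ω hY fun V hV => ?_)
  rcases hV with hV | ⟨X, Y', hX, hXT, hY', rfl⟩
  · have hpt : (W.toSPre Ω).DP (pt k) := fun n => W.d_of_standardD Ω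
      (standardD_selfProd_of_dim_eq_zero W (pt k) rfl n)
    have h4 := SPre.GenW.prod_d hm hL' hR' hpt (fun h => W.symTest_good_pt Ω (hχ h) _ (hχU' h))
      (genW_of_spannedByWords W Ω hV)
    exact h4.retract (retract_pt_prod V)
  · exact SPre.GenW.prod_d hm hL' hR' (fun n => W.d_of_standardD Ω (hX n))
      (fun h a x hx0 hx => hXT h.1 h.2 a x hx0 hx) (genW_of_spannedByWords W Ω hY')

end WeilCohomology

end Pool.Agent.Helper10
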