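import Mathlib
import Pool.Agent.Helper10.CritTypes
import Pool.Agent.Helper10.Crit
import Pool.Agent.Helper10.RelThm

/-!
# The determinant criterion for conjecture D
-/

universe u v w t

open CategoryTheory TensorProduct

namespace Pool.Agent.Helper10

open SmProjVar SPre Helper11 GIT

namespace WeilCohomology

variable {k : Type u} [Field k] {K : Type v} [Field K] [CharZero K]
  {W : WeilCohomology.{u, v, w} k K} {Ω : Type t} [Field Ω] [Algebra K Ω]

lemma spannedByWords_of_genW {L : Set (ClassFamily W Ω)} {Y : SmProjVar k}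
    (h : SPre.GenW (P := W.toSPre Ω) {l | ofLab l ∈ L} Y) : W.SpannedByWords Ω L Y := by
  unfold SPre.GenW at h
  unfold SpannedByWords Spans
  rw [eq_top_iff]
  refine le_trans (le_of_eq (Eq.symm h)) (Submodule.span_mono ?_)
  rintro y ⟨Z, V, w, hw, f, g, c, hc, rfl⟩
  have key : ∀ x : (W.toSPre Ω).H Y,
      (W.toSPre Ω).tr Y ((W.toSPre Ω).pushF g ((W.toSPre Ω).pull f w * c) * x) =
      (W.toSPre Ω).tr (Z.prod Y) ((W.toSPre Ω).pull (fst Z Y) w *
        (W.toSPre Ω).pushF (lift f g) c * (W.toSPre Ω).pull (snd Z Y) x) := by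
    intro x
    rw [SPre.tr_pushF]
    have h1 : (W.toSPre Ω).pull (fst Z Y) w * (W.toSPre Ω).pushF (lift f g) c *
        (W.toSPre Ω).pull (snd Z Y) x = (W.toSPre Ω).pushF (lift f g) c *
          ((W.toSPre Ω).pull (fst Z Y) w * (W.toSPre Ω).pull (snd Z Y) x) := by
      rw [← (W.toSPre Ω).ev_comm _ ((W.toSPre Ω).pushF (lift f g) c) _
        (SPre.pushF_ev _ ((W.toSPre Ω).alg_le_ev _ hc)), mul_assoc]
    rw [h1, SPre.tr_pushF, map_mul ((W.toSPre Ω).pull _), SPre.pull_pull, SPre.pull_pull,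
      lift_fst, lift_snd, ← (W.toSPre Ω).ev_comm _ c _ ((W.toSPre Ω).alg_le_ev _ hc), mul_assoc]
  refine ⟨Z, w, ?_, (W.toSPre Ω).pushF (lift f g) c, SPre.pushF_mem _ hc, key⟩
  rw [SPre.mem_lwords_iff] at hw
  refine Submonoid.closure_mono ?_ hw
  rintro y ⟨l, hl, f, b, rfl⟩
  exact ⟨ofLab l, hl, f, b, rfl⟩

lemma genW_pt (L : Set (ClassFamily W Ω)) :
    SPre.GenW (P := W.toSPre Ω) {l | ofLab l ∈ L} (pt k) := by
  unfold SPre.GenW
  rw [eq_top_iff]
  intro y _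
  obtain ⟨a, rfl⟩ := W.pt_eq_smul_oneΩ Ω y
  refine Submodule.smul_mem _ a (Submodule.subset_span ⟨pt k, pt k, 1, SPre.lwords_one _, 𝟙 _,
    𝟙 _, 1, (W.toSPre Ω).one_mem _, ?_⟩)
  refine SPre.eq_of_tr (P := W.toSPre Ω) fun x => ?_
  rw [SPre.tr_pushF, (W.toSPre Ω).pull_id]
  change (W.toSPre Ω).tr (pt k) (1 * x) = (W.toSPre Ω).tr (pt k) (1 * 1 * x)
  rw [mul_one]

variable (W Ω) in
/-- D for a product implies D for the second factor -/
lemma d_snd {X Y : SmProjVar k} (h : (W.toSPre Ω).D (X.prod Y)) : (W.toSPre Ω).D Y := by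
  intro r hr
  have h1 : (W.toSPre Ω).pull (snd X Y) r = 0 := h _ (SPre.rad_pull _ hr)
  obtain ⟨x, ⟨-, hx⟩, -⟩ := (W.trace X).bijective 1
  refine (W.toSPre Ω).nondeg Y r fun y => ?_
  have h2 := (W.toSPre Ω).tr_prod X Y ((1 : Ω) ⊗ₜ[K] x) (r * y)
  rw [map_mul ((W.toSPre Ω).pull _), h1, zero_mul, mul_zero, map_zero] at h2
  have h3 : (W.toSPre Ω).tr X ((1 : Ω) ⊗ₜ[K] x) = 1 := by
    change W.trΩ Ω X ((1 : Ω) ⊗ₜ[K] x) = 1
    rw [trΩ_tmul, trL_apply, hx, one_smul]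
  rw [h3, one_mul] at h2
  exact h2.symm

variable (W) in
/-- the identity is induced by an algebraic correspondence -/
lemma isAlgebraicMap_id (Y : SmProjVar k) : W.IsAlgebraicMap Y Y fun y => y := by
  obtain ⟨c, hc, h⟩ := W.push_mem_algClasses (lift (𝟙 Y.toOver) (𝟙 Y.toOver)) 1
    (W.one_mem_algClasses Y)
  refine ⟨c, hc, fun x y => ?_⟩
  have h1 : W.pull (fst Y Y) x * c * W.pull (snd Y Y) y =
      c * (W.pull (fst Y Y) x * W.pull (snd Y Y) y) := by
    rw [← W.evK_comm _ c _ (W.algClasses_le_evK _ hc), mul_assoc]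
  rw [h1]
  have h2 := h (W.pullA (fst Y Y) x * W.pullA (snd Y Y) y)
  rw [map_mul (W.pullA _), one_mul, ← AlgHom.comp_apply, ← AlgHom.comp_apply, ← W.pullA_comp,
    ← W.pullA_comp, lift_fst, lift_snd, W.pullA_id] at h2
  exact h2.symm

lemma noReal_of_orthogonal {T : Set (Operator W Ω)}
    {U : Operator W Ω → Subgroup Ωˣ}
    (χ : T → Ω) (hχ : ∀ h : T, W.IsSymmetry Ω h.1 (χ h)) (hχU : ∀ h : T, χ h ∈ grp Ω (U h.1))
    {L : Set (ClassFamily W Ω)} {lam : ClassFamily W Ω → Operator W Ω → Ωˣ} {X : SmProjVar k}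
    (hO : W.DeterminantsOrthogonal Ω T L lam U X) :
    SPre.NoReal (P := W.toSPre Ω) (SPre.GenW (P := W.toSPre Ω) {l | ofLab l ∈ L})
      (fun h : T => W.symTest Ω (hχ h) (U h.1) (hχU h)) {l | ofLab l ∈ L}
      (fun l h => (lam (ofLab l) h.1 : Ω)) X := by
  intro S hS0 hS hinv hU
  rintro ⟨V, F, hV, hF, hN⟩
  obtain ⟨c, R, hR, hne⟩ := hN.exists_pow
  have hI : W.IsInvariant Ω T L lam U (S.map ofLab) := by
    refine ⟨fun h0 => hS0 (Multiset.map_eq_zero.mp h0), ?_, ?_, ?_⟩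
    · intro a ha
      obtain ⟨l, hl, rfl⟩ := Multiset.mem_map.mp ha
      exact hS l hl
    · intro σ
      conv_rhs => rw [← hinv σ]
      rw [Multiset.map_map, Multiset.map_map]
      refine Multiset.map_congr rfl fun l _ => ?_
      exact (ofLab_conj σ l).symm
    · intro h hh
      obtain ⟨a, ha, ha'⟩ := hU ⟨h, hh⟩
      have h1 : a = ((S.map ofLab).map fun a => lam a h).prod := by
        apply Units.ext
        rw [ha', Multiset.map_map]
        have h2 := map_multiset_prod (Units.coeHom Ω) (S.map ((fun a => lam a h) ∘ ofLab))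
        rw [Multiset.map_map] at h2
        exact h2.symm
      rw [← h1]
      exact ha
  apply hne
  refine (W.toSPre Ω).nondeg _ _ fun u => ?_
  rw [SPre.contr_apply, SPre.tr_pushF]
  exact hO _ hI c V (spannedByWords_of_genW hV) F (detProduct_of_dWord hF) R hR u

lemma NoReal.pow {C : SmProjVar k → Prop} {κ : Type*} {T : κ → (W.toSPre Ω).Test}
    {L : Set (W.toSPre Ω).Lab} {lam : (W.toSPre Ω).Lab → κ → Ω} {X : SmProjVar k}
    (h : SPre.NoReal C T L lam X) (n : ℕ) : SPre.NoReal C T L lam (X.selfProd n) := by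
  rintro S hS0 hS hinv hU ⟨V, F, hV, hF, A, ⟨c, hA⟩, hN⟩
  obtain ⟨d, hd⟩ := Retract.pow_pow X n c
  exact h S hS0 hS hinv hU ⟨V, F, hV, hF, A, ⟨d, hA.trans hd⟩, hN⟩

/-- **Determinant criterion** -/
theorem standardD_iff_determinantsOrthogonal [IsAlgClosure K Ω] {G T : Set (Operator W Ω)}
    (hG : G ⊆ W.symmetries Ω) {U : Operator W Ω → Subgroup Ωˣ} (hT : W.AreSymmetries Ω T U)
    {L : Set (ClassFamily W Ω)} {lam : ClassFamily W Ω → Operator W Ω → Ωˣ}
    (hL : W.IsFamilySystem Ω G T L lam) (hV : ∀ a ∈ L, W.SpannedByWords Ω L a.V)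
    (X : SmProjVar k) (hX : ∀ h ∈ T, W.EigenvaluesIn Ω h (U h) X) :
    (∀ Y, W.DominatedBy (W.RelativeWords Ω L X) Y → W.StandardD Y) ↔
      (∀ n, W.StandardD (X.selfProd n)) ∧ W.DeterminantsOrthogonal Ω T L lam U X := by
  have h1 : Algebra.IsAlgebraic K Ω := IsAlgClosure.isAlgebraic
  have h3 : IsAlgClosed Ω := IsAlgClosure.isAlgClosed K
  have h2 : CharZero Ω := charZero_of_injective_algebraMap (algebraMap K Ω).injective
  constructor
  · intro h
    have hD : ∀ n Z, W.SpannedByWords Ω L Z → W.StandardD ((X.selfProd n).prod Z) := by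
      intro n Z hZ
      exact h _ ⟨1, fun _ => (X.selfProd n).prod Z, fun _ y => y, fun _ => ⟨Z, hZ, .inr ⟨n, rfl⟩⟩,
        fun _ => W.isAlgebraicMap_id _, fun y => ⟨fun _ => y, by simp⟩⟩
    refine ⟨fun n => ?_, fun S hS n Z hZ y hy x hx u => ?_⟩
    · have h4 := W.d_of_standardD Ω (hD n (pt k) (spannedByWords_of_genW (genW_pt L)))
      refine W.standardD_of_D Ω _ (h4.retract ?_)
      exact ⟨lift (𝟙 _) (toPt k _), fst _ _, lift_fst _ _⟩
    · have h4 := W.d_of_standardD Ω (hD n Z hZ)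
      have h5 : x = 0 := h4 x hx
      rw [h5]
      unfold trMulT
      rw [zero_mul, zero_mul]
      exact map_zero (W.trΩ Ω _)
  · rintro ⟨hXD, hO⟩ Y hY
    choose χ hχU hχ using fun h : T => hT h.1 h.2
    have hχU' : ∀ h : T, (χ h : Ω) ∈ grp Ω (U h.1) := fun h => ⟨χ h, hχU h, rfl⟩
    have hL' := labelSet_of_familySystem hG (fun h => (χ h : Ω)) hχ hχU' hL
    have hR' := noReal_of_orthogonal (fun h => (χ h : Ω)) hχ hχU' hO
    have hm : ∀ (σ τ : Ω ≃ₐ[K] Ω) X x, (W.toSPre Ω).s (σ * τ) X x =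
        (W.toSPre Ω).s σ X ((W.toSPre Ω).s τ X x) := fun σ τ X x => W.sΩ_mul Ω σ τ X x
    have hXT : ∀ j : T, (W.symTest Ω (hχ j) (U j.1) (hχU' j)).Good X :=
      fun h a x hx0 hx => hX h.1 h.2 a x hx0 hx
    have main : ∀ n V, W.SpannedByWords Ω L V → (W.toSPre Ω).D ((X.selfProd n).prod V) := by
      intro n V hV'
      exact SPre.GenW.prod_dC hm hL' (fun V V' => SPre.GenW.prod) (genW_pt L)
        (fun l hl => W.genW_of_spannedByWords Ω (hV _ hl)) (W.d_of_standardD Ω (hXD n))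
        (fun j => (hXT j).pow n) (NoReal.pow hR' n) (W.genW_of_spannedByWords Ω hV')
    refine W.standardD_of_D Ω Y (W.d_of_dominatedBy Ω hY fun V hV' => ?_)
    obtain ⟨Z, hZ, h | ⟨n, h⟩⟩ := hV'
    · rw [h]
      exact W.d_snd Ω (main 0 Z hZ)
    · rw [h]
      exact main n Z hZ

end WeilCohomology

end Pool.Agent.Helper10
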