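import Mathlib
import Pool.Agent.Helper11.RelStableTypes

/-!
# Degenerations of the cycles on a variety

`Y` is a variety over a field `k`, and `U_i`, `V_j` are varieties over another field `k'`.
Example: `k` is a discretely valued field, `k'` is its residue field, `Y` has a strictly semistable
model, and `U_i`, `V_j` are the strata of the special fibre (all strata `U_i` have odd, all strata
`V_j` have even codimension in the model). If `Y` has good reduction then `U_0` is the special
fibre, and there are no `V_j`.
-/

universe u v w u' w'

open CategoryTheory TensorProduct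

namespace Pool.Agent.Helper10

open SmProjVar

/-- Algebraic cycles on `X` of an arbitrary codimension. -/
abbrev AnyCycle {k : Type u} [Field k] (X : SmProjVar k) : Type u := Σ j : ℕ, X.Z j

namespace CohomologyData

variable {k : Type u} [Field k] {K : Type v} [Field K] (W : CohomologyData.{u, v, w} k K)

/-- The class in `H(X)` of an algebraic cycle. -/
def cycleClass {X : SmProjVar k} (z : AnyCycle X) : W.H X := W.cy X z.1 z.2

/-- For a cycle `c` on `X × Y`, the number `∫ p^* x ∪ [c] ∪ q^* y`, where `p` and `q` are the
projections. This is the pairing in `H(Y)` of the image of `x` under the correspondence `c` with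
`y`. -/
noncomputable def corrPairing {X Y : SmProjVar k} (c : AnyCycle (X.prod Y)) (x : W.H X) (y : W.H Y) : K :=
  W.tr (X.prod Y) (W.pull (fst X Y) x * W.cycleClass c * W.pull (snd X Y) y)

end CohomologyData

/-- A specialization of the cycles on the variety `Y` over `k` to the varieties `U_i` and `V_j` over
`k'`: algebraic cycles `sp z i` on `U_i` for all algebraic cycles `z` on `Y`, and algebraic
cycles `corr j i` on `V_j × U_i`. -/
structure CycleSpecialization {k : Type u} [Field k] {k' : Type u'} [Field k'] (Y : SmProjVar k)
    {m n : ℕ} (U : Fin m → SmProjVar k') (V : Fin n → SmProjVar k') where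
  /-- the specializations of cycles on `Y` (in the example, `sp z i` is the restriction to `U_i` of
  the closure of `z` if `U_i` is a component of the special fibre, and `0` otherwise) -/
  sp : AnyCycle Y → ∀ i, AnyCycle (U i)
  /-- the correspondences from `V_j` to `U_i` (in the example, graphs of the inclusions
  `V_j → U_i` and `U_i → V_j`, with signs) -/
  corr : ∀ j i, AnyCycle ((V j).prod (U i))

/-- The cohomology theory `W` over `k` is compatible with the specialization `S` and the cohomology
theory `W'` over `k'` (with the same field of coefficients): for cycles `z_t` on `Y` and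
coefficients `a_t`, the sum of the `a_t [z_t]` is zero in `H(Y)` if and only if the sum of the
`a_t ([sp z_t i])_i` in the sum of the `H'(U_i)` is the image, under the correspondences `corr j i`,
of an element `(w_j)_j` of the sum of the `H'(V_j)`. -/
def CycleSpecialization.IsCompatible {k : Type u} [Field k] {k' : Type u'} [Field k']
    {K : Type v} [Field K] {Y : SmProjVar k} {m n : ℕ} {U : Fin m → SmProjVar k'}
    {V : Fin n → SmProjVar k'} (S : CycleSpecialization Y U V)
    (W : CohomologyData.{u, v, w} k K) (W' : CohomologyData.{u', v, w'} k' K) : Prop :=
  ∀ (N : ℕ) (a : Fin N → K) (z : Fin N → AnyCycle Y),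
    ∑ t, a t • W.cycleClass (z t) = 0 ↔
      ∃ x : ∀ j, W'.H (V j), ∀ (i : Fin m) (y : W'.H (U i)),
        W'.pairing (U i) (∑ t, a t • W'.cycleClass (S.sp (z t) i)) y =
          ∑ j, W'.corrPairing (S.corr j i) (x j) y

/-- The cycles on the variety `Y` over `k` degenerate, with respect to the cohomology theories `W`
over `k` and `W'` over `k'`, to varieties over `k'` which satisfy the standard conjecture D. -/
def DegeneratesToStandardD {k : Type u} [Field k] {k' : Type u'} [Field k'] {K : Type v} [Field K]
    (W : CohomologyData.{u, v, w} k K) (W' : CohomologyData.{u', v, w'} k' K)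
    (Y : SmProjVar k) : Prop :=
  ∃ (m n : ℕ) (U : Fin m → SmProjVar k') (V : Fin n → SmProjVar k')
    (S : CycleSpecialization Y U V), S.IsCompatible W W' ∧ (∀ i, W'.StandardD (U i)) ∧
      ∀ j, W'.StandardD (V j)

end Pool.Agent.Helper10
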