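import Mathlib
import Pool.Agent.Helper10.LemmaN
import Pool.Agent.Helper11.RatThm

/-!
# Integral classes and varieties of rational stable type, in the auxiliary setting
-/

universe u v w t

open CategoryTheory

namespace Pool.Agent.Helper10

open SmProjVar SPre Helper11 GIT

variable {k : Type u} [Field k] {K : Type t} [Field K] {Ω : Type v} [Field Ω] [Algebra K Ω]
  {P : SPre.{u, v, w, t} k K Ω}

/-- the data of rational stable type, in the auxiliary setting -/
structure RatStableData (I : IntStr P) {ι : Type*} (G : ι → P.Sym) (n : ℕ) (σ : ℕ → (Ω ≃+* Ω))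
    (M : ℕ) (X : SmProjVar k) (T : Module.End Ω (P.H X)) (S : Ω → Set (List (P.Letter X))) :
    Prop where
  int : IntMap I X X T
  adm : ∀ μ, ∀ l ∈ S μ, ∀ a ∈ l, P.Adm G X a
  size : ∀ μ, ∀ l ∈ S μ, ∀ a ∈ l, a.1 ≤ M
  eig : ∀ μ, ∀ l ∈ S μ, ∀ w, IsWord l w → w ∈ T.maxGenEigenspace μ
  ne : ∀ μ, ∀ l ∈ S μ, ∃ w, IsWord l w ∧ w ≠ 0
  span : Submodule.span Ω {w : P.H X | ∃ μ, ∃ l ∈ S μ, IsWord l w} = ⊤
  alg : ∀ μ (l : Fin (n + 1) → List (P.Letter X)), (∀ j : Fin (n + 1), l j ∈ S (σ j μ)) → Matched l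

/-- rational stable type, in the auxiliary setting -/
def RatStable (I : IntStr P) {ι : Type*} (G : ι → P.Sym) (n : ℕ) (σ : ℕ → (Ω ≃+* Ω)) (M : ℕ)
    (X : SmProjVar k) : Prop :=
  ∃ (T : Module.End Ω (P.H X)) (S : Ω → Set (List (P.Letter X))), RatStableData I G n σ M X T S

variable {I : IntStr P} {ι : Type*} {G : ι → P.Sym} {n : ℕ} {σ : ℕ → (Ω ≃+* Ω)} {M : ℕ}

lemma RatStableData.finite {X : SmProjVar k} {T : Module.End Ω (P.H X)}
    {S : Ω → Set (List (P.Letter X))} (h : RatStableData I G n σ M X T S) :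
    {μ | (S μ).Nonempty}.Finite := by
  have h1 : {μ : Ω | T.maxGenEigenspace μ ≠ ⊥}.Finite :=
    WellFoundedGT.finite_ne_bot_of_iSupIndep (Module.End.independent_maxGenEigenspace T)
  refine h1.subset ?_
  rintro μ ⟨l, hl⟩ hbot
  obtain ⟨w, hw, hne⟩ := h.ne μ l hl
  have h2 := h.eig μ l hl w hw
  rw [hbot] at h2
  exact hne ((Submodule.mem_bot Ω).mp h2)

/-- the words in `S μ` detect the linear maps on the generalised eigenspace -/
lemma RatStableData.exists_mem {X : SmProjVar k} {T : Module.End Ω (P.H X)}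
    {S : Ω → Set (List (P.Letter X))} (h : RatStableData I G n σ M X T S) {L : Type*}
    [AddCommGroup L] [Module Ω L] (φ : P.H X →ₗ[Ω] L) {μ : Ω} {e : P.H X}
    (he : e ∈ T.maxGenEigenspace μ) (hne : φ e ≠ 0) :
    ∃ l ∈ S μ, ∃ w, IsWord l w ∧ φ w ≠ 0 := by
  by_contra hcon
  push Not at hcon
  let E : Set (P.H X) := {w | ∃ l ∈ S μ, IsWord l w}
  have h1 : e ∈ Submodule.span Ω E ⊔ ⨆ ν, ⨆ (_ : ν ≠ μ), T.maxGenEigenspace ν := by
    have h2 : (⊤ : Submodule Ω (P.H X)) ≤ Submodule.span Ω E ⊔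
      ⨆ ν, ⨆ (_ : ν ≠ μ), T.maxGenEigenspace ν := by
      rw [← h.span, Submodule.span_le]
      rintro w ⟨ν, l, hl, hw⟩
      by_cases hνμ : ν = μ
      · subst hνμ
        exact Submodule.mem_sup_left (Submodule.subset_span ⟨l, hl, hw⟩)
      · exact Submodule.mem_sup_right
          (Submodule.mem_iSup_of_mem ν (Submodule.mem_iSup_of_mem hνμ (h.eig ν l hl w hw)))
    exact h2 trivial
  obtain ⟨a, ha, b, hb, hab⟩ := Submodule.mem_sup.mp h1
  have hle : Submodule.span Ω E ≤ T.maxGenEigenspace μ := by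
    rw [Submodule.span_le]
    rintro w ⟨l, hl, hw⟩
    exact h.eig μ l hl w hw
  have hb' : b ∈ T.maxGenEigenspace μ := by
    have : b = e - a := by rw [← hab]; abel
    rw [this]
    exact Submodule.sub_mem _ he (hle ha)
  have hdis := Module.End.independent_maxGenEigenspace T μ
  have hb0 : b = 0 := by
    have := hdis.le_bot ⟨hb', hb⟩
    simpa using this
  rw [hb0, add_zero] at hab
  apply hne
  rw [← hab]
  have hker : Submodule.span Ω E ≤ LinearMap.ker φ := by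
    rw [Submodule.span_le]
    rintro w ⟨l, hl, hw⟩
    exact hcon l hl w hw
  exact hker ha

/-- **closure under products** -/
theorem RatStable.prod [CharZero Ω] {X Y : SmProjVar k} (hX : RatStable I G n σ M X)
    (hY : RatStable I G n σ M Y) : RatStable I G n σ M (X.prod Y) := by
  classical
  obtain ⟨T₁, S₁, h₁⟩ := hX
  obtain ⟨T₂, S₂, h₂⟩ := hY
  obtain ⟨U₁, hU₁, hU₁'⟩ := h₁.int.prodLeft (Y := Y)
  obtain ⟨U₂, hU₂, hU₂'⟩ := h₂.int.prodRight (X := X)
  -- a generic integer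
  let F₁ := h₁.finite.toFinset
  let F₂ := h₂.finite.toFinset
  let q : (Ω × Ω) × (Ω × Ω) × ℕ → Ω := fun x =>
    (x.1.2 - σ x.2.2 ((σ 0).symm x.1.1)) / (σ x.2.2 ((σ 0).symm x.2.1.1) - x.2.1.2)
  let bad : Finset Ω := ((F₁ ×ˢ F₁) ×ˢ ((F₂ ×ˢ F₂) ×ˢ Finset.range (n + 1))).image q
  obtain ⟨_, ⟨m, rfl⟩, hm⟩ := (Set.infinite_range_of_injective
    (Nat.cast_injective (R := Ω))).exists_notMem_finset bad
  have hgen : ∀ α ∈ F₁, ∀ α' ∈ F₁, ∀ β ∈ F₂, ∀ β' ∈ F₂, ∀ j ≤ n,
      σ j ((σ 0).symm α) + m * σ j ((σ 0).symm β) = α' + m * β' →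
        σ j ((σ 0).symm α) = α' ∧ σ j ((σ 0).symm β) = β' := by
    intro α hα α' hα' β hβ β' hβ' j hj heq
    have h2 : σ j ((σ 0).symm β) = β' := by
      by_contra hne
      apply hm
      rw [Finset.mem_image]
      refine ⟨((α, α'), (β, β'), j), ?_, ?_⟩
      · simp only [Finset.mem_product, Finset.mem_range]
        exact ⟨⟨hα, hα'⟩, ⟨hβ, hβ'⟩, by omega⟩
      · change (α' - σ j ((σ 0).symm α)) / (σ j ((σ 0).symm β) - β') = m
        rw [div_eq_iff (sub_ne_zero.mpr hne)]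
        linear_combination -heq
    refine ⟨?_, h2⟩
    rw [h2] at heq
    exact add_right_cancel heq
  have hcomm : Commute U₁ U₂ := by
    refine LinearMap.ext fun z => ?_
    have hz : z ∈ Submodule.span Ω
        {z : P.H (X.prod Y) | ∃ x y, z = P.pull (fst X Y) x * P.pull (snd X Y) y} := by
      rw [P.span_ext]; trivial
    induction hz using Submodule.span_induction with
    | mem z hz =>
      obtain ⟨x, y, rfl⟩ := hz
      change U₁ (U₂ (P.ext X Y x y)) = U₂ (U₁ (P.ext X Y x y))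
      rw [hU₁', hU₂', hU₁', hU₂']
    | zero => rw [map_zero, map_zero]
    | add x y _ _ hx hy => rw [map_add, map_add, hx, hy]
    | smul a x _ hx => rw [map_smul, map_smul, hx]
  have hword : ∀ (l₁ : List (P.Letter X)) (l₂ : List (P.Letter Y)) (w₁ : P.H X) (w₂ : P.H Y),
      IsWord l₁ w₁ → IsWord l₂ w₂ → IsWord (l₁.map (Letter.pull (fst X Y)) ++
        l₂.map (Letter.pull (snd X Y))) (P.ext X Y w₁ w₂) := fun l₁ l₂ w₁ w₂ h h' =>
    (h.pull (fst X Y)).append (h'.pull (snd X Y))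
  refine ⟨U₁ + (m : Ω) • U₂, fun μ => {l | ∃ μ₁ μ₂, ∃ l₁ ∈ S₁ μ₁, ∃ l₂ ∈ S₂ μ₂,
    μ = μ₁ + m * μ₂ ∧ l = l₁.map (Letter.pull (fst X Y)) ++ l₂.map (Letter.pull (snd X Y))}, ?_⟩
  refine ⟨?_, ?_, ?_, ?_, ?_, ?_, ?_⟩
  · exact hU₁.add (hU₂.nsmul m)
  · rintro μ _ ⟨μ₁, μ₂, l₁, hl₁, l₂, hl₂, rfl, rfl⟩ a ha
    rw [List.mem_append, List.mem_map, List.mem_map] at ha
    rcases ha with ⟨a, ha, rfl⟩ | ⟨a, ha, rfl⟩
    · exact (h₁.adm μ₁ l₁ hl₁ a ha).pull _
    · exact (h₂.adm μ₂ l₂ hl₂ a ha).pull _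
  · rintro μ _ ⟨μ₁, μ₂, l₁, hl₁, l₂, hl₂, rfl, rfl⟩ a ha
    rw [List.mem_append, List.mem_map, List.mem_map] at ha
    rcases ha with ⟨a, ha, rfl⟩ | ⟨a, ha, rfl⟩
    · exact h₁.size μ₁ l₁ hl₁ a ha
    · exact h₂.size μ₂ l₂ hl₂ a ha
  · rintro μ _ ⟨μ₁, μ₂, l₁, hl₁, l₂, hl₂, rfl, rfl⟩ w hw
    obtain ⟨y₁, y₂, hy₁, hy₂, rfl⟩ := hw.exists_append
    obtain ⟨a, ha, rfl⟩ := hy₁.exists_pull
    obtain ⟨b, hb, rfl⟩ := hy₂.exists_pull
    have e1 : P.ext X Y a b ∈ U₁.maxGenEigenspace μ₁ := by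
      let φ : P.H X →ₗ[Ω] P.H (X.prod Y) :=
        { toFun := fun x => P.ext X Y x b
          map_add' := fun x y => by rw [SPre.ext, map_add (P.pull _), add_mul]; rfl
          map_smul' := fun c x => by
            rw [SPre.ext, map_smul (P.pull _), smul_mul_assoc]; rfl }
      exact map_mem_maxGenEigenspace T₁ U₁ φ (fun x => (hU₁' x b)) (h₁.eig μ₁ l₁ hl₁ a ha)
    have e2 : P.ext X Y a b ∈ U₂.maxGenEigenspace μ₂ := by
      let φ : P.H Y →ₗ[Ω] P.H (X.prod Y) :=
        { toFun := fun y => P.ext X Y a y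
          map_add' := fun x y => by rw [SPre.ext, map_add (P.pull _), mul_add]; rfl
          map_smul' := fun c x => by
            rw [SPre.ext, map_smul (P.pull _), mul_smul_comm]; rfl }
      exact map_mem_maxGenEigenspace T₂ U₂ φ (fun x => (hU₂' a x)) (h₂.eig μ₂ l₂ hl₂ b hb)
    exact mem_maxGenEigenspace_add (hcomm.smul_right (m : Ω)) e1 (mem_maxGenEigenspace_smul e2)
  · rintro μ _ ⟨μ₁, μ₂, l₁, hl₁, l₂, hl₂, rfl, rfl⟩
    obtain ⟨w₁, hw₁, hne₁⟩ := h₁.ne μ₁ l₁ hl₁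
    obtain ⟨w₂, hw₂, hne₂⟩ := h₂.ne μ₂ l₂ hl₂
    exact ⟨_, hword _ _ _ _ hw₁ hw₂, ext_ne_zero hne₁ hne₂⟩
  · rw [eq_top_iff, ← P.span_ext_sets X Y _ _ h₁.span h₂.span]
    refine Submodule.span_mono ?_
    rintro _ ⟨w₁, ⟨μ₁, l₁, hl₁, hw₁⟩, w₂, ⟨μ₂, l₂, hl₂, hw₂⟩, rfl⟩
    exact ⟨μ₁ + m * μ₂, _, ⟨μ₁, μ₂, l₁, hl₁, l₂, hl₂, rfl, rfl⟩, hword _ _ _ _ hw₁ hw₂⟩
  · intro μ l hl
    choose μ₁ μ₂ l₁ hl₁ l₂ hl₂ hμ hl' using hl
    have h0 := hμ 0
    have hμ' : μ = (σ 0).symm (μ₁ 0) + m * (σ 0).symm (μ₂ 0) := by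
      have := congrArg (σ 0).symm h0
      rwa [Fin.val_zero, RingEquiv.symm_apply_apply, map_add, map_mul, map_natCast] at this
    have key : ∀ j : Fin (n + 1), l₁ j ∈ S₁ (σ j ((σ 0).symm (μ₁ 0))) ∧
        l₂ j ∈ S₂ (σ j ((σ 0).symm (μ₂ 0))) := by
      intro j
      have h3 := hμ j
      rw [hμ', map_add, map_mul, map_natCast] at h3
      obtain ⟨h5, h6⟩ := hgen (μ₁ 0) (h₁.finite.mem_toFinset.mpr ⟨_, hl₁ 0⟩) (μ₁ j)
        (h₁.finite.mem_toFinset.mpr ⟨_, hl₁ j⟩) (μ₂ 0) (h₂.finite.mem_toFinset.mpr ⟨_, hl₂ 0⟩)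
        (μ₂ j) (h₂.finite.mem_toFinset.mpr ⟨_, hl₂ j⟩) j (by omega) h3
      rw [h5, h6]
      exact ⟨hl₁ j, hl₂ j⟩
    have e1 := (h₁.alg _ l₁ fun j => (key j).1).pull (fst X Y)
    have e2 := (h₂.alg _ l₂ fun j => (key j).2).pull (snd X Y)
    have e3 := e1.append e2
    convert e3 using 1
    exact funext hl'

/-- **relative form** -/
theorem RatStable.eq_zero_rel [IsAlgClosed Ω] [CharZero Ω] {V X : SmProjVar k}
    (hX : RatStable I G n σ M X) (hV : P.DP V) (hI : Indep Ω (I.A (V.prod X)))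
    {r : P.H (V.prod X)} (hr : r ∈ I.A (V.prod X)) (hrad : P.rad (V.prod X) r) : r = 0 := by
  obtain ⟨T, S, h⟩ := hX
  obtain ⟨c, hc, hT⟩ := h.int
  have hcev : c ∈ P.ev _ := P.alg_le_ev _ (I.le _ _ hc)
  let B : P.H X →ₗ[Ω] P.H (V.prod X) →ₗ[Ω] P.H V :=
    LinearMap.mk₂ Ω (fun e r => P.contr V X e r)
      (fun e e' r => by
        rw [contr_apply, contr_apply, contr_apply, map_add (P.pull _), mul_add, map_add])
      (fun a e r => by
        rw [contr_apply, contr_apply, map_smul (P.pull _), mul_smul_comm, map_smul])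
      (fun e r r' => map_add _ _ _) (fun a e r => map_smul _ _ _)
  let τ : Module.End Ω (P.H (V.prod X)) :=
    { toFun := fun R => P.pushF (idProd V (fst X X)) (P.pull (idProd V (snd X X)) R *
        P.pull (snd V (X.prod X)) c)
      map_add' := fun x y => by rw [map_add (P.pull _), add_mul, map_add]
      map_smul' := fun a x => by
        rw [map_smul (P.pull _), smul_mul_assoc, map_smul, RingHom.id_apply] }
  have hB : ∀ e r, B e r = P.contr V X e r := fun e r => rfl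
  have hadj : ∀ e r, B (T e) r = B e (τ r) := by
    intro e r
    rw [hB, hB, hT, contr_pushF, contr_mul _ _ hcev, contr_pull]
    rfl
  have hnd : ∀ r, (∀ e, B e r = 0) → r = 0 := by
    intro r h0
    exact eq_zero_of_contr (S := Set.univ) Submodule.span_univ fun c _ => h0 c
  have hτ : ∀ r ∈ I.A (V.prod X), τ r ∈ I.A (V.prod X) := by
    intro r hr
    exact I.push_mem _ _ (I.mul_mem _ _ _ (I.pull_mem _ _ hr) (I.pull_mem _ _ hc))
  refine eq_zero_of_contr h.span ?_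
  rintro w ⟨μ, l, hl, hw⟩
  by_contra hne
  have hex : ∀ j : Fin (n + 1), ∃ l' ∈ S (σ j ((σ 0).symm μ)), ∃ w', IsWord l' w' ∧
      P.contr V X w' r ≠ 0 := by
    intro j
    obtain ⟨e₁, he₁, hne₁⟩ := spectrum_stable hadj hnd hτ hI hr ((σ 0).symm.trans (σ j))
      (h.eig μ l hl w hw) hne
    exact h.exists_mem (B.flip r) he₁ hne₁
  choose l' hl' w' hw' hne' using hex
  obtain ⟨j, hj⟩ := (h.alg _ l' hl').exists_contr_eq_zero hV fun j a ha =>
    h.adm _ (l' j) (hl' j) a ha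
  exact hne' j (hj _ (hw' j) r hrad)

/-! ### families with one member -/

/-- up to sign, words are determined by the product of the letters -/
lemma _root_.Pool.Agent.Helper10.SPre.IsWord.algQ_of_matched {X : SmProjVar k} {l : Fin (n + 1) → List (P.Letter X)}
    (hl : Matched l) (hAdm : ∀ j, ∀ a ∈ l j, P.Adm G X a) (h1 : ∀ j, ∀ a ∈ l j, a.1 ≤ 1)
    (e : Fin (n + 1) → P.homSub X) (he : ∀ j, IsWord (l j) (e j : P.H X))
    (Z : SmProjVar k) (p : Fin (n + 1) → (Z.toOver ⟶ X.toOver)) :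
    ∏ j, P.cls Z (P.pullHom (p j) (e j)) ∈ P.algQ Z := by
  obtain ⟨m, a, hp, ha⟩ := hl
  have hmem : ∀ i j, a i j ∈ l j := fun i j =>
    (hp j).mem_iff.mpr (List.mem_ofFn.mpr ⟨i, rfl⟩)
  have key : ∀ j, ∃ w : Idx (fun i => (a i j).1), (e j : P.H X) = word (fun i => (a i j).2) w ∨
      (e j : P.H X) = - word (fun i => (a i j).2) w := by
    intro j
    obtain ⟨y', hy', h2⟩ := (he j).perm (hp j) (fun b hb i => by
      rcases (hAdm j b hb).parity with h | h
      · exact .inl (h i)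
      · exact .inr (h i))
    obtain ⟨w, rfl⟩ := hy'.exists_word
    refine ⟨w, ?_⟩
    rcases h2 with h2 | h2
    · exact .inl h2.symm
    · right; rw [h2, neg_neg]
  choose w hw using key
  have hhom : ∀ i j, (a i j).2 (w j i) ∈ P.homSub X := by
    intro i j
    rcases (hAdm j _ (hmem i j)).parity with h | h
    · exact .inl (h _)
    · exact .inr (h _)
  -- the class of `e j`
  have hcls : ∀ j, P.cls Z (P.pullHom (p j) (e j)) =
      ∏ i, P.cls Z (P.pullHom (p j) ⟨_, hhom i j⟩) := by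
    intro j
    have h3 : P.cls X (e j) = P.cls X (List.ofFn fun i => (⟨_, hhom i j⟩ : P.homSub X)).prod := by
      have h4 : (((List.ofFn fun i => (⟨_, hhom i j⟩ : P.homSub X)).prod : P.homSub X) : P.H X) =
          word (fun i => (a i j).2) (w j) := by
        have h8 := map_list_prod (P.homSub X).subtype
          (List.ofFn fun i => (⟨_, hhom i j⟩ : P.homSub X))
        rw [List.map_ofFn] at h8
        exact h8
      rw [cls_eq]
      rw [h4]
      exact hw j
    rw [← pullQ_cls, h3, map_list_prod, map_list_prod, List.map_ofFn, List.map_ofFn,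
      List.prod_ofFn]
    exact Finset.prod_congr rfl fun i _ => pullQ_cls P (p j) _
  simp only [hcls]
  rw [Finset.prod_comm]
  refine (P.algQ Z).prod_mem fun i _ => ?_
  -- the product over one tuple
  obtain ⟨M, x, hx, hgood⟩ := ha i
  have hM : M = 1 := by
    have h5 := h1 0 _ (hmem i 0)
    have h6 := (w 0 i).2
    rw [hx] at h5
    have h7 : (a i 0).1 = M := by rw [hx]
    have h8 : 0 < M := by rw [← h7]; exact (w 0 i).pos
    have h9 : M ≤ 1 := h5
    omega
  subst hM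
  have h10 := hgood Z (fun j _ => p j)
  have h11 : ∀ j, (rowDet fun (_ : Fin 1) b => P.pull (p j) (x j b)) =
      P.pull (p j) ((a i j).2 (w j i)) := by
    intro j
    have h12 : ∀ (L : P.Letter X) (hL : L = ⟨1, x j⟩) (b : Fin L.1), L.2 b = x j 0 := by
      rintro _ rfl b
      exact congrArg (x j) (Subsingleton.elim _ _)
    rw [h12 (a i j) (hx j) (w j i)]
    unfold rowDet
    rw [Fintype.sum_unique]
    have h13 : (default : Equiv.Perm (Fin 1)) = 1 := Subsingleton.elim _ _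
    rw [h13, Equiv.Perm.sign_one, Units.val_one, one_smul, List.ofFn_succ, List.ofFn_zero,
      List.prod_cons, List.prod_nil, mul_one]
    rfl
  have h14 : ∏ j, P.cls Z (P.pullHom (p j) ⟨_, hhom i j⟩) =
      P.cls Z (List.ofFn fun j => P.pullHom (p j) ⟨_, hhom i j⟩).prod := by
    rw [map_list_prod, List.map_ofFn, List.prod_ofFn]
    rfl
  rw [h14, cls_mem_algQ]
  have h15 : (((List.ofFn fun j => P.pullHom (p j) ⟨_, hhom i j⟩).prod : P.homSub Z) : P.H Z) =
      (List.ofFn fun j => rowDet fun (_ : Fin 1) b => P.pull (p j) (x j b)).prod := by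
    have h8 := map_list_prod (P.homSub Z).subtype
      (List.ofFn fun j => P.pullHom (p j) ⟨_, hhom i j⟩)
    rw [List.map_ofFn] at h8
    refine h8.trans ?_
    congr 2
    funext j
    exact (h11 j).symm
  rw [h15]
  exact h10

/-- words in homogeneous letters are homogeneous -/
lemma _root_.Pool.Agent.Helper10.SPre.IsWord.hom {X : SmProjVar k} {l : List (P.Letter X)} (hAdm : ∀ a ∈ l, P.Adm G X a)
    {w : P.H X} (hw : IsWord l w) : w ∈ P.homSub X := by
  induction l generalizing w with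
  | nil =>
    have h1 : w = 1 := hw
    rw [h1]
    exact (P.homSub X).one_mem
  | cons a l ih =>
    obtain ⟨b, w', hw', rfl⟩ := hw
    refine (P.homSub X).mul_mem ?_ (ih (fun a ha => hAdm a (List.mem_cons_of_mem _ ha)) hw')
    rcases (hAdm a (List.mem_cons_self)).parity with h | h
    · exact .inl (h b)
    · exact .inr (h b)

/-- if all the families have at most one member, we are in the situation of rational norm type -/
lemma RatStable.ratNorm {X : SmProjVar k} (hX : RatStable I G n σ 1 X) : RatNorm I n σ X := by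
  obtain ⟨T, S, h⟩ := hX
  refine ⟨T, fun μ => {e | (e : P.H X) ≠ 0 ∧ ∃ l ∈ S μ, IsWord l (e : P.H X)}, ?_, ?_, ?_, ?_, ?_⟩
  · exact h.int
  · rintro μ e ⟨-, l, hl, he⟩
    exact h.eig μ l hl _ he
  · rintro μ e ⟨he, -⟩
    exact he
  · rw [eq_top_iff, ← h.span, Submodule.span_le]
    rintro w ⟨μ, l, hl, hw⟩
    by_cases h0 : w = 0
    · rw [h0]; exact Submodule.zero_mem _
    · exact Submodule.subset_span ⟨⟨w, hw.hom (h.adm μ l hl)⟩,
        Set.mem_iUnion.mpr ⟨μ, h0, l, hl, hw⟩, rfl⟩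
  · intro μ e he Z p
    rw [Finset.prod_range fun j => P.cls Z (P.pullHom (p j) (e j))]
    have he' : ∀ j : Fin (n + 1), ∃ l ∈ S (σ j μ), IsWord l (e j : P.H X) := fun j =>
      (he j (by omega)).2
    choose l hl hw using he'
    exact IsWord.algQ_of_matched (h.alg μ l hl) (fun j => h.adm _ (l j) (hl j))
      (fun j => h.size _ (l j) (hl j)) (fun j => e j) hw Z fun j => p j

/-! ### the absolute form -/

lemma toPt_ext {Z : SmProjVar k} (f g : Z.toOver ⟶ (pt k).toOver) : f = g := by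
  have h1 : ∀ f : Z.toOver ⟶ (pt k).toOver, f.left = Z.toOver.hom := by
    intro f
    exact (Category.comp_id f.left).symm.trans (Over.w f)
  apply Over.OverMorphism.ext
  rw [h1, h1]

lemma indep_pt_prod {X : SmProjVar k} (hI : Indep Ω (I.A X)) : Indep Ω (I.A ((pt k).prod X)) := by
  intro m z hz hli
  let i : X.toOver ⟶ ((pt k).prod X).toOver := lift (toPt k X) (𝟙 _)
  have hpi : snd (pt k) X ≫ i = 𝟙 _ := by
    apply SmProjVar.hom_ext
    · exact toPt_ext _ _
    · rw [Category.assoc, lift_snd, Category.comp_id, Category.id_comp]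
  have hinj : Function.Injective (P.pull i) := by
    refine Function.LeftInverse.injective (g := P.pull (snd (pt k) X)) fun x => ?_
    rw [pull_pull, hpi, P.pull_id]
    rfl
  have h1 : LinearIndependent ℤ (fun j => P.pull i (z j)) := by
    have h2 := hli.map' ((P.pull i).toLinearMap.restrictScalars ℤ) (by
      rw [LinearMap.ker_eq_bot]; exact hinj)
    exact h2
  have h2 := hI m _ (fun j => I.pull_mem i _ (hz j)) h1
  exact LinearIndependent.of_comp (P.pull i).toLinearMap h2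

/-- **absolute form** -/
theorem RatStable.eq_zero [IsAlgClosed Ω] [CharZero Ω] {X : SmProjVar k}
    (hX : RatStable I G n σ M X) (hpt : P.DP (pt k)) (hI : Indep Ω (I.A X))
    {r : P.H X} (hr : r ∈ I.A X) (hrad : P.rad X r) : r = 0 := by
  have h1 : P.pull (snd (pt k) X) r = 0 :=
    hX.eq_zero_rel hpt (indep_pt_prod hI) (I.pull_mem _ _ hr) (rad_pull _ hrad)
  have h2 : P.pull (lift (toPt k X) (𝟙 _)) (P.pull (snd (pt k) X) r) = r := by
    rw [pull_pull, lift_snd, P.pull_id]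
    rfl
  rw [← h2, h1, map_zero]

end Pool.Agent.Helper10
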