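import Mathlib
import Pool.Agent.Helper10.DegenTypes
import Pool.Agent.Helper11.RelStableThm

/-!
# Conjecture D for a degeneration implies the independence of cycles
-/

universe u v w u' w' t

open CategoryTheory TensorProduct

namespace Pool.Agent.Helper10

open SmProjVar Pool.Agent.Helper11

namespace Degen

/-! ### a linear map attached to a linear form on the field of coefficients -/

section LinearAlgebra

variable {K : Type v} [Field K] (F : Subfield K)

/-- `N` is an `F`-structure: elements which are independent over `F` are independent over `K` -/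
def IsForm {V : Type w} [AddCommGroup V] [Module K V] (N : Submodule F V) : Prop :=
  ∀ (m : ℕ) (z : Fin m → V), (∀ i, z i ∈ N) → LinearIndependent F z → LinearIndependent K z

variable {F}

lemma exists_extension {V : Type w} [AddCommGroup V] [Module K V] {N : Submodule F V}
    (hN : IsForm F N) (φ : K →ₗ[F] F) :
    ∃ Φ : V →ₗ[F] V, ∀ (a : K), ∀ x ∈ N, Φ (a • x) = φ a • x := by
  classical
  let β := Module.Basis.ofVectorSpace F N
  have hli : LinearIndependent K (fun s => ((β s : N) : V)) := by
    rw [linearIndependent_iff_finset_linearIndependent]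
    intro s
    let e := s.equivFin
    have h1 : LinearIndependent F (fun i : Fin s.card => ((β (e.symm i : _) : N) : V)) := by
      have h2 : LinearIndependent F (fun i : Fin s.card => β (e.symm i : _)) :=
        β.linearIndependent.comp _ (fun a b hab => e.symm.injective (Subtype.ext hab))
      exact h2.map' N.subtype (Submodule.ker_subtype N)
    have h3 := hN _ _ (fun i => (β (e.symm i : _)).2) h1
    have h4 := h3.comp e e.injective
    have h5 : ((fun s => ((β s : N) : V)) ∘ (Subtype.val : s → _)) =
        ((fun i : Fin s.card => ((β (e.symm i : _) : N) : V)) ∘ e) := by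
      ext i
      simp
    rw [h5]
    exact h4
  obtain ⟨r, hr⟩ := LinearMap.exists_leftInverse_of_injective
    (Finsupp.linearCombination K (fun s => ((β s : N) : V)))
    (LinearMap.ker_eq_bot.mpr hli)
  have hr' : ∀ s, r ((β s : N) : V) = Finsupp.single s 1 := by
    intro s
    have := LinearMap.congr_fun hr (Finsupp.single s 1)
    rwa [LinearMap.comp_apply, Finsupp.linearCombination_single, one_smul,
      LinearMap.id_apply] at this
  let Φ : V →ₗ[F] V := (Finsupp.linearCombination F (fun s => ((β s : N) : V))).comp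
    ((Finsupp.mapRange.linearMap φ).comp (r.restrictScalars F))
  refine ⟨Φ, fun a x hx => ?_⟩
  -- reduce to basis vectors
  have key : ∀ y : N, Φ (a • (y : V)) = φ a • (y : V) := by
    intro y
    have hy : y ∈ Submodule.span F (Set.range β) := β.mem_span y
    induction hy using Submodule.span_induction with
    | mem y hy =>
      obtain ⟨s, rfl⟩ := hy
      change Finsupp.linearCombination F (fun s => ((β s : N) : V))
        (Finsupp.mapRange.linearMap φ (r (a • ((β s : N) : V)))) = _
      rw [map_smul, hr', Finsupp.smul_single, smul_eq_mul, mul_one,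
        Finsupp.mapRange.linearMap_apply, Finsupp.mapRange_single,
        Finsupp.linearCombination_single]
    | zero => simp
    | add y z _ _ hy hz => rw [Submodule.coe_add, smul_add, map_add, hy, hz, smul_add]
    | smul c y _ hy =>
      have h1 : a • ((c • y : N) : V) = c • (a • (y : V)) := by
        rw [Submodule.coe_smul, smul_comm]
      rw [h1, map_smul, hy, Submodule.coe_smul, smul_comm]
  exact key ⟨x, hx⟩

end LinearAlgebra

/-! ### duality -/

section Duality

variable {k : Type u} [Field k] {K : Type v} [Field K] [CharZero K]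
  (W : WeilCohomology.{u, v, w} k K)

lemma finite_H (X : SmProjVar k) : Module.Finite K (W.H X) := (W.graded X).finite

lemma ext_tr {X : SmProjVar k} {x y : W.H X} (h : ∀ z, W.trL X (x * z) = W.trL X (y * z)) :
    x = y := by
  rw [← sub_eq_zero]
  refine (W.trace X).nondegenerate _ fun z => ?_
  change W.trL X ((x - y) * z) = 0
  rw [sub_mul, map_sub, h, sub_self]

/-- the Poincaré pairing -/
noncomputable def pairL (X : SmProjVar k) : W.H X →ₗ[K] Module.Dual K (W.H X) where
  toFun x := (W.trL X).comp (LinearMap.mulLeft K x)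
  map_add' x y := by ext z; simp [add_mul]
  map_smul' a x := by ext z; simp

lemma pairL_apply {X : SmProjVar k} (x z : W.H X) : pairL W X x z = W.trL X (x * z) := rfl

lemma exists_rep (X : SmProjVar k) (l : Module.Dual K (W.H X)) :
    ∃ y, ∀ z, W.trL X (y * z) = l z := by
  have := finite_H W X
  have h1 : Function.Injective (pairL W X) := fun x y h => ext_tr W fun z =>
    LinearMap.congr_fun h z
  have h2 : Function.Surjective (pairL W X) :=
    (LinearMap.injective_iff_surjective_of_finrank_eq_finrank
      (Subspace.dual_finrank_eq (K := K) (V := W.H X)).symm).mp h1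
  obtain ⟨y, hy⟩ := h2 l
  exact ⟨y, fun z => LinearMap.congr_fun hy z⟩

variable {W}

lemma tr_comm_alg {X : SmProjVar k} {x : W.H X} (hx : x ∈ W.algClasses X) (y : W.H X) :
    W.trL X (x * y) = W.trL X (y * x) := by
  rw [W.evK_comm X x y (W.algClasses_le_evK X hx)]

/-- under conjecture D, the pairing between algebraic classes is non-degenerate -/
lemma eq_zero_of_standardD {X : SmProjVar k} (hD : W.StandardD X) {x : W.H X}
    (hx : x ∈ W.algClasses X) (h : ∀ y ∈ W.algClasses X, W.trL X (x * y) = 0) : x = 0 := by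
  have h5 : ((1 : K) ⊗ₜ[K] x : W.HΩ K X) = 0 := by
    refine W.d_of_standardD K hD _ ⟨Submodule.tmul_mem_baseChange_of_mem 1 hx, fun y hy => ?_⟩
    refine baseChange_induction _ (p := fun y => W.trΩ K X (1 ⊗ₜ[K] x * y) = 0) ?_ ?_ ?_ ?_ hy
    · intro y hy
      rw [Algebra.TensorProduct.tmul_mul_tmul, WeilCohomology.trΩ_tmul, h y hy, zero_smul]
    · rw [mul_zero, map_zero]
    · intro u v hu hv
      rw [mul_add, map_add, hu, hv, add_zero]
    · intro r u hu
      rw [mul_smul_comm, map_smul, hu, smul_zero]
  exact (Module.Flat.tensorProduct_mk_injective (R := K) (S := K) (M := W.H X))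
    (h5.trans (TensorProduct.tmul_zero _ _).symm)

/-- under conjecture D, every class is the sum of an algebraic class and a class which is
orthogonal to all algebraic classes -/
lemma exists_projection {X : SmProjVar k} (hD : W.StandardD X) (x : W.H X) :
    ∃ y ∈ W.algClasses X, ∀ a ∈ W.algClasses X, W.trL X (a * (x - y)) = 0 := by
  have := finite_H W X
  let A := W.algClasses X
  let B : A →ₗ[K] Module.Dual K A :=
    { toFun := fun y => ((pairL W X y).comp A.subtype)
      map_add' := fun y z => by rw [Submodule.coe_add, map_add, LinearMap.add_comp]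
      map_smul' := fun c y => by
        rw [Submodule.coe_smul, map_smul, LinearMap.smul_comp, RingHom.id_apply] }
  have hB : ∀ y a : A, B y a = W.trL X (y * a) := fun y a => rfl
  have h1 : Function.Injective B := by
    rw [← LinearMap.ker_eq_bot, LinearMap.ker_eq_bot']
    intro y hy
    refine Subtype.ext (eq_zero_of_standardD hD y.2 fun a ha => ?_)
    have := LinearMap.congr_fun hy ⟨a, ha⟩
    rwa [hB] at this
  have h2 : Function.Surjective B :=
    (LinearMap.injective_iff_surjective_of_finrank_eq_finrank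
      (Subspace.dual_finrank_eq (K := K) (V := A)).symm).mp h1
  obtain ⟨y, hy⟩ := h2 ((pairL W X x).comp A.subtype)
  refine ⟨y, y.2, fun a ha => ?_⟩
  have h3 := LinearMap.congr_fun hy ⟨a, ha⟩
  rw [hB] at h3
  have h4 : W.trL X (y * a) = W.trL X (x * a) := h3
  rw [mul_sub, map_sub, sub_eq_zero, tr_comm_alg ha x, tr_comm_alg ha y, h4]

variable (W)

/-- the map `H(X) → H(Y)` induced by a class on `X × Y` -/
lemma exists_corr {X Y : SmProjVar k} (γ : W.H (X.prod Y)) :
    ∃ u : W.H X →ₗ[K] W.H Y, ∀ x y, W.trL Y (u x * y) =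
      W.trL (X.prod Y) (W.pullA (fst X Y) x * γ * W.pullA (snd X Y) y) := by
  have hl : ∀ x : W.H X, ∃ l : Module.Dual K (W.H Y), ∀ y, l y =
      W.trL (X.prod Y) (W.pullA (fst X Y) x * γ * W.pullA (snd X Y) y) := fun x =>
    ⟨(W.trL (X.prod Y)).comp ((LinearMap.mulLeft K (W.pullA (fst X Y) x * γ)).comp
      (W.pullA (snd X Y)).toLinearMap), fun y => rfl⟩
  choose l hl using hl
  choose u hu using fun x => exists_rep W Y (l x)
  have hu' : ∀ x y, W.trL Y (u x * y) =
      W.trL (X.prod Y) (W.pullA (fst X Y) x * γ * W.pullA (snd X Y) y) := fun x y => by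
    rw [hu, hl]
  refine ⟨{ toFun := u, map_add' := fun x x' => ext_tr W fun z => ?_,
            map_smul' := fun c x => ext_tr W fun z => ?_ }, hu'⟩
  · rw [hu', add_mul, map_add, map_add, hu', hu', add_mul, add_mul, map_add]
  · rw [hu', map_smul, RingHom.id_apply, smul_mul_assoc, smul_mul_assoc, smul_mul_assoc, map_smul,
      map_smul, hu']

variable {W}

/-- the image of a combination of cycle classes -/
lemma corr_mem_cycleSpan {F : Subfield K} {X Y : SmProjVar k} {γ : W.H (X.prod Y)}
    (hγ : γ ∈ cycleSpan W.toCohomologyData F (X.prod Y)) {u : W.H X →ₗ[K] W.H Y}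
    (hu : ∀ x y, W.trL Y (u x * y) =
      W.trL (X.prod Y) (W.pullA (fst X Y) x * γ * W.pullA (snd X Y) y)) {x : W.H X}
    (hx : x ∈ cycleSpan W.toCohomologyData F X) :
    u x ∈ cycleSpan W.toCohomologyData F Y := by
  obtain ⟨y, hy, h⟩ := push_mem_cycleSpan W (snd X Y)
    (mul_mem_cycleSpan W _ (pull_mem_cycleSpan W (fst X Y) hx) hγ)
  have : u x = y := ext_tr W fun z => by rw [hu, h]
  rw [this]
  exact hy

/-- the image of an element which is orthogonal to the algebraic classes -/
lemma corr_orthogonal {X Y : SmProjVar k} {γ : W.H (X.prod Y)}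
    (hγ : γ ∈ W.algClasses (X.prod Y)) {u : W.H X →ₗ[K] W.H Y}
    (hu : ∀ x y, W.trL Y (u x * y) =
      W.trL (X.prod Y) (W.pullA (fst X Y) x * γ * W.pullA (snd X Y) y)) {x : W.H X}
    (hx : ∀ a ∈ W.algClasses X, W.trL X (a * x) = 0) {y : W.H Y} (hy : y ∈ W.algClasses Y) :
    W.trL Y (u x * y) = 0 := by
  have h1 : γ * W.pullA (snd X Y) y ∈ W.algClasses (X.prod Y) :=
    W.mul_mem_algClasses _ _ hγ _ (W.pull_mem_algClasses (snd X Y) y hy)
  obtain ⟨z, hz, h⟩ := W.push_mem_algClasses (fst X Y) _ h1
  rw [hu, mul_assoc, ← tr_comm_alg h1, ← h, hx z hz]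

end Duality

/-! ### the main theorem -/

section Main

variable {k : Type u} [Field k] {k' : Type u'} [Field k'] {K : Type v} [Field K] [CharZero K]
  {W : WeilCohomology.{u, v, w} k K} {W' : WeilCohomology.{u', v, w'} k' K}
  {Y : SmProjVar k} {m n : ℕ} {U : Fin m → SmProjVar k'} {V : Fin n → SmProjVar k'}

lemma cycleClass_mem (F : Subfield K) {X : SmProjVar k} (z : AnyCycle X) :
    W.cycleClass z ∈ cycleSpan W.toCohomologyData F X := Submodule.subset_span ⟨z.1, z.2, rfl⟩

/-- the class of a formal combination of cycles -/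
noncomputable def lam (W : WeilCohomology.{u, v, w} k K) (Y : SmProjVar k) :
    (AnyCycle Y →₀ K) →ₗ[K] W.H Y :=
  Finsupp.linearCombination K fun z => W.cycleClass z

/-- the class of the specialization of a formal combination of cycles -/
noncomputable def mu (W' : WeilCohomology.{u', v, w'} k' K) (S : CycleSpecialization Y U V) :
    (AnyCycle Y →₀ K) →ₗ[K] (∀ i, W'.H (U i)) :=
  Finsupp.linearCombination K fun z i => W'.cycleClass (S.sp z i)

/-- the map induced by the correspondences -/
noncomputable def cmap (u : ∀ j i, W'.H (V j) →ₗ[K] W'.H (U i)) :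
    (∀ j, W'.H (V j)) →ₗ[K] (∀ i, W'.H (U i)) :=
  LinearMap.pi fun i => ∑ j, (u j i).comp (LinearMap.proj j)

lemma cmap_apply (u : ∀ j i, W'.H (V j) →ₗ[K] W'.H (U i)) (x : ∀ j, W'.H (V j)) (i : Fin m) :
    cmap u x i = ∑ j, u j i (x j) := by
  simp [cmap]

lemma compat_iff {S : CycleSpecialization Y U V}
    (hS : S.IsCompatible W.toCohomologyData W'.toCohomologyData)
    {u : ∀ j i, W'.H (V j) →ₗ[K] W'.H (U i)}
    (hu : ∀ j i x y, W'.trL (U i) (u j i x * y) = W'.trL ((V j).prod (U i))
      (W'.pullA (fst (V j) (U i)) x * W'.cycleClass (S.corr j i) *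
        W'.pullA (snd (V j) (U i)) y)) (α : AnyCycle Y →₀ K) :
    lam W Y α = 0 ↔ ∃ x, mu W' S α = cmap u x := by
  classical
  let e := α.support.equivFin
  have h1 : lam W Y α = ∑ t : Fin α.support.card, α (e.symm t) • W.cycleClass (e.symm t).1 := by
    rw [lam, Finsupp.linearCombination_apply, Finsupp.sum, ← Finset.sum_coe_sort,
      ← Equiv.sum_comp e.symm]
  have h2 : ∀ i, mu W' S α i = ∑ t : Fin α.support.card,
      α (e.symm t) • W'.cycleClass (S.sp (e.symm t).1 i) := by
    intro i
    rw [mu, Finsupp.linearCombination_apply, Finsupp.sum, Finset.sum_apply,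
      ← Finset.sum_coe_sort, ← Equiv.sum_comp e.symm]
    rfl
  rw [h1, hS]
  refine exists_congr fun x => ?_
  have h3 : ∀ (i : Fin m) (y : W'.H (U i)), ∑ j, W'.corrPairing (S.corr j i) (x j) y =
      W'.trL (U i) (cmap u x i * y) := by
    intro i y
    rw [cmap_apply, Finset.sum_mul, map_sum]
    exact Finset.sum_congr rfl fun j _ => (hu j i (x j) y).symm
  constructor
  · intro h
    funext i
    refine ext_tr W' fun y => ?_
    rw [h2, ← h3, ← h]
    rfl
  · intro h i y
    rw [h3, ← h, h2]
    rfl

/-- if a combination of algebraic classes is in the image of the correspondences, then it is the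
image of algebraic classes -/
lemma exists_algebraic_preimage (hU : ∀ i, W'.StandardD (U i)) (hV : ∀ j, W'.StandardD (V j))
    {γ : ∀ j i, W'.H ((V j).prod (U i))} (hγ : ∀ j i, γ j i ∈ W'.algClasses ((V j).prod (U i)))
    {u : ∀ j i, W'.H (V j) →ₗ[K] W'.H (U i)}
    (hu : ∀ j i x y, W'.trL (U i) (u j i x * y) = W'.trL ((V j).prod (U i))
      (W'.pullA (fst (V j) (U i)) x * γ j i * W'.pullA (snd (V j) (U i)) y))
    (hu' : ∀ j i, ∀ x ∈ W'.algClasses (V j), u j i x ∈ W'.algClasses (U i))
    {x : ∀ j, W'.H (V j)} (hx : ∀ i, cmap u x i ∈ W'.algClasses (U i)) :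
    ∃ y : ∀ j, W'.H (V j), (∀ j, y j ∈ W'.algClasses (V j)) ∧ cmap u y = cmap u x := by
  choose y hy hxy using fun j => exists_projection (hV j) (x j)
  refine ⟨y, hy, ?_⟩
  symm
  rw [← sub_eq_zero, ← map_sub]
  funext i
  refine eq_zero_of_standardD (hU i) ?_ fun a ha => ?_
  · rw [map_sub, Pi.sub_apply]
    refine Submodule.sub_mem _ (hx i) ?_
    rw [cmap_apply]
    exact Submodule.sum_mem _ fun j _ => hu' j i _ (hy j)
  · rw [cmap_apply, Finset.sum_mul, map_sum]
    exact Finset.sum_eq_zero fun j _ => corr_orthogonal (hγ j i) (hu j i) (hxy j) ha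

theorem independentOver_of_degeneration
    (h : DegeneratesToStandardD W.toCohomologyData W'.toCohomologyData Y) (F : Subfield K) :
    IndependentOver W.toCohomologyData F Y := by
  classical
  obtain ⟨m, n, U, V, S, hS, hU, hV⟩ := h
  choose u hu using fun j i => exists_corr W' (X := V j) (Y := U i) (W'.cycleClass (S.corr j i))
  have hcompat := compat_iff hS hu
  have hγ : ∀ (F' : Subfield K) j i, W'.cycleClass (S.corr j i) ∈
      cycleSpan W'.toCohomologyData F' ((V j).prod (U i)) := fun F' j i => cycleClass_mem F' _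
  have huF : ∀ j i, ∀ x ∈ cycleSpan W'.toCohomologyData F (V j),
      u j i x ∈ cycleSpan W'.toCohomologyData F (U i) := fun j i x hx =>
    corr_mem_cycleSpan (hγ F j i) (hu j i) hx
  have hualg : ∀ j i, ∀ x ∈ W'.algClasses (V j), u j i x ∈ W'.algClasses (U i) := by
    intro j i x hx
    unfold CohomologyData.algClasses at hx
    induction hx using Submodule.span_induction with
    | mem x hx =>
      obtain ⟨d, c, rfl⟩ := hx
      exact cycleSpan_le W' _ (huF j i _ (cy_mem_cycleSpan W' F (V j) d c))
    | zero => rw [map_zero]; exact Submodule.zero_mem _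
    | add a b _ _ ha hb => rw [map_add]; exact Submodule.add_mem _ ha hb
    | smul r a _ ha => rw [map_smul]; exact Submodule.smul_mem _ r ha
  intro N z hz hli
  rw [Fintype.linearIndependent_iff] at hli ⊢
  intro a ha
  by_contra hcon
  push Not at hcon
  obtain ⟨i₀, hi₀⟩ := hcon
  -- an `F`-linear form on `K` which does not vanish at `a i₀`
  obtain ⟨φ, hφ⟩ : ∃ φ : K →ₗ[F] F, φ (a i₀) ≠ 0 := by
    by_contra hall
    push Not at hall
    let β := Module.Basis.ofVectorSpace F K
    apply hi₀
    have : β.repr (a i₀) = 0 := Finsupp.ext fun s => hall (β.coord s)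
    rwa [map_eq_zero_iff _ β.repr.injective] at this
  choose Φ hΦ using fun i => exists_extension (F := F) (V := W'.H (U i))
    (N := cycleSpan W'.toCohomologyData F (U i))
    (independentOver_of_standardD (F := F) W' (hU i)) φ
  -- formal combinations of cycles which represent the `z t`
  have hα' : ∀ x ∈ cycleSpan W.toCohomologyData F Y, ∃ α : AnyCycle Y →₀ K, lam W Y α = x ∧
      ∀ i, mu W' S α i ∈ cycleSpan W'.toCohomologyData F (U i) := by
    intro x hx
    unfold cycleSpan at hx
    induction hx using Submodule.span_induction with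
    | mem x hx =>
      obtain ⟨j, c, rfl⟩ := hx
      refine ⟨Finsupp.single (⟨j, c⟩ : AnyCycle Y) 1, ?_, fun i => ?_⟩
      · rw [lam, Finsupp.linearCombination_single, one_smul]
        rfl
      · rw [mu, Finsupp.linearCombination_single, one_smul]
        exact cycleClass_mem F _
    | zero => exact ⟨0, map_zero _, fun i => by rw [map_zero]; exact Submodule.zero_mem _⟩
    | add x y _ _ hx hy =>
      obtain ⟨α, hα, hα'⟩ := hx
      obtain ⟨β, hβ, hβ'⟩ := hy
      exact ⟨α + β, by rw [map_add, hα, hβ], fun i => by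
        rw [map_add, Pi.add_apply]; exact Submodule.add_mem _ (hα' i) (hβ' i)⟩
    | smul r x _ hx =>
      obtain ⟨α, hα, hα'⟩ := hx
      exact ⟨(r : K) • α, by rw [map_smul, hα]; rfl, fun i => by
        rw [map_smul, Pi.smul_apply]; exact smul_mem_cycleSpan W' r (hα' i)⟩
  have hα : ∀ t, ∃ α : AnyCycle Y →₀ K, lam W Y α = z t ∧
      ∀ i, mu W' S α i ∈ cycleSpan W'.toCohomologyData F (U i) := fun t => hα' _ (hz t)
  choose α hαz hαm using hα
  have h1 : lam W Y (∑ t, a t • α t) = 0 := by
    rw [map_sum, ← ha]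
    exact Finset.sum_congr rfl fun t _ => by rw [map_smul, hαz]
  obtain ⟨x, hx⟩ := (hcompat _).mp h1
  have hmu : ∀ (b : Fin N → K) (i : Fin m), mu W' S (∑ t, b t • α t) i =
      ∑ t, b t • mu W' S (α t) i := by
    intro b i
    rw [map_sum, Finset.sum_apply]
    exact Finset.sum_congr rfl fun t _ => by rw [map_smul, Pi.smul_apply]
  obtain ⟨y, hy, hyx⟩ := exists_algebraic_preimage hU hV
    (fun j i => cycleSpan_le (F := F) W' _ (hγ F j i)) hu hualg (x := x) (fun i => by
      rw [← hx, hmu]
      exact Submodule.sum_mem _ fun t _ => Submodule.smul_mem _ _ (cycleSpan_le W' _ (hαm t i)))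
  -- the images under `Φ`
  have hΦmu : ∀ i, Φ i (mu W' S (∑ t, a t • α t) i) =
      mu W' S (∑ t, (φ (a t) : K) • α t) i := by
    intro i
    rw [hmu, hmu, map_sum]
    exact Finset.sum_congr rfl fun t _ => hΦ i _ _ (hαm t i)
  have hΦc : ∃ y' : ∀ j, W'.H (V j), ∀ i, Φ i (cmap u y i) = cmap u y' i := by
    have h3 : ∀ j, ∀ x ∈ W'.algClasses (V j), ∃ v : W'.H (V j), ∀ i,
        Φ i (u j i x) = u j i v := by
      intro j x hx
      unfold CohomologyData.algClasses at hx
      induction hx using Submodule.closure_induction with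
      | zero => exact ⟨0, fun i => by rw [map_zero, map_zero]⟩
      | add a b _ _ ha hb =>
        obtain ⟨a', ha'⟩ := ha
        obtain ⟨b', hb'⟩ := hb
        exact ⟨a' + b', fun i => by rw [map_add, map_add, ha', hb', map_add]⟩
      | smul_mem r x hx =>
        obtain ⟨d, c, rfl⟩ := hx
        refine ⟨(φ r : K) • W'.cy (V j) d c, fun i => ?_⟩
        rw [LinearMap.map_smul (u j i), LinearMap.map_smul (u j i),
          hΦ i _ _ (huF j i _ (cy_mem_cycleSpan W' F (V j) d c))]
        rfl
    have h2 : ∀ j, ∃ v : W'.H (V j), ∀ i, Φ i (u j i (y j)) = u j i v := fun j => h3 j _ (hy j)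
    choose v hv using h2
    refine ⟨v, fun i => ?_⟩
    rw [cmap_apply, cmap_apply, map_sum]
    exact Finset.sum_congr rfl fun j _ => hv j i
  obtain ⟨y', hy'⟩ := hΦc
  have h4 : mu W' S (∑ t, (φ (a t) : K) • α t) = cmap u y' := by
    funext i
    rw [← hΦmu, hx, ← hyx, hy']
  have h5 := (hcompat _).mpr ⟨y', h4⟩
  rw [map_sum] at h5
  refine hφ (hli (fun t => φ (a t)) ?_ i₀)
  rw [← h5]
  exact Finset.sum_congr rfl fun t _ => by rw [map_smul, hαz]; rfl

/-- **Conjecture D for a degeneration implies conjecture D for varieties of stable type** -/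
theorem standardD_of_degeneration {Ω : Type t} [Field Ω] [Algebra K Ω] [IsAlgClosed Ω]
    {F : Subfield K} {r : ℕ} {σ : Fin (r + 1) → (Ω ≃+* Ω)}
    (hσ : ∀ j, ∀ a ∈ F, σ j (algebraMap K Ω a) = algebraMap K Ω a)
    {G : Set (∀ X : SmProjVar k, W.HΩ Ω X → W.HΩ Ω X)} (hG : G ⊆ W.symmetries Ω) {M : ℕ}
    (h : DegeneratesToStandardD W.toCohomologyData W'.toCohomologyData Y)
    (hY : RelativelyStableOver W Ω F σ G M Y) : W.StandardD Y :=
  (standardD_iff_independentOver hσ hG hY).mpr (independentOver_of_degeneration h F)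

end Main

end Degen

end Pool.Agent.Helper10
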