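import Mathlib
import Pool.Agent.Helper10.DegenTypes

/-!
# The standard conjecture of Hodge type, and semistable degenerations

`X` is a variety over a field `k`, with a divisor `d`, and `U_s` are varieties over another field
`k'`, with divisors `d_s`.
Example: `k` is a discretely valued field with residue field `k'`, `X` has a projective strictly
semistable model, `d` is the restriction of a very ample divisor on the model, the `U_s` of
level `m` are the components of the intersections of `m + 1` components of the special fibre,
`d_s` is the restriction of the divisor to `U_s`, and the cycle `inc s t` on `U_s × U_t` is, up to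
sign, the graph of the inclusion of `U_t` in `U_s`, or `0` if `U_t` is not contained in `U_s`.
-/

universe u v w u' w'

open CategoryTheory TensorProduct

namespace Pool.Agent.Helper10

open SmProjVar

namespace CohomologyData

variable {k : Type u} [Field k] {K : Type v} [Field K] (W : CohomologyData.{u, v, w} k K)

/-- The cohomology class `0` on `X`. -/
def zeroClass (X : SmProjVar k) : W.H X := 0

/-- The class `d ^ r ∪ x`, for a divisor `d` on `X`. -/
def lef (X : SmProjVar k) (d : X.Z 1) (r : ℕ) (x : W.H X) : W.H X := W.cy X 1 d ^ r * x

/-- The class `m x` for an integer `m`. -/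
def intMul (X : SmProjVar k) (m : ℤ) (x : W.H X) : W.H X := m • x

/-- The standard conjecture of Hodge type for the variety `X` with the divisor `d`, modulo
homological equivalence: for `2 p + r = dim X` and every algebraic cycle `z` of codimension `p`
on `X` with `d ^ (r + 1) ∪ z = 0` and `z ≠ 0` in cohomology, `(-1) ^ p ∫ z ∪ d ^ r ∪ z` is a
positive integer. -/
def HodgeType (X : SmProjVar k) (d : X.Z 1) : Prop :=
  ∀ p r : ℕ, 2 * p + r = X.dim → ∀ z : X.Z p,
    W.lef X d (r + 1) (W.cy X p z) = W.zeroClass X → W.cy X p z ≠ W.zeroClass X →
      ∃ i : ℕ, 0 < i ∧ W.pairing X (W.cy X p z) (W.lef X d r (W.cy X p z)) = (-1) ^ p * (i : K)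

/-- The standard conjecture of Lefschetz type (conjecture `A`) for the variety `X` with the
divisor `d`: for `2 p + r = dim X`, the multiplication by `d ^ r` is an isomorphism between the
`ℚ`-vector spaces of cohomology classes of algebraic cycles of codimension `p` and `p + r`. -/
def LefschetzType (X : SmProjVar k) (d : X.Z 1) : Prop :=
  ∀ p r : ℕ, 2 * p + r = X.dim →
    (∀ z : X.Z p, W.lef X d r (W.cy X p z) = W.zeroClass X → W.cy X p z = W.zeroClass X) ∧
      ∀ z : X.Z (p + r), ∃ (m : ℤ) (y : X.Z p), m ≠ 0 ∧
        W.intMul X m (W.cy X (p + r) z) = W.lef X d r (W.cy X p y)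

end CohomologyData

/-- Varieties `U_s` over `k'` (the strata), with levels, divisors, and cycles on the products
`U_s × U_t`. -/
structure Strata (k' : Type u') [Field k'] where
  /-- the number of strata -/
  N : ℕ
  /-- the strata -/
  U : Fin N → SmProjVar k'
  /-- the level of a stratum (in the example, its codimension in the special fibre) -/
  lev : Fin N → ℕ
  /-- the divisors `d_s` -/
  div : ∀ s, (U s).Z 1
  /-- the cycles on `U_s × U_t` (in the example, graphs of inclusions, with signs) -/
  inc : ∀ s t, ((U s).prod (U t)).Z (U s).dim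

namespace Strata

variable {k' : Type u'} [Field k'] {K : Type v} [Field K] (S : Strata k')
  (W' : CohomologyData.{u', v, w'} k' K)

/-- The sum of the cohomologies `H'(U_s)` of all strata. -/
def Coh : Type w' := ∀ s, W'.H (S.U s)

/-- The element `0`. -/
def zero : S.Coh W' := fun s => W'.zeroClass (S.U s)

/-- The sum `x + y`. -/
def add (x y : S.Coh W') : S.Coh W' := fun s => x s + y s

/-- The element `(d_s ^ r ∪ x_s)_s`. -/
def lef (r : ℕ) (x : S.Coh W') : S.Coh W' := fun s => W'.lef (S.U s) (S.div s) r (x s)

/-- The sum of the numbers `∫ x_s ∪ y_s` on `U_s`. -/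
def pairing (x y : S.Coh W') : K := ∑ s, W'.pairing (S.U s) (x s) (y s)

/-- The sum of the numbers `∫ p^* x_s ∪ [inc s t] ∪ q^* y_t` on `U_s × U_t` (in the example, this is,
up to sign, `∫ x_s ∪ y_t` on `U_t` if `U_t` is contained in `U_s`), for all `s` and `t` such that the
level of `t` is one more than the level of `s`. -/
noncomputable def incPairing (x y : S.Coh W') : K :=
  ∑ s, ∑ t with S.lev t = S.lev s + 1, W'.corrPairing ⟨_, S.inc s t⟩ (x s) (y t)

/-- The components `x_s` are zero for all `s` of level `0`. -/
def IsPositive (x : S.Coh W') : Prop := ∀ s, S.lev s = 0 → x s = W'.zeroClass (S.U s)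

/-- The components `x_s` are zero for all `s` of even level. -/
def IsOdd (x : S.Coh W') : Prop := ∀ s, Even (S.lev s) → x s = W'.zeroClass (S.U s)

/-- `ρ` and `δ` are the sums of the restriction maps `H'(U_s) → H'(U_t)` and of the Gysin maps
`H'(U_t) → H'(U_s)`, for all `s` and `t` such that the level of `t` is one more than the level
of `s` (the maps which are induced by the cycles `inc s t`). They satisfy `ρ ρ = 0`, `ρ δ + δ ρ = 0`
in positive levels, and `ρ` commutes with the multiplication by the `d_s`. -/
structure IsWeightComplex (ρ δ : S.Coh W' → S.Coh W') : Prop where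
  rho : ∀ x y, S.pairing W' (ρ x) y = S.incPairing W' x y
  delta : ∀ x y, S.pairing W' x (δ y) = S.incPairing W' x y
  rho_rho : ∀ x, ρ (ρ x) = S.zero W'
  rho_delta : ∀ x, S.IsPositive W' x → S.add W' (ρ (δ x)) (δ (ρ x)) = S.zero W'
  rho_div : ∀ x, ρ (S.lef W' 1 x) = S.lef W' 1 (ρ x)

/-- For cycles `c_s` on the `U_s`, the family of the classes of the `c_s` with `s` of level `0`. -/
def levelZero (j : ℕ) (c : ∀ s, (S.U s).Z j) : S.Coh W' := fun s =>
  if S.lev s = 0 then W'.cy (S.U s) j (c s) else W'.zeroClass (S.U s)

end Strata

/-- The variety `X` with the divisor `d` has a semistable degeneration with strata `S`, for the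
cohomology theories `W` and `W'` (with the same field of coefficients): `sp` maps the cycles on `X`
to cycles on the `U_s` (in the example, the restrictions to `U_s` of the closures of the cycles on
`X`). -/
structure IsSemistableDegeneration {k : Type u} [Field k] {k' : Type u'} [Field k']
    {K : Type v} [Field K] (W : CohomologyData.{u, v, w} k K)
    (W' : CohomologyData.{u', v, w'} k' K) (X : SmProjVar k) (d : X.Z 1) (S : Strata k')
    (sp : ∀ j : ℕ, X.Z j → ∀ s, (S.U s).Z j) (ρ δ : S.Coh W' → S.Coh W') : Prop where
  /-- strata of level `m` have dimension `dim X - m` -/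
  dim_eq : ∀ s, S.lev s + (S.U s).dim = X.dim
  complex : S.IsWeightComplex W' ρ δ
  /-- the specializations of a cycle agree on the strata of level `1` -/
  rho_sp : ∀ (j : ℕ) (z : X.Z j), ρ (S.levelZero W' j (sp j z)) = S.zero W'
  /-- intersection numbers specialize -/
  pairing_sp : ∀ (i j r : ℕ) (z : X.Z i) (z' : X.Z j),
    W.pairing X (W.cy X i z) (W.lef X d r (W.cy X j z')) =
      S.pairing W' (S.levelZero W' i (sp i z)) (S.lef W' r (S.levelZero W' j (sp j z')))
  /-- a cohomology class `d ^ r ∪ z` on `X` is zero if and only if its specialization is a boundary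
  in the complex with the differential `ρ + δ` (the first term of the weight spectral sequence) -/
  eq_zero_iff : ∀ (r j : ℕ) (z : X.Z j), W.lef X d r (W.cy X j z) = W.zeroClass X ↔
    ∃ x, S.IsOdd W' x ∧ S.add W' (ρ x) (δ x) = S.lef W' r (S.levelZero W' j (sp j z))

/-- The variety `X` with the divisor `d` has a semistable degeneration such that the standard
conjecture D and the standard conjecture of Hodge type hold for all strata. -/
def DegeneratesToHodgeType {k : Type u} [Field k] {k' : Type u'} [Field k']
    {K : Type v} [Field K] (W : CohomologyData.{u, v, w} k K)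
    (W' : CohomologyData.{u', v, w'} k' K) (X : SmProjVar k) (d : X.Z 1) : Prop :=
  ∃ (S : Strata k') (sp : ∀ j : ℕ, X.Z j → ∀ s, (S.U s).Z j) (ρ δ : S.Coh W' → S.Coh W'),
    IsSemistableDegeneration W W' X d S sp ρ δ ∧
      ∀ s, W'.StandardD (S.U s) ∧ W'.HodgeType (S.U s) (S.div s)

end Pool.Agent.Helper10
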