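import Mathlib
import Pool.Agent.Helper10.RatStableTypes
import Pool.Agent.Helper10.RatStable

/-!
# Conjecture D and the independence of cycles, for varieties of rational stable type
-/

universe u v w t

open CategoryTheory TensorProduct

namespace Pool.Agent.Helper10

open SmProjVar SPre Helper11 GIT

namespace WeilCohomology

variable {k : Type u} [Field k] {K : Type v} [Field K] [CharZero K]
  (W : WeilCohomology.{u, v, w} k K) (Ω : Type t) [Field Ω] [Algebra K Ω]

lemma sameParity_cases {V : SmProjVar k} {n : ℕ} {e f : Fin n → W.HΩ Ω V}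
    (h : W.SameParity Ω V e f) :
    ((∀ b, e b ∈ (W.toSPre Ω).ev V) ∧ ∀ b, f b ∈ (W.toSPre Ω).ev V) ∨
      ((∀ b, e b ∈ (W.toSPre Ω).od V) ∧ ∀ b, f b ∈ (W.toSPre Ω).od V) := by
  obtain ⟨p, hp⟩ := h
  have key : ∀ S : Submodule K (W.H V), parityPart (W.gr V) p ≤ S → ∀ x : W.HΩ Ω V,
      InExtension (parityPart (W.gr V) p) x → x ∈ S.baseChange Ω := by
    intro S hS x hx
    refine baseChange_induction _ (p := fun x => x ∈ S.baseChange Ω) ?_ ?_ ?_ ?_ hx
    · intro y hy
      exact Submodule.tmul_mem_baseChange_of_mem 1 (hS hy)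
    · exact Submodule.zero_mem _
    · intro a b ha hb
      exact Submodule.add_mem _ ha hb
    · intro a x hx
      exact Submodule.smul_mem _ _ hx
  by_cases h : Even p
  · have h2 := key (W.evK V) (iSup₂_le fun i hi => W.gr_le_evK V
      ((Nat.even_add.mp (show Even (i + p) from hi)).mpr h))
    exact .inl ⟨fun b => h2 _ (hp b).1, fun b => h2 _ (hp b).2⟩
  · have h2 := key (W.odK V) (iSup₂_le fun i hi => W.gr_le_odK V fun h2 => h
      ((Nat.even_add.mp (show Even (i + p) from hi)).mp h2))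
    exact .inr ⟨fun b => h2 _ (hp b).1, fun b => h2 _ (hp b).2⟩

/-- the product of the determinants of dual families is algebraic -/
lemma det_mul_det_of_dual {V : SmProjVar k} {n : ℕ} {e f : Fin n → W.HΩ Ω V}
    (h : W.DualFamilies Ω V e f) (Z : SmProjVar k) (p q : Fin n → (Z.toOver ⟶ V.toOver)) :
    (rowDet fun i b => W.pullT Ω (p i) (e b)) * (rowDet fun i b => W.pullT Ω (q i) (f b)) ∈
      W.algΩ Ω Z := by
  obtain ⟨hp, B, hB, h⟩ := h
  replace hp := W.sameParity_cases Ω hp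
  unfold IsAlg InExtension bilinear pullT at h
  have hΩ : CharZero Ω := charZero_of_injective_algebraMap (algebraMap K Ω).injective
  unfold pullT
  set x : Fin n → Fin n → W.HΩ Ω Z := fun i b => W.pullΩ Ω (p i) (e b) with hx
  set y : Fin n → Fin n → W.HΩ Ω Z := fun i b => W.pullΩ Ω (q i) (f b) with hy
  have hpar : ∃ ε : Ω, (ε = 1 ∨ ε = -1) ∧
      (∀ i a j b, x i a * x j b = ε • (x j b * x i a)) ∧
      (∀ i a j b, x i a * y j b = ε • (y j b * x i a)) ∧
      (∀ i a j b, y i a * y j b = ε • (y j b * y i a)) := by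
    rcases hp with ⟨hp, hp'⟩ | ⟨hp, hp'⟩
    · have hx' : ∀ i b, x i b ∈ (W.toSPre Ω).ev Z := fun i b =>
        (W.toSPre Ω).pull_ev (p i) _ (hp b)
      have hy' : ∀ i b, y i b ∈ (W.toSPre Ω).ev Z := fun i b =>
        (W.toSPre Ω).pull_ev (q i) _ (hp' b)
      refine ⟨1, .inl rfl, fun i a j b => ?_, fun i a j b => ?_, fun i a j b => ?_⟩
      · rw [one_smul]; exact (W.toSPre Ω).ev_comm Z _ _ (hx' i a)
      · rw [one_smul]; exact (W.toSPre Ω).ev_comm Z _ _ (hx' i a)
      · rw [one_smul]; exact (W.toSPre Ω).ev_comm Z _ _ (hy' i a)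
    · have hx' : ∀ i b, x i b ∈ (W.toSPre Ω).od Z := fun i b =>
        (W.toSPre Ω).pull_od (p i) _ (hp b)
      have hy' : ∀ i b, y i b ∈ (W.toSPre Ω).od Z := fun i b =>
        (W.toSPre Ω).pull_od (q i) _ (hp' b)
      refine ⟨-1, .inr rfl, fun i a j b => ?_, fun i a j b => ?_, fun i a j b => ?_⟩
      · rw [neg_one_smul]; exact (W.toSPre Ω).od_anti Z _ _ (hx' i a) (hx' j b)
      · rw [neg_one_smul]; exact (W.toSPre Ω).od_anti Z _ _ (hx' i a) (hy' j b)
      · rw [neg_one_smul]; exact (W.toSPre Ω).od_anti Z _ _ (hy' i a) (hy' j b)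
  obtain ⟨ε, hε, hxx, hxy, hyy⟩ := hpar
  have h1 := Helper11.RowDetDual.det_smul_mem (W.algΩ Ω Z) ((W.toSPre Ω).one_mem Z)
    (fun a ha b hb => (W.toSPre Ω).mul_mem Z a b ha hb) x y ε hε hxx hxy hyy B (by
      intro i j
      have h2 := (W.toSPre Ω).pull_mem (lift (p i) (q j)) _ h
      have h3 : W.pullΩ Ω (lift (p i) (q j)) (∑ a, ∑ b, B a b •
          (W.pullΩ Ω (fst V V) (e a) * W.pullΩ Ω (snd V V) (f b))) =
          ∑ a, ∑ b, B a b • (x i a * y j b) := by
        rw [map_sum]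
        refine Finset.sum_congr rfl fun a _ => ?_
        rw [map_sum]
        refine Finset.sum_congr rfl fun b _ => ?_
        rw [map_smul, map_mul]
        have h4 : W.pullΩ Ω (lift (p i) (q j)) (W.pullΩ Ω (fst V V) (e a)) =
            W.pullΩ Ω (p i) (e a) := by
          have h5 := SPre.pull_pull (P := W.toSPre Ω) (lift (p i) (q j)) (fst V V) (e a)
          rw [lift_fst] at h5
          exact h5
        have h5 : W.pullΩ Ω (lift (p i) (q j)) (W.pullΩ Ω (snd V V) (f b)) =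
            W.pullΩ Ω (q j) (f b) := by
          have h6 := SPre.pull_pull (P := W.toSPre Ω) (lift (p i) (q j)) (snd V V) (f b)
          rw [lift_snd] at h6
          exact h6
        rw [h4, h5]
      rw [← h3]
      exact h2)
  exact (Submodule.smul_mem_iff _ hB).mp h1

/-- complementary families in the auxiliary setting -/
lemma goodTuple_of_complementary {V : SmProjVar k} {n : ℕ}
    {a : Fin (n + 1) → FinFamily (W.HΩ Ω V)} (h : W.Complementary Ω V a) :
    SPre.GoodTuple (P := W.toSPre Ω) a := by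
  obtain ⟨m, e, ha, h⟩ := h
  refine ⟨m, e, ha, fun Z p => ?_⟩
  rcases h with h | ⟨rfl, h⟩
  · exact h Z p
  · have h1 := W.det_mul_det_of_dual Ω h Z (p 0) (p (Fin.last 1))
    have h2 : (List.ofFn fun j => rowDet fun i b => (W.toSPre Ω).pull (p j i) (e j b)).prod =
        (rowDet fun i b => W.pullT Ω (p 0 i) (e 0 b)) *
          (rowDet fun i b => W.pullT Ω (p (Fin.last 1) i) (e (Fin.last 1) b)) := by
      rw [List.ofFn_succ, List.ofFn_succ, List.ofFn_zero, List.prod_cons, List.prod_cons,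
        List.prod_nil, mul_one]
      rfl
    rw [h2]
    exact h1

lemma matched_of_matchedLists {V : SmProjVar k} {n : ℕ}
    {l : Fin (n + 1) → List (FinFamily (W.HΩ Ω V))} (h : W.MatchedLists Ω V l) :
    SPre.Matched (P := W.toSPre Ω) l := by
  obtain ⟨r, a, hl, ha⟩ := h
  exact ⟨r, a, hl, fun i => W.goodTuple_of_complementary Ω (ha i)⟩

lemma isWord_iff {V : SmProjVar k} (l : List (FinFamily (W.HΩ Ω V))) (w : W.HΩ Ω V) :
    IsWordOf l w ↔ SPre.IsWord (P := W.toSPre Ω) l w := by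
  induction l generalizing w with
  | nil => exact Iff.rfl
  | cons a l ih =>
    constructor
    · rintro ⟨b, w', hw', h⟩
      exact ⟨b, w', (ih w').mp hw', h⟩
    · rintro ⟨b, w', hw', h⟩
      exact ⟨b, w', (ih w').mpr hw', h⟩

/-- admissible families in the auxiliary setting -/
lemma adm_of_admissible {G : Set (∀ X : SmProjVar k, W.HΩ Ω X → W.HΩ Ω X)}
    (hG : G ⊆ W.symmetries Ω) {V : SmProjVar k} {e : FinFamily (W.HΩ Ω V)}
    (h : W.Admissible Ω G V e) :
    (W.toSPre Ω).Adm (fun g : G => W.symSPre Ω (hG g.2).choose_spec) V e where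
  parity := W.parity_of_parityFamily Ω h.1
  irr := by
    obtain ⟨ρ, hρ, hs⟩ := h.2
    refine ⟨fun g => ρ g, fun g => ⟨(hρ g g.2).1, (hρ g g.2).2⟩, ?_⟩
    rw [← hs]
    congr 1
    rw [Set.image_eq_range]

/-- rational stable type in the auxiliary setting -/
lemma ratStable_of_rationalStableType {n : ℕ} {σ : ℕ → (Ω ≃+* Ω)}
    {G : Set (∀ X : SmProjVar k, W.HΩ Ω X → W.HΩ Ω X)} (hG : G ⊆ W.symmetries Ω) {M : ℕ}
    {X : SmProjVar k} (h : W.RationalStableType Ω n σ G M X) :
    RatStable (intStr W Ω) (fun g : G => W.symSPre Ω (hG g.2).choose_spec) n σ M X := by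
  obtain ⟨T, S, ⟨c, hc, hT⟩, h1, hspan, h2⟩ := h
  have hcA : (oneT c : (W.toSPre Ω).H (X.prod X)) ∈ (intStr W Ω).A (X.prod X) :=
    (mem_intA W Ω).mpr ⟨c, hc, rfl⟩
  obtain ⟨T', hT'⟩ : ∃ T' : Module.End Ω ((W.toSPre Ω).H X), ∀ x, T' x =
      (W.toSPre Ω).pushF (snd X X) ((W.toSPre Ω).pull (fst X X) x * oneT c) :=
    ⟨{ toFun := fun x => (W.toSPre Ω).pushF (snd X X) ((W.toSPre Ω).pull (fst X X) x * oneT c)
       map_add' := fun x y => by rw [map_add ((W.toSPre Ω).pull _), add_mul, map_add]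
       map_smul' := fun a x => by
        rw [map_smul ((W.toSPre Ω).pull _), smul_mul_assoc, map_smul, RingHom.id_apply] },
      fun x => rfl⟩
  have hTT : ∀ x, T' x = T x := by
    intro x
    refine eq_of_tr (P := W.toSPre Ω) fun y => ?_
    rw [hT', tr_pushF]
    exact (hT x y).symm
  refine ⟨T', fun μ => {l | l ∈ S μ ∧ ∃ w, SPre.IsWord (P := W.toSPre Ω) l w ∧ w ≠ 0},
    ⟨oneT c, hcA, hT'⟩, ?_, ?_, ?_, ?_, ?_, ?_⟩
  · rintro μ l ⟨hl, -⟩ a ha
    exact W.adm_of_admissible Ω hG ((h1 μ l hl).1 a ha).1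
  · rintro μ l ⟨hl, -⟩ a ha
    exact ((h1 μ l hl).1 a ha).2
  · rintro μ l ⟨hl, -⟩ w hw
    obtain ⟨N, hN⟩ := (h1 μ l hl).2 w ((W.isWord_iff Ω l w).mpr hw)
    rw [Module.End.mem_maxGenEigenspace]
    refine ⟨N, ?_⟩
    rw [Module.End.pow_apply]
    have h3 : ⇑(T' - μ • (1 : Module.End Ω ((W.toSPre Ω).H X))) = fun x => T x - μ • x := by
      funext x
      rw [LinearMap.sub_apply, LinearMap.smul_apply, Module.End.one_apply, hTT]
      rfl
    rw [h3]
    exact hN
  · rintro μ l ⟨-, hl⟩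
    exact hl
  · have hs : Submodule.span Ω {w : (W.toSPre Ω).H X | ∃ c, ∃ l ∈ S c, IsWordOf l w} = ⊤ := hspan
    rw [eq_top_iff, ← hs, Submodule.span_le]
    rintro w ⟨μ, l, hl, hw⟩
    by_cases h0 : w = 0
    · rw [h0]; exact Submodule.zero_mem _
    · exact Submodule.subset_span ⟨μ, l, ⟨hl, w, (W.isWord_iff Ω l w).mp hw, h0⟩,
        (W.isWord_iff Ω l w).mp hw⟩
  · intro μ l hl
    exact W.matched_of_matchedLists Ω (h2 μ l fun j => (hl j).1)

lemma ratStable_of_productsOf {n : ℕ} {σ : ℕ → (Ω ≃+* Ω)}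
    {G : Set (∀ X : SmProjVar k, W.HΩ Ω X → W.HΩ Ω X)} (hG : G ⊆ W.symmetries Ω) {M : ℕ}
    {X : SmProjVar k} (h : ProductsOf (W.RationalStableType Ω n σ G M) X) :
    RatStable (intStr W Ω) (fun g : G => W.symSPre Ω (hG g.2).choose_spec) n σ M X := by
  have : CharZero Ω := charZero_of_injective_algebraMap (algebraMap K Ω).injective
  induction h with
  | of h => exact W.ratStable_of_rationalStableType Ω hG h
  | prod _ _ h h' => exact h.prod h'

/-- **D is equivalent to the independence of cycles**, for varieties of rational stable type -/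
theorem standardD_iff_of_rationalStable [IsAlgClosed Ω] {n : ℕ} {σ : ℕ → (Ω ≃+* Ω)}
    {G : Set (∀ X : SmProjVar k, W.HΩ Ω X → W.HΩ Ω X)} (hG : G ⊆ W.symmetries Ω) {M : ℕ}
    {Y : SmProjVar k} (h : W.RationalStableRelativeType Ω n σ G M Y) :
    W.StandardD Y ↔ CyclesIndependent W.toCohomologyData Y := by
  have : CharZero Ω := charZero_of_injective_algebraMap (algebraMap K Ω).injective
  refine ⟨cyclesIndependent_of_standardD W, fun hI => ?_⟩
  obtain ⟨P, hP, rfl | ⟨V, hV, hV', rfl⟩⟩ := h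
  · have hpt : (W.toSPre Ω).DP (pt k) := fun n => W.d_of_standardD Ω
      (standardD_selfProd_of_dim_eq_zero W (pt k) rfl n)
    exact standardD_of_eq_zero (Ω := Ω) fun r hr hrad =>
      (W.ratStable_of_productsOf Ω hG hP).eq_zero hpt (indep_intA W Ω hI) hr hrad
  · refine standardD_of_eq_zero (Ω := Ω) fun r hr hrad => ?_
    by_cases hM : M = 1
    · subst hM
      exact (W.ratStable_of_productsOf Ω hG hP).ratNorm.eq_zero_rel (W.d_of_standardD Ω hV)
        (indep_intA W Ω hI) hr hrad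
    · exact (W.ratStable_of_productsOf Ω hG hP).eq_zero_rel
        (fun m => W.d_of_standardD Ω (hV' hM m)) (indep_intA W Ω hI) hr hrad

end WeilCohomology

end Pool.Agent.Helper10
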